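import Pool.Agent.Lib.MP_391708_nt.MR.Spec
import Pool.Agent.Lib.MP_5b6025_nt.Avg.DiffTest

/-!
# VDC: the `q`-th derivative test of van der Corput
-/

set_option autoImplicit false

namespace Pool.Agent.Lib.MP391708.MR
namespace VDC

open Finset
open Pool.Agent.Lib.MP_5b6025_nt (ee fd norm_ee ee_add ee_neg second_difference fd_shift_sub
  fd_shift_sub')
open scoped ComplexConjugate

/-- extension by zero -/
noncomputable def ext0 (M : ℕ) (x : ℕ → ℂ) (n : ℤ) : ℂ := if 0 ≤ n ∧ n < M then x n.toNat else 0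

lemma ext0_of_notMem {M : ℕ} {x : ℕ → ℂ} {n : ℤ} (h : n ∉ Ico (0 : ℤ) M) : ext0 M x n = 0 := by
  rw [Finset.mem_Ico] at h
  rw [ext0, if_neg h]

lemma norm_ext0_le {M : ℕ} {x : ℕ → ℂ} (hx : ∀ n, ‖x n‖ ≤ 1) (n : ℤ) : ‖ext0 M x n‖ ≤ 1 := by
  unfold ext0
  split_ifs
  · exact hx _
  · simp

lemma sum_int (M : ℕ) (g : ℤ → ℂ) : ∑ n ∈ Ico (0 : ℤ) M, g n = ∑ n ∈ range M, g n := by
  refine Finset.sum_nbij' Int.toNat (fun n => (n : ℤ)) ?_ ?_ ?_ ?_ ?_
  · intro a ha
    rw [Finset.mem_Ico] at ha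
    rw [Finset.mem_range]
    omega
  · intro a ha
    rw [Finset.mem_range] at ha
    rw [Finset.mem_Ico]
    omega
  · intro a ha
    rw [Finset.mem_Ico] at ha
    simp [ha.1]
  · intro a _
    simp
  · intro a ha
    rw [Finset.mem_Ico] at ha
    simp [ha.1]

lemma sum_ext0 (M : ℕ) (x : ℕ → ℂ) : ∑ n ∈ Ico (0 : ℤ) M, ext0 M x n = ∑ n ∈ range M, x n := by
  rw [sum_int]
  refine Finset.sum_congr rfl fun n hn => ?_
  rw [Finset.mem_range] at hn
  rw [ext0, if_pos ⟨by positivity, by exact_mod_cast hn⟩]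
  simp

lemma sum_shift {M H h : ℕ} (hh : h < H) {g : ℤ → ℂ} (hg : ∀ n, n ∉ Ico (0 : ℤ) M → g n = 0) :
    ∑ m ∈ Ico (0 : ℤ) ((M + H : ℕ) : ℤ), g (m - h) = ∑ n ∈ Ico (0 : ℤ) M, g n := by
  have h1 : ∑ m ∈ Ico (0 : ℤ) ((M + H : ℕ) : ℤ), g (m - h)
      = ∑ n ∈ Ico (-(h : ℤ)) ((M + H : ℕ) - h), g n := by
    refine Finset.sum_nbij' (fun m => m - h) (fun m => m + h) ?_ ?_ ?_ ?_ ?_
    · intro a ha
      rw [Finset.mem_Ico] at ha ⊢
      constructor <;> linarith
    · intro a ha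
      rw [Finset.mem_Ico] at ha ⊢
      constructor <;> linarith
    · intro a _; ring
    · intro a _; ring
    · intro a _; rfl
  rw [h1]
  symm
  apply Finset.sum_subset
  · intro n hn
    rw [Finset.mem_Ico] at hn ⊢
    push_cast
    constructor <;> omega
  · intro n _ hn
    exact hg n hn

/-- correlations -/
noncomputable def corr (M : ℕ) (x : ℕ → ℂ) (r : ℕ) : ℂ :=
  ∑ n ∈ range (M - r), x (n + r) * conj (x n)

lemma corr_ext0 {M : ℕ} {x : ℕ → ℂ} {r : ℕ} (hr : r ≤ M) :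
    ∑ n ∈ Ico (0 : ℤ) M, ext0 M x (n + r) * conj (ext0 M x n) = corr M x r := by
  rw [sum_int, corr]
  symm
  have hsub : range (M - r) ⊆ range M := Finset.range_mono (Nat.sub_le _ _)
  have h1 : ∀ n ∈ range (M - r), x (n + r) * conj (x n)
      = ext0 M x ((n : ℤ) + r) * conj (ext0 M x n) := by
    intro n hn
    rw [Finset.mem_range] at hn
    rw [ext0, ext0, if_pos ⟨by positivity, by omega⟩, if_pos ⟨by positivity, by omega⟩]
    have : ((n : ℤ) + r).toNat = n + r := by omega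
    rw [this]
    simp
  rw [Finset.sum_congr rfl h1]
  apply Finset.sum_subset hsub
  intro n hn hn'
  rw [Finset.mem_range] at hn hn'
  rw [ext0, if_neg (by omega), zero_mul]

lemma corr_shift {M H h h' : ℕ} (_hh : h < H) (hh' : h' < H) (hHM : H ≤ M) (hle : h ≤ h')
    (x : ℕ → ℂ) :
    ∑ m ∈ Ico (0 : ℤ) ((M + H : ℕ) : ℤ), ext0 M x (m - h) * conj (ext0 M x (m - h'))
      = corr M x (h' - h) := by
  rw [← corr_ext0 (M := M) (x := x) (r := h' - h) (by omega)]
  have h1 := sum_shift (M := M) (H := H) (h := h') hh'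
    (g := fun n => ext0 M x (n + ((h' - h : ℕ) : ℤ)) * conj (ext0 M x n)) (fun n hn => by
      rw [ext0_of_notMem hn, map_zero, mul_zero])
  rw [← h1]
  refine Finset.sum_congr rfl fun m _ => ?_
  have : m - (h' : ℤ) + ((h' - h : ℕ) : ℤ) = m - h := by omega
  rw [this]

lemma norm_corr_pair {M H h h' : ℕ} (hh : h < H) (hh' : h' < H) (hHM : H ≤ M) (x : ℕ → ℂ) :
    ‖∑ m ∈ Ico (0 : ℤ) ((M + H : ℕ) : ℤ), ext0 M x (m - h) * conj (ext0 M x (m - h'))‖
      = ‖corr M x (Nat.dist h h')‖ := by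
  rcases le_total h h' with hle | hle
  · rw [corr_shift hh hh' hHM hle, Nat.dist_eq_sub_of_le hle]
  · rw [Nat.dist_eq_sub_of_le_right hle, ← corr_shift hh' hh hHM hle]
    rw [← Complex.norm_conj, map_sum]
    congr 1
    refine Finset.sum_congr rfl fun m _ => ?_
    rw [map_mul, Complex.conj_conj, mul_comm]

lemma sum_dist_le {H h : ℕ} (hh : h < H) {F : ℕ → ℝ} (hF : ∀ r, 0 ≤ F r) :
    ∑ h' ∈ range H, F (Nat.dist h h') ≤ F 0 + 2 * ∑ r ∈ Ico 1 H, F r := by
  have e1 : ∑ h' ∈ range H, F (Nat.dist h h')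
      = ∑ h' ∈ (range H).filter (fun h' => h' < h), F (Nat.dist h h')
        + ∑ h' ∈ (range H).filter (fun h' => ¬ h' < h), F (Nat.dist h h') :=
    (Finset.sum_filter_add_sum_filter_not _ _ _).symm
  have e2 : ∑ h' ∈ (range H).filter (fun h' => h' < h), F (Nat.dist h h')
      ≤ ∑ r ∈ Ico 1 H, F r := by
    have : ∑ h' ∈ (range H).filter (fun h' => h' < h), F (Nat.dist h h')
        = ∑ r ∈ ((range H).filter (fun h' => h' < h)).image (fun h' => h - h'), F r := by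
      rw [Finset.sum_image]
      · refine Finset.sum_congr rfl fun h' hh' => ?_
        rw [Finset.mem_filter] at hh'
        rw [Nat.dist_eq_sub_of_le_right hh'.2.le]
      · intro a ha b hb hab
        simp only [Finset.coe_filter, Finset.mem_range, Set.mem_ofPred_eq] at ha hb
        simp only at hab
        omega
    rw [this]
    apply Finset.sum_le_sum_of_subset_of_nonneg
    · intro r hr
      rw [Finset.mem_image] at hr
      obtain ⟨a, ha, rfl⟩ := hr
      rw [Finset.mem_filter, Finset.mem_range] at ha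
      rw [Finset.mem_Ico]
      omega
    · intro i _ _; exact hF i
  have e3 : ∑ h' ∈ (range H).filter (fun h' => ¬ h' < h), F (Nat.dist h h')
      ≤ F 0 + ∑ r ∈ Ico 1 H, F r := by
    have : ∑ h' ∈ (range H).filter (fun h' => ¬ h' < h), F (Nat.dist h h')
        = ∑ r ∈ ((range H).filter (fun h' => ¬ h' < h)).image (fun h' => h' - h), F r := by
      rw [Finset.sum_image]
      · refine Finset.sum_congr rfl fun h' hh' => ?_
        rw [Finset.mem_filter, not_lt] at hh'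
        rw [Nat.dist_eq_sub_of_le hh'.2]
      · intro a ha b hb hab
        simp only [Finset.coe_filter, Finset.mem_range, Set.mem_ofPred_eq] at ha hb
        simp only at hab
        omega
    rw [this]
    have h4 : F 0 + ∑ r ∈ Ico 1 H, F r = ∑ r ∈ Ico 0 H, F r := by
      rw [← Finset.sum_eq_sum_Ico_succ_bot (by omega : 0 < H)]
    rw [h4]
    apply Finset.sum_le_sum_of_subset_of_nonneg
    · intro r hr
      rw [Finset.mem_image] at hr
      obtain ⟨a, ha, rfl⟩ := hr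
      rw [Finset.mem_filter, Finset.mem_range] at ha
      rw [Finset.mem_Ico]
      omega
    · intro i _ _; exact hF i
  rw [e1]
  linarith

/-- van der Corput's inequality -/
theorem vdc_ineq {x : ℕ → ℂ} {M H : ℕ} (hx : ∀ n, ‖x n‖ ≤ 1) (hH : 1 ≤ H) (hHM : H ≤ M) :
    ‖∑ n ∈ range M, x n‖ ^ 2 ≤
      2 * (M : ℝ) ^ 2 / H + 4 * M / H * ∑ r ∈ Ico 1 H, ‖corr M x r‖ := by
  set y := ext0 M x with hy
  set S := ∑ n ∈ range M, x n with hS
  set V : ℤ → ℂ := fun m => ∑ h ∈ range H, y (m - h) with hV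
  set A : Finset ℤ := Ico (0 : ℤ) ((M + H : ℕ) : ℤ) with hA
  have hcard : A.card = M + H := by rw [hA, Int.card_Ico]; omega
  have hsum : ∑ m ∈ A, V m = H * S := by
    rw [hV, Finset.sum_comm]
    have : ∀ h ∈ range H, ∑ m ∈ A, y (m - h) = S := by
      intro h hh
      rw [Finset.mem_range] at hh
      rw [hA, sum_shift hh (fun n hn => ext0_of_notMem hn), sum_ext0]
    rw [Finset.sum_congr rfl this, Finset.sum_const, card_range, nsmul_eq_mul]
  have hcs : ‖(H : ℂ) * S‖ ^ 2 ≤ (M + H) * ∑ m ∈ A, ‖V m‖ ^ 2 := by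
    rw [← hsum]
    have e2 : ‖∑ m ∈ A, V m‖ ≤ ∑ m ∈ A, ‖V m‖ := norm_sum_le _ _
    have e3 : (∑ m ∈ A, ‖V m‖) ^ 2 ≤ A.card * ∑ m ∈ A, ‖V m‖ ^ 2 := sq_sum_le_card_mul_sum_sq
    rw [hcard] at e3
    push_cast at e3
    calc _ ≤ (∑ m ∈ A, ‖V m‖) ^ 2 := by gcongr
      _ ≤ _ := e3
  have hms : ∑ m ∈ A, ‖V m‖ ^ 2 ≤ H * (M + 2 * ∑ r ∈ Ico 1 H, ‖corr M x r‖) := by
    have e2 : ∀ m, ((‖V m‖ ^ 2 : ℝ) : ℂ)
        = ∑ h ∈ range H, ∑ h' ∈ range H, y (m - h) * conj (y (m - h')) := by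
      intro m
      rw [← Complex.normSq_eq_norm_sq, ← Complex.mul_conj, hV]
      simp only
      rw [map_sum, Finset.sum_mul_sum]
    have e1 : ((∑ m ∈ A, ‖V m‖ ^ 2 : ℝ) : ℂ)
        = ∑ h ∈ range H, ∑ h' ∈ range H, ∑ m ∈ A, y (m - h) * conj (y (m - h')) := by
      rw [Complex.ofReal_sum, Finset.sum_congr rfl (fun m _ => e2 m), Finset.sum_comm]
      refine Finset.sum_congr rfl fun h _ => ?_
      rw [Finset.sum_comm]
    have e3 : ∑ m ∈ A, ‖V m‖ ^ 2 ≤
        ‖∑ h ∈ range H, ∑ h' ∈ range H, ∑ m ∈ A, y (m - h) * conj (y (m - h'))‖ := by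
      rw [← e1, Complex.norm_real]
      exact le_abs_self _
    refine e3.trans ?_
    calc ‖∑ h ∈ range H, ∑ h' ∈ range H, ∑ m ∈ A, y (m - h) * conj (y (m - h'))‖
        ≤ ∑ h ∈ range H, ∑ h' ∈ range H, ‖∑ m ∈ A, y (m - h) * conj (y (m - h'))‖ :=
          (norm_sum_le _ _).trans (Finset.sum_le_sum fun h _ => norm_sum_le _ _)
      _ = ∑ h ∈ range H, ∑ h' ∈ range H, ‖corr M x (Nat.dist h h')‖ := by
          refine Finset.sum_congr rfl fun h hh => Finset.sum_congr rfl fun h' hh' => ?_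
          rw [Finset.mem_range] at hh hh'
          exact norm_corr_pair hh hh' hHM x
      _ ≤ ∑ _h ∈ range H, (‖corr M x 0‖ + 2 * ∑ r ∈ Ico 1 H, ‖corr M x r‖) := by
          refine Finset.sum_le_sum fun h hh => ?_
          rw [Finset.mem_range] at hh
          exact sum_dist_le hh (F := fun r => ‖corr M x r‖) (fun r => norm_nonneg _)
      _ ≤ ∑ _h ∈ range H, ((M : ℝ) + 2 * ∑ r ∈ Ico 1 H, ‖corr M x r‖) := by
          refine Finset.sum_le_sum fun h hh => ?_
          have : ‖corr M x 0‖ ≤ M := by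
            rw [corr]
            calc _ ≤ ∑ n ∈ range (M - 0), ‖x (n + 0) * conj (x n)‖ := norm_sum_le _ _
              _ ≤ ∑ _n ∈ range (M - 0), (1 : ℝ) := by
                  refine Finset.sum_le_sum fun n _ => ?_
                  rw [norm_mul, Complex.norm_conj]
                  exact mul_le_one₀ (hx _) (norm_nonneg _) (hx _)
              _ = M := by simp
          linarith
      _ = _ := by rw [Finset.sum_const, card_range, nsmul_eq_mul]
  set Sc := ∑ r ∈ Ico 1 H, ‖corr M x r‖ with hSc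
  have hSc0 : 0 ≤ Sc := Finset.sum_nonneg fun _ _ => norm_nonneg _
  have hHpos : (0 : ℝ) < H := by exact_mod_cast hH
  have hHM' : (H : ℝ) ≤ M := by exact_mod_cast hHM
  rw [norm_mul, Complex.norm_natCast, mul_pow] at hcs
  have h5 : (H : ℝ) ^ 2 * ‖S‖ ^ 2 ≤ (2 * M) * (H * (M + 2 * Sc)) := by
    refine hcs.trans ?_
    apply mul_le_mul _ hms (Finset.sum_nonneg fun _ _ => by positivity) (by positivity)
    linarith
  have h6 : 2 * (M : ℝ) ^ 2 / H + 4 * M / H * Sc = (2 * M) * (H * (M + 2 * Sc)) / H ^ 2 := by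
    field_simp
    ring
  rw [h6, le_div_iff₀ (by positivity)]
  linarith

/-- the exponent `1/(2^q-2)` -/
noncomputable def ea (q : ℕ) : ℝ := 1 / ((2 : ℝ) ^ q - 2)

/-- the exponent `2/2^(q-1)` -/
noncomputable def eb (q : ℕ) : ℝ := 2 / (2 : ℝ) ^ (q - 1)

/-- the derivative test for finite differences -/
def Test (q : ℕ) (C : ℝ) : Prop := ∀ (M : ℕ) (f : ℕ → ℝ) (lam R : ℝ), 0 < lam → 1 ≤ R → 1 ≤ M →
  (∀ n, n + q < M → lam ≤ fd q f n ∧ fd q f n ≤ R * lam) →
  ‖∑ n ∈ range M, ee (f n)‖ ≤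
    C * R * ((M : ℝ) * lam ^ ea q + (M : ℝ) ^ (1 - eb q) * lam ^ (-ea q))

lemma trivial_bound (M : ℕ) (f : ℕ → ℝ) : ‖∑ n ∈ range M, ee (f n)‖ ≤ M := by
  calc _ ≤ ∑ n ∈ range M, ‖ee (f n)‖ := norm_sum_le _ _
    _ = M := by simp [norm_ee]

lemma two_pow_ge {q : ℕ} (hq : 2 ≤ q) : (4 : ℝ) ≤ 2 ^ q := by
  calc (4 : ℝ) = 2 ^ 2 := by norm_num
    _ ≤ 2 ^ q := pow_le_pow_right₀ (by norm_num) hq

lemma ea_pos {q : ℕ} (hq : 2 ≤ q) : 0 < ea q := by
  unfold ea
  have := two_pow_ge hq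
  apply div_pos one_pos
  linarith

lemma ea_le {q : ℕ} (hq : 2 ≤ q) : ea q ≤ 1 / 2 := by
  unfold ea
  have := two_pow_ge hq
  apply div_le_div_of_nonneg_left one_pos.le (by norm_num)
  linarith

lemma ea_rel {q : ℕ} (hq : 2 ≤ q) : ea q * (1 - 2 * ea (q + 1)) = 2 * ea (q + 1) := by
  unfold ea
  have := two_pow_ge hq
  have h1 : (2 : ℝ) ^ q - 2 ≠ 0 := by linarith
  have h2 : (2 : ℝ) ^ (q + 1) - 2 ≠ 0 := by rw [pow_succ]; linarith
  rw [pow_succ] at h2 ⊢
  have e : 1 - 2 * (1 / ((2 : ℝ) ^ q * 2 - 2)) =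
      ((2 : ℝ) ^ q - 2) * (2 * (1 / ((2 : ℝ) ^ q * 2 - 2))) := by
    generalize (2 : ℝ) ^ q = x at *
    have h3 : x - 1 ≠ 0 := by
      intro h
      apply h2
      linarith
    have h4 : x * 2 - 2 = 2 * (x - 1) := by ring
    rw [h4]
    field_simp
    ring
  rw [e, ← mul_assoc, one_div_mul_cancel h1, one_mul]

lemma eb_rel {q : ℕ} (hq : 2 ≤ q) : eb (q + 1) = eb q / 2 := by
  unfold eb
  have h1 : q + 1 - 1 = (q - 1) + 1 := by omega
  rw [h1, pow_succ]
  have : (2 : ℝ) ^ (q - 1) ≠ 0 := by positivity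
  field_simp

lemma eb_le {q : ℕ} (hq : 2 ≤ q) : eb q ≤ 1 := by
  unfold eb
  rw [div_le_one (by positivity)]
  calc (2 : ℝ) = 2 ^ 1 := by norm_num
    _ ≤ 2 ^ (q - 1) := pow_le_pow_right₀ (by norm_num) (by omega)

lemma eb_pos (q : ℕ) : 0 < eb q := by unfold eb; positivity

lemma test_two : Test 2 9 := by
  intro M f lam R hl hR hM hf
  have hM1 : (1 : ℝ) ≤ M := by exact_mod_cast hM
  have e1 : ea 2 = 1 / 2 := by unfold ea; norm_num
  have e2 : eb 2 = 1 := by unfold eb; norm_num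
  rw [e1, e2, sub_self, Real.rpow_zero, one_mul, Real.rpow_neg hl.le, ← Real.sqrt_eq_rpow]
  have hs : 0 < Real.sqrt lam := Real.sqrt_pos.2 hl
  rcases le_total 1 lam with h | h
  · have h1 : 1 ≤ Real.sqrt lam := Real.one_le_sqrt.2 h
    have h2 := trivial_bound M f
    have h3 : (0 : ℝ) < (Real.sqrt lam)⁻¹ := by positivity
    have h4 : (M : ℝ) ≤ M * Real.sqrt lam := by nlinarith
    have h5 : (M : ℝ) ≤ M * Real.sqrt lam + (Real.sqrt lam)⁻¹ := by linarith
    have h6 : (1 : ℝ) ≤ 9 * R := by linarith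
    calc ‖∑ n ∈ range M, ee (f n)‖ ≤ 1 * (M * Real.sqrt lam + (Real.sqrt lam)⁻¹) := by linarith
      _ ≤ _ := mul_le_mul_of_nonneg_right h6 (by positivity)
  · have h1 := second_difference hl hR hf
    have h2 : Real.sqrt lam ≤ 1 := Real.sqrt_le_one.2 h
    have h3 : Real.sqrt lam * Real.sqrt lam = lam := Real.mul_self_sqrt hl.le
    set s := Real.sqrt lam with hs'
    have h4 : 1 ≤ s⁻¹ := (one_le_inv₀ hs).2 h2
    have h5 : 3 / s + 1 ≤ 4 * s⁻¹ := by
      rw [div_eq_mul_inv]; linarith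
    have h6 : (R * lam * M + 2) * (3 / s + 1) ≤ (R * lam * M + 2) * (4 * s⁻¹) :=
      mul_le_mul_of_nonneg_left h5 (by positivity)
    have h7 : (R * lam * M + 2) * (4 * s⁻¹) = 4 * (R * (M * s)) + 8 * s⁻¹ := by
      rw [← h3]
      field_simp
      ring
    have h8 : 1 + (4 * (R * (M * s)) + 8 * s⁻¹) ≤ 9 * R * (M * s + s⁻¹) := by
      have h9 : 0 ≤ R * (M * s) := by positivity
      have h10 : s⁻¹ ≤ R * s⁻¹ := le_mul_of_one_le_left (by positivity) hR
      nlinarith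
    linarith

lemma sum_sqrt_le (H : ℕ) : ∑ r ∈ Ico 1 H, Real.sqrt (H / r) ≤ 2 * H := by
  have key : ∀ n : ℕ, ∑ r ∈ Ico 1 (n + 1), (Real.sqrt r)⁻¹ ≤ 2 * Real.sqrt n := by
    intro n
    induction n with
    | zero => simp
    | succ n ih =>
      rw [Finset.sum_Ico_succ_top (by omega)]
      have h1 : (0 : ℝ) < Real.sqrt ((n + 1 : ℕ) : ℝ) := Real.sqrt_pos.2 (by positivity)
      have h2 : Real.sqrt (n : ℝ) ≤ Real.sqrt ((n + 1 : ℕ) : ℝ) :=
        Real.sqrt_le_sqrt (by push_cast; linarith)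
      have h3 : Real.sqrt ((n + 1 : ℕ) : ℝ) ^ 2 = n + 1 := by
        rw [Real.sq_sqrt (by positivity)]; push_cast; ring
      have h4 : Real.sqrt (n : ℝ) ^ 2 = n := Real.sq_sqrt (by positivity)
      set a := Real.sqrt ((n + 1 : ℕ) : ℝ)
      set b := Real.sqrt (n : ℝ)
      have h5 : a⁻¹ ≤ 2 * (a - b) := by
        rw [inv_le_iff_one_le_mul₀ h1]
        nlinarith
      linarith
  rcases Nat.eq_zero_or_pos H with h | h
  · subst h; simp
  have h1 : ∀ r ∈ Ico 1 H, Real.sqrt (H / r) = Real.sqrt H * (Real.sqrt r)⁻¹ := by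
    intro r _
    rw [Real.sqrt_div' _ (by positivity), div_eq_mul_inv]
  rw [Finset.sum_congr rfl h1, ← Finset.mul_sum]
  have h2 : ∑ r ∈ Ico 1 H, (Real.sqrt r)⁻¹ ≤ 2 * Real.sqrt H := by
    refine le_trans ?_ (key H)
    apply Finset.sum_le_sum_of_subset_of_nonneg
    · exact Finset.Ico_subset_Ico_right (by omega)
    · intro i _ _; positivity
  have h3 : Real.sqrt (H : ℝ) * Real.sqrt H = H := Real.mul_self_sqrt (by positivity)
  calc _ ≤ Real.sqrt H * (2 * Real.sqrt H) := by gcongr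
    _ = 2 * (Real.sqrt H * Real.sqrt H) := by ring
    _ = _ := by rw [h3]

theorem test_succ {q : ℕ} (hq : 2 ≤ q) {C : ℝ} (hC : 1 ≤ C) (hT : Test q C) :
    Test (q + 1) (4 + 16 * C) := by
  intro M f lam R hl hR hM hf
  have hM1 : (1 : ℝ) ≤ M := by exact_mod_cast hM
  have hM0 : (0 : ℝ) < M := by linarith
  set a := ea (q + 1) with ha
  set al := ea q with hal
  set be := eb q with hbe
  have ha0 : 0 < a := ea_pos (by omega)
  have hal0 : 0 < al := ea_pos hq
  have hal1 : al ≤ 1 / 2 := ea_le hq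
  have hbe0 : 0 < be := eb_pos q
  have hbe1 : be ≤ 1 := eb_le hq
  have hrel : al * (1 - 2 * a) = 2 * a := ea_rel hq
  rw [eb_rel hq, ← hbe]
  set X : ℝ := (M : ℝ) * lam ^ a with hX
  set Y : ℝ := (M : ℝ) ^ (1 - be / 2) * lam ^ (-a) with hY
  have hX0 : 0 ≤ X := by positivity
  have hY0 : 0 ≤ Y := by positivity
  have hD : 1 ≤ (4 + 16 * C) * R := by nlinarith
  have htriv := trivial_bound M f
  have hfin : ∀ Z : ℝ, Z ≤ X + Y → Z ≤ (4 + 16 * C) * R * (X + Y) := by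
    intro Z hZ
    nlinarith
  rcases le_total 1 lam with h | h
  · apply hfin
    have h1 : 1 ≤ lam ^ a := Real.one_le_rpow h ha0.le
    have h2 : (M : ℝ) ≤ X := by rw [hX]; nlinarith
    linarith
  set H0 : ℝ := lam ^ (-(2 * a)) with hH0
  have hH01 : 1 ≤ H0 := Real.one_le_rpow_of_pos_of_le_one_of_nonpos hl h (by linarith)
  have hlam2a : lam ^ (2 * a) = H0⁻¹ := by rw [hH0, Real.rpow_neg hl.le, inv_inv]
  rcases lt_or_ge (M : ℝ) H0 with hMH | hMH
  · apply hfin
    have h1 : (M : ℝ) ^ ((1 : ℝ) / 2) ≤ (M : ℝ) ^ (1 - be / 2) :=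
      Real.rpow_le_rpow_of_exponent_le hM1 (by linarith)
    have h2 : (M : ℝ) ^ ((1 : ℝ) / 2) ≤ lam ^ (-a) := by
      have h3 : lam ^ (-a) = H0 ^ ((1 : ℝ) / 2) := by
        rw [hH0, ← Real.rpow_mul hl.le]; congr 1; ring
      rw [h3]
      exact Real.rpow_le_rpow hM0.le hMH.le (by norm_num)
    have h3 : (M : ℝ) = (M : ℝ) ^ ((1 : ℝ) / 2) * (M : ℝ) ^ ((1 : ℝ) / 2) := by
      rw [← Real.rpow_add hM0]; norm_num
    have h4 : (M : ℝ) ≤ Y := by
      calc (M : ℝ) = (M : ℝ) ^ ((1 : ℝ) / 2) * (M : ℝ) ^ ((1 : ℝ) / 2) := h3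
        _ ≤ Y := mul_le_mul h1 h2 (by positivity) (by positivity)
    linarith
  -- the main case
  set H : ℕ := ⌊H0⌋₊ with hH
  have hH1 : 1 ≤ H := Nat.le_floor (by exact_mod_cast hH01)
  have hHH0 : (H : ℝ) ≤ H0 := Nat.floor_le (by linarith)
  have hH0lt : H0 < H + 1 := Nat.lt_floor_add_one H0
  have hH1' : (1 : ℝ) ≤ H := by exact_mod_cast hH1
  have hHpos : (0 : ℝ) < H := by linarith
  have hH2 : H0 ≤ 2 * H := by linarith
  have hHM : H ≤ M := by
    have : (H : ℝ) ≤ M := hHH0.trans hMH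
    exact_mod_cast this
  have hx : ∀ n, ‖(fun n => ee (f n)) n‖ ≤ 1 := fun n => (norm_ee _).le
  have hvdc := vdc_ineq hx hH1 hHM
  -- powers
  have hpow1 : (H0 * lam) ^ al = lam ^ (2 * a) := by
    have h1 : H0 * lam = lam ^ (1 - 2 * a) := by
      rw [hH0, sub_eq_add_neg, Real.rpow_add hl, Real.rpow_one, mul_comm]
    rw [h1, ← Real.rpow_mul hl.le]
    congr 1
    linarith
  have hpow2 : (H * lam) ^ (-al) ≤ 2 * H0 := by
    have h1 : (H * lam) ^ (-al) ≤ (H0 * lam / 2) ^ (-al) := by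
      apply Real.rpow_le_rpow_of_nonpos (by positivity) _ (by linarith)
      nlinarith
    have h2 : (H0 * lam / 2) ^ (-al) = 2 ^ al * H0 := by
      rw [Real.div_rpow (by positivity) (by norm_num), Real.rpow_neg (by positivity), hpow1,
        hlam2a, inv_inv, Real.rpow_neg (by norm_num)]
      field_simp
    have h3 : (2 : ℝ) ^ al ≤ 2 := by
      calc (2 : ℝ) ^ al ≤ 2 ^ (1 : ℝ) := Real.rpow_le_rpow_of_exponent_le (by norm_num) (by linarith)
        _ = 2 := Real.rpow_one 2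
    calc _ ≤ _ := h1
      _ = _ := h2
      _ ≤ 2 * H0 := by gcongr
  -- correlations
  have hcorr : ∀ r ∈ Ico 1 H, ‖corr M (fun n => ee (f n)) r‖ ≤
      C * R * (M * lam ^ (2 * a) + (M : ℝ) ^ (1 - be) * (2 * H0) * Real.sqrt (H / r)) := by
    intro r hr
    rw [Finset.mem_Ico] at hr
    have hr1 : (1 : ℝ) ≤ r := by exact_mod_cast hr.1
    have hrH : (r : ℝ) ≤ H := by exact_mod_cast hr.2.le
    have hr0 : (0 : ℝ) < r := by linarith
    have e1 : corr M (fun n => ee (f n)) r = ∑ n ∈ range (M - r), ee (f (n + r) - f n) := by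
      rw [corr]
      refine Finset.sum_congr rfl fun n _ => ?_
      rw [sub_eq_add_neg, ee_add, ee_neg]
    have hcond : ∀ n, n + q < M - r → r * lam ≤ fd q (fun n => f (n + r) - f n) n ∧
        fd q (fun n => f (n + r) - f n) n ≤ R * (r * lam) := by
      intro n hn
      rw [fd_shift_sub']
      have hj : ∀ j ∈ range r, lam ≤ fd (q + 1) f (n + j) ∧ fd (q + 1) f (n + j) ≤ R * lam := by
        intro j hj
        rw [Finset.mem_range] at hj
        exact hf (n + j) (by omega)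
      constructor
      · calc r * lam = ∑ _j ∈ range r, lam := by rw [Finset.sum_const, card_range, nsmul_eq_mul]
          _ ≤ _ := Finset.sum_le_sum fun j hj' => (hj j hj').1
      · calc _ ≤ ∑ _j ∈ range r, R * lam := Finset.sum_le_sum fun j hj' => (hj j hj').2
          _ = R * (r * lam) := by
            rw [Finset.sum_const, card_range, nsmul_eq_mul]; ring
    have h1 := hT (M - r) (fun n => f (n + r) - f n) (r * lam) R (by positivity) hR (by omega) hcond
    rw [e1]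
    refine h1.trans ?_
    have hMr : ((M - r : ℕ) : ℝ) ≤ M := by exact_mod_cast Nat.sub_le _ _
    have h2 : (r * lam) ^ al ≤ lam ^ (2 * a) := by
      rw [← hpow1]
      apply Real.rpow_le_rpow (by positivity) _ hal0.le
      nlinarith
    have h3 : (r * lam) ^ (-al) ≤ (2 * H0) * Real.sqrt (H / r) := by
      have h4 : (r : ℝ) * lam = ((H : ℝ) / r)⁻¹ * (H * lam) := by field_simp
      rw [h4, Real.mul_rpow (by positivity) (by positivity), Real.inv_rpow (by positivity),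
        ← Real.rpow_neg (by positivity), neg_neg]
      have h5 : ((H : ℝ) / r) ^ al ≤ Real.sqrt (H / r) := by
        rw [Real.sqrt_eq_rpow]
        apply Real.rpow_le_rpow_of_exponent_le _ hal1
        rw [le_div_iff₀ hr0]; linarith
      calc _ ≤ Real.sqrt (H / r) * (2 * H0) := mul_le_mul h5 hpow2 (by positivity) (by positivity)
        _ = _ := by ring
    have h6 : ((M - r : ℕ) : ℝ) ^ (1 - be) ≤ (M : ℝ) ^ (1 - be) :=
      Real.rpow_le_rpow (by positivity) hMr (by linarith)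
    have h7 : (((M - r : ℕ) : ℝ)) * (r * lam) ^ al ≤ M * lam ^ (2 * a) := by gcongr
    have h8 : ((M - r : ℕ) : ℝ) ^ (1 - be) * (r * lam) ^ (-al) ≤
        (M : ℝ) ^ (1 - be) * ((2 * H0) * Real.sqrt (H / r)) := by gcongr
    have h9 : 0 ≤ C * R := by positivity
    apply mul_le_mul_of_nonneg_left _ h9
    linarith
  have hsumcorr : ∑ r ∈ Ico 1 H, ‖corr M (fun n => ee (f n)) r‖ ≤
      C * R * (H * (M * lam ^ (2 * a)) + (M : ℝ) ^ (1 - be) * (4 * H0) * H) := by
    calc _ ≤ ∑ r ∈ Ico 1 H,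
          C * R * (M * lam ^ (2 * a) + (M : ℝ) ^ (1 - be) * (2 * H0) * Real.sqrt (H / r)) :=
          Finset.sum_le_sum hcorr
      _ = C * R * (((Ico 1 H).card : ℝ) * (M * lam ^ (2 * a)) +
            (M : ℝ) ^ (1 - be) * (2 * H0) * ∑ r ∈ Ico 1 H, Real.sqrt (H / r)) := by
          rw [← Finset.mul_sum, Finset.sum_add_distrib, Finset.sum_const, nsmul_eq_mul,
            ← Finset.mul_sum]
      _ ≤ C * R * (H * (M * lam ^ (2 * a)) + (M : ℝ) ^ (1 - be) * (2 * H0) * (2 * H)) := by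
          have h1 : ((Ico 1 H).card : ℝ) ≤ H := by
            rw [Nat.card_Ico]; exact_mod_cast Nat.sub_le _ _
          have h2 := sum_sqrt_le H
          gcongr
      _ = _ := by ring
  -- conclusion
  have hinvH : 1 / (H : ℝ) ≤ 2 * lam ^ (2 * a) := by
    rw [hlam2a, div_le_iff₀ hHpos]
    have : 1 ≤ 2 * H0⁻¹ * H := by
      rw [mul_assoc, mul_comm, ← div_eq_inv_mul, div_mul_eq_mul_div, one_le_div (by linarith)]
      linarith
    exact this
  have hXX : X ^ 2 = (M : ℝ) ^ 2 * lam ^ (2 * a) := by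
    rw [hX, mul_pow, ← Real.rpow_natCast (lam ^ a) 2, ← Real.rpow_mul hl.le]
    congr 2
    push_cast; ring
  have hYY : Y ^ 2 = (M : ℝ) * (M : ℝ) ^ (1 - be) * H0 := by
    have h1 : (M : ℝ) * (M : ℝ) ^ (1 - be) = (M : ℝ) ^ (2 - be) := by
      nth_rw 1 [← Real.rpow_one (M : ℝ)]
      rw [← Real.rpow_add hM0]; congr 1; ring
    rw [h1, hY, mul_pow, ← Real.rpow_natCast ((M : ℝ) ^ (1 - be / 2)) 2, ← Real.rpow_mul hM0.le,
      ← Real.rpow_natCast (lam ^ (-a)) 2, ← Real.rpow_mul hl.le, hH0]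
    congr 2 <;> (push_cast; ring)
  have hfinal : ‖∑ n ∈ range M, ee (f n)‖ ^ 2 ≤ ((4 + 16 * C) * R) * (X ^ 2 + Y ^ 2) := by
    have h1 : 2 * (M : ℝ) ^ 2 / H ≤ 4 * X ^ 2 := by
      rw [hXX]
      have : 2 * (M : ℝ) ^ 2 / H = 2 * (M : ℝ) ^ 2 * (1 / H) := by ring
      rw [this]
      calc _ ≤ 2 * (M : ℝ) ^ 2 * (2 * lam ^ (2 * a)) := by gcongr
        _ = _ := by ring
    have h2 : 4 * (M : ℝ) / H * ∑ r ∈ Ico 1 H, ‖corr M (fun n => ee (f n)) r‖ ≤
        4 * C * R * X ^ 2 + 16 * C * R * Y ^ 2 := by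
      calc _ ≤ 4 * (M : ℝ) / H *
            (C * R * (H * (M * lam ^ (2 * a)) + (M : ℝ) ^ (1 - be) * (4 * H0) * H)) := by gcongr
        _ = 4 * C * R * X ^ 2 + 16 * C * R * Y ^ 2 := by
          rw [hXX, hYY]
          field_simp
          ring
    have h3 : 0 ≤ X ^ 2 := by positivity
    have h4 : 0 ≤ Y ^ 2 := by positivity
    have h5 : 4 * X ^ 2 ≤ 4 * R * X ^ 2 := by nlinarith
    have h6 : 0 ≤ C * R * X ^ 2 := by positivity
    have h7 : 0 ≤ R * Y ^ 2 := by positivity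
    calc _ ≤ _ := hvdc
      _ ≤ 4 * X ^ 2 + (4 * C * R * X ^ 2 + 16 * C * R * Y ^ 2) := add_le_add h1 h2
      _ ≤ _ := by nlinarith
  have h8 : ‖∑ n ∈ range M, ee (f n)‖ ^ 2 ≤ ((4 + 16 * C) * R * (X + Y)) ^ 2 := by
    refine hfinal.trans ?_
    have h9 : X ^ 2 + Y ^ 2 ≤ (X + Y) ^ 2 := by nlinarith [mul_nonneg hX0 hY0]
    have h10 : (4 + 16 * C) * R ≤ ((4 + 16 * C) * R) ^ 2 := by nlinarith
    calc _ ≤ ((4 + 16 * C) * R) ^ 2 * (X + Y) ^ 2 :=
          mul_le_mul h10 h9 (by positivity) (by positivity)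
      _ = _ := by ring
  exact (pow_le_pow_iff_left₀ (norm_nonneg _) (by positivity) two_ne_zero).1 h8

theorem exists_test (q : ℕ) (hq : 2 ≤ q) : ∃ C : ℝ, 1 ≤ C ∧ Test q C := by
  induction q, hq using Nat.le_induction with
  | base => exact ⟨9, by norm_num, test_two⟩
  | succ q hq ih =>
    obtain ⟨C, hC, hT⟩ := ih
    exact ⟨4 + 16 * C, by linarith, test_succ hq hC hT⟩

/-! ## from derivatives to differences -/

lemma iteratedDeriv_shift_sub {q : ℕ} {F : ℝ → ℝ} (hF : ContDiff ℝ q F) (t : ℝ) :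
    iteratedDeriv q (fun t => F (t + 1) - F t) t
      = iteratedDeriv q F (t + 1) - iteratedDeriv q F t := by
  have h1 : ContDiff ℝ q (fun t => F (t + 1)) := hF.comp (contDiff_id.add contDiff_const)
  have h2 : (fun t => F (t + 1) - F t) = (fun t => F (t + 1)) - F := rfl
  rw [h2, iteratedDeriv_sub h1.contDiffAt hF.contDiffAt, iteratedDeriv_comp_add_const]

lemma fd_mem {lb ub : ℝ} : ∀ (q : ℕ) (F : ℝ → ℝ) (L : ℝ), ContDiff ℝ q F →
    (∀ t ∈ Set.Icc (0 : ℝ) L, lb ≤ iteratedDeriv q F t ∧ iteratedDeriv q F t ≤ ub) →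
    ∀ n : ℕ, (n : ℝ) + q ≤ L → lb ≤ fd q (fun n => F n) n ∧ fd q (fun n => F n) n ≤ ub := by
  intro q
  induction q with
  | zero =>
    intro F L _ h n hn
    have := h n ⟨by positivity, by simpa using hn⟩
    rw [iteratedDeriv_zero] at this
    exact this
  | succ q ih =>
    intro F L hF h n hn
    have hFq : ContDiff ℝ q F := hF.of_le (by exact_mod_cast Nat.le_succ q)
    have hG : ContDiff ℝ q (fun t => F (t + 1) - F t) :=
      (hFq.comp (contDiff_id.add contDiff_const)).sub hFq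
    have hfd : fd (q + 1) (fun n => F n) n = fd q (fun n : ℕ => (fun t => F (t + 1) - F t) (n : ℝ)) n := by
      have h1 := fd_shift_sub q 1 (fun n => F n) n
      have h2 : (fun n : ℕ => (fun t => F (t + 1) - F t) (n : ℝ))
          = fun n : ℕ => (fun n : ℕ => F n) (n + 1) - (fun n : ℕ => F n) n := by
        ext m
        simp
      rw [h2, h1]
      rfl
    rw [hfd]
    refine ih _ (L - 1) hG ?_ n (by push_cast at hn; linarith)
    intro t ht
    rw [iteratedDeriv_shift_sub hFq]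
    have hd : Differentiable ℝ (iteratedDeriv q F) := by
      have := hF.differentiable_iteratedDeriv q (by exact_mod_cast Nat.lt_succ_self q)
      exact this
    obtain ⟨c, hc, hc'⟩ := exists_deriv_eq_slope (iteratedDeriv q F) (show t < t + 1 by linarith)
      hd.continuous.continuousOn hd.differentiableOn
    have h3 := h c ⟨by linarith [ht.1, hc.1], by linarith [ht.2, hc.2]⟩
    rw [iteratedDeriv_succ, hc'] at h3
    simp only [add_sub_cancel_left, div_one] at h3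
    exact h3

end VDC

open VDC Finset in
theorem specVDC : SpecVDC := by
  intro q hq
  obtain ⟨C, hC, hT⟩ := exists_test q hq
  refine ⟨C, by linarith, ?_⟩
  intro L lb R F hL hlb _ hR hF hcase
  have hee : ∀ t : ℝ, Complex.exp (2 * Real.pi * Complex.I * (t : ℂ))
      = Pool.Agent.Lib.MP_5b6025_nt.ee t := by
    intro t
    unfold Pool.Agent.Lib.MP_5b6025_nt.ee
    congr 1
    push_cast
    ring
  have hexp1 : (1 : ℝ) / (2 ^ q - 2) = ea q := rfl
  have hexp2 : -(1 : ℝ) / (2 ^ q - 2) = -ea q := by unfold ea; ring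
  have hexp3 : 1 - 2 / (2 : ℝ) ^ (q - 1) = 1 - eb q := rfl
  simp only [hee, hexp1, hexp2, hexp3]
  rcases hcase with h | h
  · apply hT L (fun n => F n) lb R hlb hR hL
    intro n hn
    apply fd_mem q F L hF h n
    exact_mod_cast hn.le
  · have hneg : ∀ n : ℕ, Pool.Agent.Lib.MP_5b6025_nt.ee (F n)
        = starRingEnd ℂ (Pool.Agent.Lib.MP_5b6025_nt.ee (-F n)) := by
      intro n
      rw [← Pool.Agent.Lib.MP_5b6025_nt.ee_neg, neg_neg]
    simp only [hneg]
    rw [← map_sum, Complex.norm_conj]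
    apply hT L (fun n => -F n) lb R hlb hR hL
    intro n hn
    apply fd_mem q (fun t => -F t) L hF.neg _ n (by exact_mod_cast hn.le)
    intro t ht
    have h1 : iteratedDeriv q (fun t => -F t) t = -iteratedDeriv q F t := by
      have := iteratedDeriv_neg q F t
      exact this
    rw [h1]
    exact h t ht

end Pool.Agent.Lib.MP391708.MR
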