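import Pool.Agent.Lib.MP_391708_nt.MR.Defs

/-!
# Exact statements of the modules of the Matomäki–Radziwiłł part

A module proves `theorem specXxx ... : SpecXxx` in its own file `MR/<Name>.lean`, possibly from
other `Spec`s (hypotheses).  Paper proofs: see the plan file in the team store.
-/

set_option autoImplicit false

namespace Pool.Agent.Lib.MP391708.MR

open Finset Filter Topology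
open scoped ComplexConjugate

/-! ## Elementary counting and the large sieve -/

/-- COUNT: lattice points in discs and residue classes. -/
def SpecCount : Prop := ∀ m : ℕ, 0 < m → ∃ C : ℝ, 0 < C ∧ ∀ (w : Gi) (Y : ℝ), 0 ≤ Y →
  |(((disc Y).filter (fun z => (m : ℤ) ∣ z.re - w.re ∧ (m : ℤ) ∣ z.im - w.im)).card : ℝ)
    - Real.pi * Y / (m : ℝ) ^ 2| ≤ C * (Real.sqrt Y + 1)

/-- LSG: the large sieve for directions. -/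
def SpecLSG : Prop := ∃ C : ℝ, 0 < C ∧ ∀ (S : Finset Gi) (a : Gi → ℂ) (Y : ℝ) (K : ℕ), 1 ≤ Y →
  (∀ z ∈ S, z ≠ 0 ∧ (nm z : ℝ) ≤ Y) →
    ∑ k ∈ IK K, ‖∑ z ∈ S, a z * xi k z‖ ^ 2 ≤
      C * (K + Y) * ∑ z ∈ S, ∑ z' ∈ S.filter (fun z' => par z z'), ‖a z‖ * ‖a z'‖

/-- TK: Turán–Kubilius in annuli. -/
def SpecTK : Prop := ∃ C : ℝ, 0 < C ∧ ∀ P Q Y Y' : ℝ, 1 ≤ P → P ≤ Q → 0 ≤ Y → Y ≤ Y' → 1 ≤ Y' →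
  ∑ z ∈ ann Y Y', ((om P Q z : ℝ) - WW P Q) ^ 2 ≤
    C * ((Y' - Y) * (WW P Q + 1) + Q ^ 2 * Real.sqrt Y')

/-- PG: prime sums. -/
def SpecPG : Prop :=
  (∀ T : ℝ, 0 < T → ∃ C : ℝ, ∀ P Q : ℝ, 3 ≤ P → P ≤ Q → ∀ t : ℝ, |t| ≤ T →
    ‖(∑ π ∈ GP P Q, ((nm π : ℕ) : ℂ) ^ (-1 - Complex.I * (t : ℂ)))
      - ((Real.log (1 / Real.log P + |t|) - Real.log (1 / Real.log Q + |t|) : ℝ) : ℂ)‖ ≤ C) ∧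
  (∃ C : ℝ, ∀ P Q : ℝ, 3 ≤ P → P ≤ Q →
    |WW P Q - (Real.log (Real.log Q) - Real.log (Real.log P))| ≤ C) ∧
  (∃ C : ℝ, 0 < C ∧ ∀ x : ℝ, 2 ≤ x → WW x (Real.exp 1 * x) ≤ C / Real.log x) ∧
  (∃ C : ℝ, 0 < C ∧ ∀ x : ℝ, 2 ≤ x → ((GP 0 x).card : ℝ) ≤ C * x / Real.log x)

/-! ## The ladder -/

/-- DEC (from LSG, TK, PG, COUNT): the decomposition at a stage. -/
def SpecDec : Prop := ∃ C : ℝ, 0 < C ∧ ∀ ψ : Gi → ℂ, Chi ψ → ∀ (h P Q X X' : ℝ) (K : ℕ),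
  1 ≤ h → 2 ≤ P → P ≤ Q → Q ^ 10 ≤ X → X ≤ X' → X' ≤ 4 * X → 1 ≤ WW P Q →
    ∑ k ∈ IK K, ‖MM ψ X X' k - (1 / (WW P Q : ℂ)) * ∑ v ∈ VV h P Q, QQ ψ h P Q v k *
        MM ψ (X * Real.exp (-(v / h))) (X' * Real.exp (-(v / h))) k‖ ^ 2 ≤
      C * (K + X) * X * (1 / WW P Q + 1 / h + X ^ (-(1 / 10) : ℝ))

/-- MOM (from LSG): moments. -/
def SpecMom : Prop := ∃ C : ℝ, 1 ≤ C ∧ ∀ (Y Z N : ℝ) (l K : ℕ) (E S : Finset Gi) (b a : Gi → ℂ),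
  C ≤ Y → Y ≤ Z → Z ≤ Real.exp 2 * Y → 1 ≤ N → E ⊆ GP Y Z → (∀ z, ‖b z‖ ≤ 1) →
  (∀ z, ‖a z‖ ≤ 1) → (∀ m ∈ S, prim m ∧ Z ^ l * nm m ≤ N) →
    ∑ k ∈ IK K, ‖(∑ π ∈ E, b π * xi k π) ^ l * ∑ m ∈ S, a m * xi k m‖ ^ 2 ≤
      C ^ (l + 1) * (l.factorial : ℝ) ^ 2 * (K + N) * N

/-- LAD: the parameters of the ladder (pure real analysis). Stage `j` uses the primes with
`a j < log p ≤ b j`, the exponent `al j` and the fineness `h j`. -/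
def SpecLad : Prop := ∀ c₁ C₀ ε : ℝ, 0 < c₁ → 1 ≤ C₀ → 0 < ε → ∃ H₀ : ℝ, 1 < H₀ ∧
  ∀ H : ℝ, H₀ ≤ H → ∃ a b al h : ℕ → ℝ, b 0 = Real.log H ∧
    (∀ j, C₀ ≤ a j ∧ a j ≤ b j ∧ b j ≤ b (j + 1)) ∧
    (∀ j, 0 < al j ∧ al j ≤ al (j + 1) ∧ al j ≤ 1 / 8) ∧ (∀ j, 1 ≤ h j) ∧
    (∀ j, C₀ + 1 ≤ Real.log (b j / a j)) ∧
    (∀ J : ℕ, ∑ j ∈ range J, C₀ * (1 / (Real.log (b j / a j) - C₀) + 1 / h j) ≤ ε) ∧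
    C₀ * (h 0 * b 0 + 2) ^ 2 * Real.exp (-2 * al 0 * (a 0 - 1)) ≤ ε ∧
    (∀ (j l : ℕ) (V V0 : ℝ), a (j + 1) - 1 ≤ V → V ≤ b (j + 1) → a j - 1 ≤ V0 → V0 ≤ b j →
      V ≤ l * V0 → l * V0 ≤ V + V0 →
      C₀ ^ (l + 1) * (l.factorial : ℝ) ^ 2 * Real.exp (2 * l) *
        Real.exp (-2 * (al (j + 1) - al j) * V + 2 * al j * V0) *
        ((h (j + 1) * b (j + 1) + 2) ^ 2 * (h j * b j + 2)) ≤ ε / 2 ^ (j + 1)) ∧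
    ∀ᶠ X : ℝ in atTop, ∃ J : ℕ, (∀ j ≤ J, 20 * b j ≤ Real.log X) ∧
      (J + 1) * C₀ * X ^ (-(1 / 10) : ℝ) ≤ ε ∧
      ∀ (l : ℕ) (V : ℝ), a J - 1 ≤ V → V ≤ b J → Real.log X ≤ l * V → l * V ≤ Real.log X + V →
        C₀ ^ (l + 1) * (l.factorial : ℝ) ^ 2 * Real.exp (2 * l) * Real.exp (2 * al J * l * V) *
          (h J * b J + 2) ≤ X ^ c₁

/-- LADDER (from DEC, MOM, LAD, LSG, PG, COUNT): outside a small set `U` of frequencies the sums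
are small in mean square. -/
def SpecLadder : Prop := ∀ ψ : Gi → ℂ, Chi ψ → ∀ c₁ η ε : ℝ, 0 < c₁ → 0 < η → η ≤ 1 → 0 < ε →
  ∃ H₀ : ℝ, ∀ H : ℝ, H₀ ≤ H → ∀ᶠ X : ℝ in atTop, ∃ U : Finset ℤ,
    (∀ k ∈ U, |(k : ℝ)| ≤ X) ∧ (U.card : ℝ) ≤ X ^ c₁ ∧
    ∑ k ∈ IK ⌊X / H⌋₊ \ U, ‖MM ψ X ((1 + η) ^ 2 * X) k‖ ^ 2 ≤ ε * X ^ 2

/-! ## Exponential sums and the top scale -/

/-- VDC: the `q`-th derivative test of van der Corput. -/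
def SpecVDC : Prop := ∀ q : ℕ, 2 ≤ q → ∃ C : ℝ, 0 < C ∧ ∀ (L : ℕ) (lb R : ℝ) (F : ℝ → ℝ),
  1 ≤ L → 0 < lb → lb ≤ 1 → 1 ≤ R → ContDiff ℝ q F →
  ((∀ t ∈ Set.Icc (0 : ℝ) L, lb ≤ iteratedDeriv q F t ∧ iteratedDeriv q F t ≤ R * lb) ∨
    (∀ t ∈ Set.Icc (0 : ℝ) L, lb ≤ -iteratedDeriv q F t ∧ -iteratedDeriv q F t ≤ R * lb)) →
    ‖∑ n ∈ range L, Complex.exp (2 * Real.pi * Complex.I * (F n : ℂ))‖ ≤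
      C * R * ((L : ℝ) * lb ^ ((1 : ℝ) / (2 ^ q - 2)) +
        (L : ℝ) ^ (1 - 2 / (2 : ℝ) ^ (q - 1)) * lb ^ (-(1 : ℝ) / (2 ^ q - 2)))

/-- TYPE (from VDC): sums of `(z/|z|)^k` over discs and residue classes, for `k` up to a power. -/
def SpecType : Prop := ∀ A : ℝ, 1 ≤ A → ∀ m : ℕ, 0 < m → ∃ c : ℝ, 0 < c ∧ c < 1 ∧
  ∀ᶠ x : ℝ in atTop, ∀ k : ℤ, k ≠ 0 → |(k : ℝ)| ≤ x ^ A → ∀ w : Gi,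
    ‖∑ z ∈ (disc x).filter (fun z => (m : ℤ) ∣ z.re - w.re ∧ (m : ℤ) ∣ z.im - w.im), xi k z‖ ≤
      x ^ (1 - c)

/-- UP (from TYPE, COUNT, TK, PG): Halász–Montgomery on sparse sets of frequencies. -/
def SpecUp : Prop := ∃ c₀ C d₀ : ℝ, 0 < c₀ ∧ 0 < C ∧ 0 < d₀ ∧ ∀ ψ : Gi → ℂ, Chi ψ →
  ∀ d : ℝ, 0 < d → d ≤ d₀ → ∀ᶠ X : ℝ in atTop, ∀ U : Finset ℤ, (∀ k ∈ U, |(k : ℝ)| ≤ X) →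
    (U.card : ℝ) ≤ X ^ c₀ →
    (∀ x : ℝ, Real.sqrt X ≤ x → x ≤ 4 * X → ∑ k ∈ U, ‖SS ψ k x‖ ^ 2 ≤ C * x ^ 2) ∧
    (∀ x x' : ℝ, Real.sqrt X ≤ x → x ≤ x' → x' ≤ 4 * X →
      ∑ k ∈ U, ‖SS ψ k x' - SS ψ k x‖ ^ 2 ≤ C * ((x' - x) ^ 2 + X ^ (-c₀) * x' ^ 2)) ∧
    (∀ x : ℝ, Real.sqrt X ≤ x → x ≤ 4 * X →
      ∑ k ∈ U, ‖SS ψ k x - (1 / (WW (X ^ (d ^ 2)) (X ^ d) : ℂ)) *
          ∑ π ∈ GP (X ^ (d ^ 2)) (X ^ d), ff ψ π * xi k π * SS ψ k (x / nm π)‖ ^ 2 ≤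
        C * x ^ 2 / WW (X ^ (d ^ 2)) (X ^ d))

/-- PLAN: discrete Plancherel (pure analysis). -/
def SpecPlan : Prop := ∀ c ε : ℝ, 0 < c → 0 < ε → ∃ T₀ τ₀ : ℝ, 0 < T₀ ∧ 0 < τ₀ ∧
  ∀ τ : ℝ, 0 < τ → τ ≤ τ₀ → ∃ ρ : ℝ, 0 < ρ ∧ ∃ N₀ : ℕ,
  ∀ (U : Finset ℤ) (F : ℤ → ℝ → ℂ) (E : Finset Gi) (w lg : Gi → ℝ) (g : ℤ → Gi → ℂ)
    (a Λ D : ℝ) (N : ℕ), N₀ ≤ N → 0 < D → 0 ≤ Λ → Λ ≤ ρ * N → E.Nonempty →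
    (∀ i ∈ E, 0 < w i ∧ 0 ≤ lg i ∧ lg i ≤ Λ) → (∀ k i, ‖g k i‖ ≤ 1) →
    (∀ y : ℝ, a - Λ - 1 ≤ y → y ≤ a + N * τ + 1 → ∑ k ∈ U, ‖F k y‖ ^ 2 ≤ D) →
    (∀ y y' : ℝ, a - Λ - 1 ≤ y → y ≤ y' → y' ≤ y + 1 → y' ≤ a + N * τ + 1 →
      ∑ k ∈ U, ‖F k y' - F k y‖ ^ 2 ≤ D * ((y' - y) ^ 2 + ρ)) →
    (∀ y : ℝ, a ≤ y → y ≤ a + N * τ →
      ∑ k ∈ U, ‖F k y - (1 / ((∑ i ∈ E, w i : ℝ) : ℂ)) *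
        ∑ i ∈ E, (w i : ℂ) * g k i * F k (y - lg i)‖ ^ 2 ≤ D * ρ) →
    (∀ k ∈ U, ∀ t : ℝ, |t| ≤ T₀ → c * (∑ i ∈ E, w i) ≤
      ‖((∑ i ∈ E, w i : ℝ) : ℂ) -
        ∑ i ∈ E, (w i : ℂ) * g k i * Complex.exp (-(Complex.I * t * lg i))‖) →
    ∑ n ∈ range N, ∑ k ∈ U, ‖F k (a + n * τ)‖ ^ 2 ≤ ε * D * N

/-- LANDAU: one-sided bound for the logarithmic derivative to the right of the zeros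
(Borel–Carathéodory after dividing out the zeros). -/
def SpecLandau : Prop := ∃ C : ℝ, 0 < C ∧ ∀ (f : ℂ → ℂ) (s₀ : ℂ) (r M x₀ : ℝ), 0 < r → 1 ≤ M →
  AnalyticOnNhd ℂ f (Metric.closedBall s₀ r) → f s₀ ≠ 0 →
  (∀ s ∈ Metric.closedBall s₀ r, ‖f s‖ ≤ M * ‖f s₀‖) →
  (∀ s ∈ Metric.closedBall s₀ r, f s = 0 → s.re ≤ x₀) →
  ∀ s ∈ Metric.closedBall s₀ (r / 8), x₀ < s.re →
    -(deriv f s / f s).re ≤ C * (1 + Real.log M) / r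

/-- OS (from LANDAU, PG): the one-sided bound for twisted prime sums. -/
def SpecOS : Prop := ∃ C : ℝ, ∀ T d : ℝ, 0 < T → 0 < d → d ≤ 1 / 2 →
  ∃ θ : ℝ, 0 < θ ∧ ∀ c : ℝ, 0 < c → c < 1 → ∀ᶠ X : ℝ in atTop, ∀ G : Gi → ℂ,
    G 1 = 1 → G ⟨0, 1⟩ = 1 →
    (∀ x y, G (x * y) = G x * G y) → (∀ z, ‖G z‖ ≤ 1) →
    (∀ x : ℝ, X ^ θ ≤ x → ‖∑ z ∈ disc x, G z‖ ≤ x ^ (1 - c)) →
    ∀ t : ℝ, |t| ≤ T →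
      (∑ π ∈ GP (X ^ (d ^ 2)) (X ^ d),
        G π * ((nm π : ℕ) : ℂ) ^ (-1 - Complex.I * (t : ℂ))).re ≤ C

/-- L1: real characters. -/
def SpecL1 : Prop := ∀ ψ : Gi → ℂ, Chi ψ → (∀ z, (ψ z).im = 0) → ψ ⟨0, 1⟩ = 1 →
  (∃ z, ψ z ≠ 0 ∧ ψ z ≠ 1) → ∃ C : ℝ, ∀ x : ℝ, |∑ π ∈ GP 2 x, (ψ π).re / (nm π : ℝ)| ≤ C

/-- LOWER (from TYPE, OS, L1, PG): the twisted sums `-λψξ_k` are not close to `-W`. -/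
def SpecLower : Prop := ∃ c : ℝ, 0 < c ∧ ∀ ψ : Gi → ℂ, Chi ψ → ∀ T : ℝ, 0 < T →
  ∃ d₁ : ℝ, 0 < d₁ ∧ ∀ d : ℝ, 0 < d → d ≤ d₁ → ∀ᶠ X : ℝ in atTop, ∀ k : ℤ, |(k : ℝ)| ≤ X →
    Adm ψ k → ∀ t : ℝ, |t| ≤ T →
      c * WW (X ^ (d ^ 2)) (X ^ d) ≤ ‖(WW (X ^ (d ^ 2)) (X ^ d) : ℂ) -
        ∑ π ∈ GP (X ^ (d ^ 2)) (X ^ d),
          ff ψ π * xi k π * ((nm π : ℕ) : ℂ) ^ (-1 - Complex.I * (t : ℂ))‖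

/-- TOP (from UP, PLAN, LOWER, PG): the sparse set of frequencies. -/
def SpecTop : Prop := ∀ ψ : Gi → ℂ, Chi ψ → ∃ c₁ : ℝ, 0 < c₁ ∧ ∀ ε : ℝ, 0 < ε →
  ∀ᶠ X : ℝ in atTop, ∀ U : Finset ℤ, (∀ k ∈ U, |(k : ℝ)| ≤ X) → (U.card : ℝ) ≤ X ^ c₁ →
    ∀ x : ℝ, X ≤ x → x ≤ 4 * X → ∑ k ∈ U, ‖SS ψ k x‖ ^ 2 ≤ ε * X ^ 2

/-! ## Conclusion -/

/-- MRK (from LADDER, TOP). -/
def SpecMRk : Prop := ∀ ψ : Gi → ℂ, Chi ψ → ∀ η ε : ℝ, 0 < η → η ≤ 1 → 0 < ε →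
  ∃ H₀ : ℝ, ∀ H : ℝ, H₀ ≤ H → ∀ᶠ X : ℝ in atTop,
    ∑ k ∈ IK ⌊X / H⌋₊, ‖MM ψ X ((1 + η) ^ 2 * X) k‖ ^ 2 ≤ ε * X ^ 2

/-- TRI (from MRK, LSG, COUNT): Fourier series of the tent function. -/
def SpecTri : Prop := ∀ ψ : Gi → ℂ, Chi ψ → ∀ η ε : ℝ, 0 < η → η ≤ 1 → 0 < ε →
  ∃ M₀ : ℝ, ∀ M : ℝ, M₀ ≤ M → ∀ᶠ X : ℝ in atTop,
    ‖∑ z ∈ (ann X ((1 + η) ^ 2 * X)).filter prim,
      ∑ z' ∈ (ann X ((1 + η) ^ 2 * X)).filter prim,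
        ff ψ z * conj (ff ψ z') * (tri (ang z z' * X / M) : ℂ)‖ ≤ ε * M * X

/-- PSD: the tent kernel is positive semidefinite (its Fourier coefficients are nonnegative). -/
def SpecPsd : Prop := ∀ (S : Finset Gi) (f : Gi → ℂ) (φ : ℝ), 0 < φ → φ ≤ Real.pi →
  (∀ z ∈ S, z ≠ 0) →
    0 ≤ (∑ z ∈ S, ∑ z' ∈ S, f z * conj (f z') * (tri (ang z z' / φ) : ℂ)).re

/-- MR (from TRI, PSD): the second moment of the Liouville function over thin sectors, in residue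
classes modulo `q`. -/
def SpecMR : Prop := ∀ q : ℕ, 0 < q → ∀ η ε : ℝ, 0 < η → η ≤ 1 → 0 < ε →
  ∃ M₀ : ℝ, ∀ M : ℝ, M₀ ≤ M → ∀ᶠ X : ℝ in atTop,
    ∑ z ∈ (ann X ((1 + η) ^ 2 * X)).filter prim,
      ∑ z' ∈ (ann X ((1 + η) ^ 2 * X)).filter
        (fun z' => prim z' ∧ (q : ℤ) ∣ z.re - z'.re ∧ (q : ℤ) ∣ z.im - z'.im),
        lam z * lam z' * tri (ang z z' * X / M) ≤ ε * M * X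

end Pool.Agent.Lib.MP391708.MR
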