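import Pool.Agent.Lib.MP_391708_nt.MR.Defs

/-!
# Basic lemmas
-/

set_option autoImplicit false

namespace Pool.Agent.Lib.MP391708.MR

open Finset Filter Topology
open scoped ComplexConjugate

/-! ## the norm -/

lemma nm_cast (z : Gi) : ((nm z : ℕ) : ℤ) = z.re ^ 2 + z.im ^ 2 := by
  unfold nm
  rw [Int.natCast_natAbs, abs_of_nonneg (by positivity)]

lemma nm_castR (z : Gi) : ((nm z : ℕ) : ℝ) = (z.re : ℝ) ^ 2 + (z.im : ℝ) ^ 2 := by
  have := nm_cast z
  have h2 : (((nm z : ℕ) : ℤ) : ℝ) = ((z.re ^ 2 + z.im ^ 2 : ℤ) : ℝ) := by rw [this]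
  push_cast at h2
  exact h2

lemma nm_mul (x y : Gi) : nm (x * y) = nm x * nm y := by
  have h : ((nm (x * y) : ℕ) : ℤ) = ((nm x * nm y : ℕ) : ℤ) := by
    push_cast
    rw [nm_cast, nm_cast, nm_cast, Zsqrtd.re_mul, Zsqrtd.im_mul]
    ring
  exact_mod_cast h

@[simp] lemma nm_zero : nm 0 = 0 := by simp [nm]

@[simp] lemma nm_one : nm 1 = 1 := by simp [nm]

lemma nm_I : nm ⟨0, 1⟩ = 1 := by simp [nm]

lemma nm_eq_zero {z : Gi} : nm z = 0 ↔ z = 0 := by
  constructor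
  · intro h
    have h1 := nm_cast z
    rw [h] at h1
    push_cast at h1
    have h2 : z.re = 0 := by nlinarith [sq_nonneg z.re, sq_nonneg z.im]
    have h3 : z.im = 0 := by nlinarith [sq_nonneg z.re, sq_nonneg z.im]
    exact Zsqrtd.ext h2 h3
  · rintro rfl; simp

lemma nm_pos {z : Gi} (h : z ≠ 0) : 0 < nm z := Nat.pos_of_ne_zero (fun h' => h (nm_eq_zero.1 h'))

lemma nm_posR {z : Gi} (h : z ≠ 0) : (0 : ℝ) < nm z := by exact_mod_cast nm_pos h

lemma one_le_nm {z : Gi} (h : z ≠ 0) : (1 : ℝ) ≤ nm z := by exact_mod_cast nm_pos h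

lemma nm_norm (z : Gi) : nm z = (Zsqrtd.norm z).natAbs := by
  unfold nm Zsqrtd.norm
  congr 1
  ring

lemma nm_toComplex (z : Gi) : ‖GaussianInt.toComplex z‖ ^ 2 = nm z := by
  rw [nm_castR, ← Complex.normSq_eq_norm_sq, Complex.normSq_apply, GaussianInt.toComplex_def]
  simp
  ring

lemma norm_toComplex (z : Gi) : ‖GaussianInt.toComplex z‖ = Real.sqrt (nm z) := by
  rw [← nm_toComplex, Real.sqrt_sq (norm_nonneg _)]

lemma nm_dvd {x y : Gi} (h : x ∣ y) : nm x ∣ nm y := by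
  obtain ⟨c, rfl⟩ := h
  rw [nm_mul]; exact dvd_mul_right _ _

/-! ## finite sets -/

lemma mem_disc {x : ℝ} {z : Gi} : z ∈ disc x ↔ z ≠ 0 ∧ (nm z : ℝ) ≤ x := by
  unfold disc
  rw [mem_filter, and_iff_right_of_imp]
  rintro ⟨h0, h⟩
  have hx : 0 ≤ x := le_trans (by positivity) h
  have hn : nm z ≤ ⌊x⌋₊ := (Nat.le_floor_iff hx).2 h
  have h1 := nm_cast z
  have hn' : ((nm z : ℕ) : ℤ) ≤ (⌊x⌋₊ : ℤ) := by exact_mod_cast hn
  have key : ∀ a : ℤ, a ^ 2 ≤ (⌊x⌋₊ : ℤ) → a ∈ Icc (-(⌊x⌋₊ : ℤ)) ⌊x⌋₊ := by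
    intro a ha
    rw [mem_Icc, ← abs_le]
    rcases (abs_nonneg a).lt_or_eq with h | h
    · have : |a| ≤ |a| ^ 2 := by nlinarith
      rw [sq_abs] at this
      exact this.trans ha
    · rw [← h]; positivity
  rw [mem_image]
  refine ⟨(z.re, z.im), mem_product.2 ⟨key _ ?_, key _ ?_⟩, rfl⟩
  · show z.re ^ 2 ≤ _
    nlinarith [sq_nonneg z.im]
  · show z.im ^ 2 ≤ _
    nlinarith [sq_nonneg z.re]

lemma mem_ann {x x' : ℝ} {z : Gi} : z ∈ ann x x' ↔ z ≠ 0 ∧ x < (nm z : ℝ) ∧ (nm z : ℝ) ≤ x' := by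
  unfold ann
  rw [mem_filter, mem_disc]
  tauto

lemma ann_subset_disc (x x' : ℝ) : ann x x' ⊆ disc x' := filter_subset _ _

lemma disc_subset {x x' : ℝ} (h : x ≤ x') : disc x ⊆ disc x' := fun z hz => by
  rw [mem_disc] at hz ⊢
  exact ⟨hz.1, hz.2.trans h⟩

lemma disc_empty {x : ℝ} (h : x < 1) : disc x = ∅ := by
  rw [eq_empty_iff_forall_notMem]
  intro z hz
  rw [mem_disc] at hz
  have := one_le_nm hz.1
  linarith [hz.2]

lemma disc_sdiff {x x' : ℝ} (h : x ≤ x') : disc x' \ disc x = ann x x' := by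
  ext z
  rw [Finset.mem_sdiff, mem_disc, mem_disc, mem_ann]
  push Not
  tauto

lemma disc_union {x x' : ℝ} (h : x ≤ x') : disc x' = disc x ∪ ann x x' := by
  rw [← disc_sdiff h, union_sdiff_of_subset (disc_subset h)]

lemma disc_disjoint (x x' : ℝ) : Disjoint (disc x) (ann x x') := by
  rw [disjoint_left]
  intro z h1 h2
  rw [mem_disc] at h1
  rw [mem_ann] at h2
  linarith [h1.2, h2.2.1]

lemma card_disc_le {x : ℝ} (hx : 0 ≤ x) : ((disc x).card : ℝ) ≤ 9 * x := by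
  rcases lt_or_ge x 1 with h | h
  · rw [disc_empty h]; simp; exact hx
  set n := ⌊Real.sqrt x⌋₊ with hn
  have hsub : disc x ⊆ ((Icc (-(n : ℤ)) n) ×ˢ (Icc (-(n : ℤ)) n)).image
      (fun p => (⟨p.1, p.2⟩ : Gi)) := by
    intro z hz
    rw [mem_disc] at hz
    have h1 := nm_castR z
    have key : ∀ a : ℤ, (a : ℝ) ^ 2 ≤ x → a ∈ Icc (-(n : ℤ)) n := by
      intro a ha
      rw [mem_Icc, ← abs_le]
      have h2 : |(a : ℝ)| ≤ Real.sqrt x := Real.abs_le_sqrt ha
      have h3 : ((a.natAbs : ℕ) : ℝ) ≤ Real.sqrt x := by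
        rw [Nat.cast_natAbs]; push_cast; exact h2
      have h4 : a.natAbs ≤ n := Nat.le_floor h3
      rw [Int.abs_eq_natAbs]
      exact_mod_cast h4
    rw [mem_image]
    refine ⟨(z.re, z.im), mem_product.2 ⟨key _ ?_, key _ ?_⟩, rfl⟩
    · show (z.re : ℝ) ^ 2 ≤ x
      nlinarith [sq_nonneg (z.im : ℝ), hz.2]
    · show (z.im : ℝ) ^ 2 ≤ x
      nlinarith [sq_nonneg (z.re : ℝ), hz.2]
  have hc := (card_le_card hsub).trans card_image_le
  rw [card_product, Int.card_Icc] at hc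
  have hn1 : (n : ℝ) ≤ Real.sqrt x := Nat.floor_le (Real.sqrt_nonneg _)
  have hn2 : 1 ≤ Real.sqrt x := by rw [Real.one_le_sqrt]; exact h
  have hc' : ((disc x).card : ℝ) ≤ (2 * n + 1) * (2 * n + 1) := by
    have : ((n : ℤ) + 1 - -(n : ℤ)).toNat = 2 * n + 1 := by omega
    rw [this] at hc
    exact_mod_cast hc
  have hs : Real.sqrt x * Real.sqrt x = x := Real.mul_self_sqrt hx
  nlinarith [Nat.cast_nonneg (α := ℝ) n]

/-! ## directions -/

lemma toComplex_ne_zero {z : Gi} (h : z ≠ 0) : GaussianInt.toComplex z ≠ 0 := by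
  rwa [Ne, GaussianInt.toComplex_eq_zero]

lemma norm_dir {z : Gi} (h : z ≠ 0) : ‖dir z‖ = 1 := by
  unfold dir
  rw [norm_div, Complex.norm_real, Real.norm_eq_abs, abs_of_nonneg (norm_nonneg _)]
  exact div_self (norm_ne_zero_iff.2 (toComplex_ne_zero h))

lemma dir_ne_zero {z : Gi} (h : z ≠ 0) : dir z ≠ 0 := by
  intro h'
  have := norm_dir h
  rw [h', norm_zero] at this
  exact zero_ne_one this

lemma dir_mul (x y : Gi) : dir (x * y) = dir x * dir y := by
  unfold dir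
  rw [map_mul, norm_mul]
  push_cast
  rw [mul_div_mul_comm]

lemma xi_mul (k : ℤ) (x y : Gi) : xi k (x * y) = xi k x * xi k y := by
  unfold xi
  rw [dir_mul, mul_zpow]

lemma norm_xi (k : ℤ) {z : Gi} (h : z ≠ 0) : ‖xi k z‖ = 1 := by
  unfold xi
  rw [norm_zpow, norm_dir h, one_zpow]

lemma xi_ne_zero (k : ℤ) {z : Gi} (h : z ≠ 0) : xi k z ≠ 0 := by
  intro h'
  have := norm_xi k h
  rw [h', norm_zero] at this
  exact zero_ne_one this

lemma xi_add (k l : ℤ) {z : Gi} (h : z ≠ 0) : xi (k + l) z = xi k z * xi l z := by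
  unfold xi
  rw [zpow_add₀ (dir_ne_zero h)]

lemma conj_xi (k : ℤ) {z : Gi} (h : z ≠ 0) : conj (xi k z) = xi (-k) z := by
  have h1 : xi k z * xi (-k) z = 1 := by
    rw [← xi_add k (-k) h]; simp [xi]
  have h2 : xi k z * conj (xi k z) = 1 := by
    rw [Complex.mul_conj, Complex.normSq_eq_norm_sq, norm_xi k h]; simp
  exact mul_left_cancel₀ (xi_ne_zero k h) (h2.trans h1.symm)

lemma xi_sub (k l : ℤ) {z : Gi} (h : z ≠ 0) : xi (k - l) z = xi k z * conj (xi l z) := by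
  rw [conj_xi l h, ← xi_add k (-l) h, sub_eq_add_neg]

lemma xi_one (k : ℤ) : xi k 1 = 1 := by
  unfold xi dir
  simp

lemma xi_I (k : ℤ) : xi k ⟨0, 1⟩ = Complex.I ^ k := by
  have h : GaussianInt.toComplex ⟨0, 1⟩ = Complex.I := by
    rw [GaussianInt.toComplex_def]; simp
  unfold xi dir
  rw [h]
  simp

lemma dir_eq_of_par {z z' : Gi} (h : par z z') : dir z = dir z' := by
  obtain ⟨h1, h2⟩ := h
  have hz : z ≠ 0 := by rintro rfl; simp at h2
  have hz' : z' ≠ 0 := by rintro rfl; simp at h2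
  have e1 : (z.re : ℝ) * z'.im - z.im * z'.re = 0 := by exact_mod_cast h1
  have e2 : (0 : ℝ) < z.re * z'.re + z.im * z'.im := by exact_mod_cast h2
  have h3 : GaussianInt.toComplex z * conj (GaussianInt.toComplex z') =
      (((z.re : ℝ) * z'.re + z.im * z'.im : ℝ) : ℂ) := by
    rw [GaussianInt.toComplex_def, GaussianInt.toComplex_def]
    apply Complex.ext
    · simp
    · simp only [Complex.mul_im, Complex.add_re, Complex.add_im, Complex.intCast_re,
        Complex.intCast_im, Complex.mul_re, Complex.I_re, Complex.I_im, Complex.conj_re,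
        Complex.conj_im, Complex.ofReal_im]
      linarith
  have h4 : dir z * conj (dir z') = 1 := by
    have h5 : dir z * conj (dir z') =
        (((z.re : ℝ) * z'.re + z.im * z'.im : ℝ) : ℂ) /
          ((‖GaussianInt.toComplex z‖ * ‖GaussianInt.toComplex z'‖ : ℝ) : ℂ) := by
      unfold dir
      rw [map_div₀, div_mul_div_comm, h3, Complex.conj_ofReal]
      push_cast
      rfl
    have h6 : ‖dir z * conj (dir z')‖ = 1 := by
      rw [norm_mul, RCLike.norm_conj, norm_dir hz, norm_dir hz', one_mul]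
    rw [h5] at h6 ⊢
    rw [← Complex.ofReal_div, Complex.norm_real, Real.norm_eq_abs, abs_of_pos] at h6
    · rw [← Complex.ofReal_div, h6]; simp
    · apply div_pos e2
      exact mul_pos (norm_pos_iff.2 (toComplex_ne_zero hz))
        (norm_pos_iff.2 (toComplex_ne_zero hz'))
  have h7 : dir z' * conj (dir z') = 1 := by
    rw [Complex.mul_conj, Complex.normSq_eq_norm_sq, norm_dir hz']; simp
  have h8 : conj (dir z') ≠ 0 := by
    intro h'
    rw [h', mul_zero] at h7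
    exact zero_ne_one h7
  exact mul_right_cancel₀ h8 (h4.trans h7.symm)

lemma xi_eq_of_par (k : ℤ) {z z' : Gi} (h : par z z') : xi k z = xi k z' := by
  unfold xi
  rw [dir_eq_of_par h]

/-! ## primitive vectors -/

lemma prim_ne_zero {z : Gi} (h : prim z) : z ≠ 0 := by
  rintro rfl
  unfold prim at h
  simp at h

/-- two primitive vectors with the same direction are equal -/
lemma eq_of_par_of_prim {z z' : Gi} (h : prim z) (h' : prim z') (hp : par z z') : z = z' := by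
  obtain ⟨h1, h2⟩ := hp
  unfold prim at h h'
  have hc : IsCoprime z.re z.im := Int.isCoprime_iff_gcd_eq_one.2 h
  have hc' : IsCoprime z'.re z'.im := Int.isCoprime_iff_gcd_eq_one.2 h'
  obtain ⟨a, b, hab⟩ := hc
  obtain ⟨a', b', hab'⟩ := hc'
  -- z' = t z with t = a z'.re + b z'.im
  set t := a * z'.re + b * z'.im with ht
  set t' := a' * z.re + b' * z.im with ht'
  have e1 : z'.re = t * z.re := by
    rw [ht]
    linear_combination (-z'.re) * hab - b * h1
  have e2 : z'.im = t * z.im := by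
    rw [ht]
    linear_combination (-z'.im) * hab + a * h1
  have e3 : z.re = t' * z'.re := by
    rw [ht']
    linear_combination (-z.re) * hab' + b' * h1
  have e4 : z.im = t' * z'.im := by
    rw [ht']
    linear_combination (-z.im) * hab' - a' * h1
  have e5 : t * t' = 1 := by
    have : (t * t') * (a * z.re + b * z.im) = a * z.re + b * z.im := by
      have x1 : t * t' * z.re = z.re := by
        calc t * t' * z.re = t' * (t * z.re) := by ring
          _ = z.re := by rw [← e1, ← e3]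
      have x2 : t * t' * z.im = z.im := by
        calc t * t' * z.im = t' * (t * z.im) := by ring
          _ = z.im := by rw [← e2, ← e4]
      linear_combination a * x1 + b * x2
    rw [hab, mul_one] at this
    exact this
  have e6 : 0 < t := by
    by_contra hneg
    push Not at hneg
    rw [e1, e2] at h2
    nlinarith [sq_nonneg z.re, sq_nonneg z.im,
      mul_nonneg (neg_nonneg.2 hneg) (add_nonneg (sq_nonneg z.re) (sq_nonneg z.im))]
  have e7 : t = 1 := by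
    rcases Int.isUnit_iff.1 (IsUnit.of_mul_eq_one _ e5) with h | h
    · exact h
    · omega
  rw [e7, one_mul] at e1 e2
  exact (Zsqrtd.ext e1 e2).symm

/-! ## the Liouville function -/

lemma lam_sq (z : Gi) : lam z ^ 2 = 1 := by
  unfold lam
  rw [← pow_mul, mul_comm, pow_mul]; simp

lemma lam_mul {x y : Gi} (hx : x ≠ 0) (hy : y ≠ 0) : lam (x * y) = lam x * lam y := by
  unfold lam
  rw [nm_mul, ArithmeticFunction.cardFactors_mul (nm_pos hx).ne' (nm_pos hy).ne', pow_add]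

lemma abs_lam (z : Gi) : |lam z| = 1 := by
  unfold lam
  rw [abs_pow, abs_neg, abs_one, one_pow]

lemma norm_lam (z : Gi) : ‖(lam z : ℂ)‖ = 1 := by
  rw [Complex.norm_real, Real.norm_eq_abs, abs_lam]

lemma lam_of_prime {z : Gi} (h : (nm z).Prime) : lam z = -1 := by
  unfold lam
  rw [ArithmeticFunction.cardFactors_apply_prime h]; simp

/-! ## units and split primes -/

lemma isUnit_iff_nm {z : Gi} : IsUnit z ↔ nm z = 1 := by
  rw [nm_norm]
  exact Zsqrtd.norm_eq_one_iff.symm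

lemma unit_cases {u : Gi} (h : nm u = 1) :
    u = 1 ∨ u = -1 ∨ u = ⟨0, 1⟩ ∨ u = ⟨0, -1⟩ := by
  have h1 := nm_cast u
  rw [h] at h1
  push_cast at h1
  have h2 : u.re ^ 2 ≤ 1 := by nlinarith [sq_nonneg u.im]
  have h3 : u.im ^ 2 ≤ 1 := by nlinarith [sq_nonneg u.re]
  have h4 : -1 ≤ u.re ∧ u.re ≤ 1 := by constructor <;> nlinarith
  have h5 : -1 ≤ u.im ∧ u.im ≤ 1 := by constructor <;> nlinarith
  obtain ⟨a, b⟩ := u
  simp only at h1 h4 h5
  have ha : a = -1 ∨ a = 0 ∨ a = 1 := by omega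
  have hb : b = -1 ∨ b = 0 ∨ b = 1 := by omega
  rcases ha with rfl | rfl | rfl <;> rcases hb with rfl | rfl | rfl
  · norm_num at h1
  · right; left; rfl
  · norm_num at h1
  · right; right; right; rfl
  · norm_num at h1
  · right; right; left; rfl
  · norm_num at h1
  · left; rfl
  · norm_num at h1

lemma prime_of_nm_prime {z : Gi} (h : (nm z).Prime) : Prime z := by
  apply Irreducible.prime
  refine ⟨fun hu => ?_, fun x y hxy => ?_⟩
  · rw [isUnit_iff_nm] at hu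
    rw [hu] at h
    exact Nat.not_prime_one h
  · rw [hxy, nm_mul] at h
    rcases Nat.prime_mul_iff.1 h with ⟨_, h1⟩ | ⟨_, h1⟩
    · right; exact isUnit_iff_nm.2 h1
    · left; exact isUnit_iff_nm.2 h1

lemma mem_GP {P Q : ℝ} {z : Gi} : z ∈ GP P Q ↔ 0 < z.re ∧ 0 < z.im ∧ (nm z).Prime ∧
    (nm z) % 4 = 1 ∧ P < (nm z : ℝ) ∧ (nm z : ℝ) ≤ Q := by
  unfold GP
  rw [mem_filter, mem_disc]
  constructor
  · rintro ⟨⟨_, h1⟩, h2, h3, h4, h5, h6⟩
    exact ⟨h2, h3, h4, h5, h6, h1⟩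
  · rintro ⟨h2, h3, h4, h5, h6, h1⟩
    refine ⟨⟨?_, h1⟩, h2, h3, h4, h5, h6⟩
    rintro rfl
    simp at h2

lemma GP_ne_zero {P Q : ℝ} {z : Gi} (h : z ∈ GP P Q) : z ≠ 0 := by
  rw [mem_GP] at h
  rintro rfl
  simp at h

lemma GP_prime {P Q : ℝ} {z : Gi} (h : z ∈ GP P Q) : Prime z :=
  prime_of_nm_prime (mem_GP.1 h).2.2.1

lemma lam_GP {P Q : ℝ} {z : Gi} (h : z ∈ GP P Q) : lam z = -1 :=
  lam_of_prime (mem_GP.1 h).2.2.1

/-- first quadrant representatives are unique -/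
lemma eq_of_quadrant {z z' u : Gi} (h1 : 0 < z.re) (h2 : 0 < z.im) (h1' : 0 < z'.re)
    (h2' : 0 < z'.im) (hu : nm u = 1) (h : z' = z * u) : z' = z := by
  rcases unit_cases hu with rfl | rfl | rfl | rfl
  · simpa using h
  · rw [h] at h1'; simp at h1'; omega
  · rw [h] at h1'; simp at h1'; omega
  · rw [h] at h2'; simp at h2'; omega

lemma GP_eq_of_dvd {P Q P' Q' : ℝ} {z z' : Gi} (h : z ∈ GP P Q) (h' : z' ∈ GP P' Q')
    (hd : z ∣ z') : z' = z := by
  obtain ⟨u, hu⟩ := hd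
  rw [mem_GP] at h h'
  have h1 : nm z * nm u = nm z' := by rw [hu, nm_mul]
  have h2 : nm u = 1 := by
    have h3 := (Nat.prime_mul_iff.1 (h1 ▸ h'.2.2.1))
    rcases h3 with ⟨_, h4⟩ | ⟨_, h4⟩
    · exact h4
    · exact absurd (h4 ▸ h.2.2.1) Nat.not_prime_one
  exact eq_of_quadrant h.1 h.2.1 h'.1 h'.2.1 h2 hu

lemma GP_coprime {P Q P' Q' : ℝ} {z z' : Gi} (h : z ∈ GP P Q) (h' : z' ∈ GP P' Q')
    (hne : z ≠ z') : IsCoprime z z' := by
  rw [Prime.coprime_iff_not_dvd (GP_prime h)]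
  intro hd
  exact hne (GP_eq_of_dvd h h' hd).symm

/-! ## characters -/

namespace Chi

variable {ψ : Gi → ℂ} (h : Chi ψ)
include h

lemma pow (x : Gi) (n : ℕ) : ψ (x ^ n) = ψ x ^ n := by
  induction n with
  | zero => simp [h.one]
  | succ n ih => rw [pow_succ, h.mul, ih, pow_succ]

lemma norm_eq_one {x : Gi} (hx : ψ x ≠ 0) : ‖ψ x‖ = 1 := by
  obtain ⟨m, hm, hp, hc⟩ := h.period
  have hcx := (hc x).1 hx
  -- some power of x is 1 modulo m
  have hfin : ∃ n : ℕ, 0 < n ∧ m ∣ x ^ n - 1 := by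
    haveI : NeZero (nm m) := ⟨(nm_pos hm).ne'⟩
    obtain ⟨n₁, n₂, hne, heq⟩ := Finite.exists_ne_map_eq_of_infinite
      (fun n : ℕ => (((x ^ n).re : ZMod (nm m)), ((x ^ n).im : ZMod (nm m))))
    wlog hlt : n₁ < n₂ generalizing n₁ n₂
    · exact this n₂ n₁ hne.symm heq.symm (lt_of_le_of_ne (not_lt.1 hlt) hne.symm)
    refine ⟨n₂ - n₁, Nat.sub_pos_of_lt hlt, ?_⟩
    have hmd : m ∣ x ^ n₂ - x ^ n₁ := by
      have e1 : ((nm m : ℕ) : ℤ) ∣ (x ^ n₂).re - (x ^ n₁).re := by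
        rw [← (ZMod.intCast_eq_intCast_iff_dvd_sub _ _ _)]
        exact (Prod.ext_iff.1 heq).1
      have e2 : ((nm m : ℕ) : ℤ) ∣ (x ^ n₂).im - (x ^ n₁).im := by
        rw [← (ZMod.intCast_eq_intCast_iff_dvd_sub _ _ _)]
        exact (Prod.ext_iff.1 heq).2
      obtain ⟨a, ha⟩ := e1
      obtain ⟨b, hb⟩ := e2
      have e3 : x ^ n₂ - x ^ n₁ = (m * star m) * ⟨a, b⟩ := by
        have e4 : m * star m = (⟨((nm m : ℕ) : ℤ), 0⟩ : Gi) := by
          rw [nm_cast]
          ext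
          · simp; ring
          · simp; ring
        rw [e4]
        ext
        · simp [ha]
        · simp [hb]
      rw [e3, mul_assoc]
      exact dvd_mul_right _ _
    have hfac : x ^ n₂ - x ^ n₁ = x ^ n₁ * (x ^ (n₂ - n₁) - 1) := by
      rw [mul_sub, mul_one, ← pow_add, Nat.add_sub_cancel' hlt.le]
    rw [hfac] at hmd
    exact (IsCoprime.pow_right hcx.symm).dvd_of_dvd_mul_left hmd
  obtain ⟨n, hn, c, hc'⟩ := hfin
  have h1 : ψ x ^ n = 1 := by
    rw [← h.pow, ← h.one, ← hp 1 c]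
    congr 1
    linear_combination hc'
  have h2 : ‖ψ x‖ ^ n = 1 := by rw [← norm_pow, h1, norm_one]
  exact (pow_eq_one_iff_of_nonneg (norm_nonneg _) hn.ne').1 h2

lemma norm_le_one (x : Gi) : ‖ψ x‖ ≤ 1 := by
  by_cases hx : ψ x = 0
  · rw [hx]; simp
  · rw [h.norm_eq_one hx]

lemma norm_ff_le (x : Gi) : ‖ff ψ x‖ ≤ 1 := by
  unfold ff
  rw [norm_mul, norm_lam, one_mul]
  exact h.norm_le_one x

lemma ff_mul {x y : Gi} (hx : x ≠ 0) (hy : y ≠ 0) : ff ψ (x * y) = ff ψ x * ff ψ y := by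
  unfold ff
  rw [lam_mul hx hy, h.mul]
  push_cast
  ring

end Chi

/-! ## relations between the sums -/

lemma MM_eq (ψ : Gi → ℂ) {x x' : ℝ} (h : x ≤ x') (k : ℤ) :
    MM ψ x x' k = SS ψ k x' - SS ψ k x := by
  unfold MM SS
  rw [disc_union h, filter_union, sum_union]
  · ring
  · exact Finset.disjoint_filter_filter (disc_disjoint x x')

end Pool.Agent.Lib.MP391708.MR
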