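import Pool.Agent.Lib.MP_391708_nt.MR.Spec
import Pool.Agent.Lib.MP_391708_nt.MR.Basic

/-!
# Lower bound for the twisted sums
-/

set_option autoImplicit false

namespace Pool.Agent.Lib.MP391708.MR

open Finset Filter Topology

namespace Lower

/-! ## elementary facts -/

lemma cpow_eq {n : ℕ} (hn : 0 < n) (t : ℝ) : ((n : ℕ) : ℂ) ^ (-1 - Complex.I * (t : ℂ)) =
    ((1 / n : ℝ) : ℂ) * Complex.exp (((-(t * Real.log n) : ℝ) : ℂ) * Complex.I) := by
  have hn' : ((n : ℕ) : ℂ) ≠ 0 := by exact_mod_cast hn.ne'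
  have hnR : (0 : ℝ) < n := by exact_mod_cast hn
  rw [Complex.cpow_def_of_ne_zero hn', ← Complex.natCast_log]
  have e1 : (1 / n : ℝ) = Real.exp (-Real.log n) := by
    rw [Real.exp_neg, Real.exp_log hnR, one_div]
  rw [e1, Complex.ofReal_exp, ← Complex.exp_add]
  congr 1
  push_cast
  ring

lemma norm_expI (x : ℝ) : ‖Complex.exp ((x : ℂ) * Complex.I)‖ = 1 := Complex.norm_exp_ofReal_mul_I x

lemma unit_ineq {z : ℂ} (hz : ‖z‖ = 1) : 1 - (z ^ 2).re ≤ 4 * (1 + z.re) := by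
  have h1 : z.re ^ 2 + z.im ^ 2 = 1 := by
    have := Complex.sq_norm z
    rw [hz, Complex.normSq_apply] at this
    nlinarith
  have h2 : (z ^ 2).re = z.re ^ 2 - z.im ^ 2 := by
    rw [sq, Complex.mul_re]; ring
  have h3 : z.re ≤ 1 := by
    have := Complex.re_le_norm z
    rwa [hz] at this
  have h4 : -1 ≤ z.re := by
    have := Complex.abs_re_le_norm z
    rw [hz] at this
    exact (abs_le.1 this).1
  rw [h2]
  nlinarith

lemma key1 (S : Finset Gi) (w : Gi → ℝ) (z : Gi → ℂ) (hw : ∀ π ∈ S, 0 ≤ w π)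
    (hz : ∀ π ∈ S, ‖z π‖ = 1) :
    ∑ π ∈ S, w π - ∑ π ∈ S, w π * ((z π) ^ 2).re ≤
      4 * ‖((∑ π ∈ S, w π : ℝ) : ℂ) + ∑ π ∈ S, (w π : ℂ) * z π‖ := by
  have h1 : (((∑ π ∈ S, w π : ℝ) : ℂ) + ∑ π ∈ S, (w π : ℂ) * z π).re =
      ∑ π ∈ S, w π * (1 + (z π).re) := by
    rw [Complex.add_re, Complex.ofReal_re, Complex.re_sum, ← sum_add_distrib]
    refine sum_congr rfl fun π _ => ?_
    rw [Complex.re_ofReal_mul]
    ring
  have h2 := Complex.re_le_norm (((∑ π ∈ S, w π : ℝ) : ℂ) + ∑ π ∈ S, (w π : ℂ) * z π)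
  rw [h1] at h2
  calc ∑ π ∈ S, w π - ∑ π ∈ S, w π * ((z π) ^ 2).re
      = ∑ π ∈ S, w π * (1 - ((z π) ^ 2).re) := by
        rw [← sum_sub_distrib]
        exact sum_congr rfl fun π _ => by ring
    _ ≤ ∑ π ∈ S, w π * (4 * (1 + (z π).re)) :=
        sum_le_sum fun π hπ => mul_le_mul_of_nonneg_left (unit_ineq (hz π hπ)) (hw π hπ)
    _ = 4 * ∑ π ∈ S, w π * (1 + (z π).re) := by
        rw [mul_sum]
        exact sum_congr rfl fun π _ => by ring
    _ ≤ _ := by linarith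

lemma xi_two_mul (k : ℤ) {z : Gi} (h : z ≠ 0) : xi (2 * k) z = xi k z ^ 2 := by
  rw [two_mul, xi_add k k h, sq]

lemma norm_xi_le (k : ℤ) (z : Gi) : ‖xi k z‖ ≤ 1 := by
  by_cases h : z = 0
  · subst h
    unfold xi dir
    rw [map_zero, zero_div]
    by_cases hk : k = 0
    · subst hk; simp
    · rw [zero_zpow k hk]; simp
  · rw [norm_xi k h]

lemma chi_sq {ψ : Gi → ℂ} (h : Chi ψ) : Chi (fun z => ψ z ^ 2) := by
  obtain ⟨m, hm, hp, hc⟩ := h.period
  refine ⟨by simp [h.one], fun x y => by simp only [h.mul]; ring, m, hm,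
    fun x y => by simp only [hp], fun x => ?_⟩
  rw [← hc]
  simp

lemma chi_ne_zero {ψ : Gi → ℂ} {m : Gi} (hm : m ≠ 0)
    (hc : ∀ x, ψ x ≠ 0 ↔ IsCoprime x m) {P Q : ℝ} (hP : (nm m : ℝ) ≤ P) {π : Gi}
    (hπ : π ∈ GP P Q) : ψ π ≠ 0 := by
  rw [hc, Prime.coprime_iff_not_dvd (GP_prime hπ)]
  intro hd
  have h1 := Nat.le_of_dvd (nm_pos hm) (nm_dvd hd)
  have h2 := (mem_GP.1 hπ).2.2.2.2.1
  have h3 : (nm π : ℝ) ≤ nm m := by exact_mod_cast h1
  linarith

/-- the quantity in the statement in terms of unit vectors -/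
lemma expr_eq {ψ : Gi → ℂ} (k : ℤ) (t : ℝ) (P Q : ℝ) :
    (WW P Q : ℂ) - ∑ π ∈ GP P Q, ff ψ π * xi k π * ((nm π : ℕ) : ℂ) ^ (-1 - Complex.I * (t : ℂ)) =
    ((∑ π ∈ GP P Q, 1 / (nm π : ℝ) : ℝ) : ℂ) + ∑ π ∈ GP P Q, ((1 / (nm π : ℝ) : ℝ) : ℂ) *
      (ψ π * xi k π * Complex.exp (((-(t * Real.log (nm π)) : ℝ) : ℂ) * Complex.I)) := by
  rw [sub_eq_add_neg, ← sum_neg_distrib]
  congr 1
  refine sum_congr rfl fun π hπ => ?_
  rw [cpow_eq (nm_pos (GP_ne_zero hπ)), ff, lam_GP hπ]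
  push_cast
  ring

/-! ## periodic functions -/

lemma sum_periodic (f g : Gi → ℂ) (m : ℕ) (hm : 0 < m)
    (hf : ∀ x y : Gi, f (x + (m : Gi) * y) = f x) (D : Finset Gi) :
    ∑ z ∈ D, f z * g z = ∑ p ∈ range m ×ˢ range m, f ⟨p.1, p.2⟩ *
      ∑ z ∈ D.filter (fun z => (m : ℤ) ∣ z.re - (⟨p.1, p.2⟩ : Gi).re ∧
        (m : ℤ) ∣ z.im - (⟨p.1, p.2⟩ : Gi).im), g z := by
  have hm' : (0 : ℤ) < m := by exact_mod_cast hm
  let c : Gi → ℕ × ℕ := fun z => ((z.re % m).toNat, (z.im % m).toNat)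
  have hc : ∀ z ∈ D, c z ∈ range m ×ˢ range m := by
    intro z _
    rw [mem_product, mem_range, mem_range]
    have h1 := Int.emod_nonneg z.re hm'.ne'
    have h2 := Int.emod_lt_of_pos z.re hm'
    have h3 := Int.emod_nonneg z.im hm'.ne'
    have h4 := Int.emod_lt_of_pos z.im hm'
    constructor <;> simp only [c] <;> omega
  rw [← sum_fiberwise_of_maps_to hc]
  refine sum_congr rfl fun p hp => ?_
  rw [mem_product, mem_range, mem_range] at hp
  rw [mul_sum]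
  have hset : D.filter (fun z => c z = p) = D.filter (fun z => (m : ℤ) ∣ z.re - (⟨p.1, p.2⟩ : Gi).re ∧
        (m : ℤ) ∣ z.im - (⟨p.1, p.2⟩ : Gi).im) := by
    refine filter_congr fun z _ => ?_
    have h1 := Int.emod_nonneg z.re hm'.ne'
    have h2 := Int.emod_lt_of_pos z.re hm'
    have h3 := Int.emod_nonneg z.im hm'.ne'
    have h4 := Int.emod_lt_of_pos z.im hm'
    have e1 : ((p.1 : ℤ) % m) = p.1 := Int.emod_eq_of_lt (by positivity) (by exact_mod_cast hp.1)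
    have e2 : ((p.2 : ℤ) % m) = p.2 := Int.emod_eq_of_lt (by positivity) (by exact_mod_cast hp.2)
    have k1 : (m : ℤ) ∣ z.re - (p.1 : ℤ) ↔ z.re % m = p.1 := by
      rw [← Int.emod_eq_emod_iff_emod_sub_eq_zero.trans (Int.dvd_iff_emod_eq_zero).symm, e1]
    have k2 : (m : ℤ) ∣ z.im - (p.2 : ℤ) ↔ z.im % m = p.2 := by
      rw [← Int.emod_eq_emod_iff_emod_sub_eq_zero.trans (Int.dvd_iff_emod_eq_zero).symm, e2]
    show c z = p ↔ ((m : ℤ) ∣ z.re - (p.1 : ℤ)) ∧ ((m : ℤ) ∣ z.im - (p.2 : ℤ))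
    rw [k1, k2, Prod.ext_iff]
    simp only [c]
    constructor
    · rintro ⟨a, b⟩; constructor <;> omega
    · rintro ⟨a, b⟩; constructor <;> omega
  rw [hset]
  refine sum_congr rfl fun z hz => ?_
  rw [mem_filter] at hz
  obtain ⟨_, ⟨a, ha⟩, ⟨b, hb⟩⟩ := hz
  have : z = ⟨p.1, p.2⟩ + (m : Gi) * ⟨a, b⟩ := by
    ext
    · simp at ha ⊢; linarith
    · simp at hb ⊢; linarith
  rw [this, hf]

/-- a nonprincipal character has mean zero -/
lemma sum_zero {ψ : Gi → ℂ} (hψ : Chi ψ) {m₀ : Gi} (hm : m₀ ≠ 0)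
    (hp : ∀ x y, ψ (x + m₀ * y) = ψ x) (hc : ∀ x, ψ x ≠ 0 ↔ IsCoprime x m₀)
    (hn : ∃ z, ψ z ≠ 0 ∧ ψ z ≠ 1) :
    ∑ p ∈ range (nm m₀) ×ˢ range (nm m₀), ψ ⟨p.1, p.2⟩ = 0 := by
  classical
  set m := nm m₀ with hmdef
  have hmpos : 0 < m := nm_pos hm
  have : NeZero m := ⟨hmpos.ne'⟩
  have hdvd : m₀ ∣ (m : Gi) := by
    refine ⟨star m₀, ?_⟩
    have h1 := nm_cast m₀
    ext
    · rw [Zsqrtd.re_natCast, Zsqrtd.re_mul, Zsqrtd.re_star, Zsqrtd.im_star, hmdef, h1]; ring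
    · rw [Zsqrtd.im_natCast, Zsqrtd.im_mul, Zsqrtd.re_star, Zsqrtd.im_star]; ring
  -- the quotient
  let I := Ideal.span {m₀}
  have hmk : ∀ x y : Gi, Ideal.Quotient.mk I x = Ideal.Quotient.mk I y → ψ x = ψ y := by
    intro x y hxy
    rw [Ideal.Quotient.eq, Ideal.mem_span_singleton] at hxy
    obtain ⟨c, hc'⟩ := hxy
    have : x = y + m₀ * c := by rw [← hc']; ring
    rw [this, hp]
  let F : Gi ⧸ I → ℂ := fun r => ψ (Quotient.out r)
  have hF : ∀ x : Gi, F (Ideal.Quotient.mk I x) = ψ x := by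
    intro x
    apply hmk
    exact Ideal.Quotient.mk_out _
  have hm0 : (Ideal.Quotient.mk I) (m : Gi) = 0 := by
    rw [Ideal.Quotient.eq_zero_iff_mem, Ideal.mem_span_singleton]
    exact hdvd
  -- the map from pairs of residues
  let φ₁ : ZMod m →+ Gi ⧸ I := ZMod.lift m ⟨Int.castAddHom (Gi ⧸ I), by
    have : ((m : ℤ) : Gi ⧸ I) = (Ideal.Quotient.mk I) (m : Gi) := by simp
    show ((m : ℤ) : Gi ⧸ I) = 0
    rw [this, hm0]⟩
  let φ : ZMod m × ZMod m →+ Gi ⧸ I :=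
    { toFun := fun p => φ₁ p.1 + (Ideal.Quotient.mk I ⟨0, 1⟩) * φ₁ p.2
      map_zero' := by simp
      map_add' := fun p q => by simp [map_add]; ring }
  have hφ : ∀ a b : ℤ, φ ((a : ZMod m), (b : ZMod m)) = Ideal.Quotient.mk I ⟨a, b⟩ := by
    intro a b
    have e1 : ∀ c : ℤ, φ₁ (c : ZMod m) = Ideal.Quotient.mk I (c : Gi) := by
      intro c
      show ZMod.lift m _ (c : ZMod m) = _
      rw [ZMod.lift_coe]
      simp
    show φ₁ (a : ZMod m) + (Ideal.Quotient.mk I ⟨0, 1⟩) * φ₁ (b : ZMod m) = _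
    rw [e1, e1, ← map_mul, ← map_add]
    congr 1
    ext <;> simp
  have hsurj : Function.Surjective φ := by
    intro r
    obtain ⟨x, rfl⟩ := Ideal.Quotient.mk_surjective r
    exact ⟨((x.re : ZMod m), (x.im : ZMod m)), by rw [hφ]⟩
  have : Finite (Gi ⧸ I) := Finite.of_surjective φ hsurj
  have : Fintype (Gi ⧸ I) := Fintype.ofFinite _
  -- box sum
  have h1 : ∑ p ∈ range m ×ˢ range m, ψ ⟨p.1, p.2⟩ = ∑ q : ZMod m × ZMod m, F (φ q) := by
    refine sum_nbij' (fun p => ((p.1 : ZMod m), (p.2 : ZMod m))) (fun q => (q.1.val, q.2.val))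
      ?_ ?_ ?_ ?_ ?_
    · intro p _; exact mem_univ _
    · intro q _
      rw [mem_product, mem_range, mem_range]
      exact ⟨ZMod.val_lt _, ZMod.val_lt _⟩
    · rintro ⟨a, b⟩ hp'
      rw [mem_product, mem_range, mem_range] at hp'
      simp only [Prod.mk.injEq]
      exact ⟨ZMod.val_cast_of_lt hp'.1, ZMod.val_cast_of_lt hp'.2⟩
    · rintro ⟨a, b⟩ _
      simp
    · rintro ⟨a, b⟩ _
      have := hφ a b
      simp only [Int.cast_natCast] at this
      rw [this, hF]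
  have h2 : ∃ K : ℕ, ∀ r : Gi ⧸ I, (univ.filter (fun q => φ q = r)).card = K := by
    refine ⟨(univ.filter (fun q => φ q = 0)).card, fun r => ?_⟩
    exact AddMonoidHom.card_fiber_eq_of_mem_range φ (hsurj r) (hsurj 0)
  obtain ⟨K, hK⟩ := h2
  have h3 : ∑ q : ZMod m × ZMod m, F (φ q) = K * ∑ r : Gi ⧸ I, F r := by
    rw [← sum_fiberwise (s := univ) (g := φ), mul_sum]
    refine sum_congr rfl fun r _ => ?_
    rw [sum_congr rfl (g := fun _ => F r) (fun q hq => by rw [(mem_filter.1 hq).2]), sum_const,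
      hK, nsmul_eq_mul]
  obtain ⟨z₀, hz1, hz2⟩ := hn
  have hu : IsUnit (Ideal.Quotient.mk I z₀) := by
    obtain ⟨a, b, hab⟩ := (hc z₀).1 hz1
    refine IsUnit.of_mul_eq_one (Ideal.Quotient.mk I a) ?_
    have hm1 : Ideal.Quotient.mk I m₀ = 0 := by
      rw [Ideal.Quotient.eq_zero_iff_mem]
      exact Ideal.mem_span_singleton_self _
    have := congrArg (Ideal.Quotient.mk I) hab
    rw [map_add, map_mul, map_mul, hm1, mul_zero, add_zero, map_one] at this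
    rw [mul_comm]; exact this
  obtain ⟨u, hu'⟩ := hu
  have h4 : ∑ r : Gi ⧸ I, F r = ψ z₀ * ∑ r : Gi ⧸ I, F r := by
    have e1 := Equiv.sum_comp (Units.mulLeft u) F
    have e2 : ∀ r : Gi ⧸ I, F (Units.mulLeft u r) = ψ z₀ * F r := by
      intro r
      obtain ⟨x, rfl⟩ := Ideal.Quotient.mk_surjective r
      have e3 : Units.mulLeft u (Ideal.Quotient.mk I x) = Ideal.Quotient.mk I (z₀ * x) := by
        show (u : Gi ⧸ I) * _ = _
        rw [hu', map_mul]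
      rw [e3, hF, hF, hψ.mul]
    rw [sum_congr rfl (fun r _ => e2 r), ← mul_sum] at e1
    exact e1.symm
  have h5 : ∑ r : Gi ⧸ I, F r = 0 := by
    have h6 : (1 - ψ z₀) * ∑ r : Gi ⧸ I, F r = 0 := by
      rw [sub_mul, one_mul, ← h4, sub_self]
    rcases mul_eq_zero.1 h6 with h7 | h7
    · exact absurd (sub_eq_zero.1 h7).symm hz2
    · exact h7
  rw [h1, h3, h5, mul_zero]

/-! ## sums over discs -/

lemma periodic_nat {ψ : Gi → ℂ} {m₀ : Gi} (hp : ∀ x y, ψ (x + m₀ * y) = ψ x) :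
    ∀ x y : Gi, ψ (x + ((nm m₀ : ℕ) : Gi) * y) = ψ x := by
  have hdvd : m₀ ∣ ((nm m₀ : ℕ) : Gi) := by
    refine ⟨star m₀, ?_⟩
    have h1 := nm_cast m₀
    ext
    · rw [Zsqrtd.re_natCast, Zsqrtd.re_mul, Zsqrtd.re_star, Zsqrtd.im_star, h1]; ring
    · rw [Zsqrtd.im_natCast, Zsqrtd.im_mul, Zsqrtd.re_star, Zsqrtd.im_star]; ring
  intro x y
  obtain ⟨c, hc⟩ := hdvd
  rw [hc, mul_assoc, hp]

lemma sumG (hT : SpecType) (hC : SpecCount) {ψ : Gi → ℂ} (hψ : Chi ψ) (θ : ℝ) (hθ : 0 < θ) :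
    ∃ c : ℝ, 0 < c ∧ c < 1 ∧ ∀ᶠ X : ℝ in atTop, ∀ k : ℤ, |(k : ℝ)| ≤ X →
      (k ≠ 0 ∨ ∃ z, ψ z ^ 2 ≠ 0 ∧ ψ z ^ 2 ≠ 1) → ∀ x : ℝ, X ^ θ ≤ x →
        ‖∑ z ∈ disc x, ψ z ^ 2 * xi (2 * k) z‖ ≤ x ^ (1 - c) := by
  obtain ⟨m₀, hm0, hper, hcop⟩ := hψ.period
  set m := nm m₀ with hm
  have hmpos : 0 < m := nm_pos hm0
  have hA : (1 : ℝ) ≤ 2 / θ + 2 := by
    have : 0 < 2 / θ := by positivity
    linarith
  obtain ⟨c₁, hc1, hc1', hty⟩ := hT (2 / θ + 2) hA m hmpos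
  obtain ⟨C, hC0, hcnt⟩ := hC m hmpos
  obtain ⟨c, hc, hcc1, hc4⟩ : ∃ c : ℝ, 0 < c ∧ c < c₁ ∧ c < 1 / 2 := by
    refine ⟨min c₁ (1 / 2) / 2, by positivity, ?_, ?_⟩
    · have := min_le_left c₁ (1 / 2); linarith
    · have := min_le_right c₁ (1 / 2); linarith
  refine ⟨c, hc, by linarith, ?_⟩
  -- conditions for large x
  have hx1 : ∀ᶠ x : ℝ in atTop, (m : ℝ) ^ 2 * x ^ (1 - c₁) ≤ x ^ (1 - c) := by
    have h1 : ∀ᶠ x : ℝ in atTop, (m : ℝ) ^ 2 ≤ x ^ (c₁ - c) :=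
      (tendsto_rpow_atTop (by linarith)).eventually_ge_atTop _
    filter_upwards [h1, eventually_gt_atTop 0] with x h1 h2
    have : x ^ (1 - c) = x ^ (c₁ - c) * x ^ (1 - c₁) := by
      rw [← Real.rpow_add h2]; congr 1; ring
    rw [this]
    exact mul_le_mul_of_nonneg_right h1 (Real.rpow_nonneg h2.le _)
  have hx2 : ∀ᶠ x : ℝ in atTop, (m : ℝ) ^ 2 * (C * (Real.sqrt x + 1)) ≤ x ^ (1 - c) := by
    have h1 : ∀ᶠ x : ℝ in atTop, (m : ℝ) ^ 2 * (C * 2) ≤ x ^ (1 / 2 - c) :=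
      (tendsto_rpow_atTop (by linarith)).eventually_ge_atTop _
    filter_upwards [h1, eventually_ge_atTop 1] with x h1 h2
    have h3 : 1 ≤ Real.sqrt x := by rw [Real.one_le_sqrt]; exact h2
    have h0 : (0 : ℝ) < x := by linarith
    have : x ^ (1 - c) = x ^ (1 / 2 - c) * Real.sqrt x := by
      rw [Real.sqrt_eq_rpow, ← Real.rpow_add h0]; congr 1; ring
    rw [this]
    calc (m : ℝ) ^ 2 * (C * (Real.sqrt x + 1)) ≤ (m : ℝ) ^ 2 * (C * (Real.sqrt x + Real.sqrt x)) := by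
          gcongr
      _ = (m : ℝ) ^ 2 * (C * 2) * Real.sqrt x := by ring
      _ ≤ _ := mul_le_mul_of_nonneg_right h1 (Real.sqrt_nonneg _)
  obtain ⟨x₀, hx₀⟩ := eventually_atTop.1 (hty.and (hx1.and (hx2.and (eventually_ge_atTop (1 : ℝ)))))
  have hX1 : ∀ᶠ X : ℝ in atTop, x₀ ≤ X ^ θ := (tendsto_rpow_atTop hθ).eventually_ge_atTop _
  filter_upwards [hX1, eventually_ge_atTop 2] with X hX1 hX2 k hk hcase x hx
  obtain ⟨hty', hx1', hx2', hxx⟩ := hx₀ x (hX1.trans hx)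
  have hX0 : (0 : ℝ) < X := by linarith
  have hx0 : (0 : ℝ) < x := by linarith
  have hpsi : ∀ x, ‖ψ x ^ 2‖ ≤ 1 := fun x => by
    rw [norm_pow]
    exact pow_le_one₀ (norm_nonneg _) (hψ.norm_le_one x)
  have hper2 : ∀ x y : Gi, ψ (x + (m : Gi) * y) ^ 2 = ψ x ^ 2 := fun x y => by
    rw [periodic_nat hper]
  rw [sum_periodic (fun z => ψ z ^ 2) (fun z => xi (2 * k) z) m hmpos hper2 (disc x)]
  have hcardR : ((range m ×ˢ range m).card : ℝ) = (m : ℝ) ^ 2 := by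
    rw [card_product, card_range]; push_cast; ring
  by_cases hk0 : k = 0
  · subst hk0
    obtain ⟨z, hz1, hz2⟩ : ∃ z, ψ z ^ 2 ≠ 0 ∧ ψ z ^ 2 ≠ 1 := by
      rcases hcase with h | h
      · exact absurd rfl h
      · exact h
    have hz := sum_zero (ψ := fun z => ψ z ^ 2) (chi_sq hψ) hm0
      (fun x y => by simp only [hper]) (fun x => by rw [← hcop]; simp) ⟨z, hz1, hz2⟩
    rw [← hm] at hz
    have e1 : ∀ p ∈ range m ×ˢ range m, ψ ⟨p.1, p.2⟩ ^ 2 *
        ∑ z ∈ (disc x).filter (fun z => (m : ℤ) ∣ z.re - (⟨p.1, p.2⟩ : Gi).re ∧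
        (m : ℤ) ∣ z.im - (⟨p.1, p.2⟩ : Gi).im), xi (2 * 0) z =
        ψ ⟨p.1, p.2⟩ ^ 2 * ((((disc x).filter (fun z => (m : ℤ) ∣ z.re - (⟨p.1, p.2⟩ : Gi).re ∧
        (m : ℤ) ∣ z.im - (⟨p.1, p.2⟩ : Gi).im)).card : ℝ) - Real.pi * x / (m : ℝ) ^ 2 : ℝ) +
        ψ ⟨p.1, p.2⟩ ^ 2 * ((Real.pi * x / (m : ℝ) ^ 2 : ℝ) : ℂ) := by
      intro p _
      have : ∀ z : Gi, xi (2 * 0) z = 1 := fun z => by simp [xi]
      simp only [this, sum_const, nsmul_eq_mul, mul_one]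
      push_cast
      ring
    rw [sum_congr rfl e1, sum_add_distrib, ← sum_mul, hz, zero_mul, add_zero]
    refine (norm_sum_le _ _).trans ?_
    refine le_trans ?_ hx2'
    rw [show ∀ y : ℝ, (m : ℝ) ^ 2 * y = (range m ×ˢ range m).card • y from fun y => by
      rw [nsmul_eq_mul, hcardR]]
    refine sum_le_card_nsmul _ _ _ fun p _ => ?_
    rw [norm_mul, Complex.norm_real, Real.norm_eq_abs]
    calc ‖ψ ⟨p.1, p.2⟩ ^ 2‖ * _ ≤ 1 * (C * (Real.sqrt x + 1)) :=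
          mul_le_mul (hpsi _) (hcnt _ x hx0.le) (abs_nonneg _) zero_le_one
      _ = _ := one_mul _
  · refine (norm_sum_le _ _).trans ?_
    refine le_trans ?_ hx1'
    rw [show ∀ y : ℝ, (m : ℝ) ^ 2 * y = (range m ×ˢ range m).card • y from fun y => by
      rw [nsmul_eq_mul, hcardR]]
    refine sum_le_card_nsmul _ _ _ fun p _ => ?_
    rw [norm_mul]
    have h2k : |((2 * k : ℤ) : ℝ)| ≤ x ^ (2 / θ + 2) := by
      push_cast
      rw [abs_mul, abs_two]
      have h1 : (X ^ θ) ^ (2 / θ + 2) ≤ x ^ (2 / θ + 2) :=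
        Real.rpow_le_rpow (Real.rpow_nonneg hX0.le _) hx (by linarith)
      have h2 : (X ^ θ) ^ (2 / θ + 2) = X ^ (2 + 2 * θ) := by
        rw [← Real.rpow_mul hX0.le]; congr 1; field_simp
      have h3 : X ^ (2 : ℝ) ≤ X ^ (2 + 2 * θ) :=
        Real.rpow_le_rpow_of_exponent_le (by linarith) (by linarith)
      have h4 : 2 * X ≤ X ^ (2 : ℝ) := by
        rw [Real.rpow_two]; nlinarith
      linarith [h1, h2 ▸ h1]
    calc ‖ψ ⟨p.1, p.2⟩ ^ 2‖ * _ ≤ 1 * x ^ (1 - c₁) :=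
          mul_le_mul (hpsi _) (hty' (2 * k) (by omega) h2k _) (norm_nonneg _) zero_le_one
      _ = _ := one_mul _

/-! ## the first case -/

lemma caseA (hT : SpecType) (hC : SpecCount) (hO : SpecOS) : ∃ C : ℝ, ∀ ψ : Gi → ℂ, Chi ψ →
    ∀ T : ℝ, 0 < T → ∀ d : ℝ, 0 < d → d ≤ 1 / 2 → ∀ᶠ X : ℝ in atTop, ∀ k : ℤ, |(k : ℝ)| ≤ X →
    Adm ψ k → (k ≠ 0 ∨ ∃ z, ψ z ^ 2 ≠ 0 ∧ ψ z ^ 2 ≠ 1) → ∀ t : ℝ, |t| ≤ T →
      WW (X ^ (d ^ 2)) (X ^ d) - C ≤ 4 * ‖(WW (X ^ (d ^ 2)) (X ^ d) : ℂ) -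
        ∑ π ∈ GP (X ^ (d ^ 2)) (X ^ d),
          ff ψ π * xi k π * ((nm π : ℕ) : ℂ) ^ (-1 - Complex.I * (t : ℂ))‖ := by
  obtain ⟨C, hO⟩ := hO
  refine ⟨C, fun ψ hψ T hT0 d hd hd2 => ?_⟩
  obtain ⟨m₀, hm0, hper, hcop⟩ := hψ.period
  obtain ⟨θ, hθ, hO⟩ := hO (2 * T) d (by positivity) hd hd2
  obtain ⟨c, hc0, hc1, hG⟩ := sumG hT hC hψ θ hθ
  have hP : ∀ᶠ X : ℝ in atTop, (nm m₀ : ℝ) ≤ X ^ (d ^ 2) :=
    (tendsto_rpow_atTop (by positivity)).eventually_ge_atTop _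
  filter_upwards [hO c hc0 hc1, hG, hP] with X hO hG hP k hk hadm hcase t ht
  have h1 := hO (fun z => ψ z ^ 2 * xi (2 * k) z) (by simp [hψ.one, xi_one]) (by
    simp only [xi_I]
    have := congrArg (fun z => z ^ 2) hadm
    simp only [one_pow, mul_pow] at this
    rw [← this, mul_comm 2 k, zpow_mul]
    norm_cast) (fun x y => by simp only [hψ.mul, xi_mul]; ring) (fun z => by
    rw [norm_mul, norm_pow]
    exact mul_le_one₀ (pow_le_one₀ (norm_nonneg _) (hψ.norm_le_one z)) (norm_nonneg _)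
      (norm_xi_le _ z)) (fun x hx => hG k hk hcase x hx) (2 * t) (by
    rw [abs_mul, abs_two]; linarith)
  rw [expr_eq]
  have h2 := key1 (GP (X ^ (d ^ 2)) (X ^ d)) (fun π => 1 / (nm π : ℝ))
    (fun π => ψ π * xi k π * Complex.exp (((-(t * Real.log (nm π)) : ℝ) : ℂ) * Complex.I))
    (fun π _ => by positivity) (fun π hπ => by
      rw [norm_mul, norm_mul, norm_expI, norm_xi k (GP_ne_zero hπ),
        hψ.norm_eq_one (chi_ne_zero hm0 hcop hP hπ), one_mul, one_mul])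
  refine le_trans ?_ h2
  have h3 : ∑ π ∈ GP (X ^ (d ^ 2)) (X ^ d), 1 / (nm π : ℝ) *
      ((ψ π * xi k π * Complex.exp (((-(t * Real.log (nm π)) : ℝ) : ℂ) * Complex.I)) ^ 2).re =
      (∑ π ∈ GP (X ^ (d ^ 2)) (X ^ d), ψ π ^ 2 * xi (2 * k) π *
        ((nm π : ℕ) : ℂ) ^ (-1 - Complex.I * ((2 * t : ℝ) : ℂ))).re := by
    rw [Complex.re_sum]
    refine sum_congr rfl fun π hπ => ?_
    rw [cpow_eq (nm_pos (GP_ne_zero hπ)), xi_two_mul k (GP_ne_zero hπ), ← Complex.re_ofReal_mul]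
    congr 1
    rw [mul_pow, mul_pow, ← Complex.exp_nat_mul]
    have : ((2 : ℕ) : ℂ) * (((-(t * Real.log (nm π)) : ℝ) : ℂ) * Complex.I) =
        ((-(2 * t * Real.log (nm π)) : ℝ) : ℂ) * Complex.I := by
      push_cast; ring
    rw [this]
    ring
  rw [h3]
  show WW _ _ - C ≤ WW _ _ - _
  linarith

/-! ## the second case -/

lemma tele (g : ℕ → ℝ) (n q : ℕ) (h : n ≤ q) :
    ∑ j ∈ Ico n q, (g j - g (j + 1)) = g n - g q := by
  induction q, h using Nat.le_induction with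
  | base => simp
  | succ q hq ih => rw [sum_Ico_succ_top hq, ih]; ring

/-- Abel summation -/
lemma abel (S : Finset Gi) (a : Gi → ℝ) (N : Gi → ℕ) (g : ℕ → ℝ) (p q : ℕ) (hpq : p ≤ q)
    (hS : ∀ π ∈ S, p ≤ N π ∧ N π ≤ q) (hg : ∀ i, p ≤ i → i < q → g (i + 1) ≤ g i)
    (hq : 0 ≤ g q) (C : ℝ) (hC : ∀ x : ℕ, |∑ π ∈ S.filter (fun π => N π ≤ x), a π| ≤ C) :
    |∑ π ∈ S, a π * g (N π)| ≤ C * g p := by
  have h1 : ∀ π ∈ S, a π * g (N π) = a π * g q +
      ∑ j ∈ Ico p q, (g j - g (j + 1)) * (if N π ≤ j then a π else 0) := by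
    intro π hπ
    obtain ⟨h1, h2⟩ := hS π hπ
    have e : ∑ j ∈ Ico p q, (g j - g (j + 1)) * (if N π ≤ j then a π else 0) =
        ∑ j ∈ Ico (N π) q, (g j - g (j + 1)) * a π := by
      symm
      have hsub : Ico (N π) q ⊆ Ico p q := Ico_subset_Ico h1 le_rfl
      rw [← sum_subset hsub]
      · refine sum_congr rfl fun j hj => ?_
        rw [if_pos (mem_Ico.1 hj).1]
      · intro j hj hj'
        rw [if_neg, mul_zero]
        intro h
        exact hj' (mem_Ico.2 ⟨h, (mem_Ico.1 hj).2⟩)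
    rw [e, ← sum_mul, tele g _ _ h2]
    ring
  rw [sum_congr rfl h1, sum_add_distrib, ← sum_mul, sum_comm]
  have h2 : ∀ j ∈ Ico p q, ∑ π ∈ S, (g j - g (j + 1)) * (if N π ≤ j then a π else 0) =
      (g j - g (j + 1)) * ∑ π ∈ S.filter (fun π => N π ≤ j), a π := by
    intro j _
    rw [← mul_sum, sum_filter]
  rw [sum_congr rfl h2]
  have h3 : |∑ π ∈ S, a π| ≤ C := by
    have := hC q
    rwa [filter_true_of_mem (fun π hπ => (hS π hπ).2)] at this
  have h4 : |∑ j ∈ Ico p q, (g j - g (j + 1)) * ∑ π ∈ S.filter (fun π => N π ≤ j), a π| ≤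
      C * (g p - g q) := by
    refine (abs_sum_le_sum_abs _ _).trans ?_
    rw [← tele g p q hpq, mul_sum]
    refine sum_le_sum fun j hj => ?_
    rw [abs_mul, mul_comm C]
    have h5 : 0 ≤ g j - g (j + 1) := sub_nonneg.2 (hg j (mem_Ico.1 hj).1 (mem_Ico.1 hj).2)
    rw [abs_of_nonneg h5]
    exact mul_le_mul_of_nonneg_left (hC j) h5
  calc _ ≤ |(∑ π ∈ S, a π) * g q| + _ := abs_add_le _ _
    _ ≤ C * g q + C * (g p - g q) := by
        refine add_le_add ?_ h4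
        rw [abs_mul, abs_of_nonneg hq]
        exact mul_le_mul_of_nonneg_right h3 hq
    _ = C * g p := by ring

lemma GP_union {P M Q : ℝ} (h1 : P ≤ M) (h2 : M ≤ Q) : GP P Q = GP P M ∪ GP M Q := by
  ext z
  rw [mem_union, mem_GP, mem_GP, mem_GP]
  constructor
  · rintro ⟨a, b, c, d, e, f⟩
    by_cases h : (nm z : ℝ) ≤ M
    · left; exact ⟨a, b, c, d, e, h⟩
    · right; exact ⟨a, b, c, d, lt_of_not_ge h, f⟩
  · rintro (⟨a, b, c, d, e, f⟩ | ⟨a, b, c, d, e, f⟩)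
    · exact ⟨a, b, c, d, e, f.trans h2⟩
    · exact ⟨a, b, c, d, lt_of_le_of_lt h1 e, f⟩

lemma GP_split {P M Q : ℝ} (h1 : P ≤ M) (h2 : M ≤ Q) (f : Gi → ℝ) :
    ∑ π ∈ GP P Q, f π = ∑ π ∈ GP P M, f π + ∑ π ∈ GP M Q, f π := by
  rw [GP_union h1 h2, sum_union]
  rw [disjoint_left]
  intro z hz hz'
  rw [mem_GP] at hz hz'
  linarith [hz.2.2.2.2.2, hz'.2.2.2.2.1]

lemma GP_empty {P : ℝ} : GP P P = ∅ := by
  rw [eq_empty_iff_forall_notMem]
  intro z hz
  rw [mem_GP] at hz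
  linarith [hz.2.2.2.2.2, hz.2.2.2.2.1]

lemma GP_empty_of_le {P Q : ℝ} (h : Q ≤ P) : GP P Q = ∅ := by
  rw [eq_empty_iff_forall_notMem]
  intro z hz
  rw [mem_GP] at hz
  linarith [hz.2.2.2.2.2, hz.2.2.2.2.1]

lemma abs_cos_le (x : ℝ) : |Real.cos x| ≤ 3 / 4 + 1 / 4 * Real.cos (2 * x) := by
  rw [Real.cos_two_mul]
  have : Real.cos x ^ 2 = |Real.cos x| ^ 2 := (sq_abs _).symm
  rw [this]
  nlinarith [sq_nonneg (1 - |Real.cos x|)]

/-- the real part of the prime sum -/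
lemma re_sum (P Q t : ℝ) : (∑ π ∈ GP P Q, ((nm π : ℕ) : ℂ) ^ (-1 - Complex.I * (t : ℂ))).re =
    ∑ π ∈ GP P Q, 1 / (nm π : ℝ) * Real.cos (t * Real.log (nm π)) := by
  rw [Complex.re_sum]
  refine sum_congr rfl fun π hπ => ?_
  rw [cpow_eq (nm_pos (GP_ne_zero hπ)), Complex.re_ofReal_mul, Complex.exp_ofReal_mul_I_re,
    Real.cos_neg]

lemma caseB (hL : SpecL1) (hP : SpecPG) (ψ : Gi → ℂ) (hψ : Chi ψ)
    (hr : ∀ z, ψ z ^ 2 = 0 ∨ ψ z ^ 2 = 1) (hi : ψ ⟨0, 1⟩ = 1) (T : ℝ) (hT : 0 < T) :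
    ∃ C : ℝ, ∀ P Q : ℝ, 3 ≤ P → P ≤ Q → (∀ π ∈ GP P Q, ψ π ≠ 0) → ∀ t : ℝ, |t| ≤ T →
      1 / 4 * WW P Q - C ≤ ‖(WW P Q : ℂ) -
        ∑ π ∈ GP P Q, ff ψ π * xi 0 π * ((nm π : ℕ) : ℂ) ^ (-1 - Complex.I * (t : ℂ))‖ := by
  obtain ⟨hPa, -, -, -⟩ := hP
  obtain ⟨C, hPa⟩ := hPa (2 * T) (by positivity)
  have hval : ∀ z, ψ z = 0 ∨ ψ z = 1 ∨ ψ z = -1 := by
    intro z
    rcases hr z with h | h
    · left; exact pow_eq_zero_iff (two_ne_zero) |>.1 h
    · right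
      have h' : (ψ z - 1) * (ψ z + 1) = 0 := by linear_combination h
      rcases mul_eq_zero.1 h' with h1 | h1
      · left; exact sub_eq_zero.1 h1
      · right; exact eq_neg_of_add_eq_zero_left h1
  have him : ∀ z, (ψ z).im = 0 := by
    intro z
    rcases hval z with h | h | h <;> rw [h] <;> simp
  have hre : ∀ z, ψ z = (((ψ z).re : ℝ) : ℂ) := fun z => by
    apply Complex.ext
    · simp
    · simp [him]
  have hre1 : ∀ z, |(ψ z).re| ≤ 1 := by
    intro z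
    rcases hval z with h | h | h <;> rw [h] <;> simp
  -- the real part
  have hexpr : ∀ P Q t : ℝ, ((WW P Q : ℂ) - ∑ π ∈ GP P Q, ff ψ π * xi 0 π *
      ((nm π : ℕ) : ℂ) ^ (-1 - Complex.I * (t : ℂ))).re =
      WW P Q + ∑ π ∈ GP P Q, ((ψ π).re / (nm π : ℝ)) * Real.cos (t * Real.log (nm π)) := by
    intro P Q t
    rw [Complex.sub_re, Complex.ofReal_re, Complex.re_sum, sub_eq_add_neg, ← sum_neg_distrib]
    congr 1
    refine sum_congr rfl fun π hπ => ?_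
    rw [cpow_eq (nm_pos (GP_ne_zero hπ)), ff, lam_GP hπ, hre π]
    have : xi 0 π = 1 := by simp [xi]
    rw [this]
    have e : (((-1 : ℝ) : ℂ) * (((ψ π).re : ℝ) : ℂ) * 1 * (((1 / (nm π : ℝ) : ℝ) : ℂ) *
        Complex.exp (((-(t * Real.log (nm π)) : ℝ) : ℂ) * Complex.I))) =
        ((-((ψ π).re / (nm π : ℝ)) : ℝ) : ℂ) *
          Complex.exp (((-(t * Real.log (nm π)) : ℝ) : ℂ) * Complex.I) := by
      push_cast; ring
    rw [e, Complex.re_ofReal_mul, Complex.exp_ofReal_mul_I_re, Real.cos_neg, Complex.ofReal_re]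
    ring
  by_cases hprin : ∀ z, ψ z = 0 ∨ ψ z = 1
  · -- principal
    refine ⟨C, fun P Q hP3 hPQ hne t ht => ?_⟩
    refine le_trans ?_ (Complex.re_le_norm _)
    rw [hexpr]
    have h1 : ∑ π ∈ GP P Q, ((ψ π).re / (nm π : ℝ)) * Real.cos (t * Real.log (nm π)) =
        (∑ π ∈ GP P Q, ((nm π : ℕ) : ℂ) ^ (-1 - Complex.I * (t : ℂ))).re := by
      rw [re_sum]
      refine sum_congr rfl fun π hπ => ?_
      rw [(hprin π).resolve_left (hne π hπ), Complex.one_re]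
    rw [h1]
    have h2 := hPa P Q hP3 hPQ t (ht.trans (by linarith))
    have h3 := (Complex.abs_re_le_norm _).trans h2
    rw [Complex.sub_re, Complex.ofReal_re] at h3
    have h4 := (abs_le.1 h3).1
    have hlogP : 0 < Real.log P := Real.log_pos (by linarith)
    have h5 : Real.log (1 / Real.log Q + |t|) ≤ Real.log (1 / Real.log P + |t|) := by
      apply Real.log_le_log
      · have : 0 < Real.log Q := Real.log_pos (by linarith)
        positivity
      · have : 1 / Real.log Q ≤ 1 / Real.log P :=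
          one_div_le_one_div_of_le hlogP (Real.log_le_log (by linarith) hPQ)
        linarith
    have h6 : 0 ≤ WW P Q := by rw [WW]; positivity
    linarith
  · push Not at hprin
    obtain ⟨CL, hCL⟩ := hL ψ hψ him hi hprin
    refine ⟨2 * CL + (1 + C) / 4, fun P Q hP3 hPQ hne t ht => ?_⟩
    have hlogP : 0 < Real.log P := Real.log_pos (by linarith)
    have hlogQ : 0 < Real.log Q := Real.log_pos (by linarith)
    have hlogPQ : Real.log P ≤ Real.log Q := Real.log_le_log (by linarith) hPQ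
    refine le_trans ?_ (Complex.re_le_norm _)
    rw [hexpr]
    -- the splitting point
    obtain ⟨M, hPM, hMQ, hM1, hM2⟩ : ∃ M : ℝ, P ≤ M ∧ M ≤ Q ∧ (M = P ∨ |t| * Real.log M ≤ 1) ∧
        (M = Q ∨ 1 ≤ |t| * Real.log M) := by
      by_cases h : |t| * Real.log Q ≤ 1
      · exact ⟨Q, hPQ, le_rfl, Or.inr h, Or.inl rfl⟩
      · push Not at h
        have ht0 : 0 < |t| := by
          by_contra h'
          push Not at h'
          nlinarith
        by_cases h2 : 1 ≤ |t| * Real.log P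
        · exact ⟨P, le_rfl, hPQ, Or.inl rfl, Or.inr h2⟩
        · push Not at h2
          refine ⟨Real.exp (1 / |t|), ?_, ?_, Or.inr ?_, Or.inr ?_⟩
          · rw [← Real.log_le_iff_le_exp (by linarith), le_div_iff₀ ht0]
            linarith
          · rw [← Real.le_log_iff_exp_le (by linarith), div_le_iff₀ ht0]
            linarith
          · rw [Real.log_exp, mul_one_div_cancel ht0.ne']
          · rw [Real.log_exp, mul_one_div_cancel ht0.ne']
    rw [GP_split hPM hMQ]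
    have hM3 : 3 ≤ M := hP3.trans hPM
    have hlogM : 0 < Real.log M := Real.log_pos (by linarith)
    -- first range
    have hr1 : |∑ π ∈ GP P M, ((ψ π).re / (nm π : ℝ)) * Real.cos (t * Real.log (nm π))| ≤
        2 * CL := by
      have hCL0 : 0 ≤ CL := (abs_nonneg _).trans (hCL 0)
      rcases hM1 with hM1 | hM1
      · rw [hM1, GP_empty]; simp; exact hCL0
      · have hMfl : (1 : ℕ) ≤ ⌊M⌋₊ := Nat.le_floor (by push_cast; linarith)
        have hpart : ∀ n : ℕ, 1 ≤ n → n ≤ ⌊M⌋₊ → |t| * Real.log n ≤ 1 := by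
          intro n hn hn'
          refine le_trans (mul_le_mul_of_nonneg_left ?_ (abs_nonneg t)) hM1
          apply Real.log_le_log (by exact_mod_cast hn)
          exact (Nat.le_floor_iff (by linarith)).1 hn'
        have hpi : (1 : ℝ) < Real.pi / 2 := by
          have := Real.pi_gt_three; linarith
        have habel := abel (GP P M) (fun π => (ψ π).re / (nm π : ℝ)) nm
          (fun n => Real.cos (|t| * Real.log n)) 1 ⌊M⌋₊ hMfl (fun π hπ => ?_) (fun i hi hi' => ?_)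
          ?_ (2 * CL) (fun x => ?_)
        · simp only [Nat.cast_one, Real.log_one, mul_zero, Real.cos_zero, mul_one] at habel
          have e : ∀ π : Gi, Real.cos (t * Real.log (nm π)) = Real.cos (|t| * Real.log (nm π)) := by
            intro π
            rcases abs_choice t with h | h
            · rw [h]
            · rw [h, neg_mul, Real.cos_neg]
          simp only [e]
          exact habel
        · rw [mem_GP] at hπ
          exact ⟨hπ.2.2.1.one_lt.le, Nat.le_floor hπ.2.2.2.2.2⟩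
        · apply Real.cos_le_cos_of_nonneg_of_le_pi
          · exact mul_nonneg (abs_nonneg _) (Real.log_nonneg (by exact_mod_cast hi))
          · have := hpart (i + 1) (by omega) (by omega)
            linarith
          · apply mul_le_mul_of_nonneg_left _ (abs_nonneg _)
            apply Real.log_le_log (by exact_mod_cast hi)
            push_cast; linarith
        · apply Real.cos_nonneg_of_neg_pi_div_two_le_of_le
          · have : 0 ≤ |t| * Real.log ⌊M⌋₊ :=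
              mul_nonneg (abs_nonneg _) (Real.log_nonneg (by exact_mod_cast hMfl))
            linarith
          · have := hpart ⌊M⌋₊ hMfl le_rfl
            linarith
        · have e : (GP P M).filter (fun π => nm π ≤ x) = GP P (min M x) := by
            ext z
            rw [mem_filter, mem_GP, mem_GP, le_min_iff]
            constructor
            · rintro ⟨⟨a, b, c, d, e, f⟩, g⟩
              exact ⟨a, b, c, d, e, f, by exact_mod_cast g⟩
            · rintro ⟨a, b, c, d, e, f, g⟩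
              exact ⟨⟨a, b, c, d, e, f⟩, by exact_mod_cast g⟩
          rw [e]
          rcases le_total (min M (x : ℝ)) P with h | h
          · rw [GP_empty_of_le h]; simp; exact hCL0
          · have hs := GP_split (P := 2) (by linarith : (2 : ℝ) ≤ P) h
              (fun π => (ψ π).re / (nm π : ℝ))
            have h1 := hCL (min M (x : ℝ))
            have h2 := hCL P
            have h3 : ∑ π ∈ GP P (min M (x : ℝ)), (ψ π).re / (nm π : ℝ) =
                ∑ π ∈ GP 2 (min M (x : ℝ)), (ψ π).re / (nm π : ℝ) -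
                ∑ π ∈ GP 2 P, (ψ π).re / (nm π : ℝ) := by linarith
            rw [h3]
            refine (abs_sub _ _).trans ?_
            linarith
    -- second range
    have hr2 : -(3 / 4 * WW P Q + (1 + C) / 4) ≤
        ∑ π ∈ GP M Q, ((ψ π).re / (nm π : ℝ)) * Real.cos (t * Real.log (nm π)) := by
      have hWMQ : WW M Q ≤ WW P Q := by
        have := GP_split hPM hMQ (fun π => 1 / (nm π : ℝ))
        have h0 : 0 ≤ ∑ π ∈ GP P M, 1 / (nm π : ℝ) := by positivity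
        rw [WW, WW, this]
        linarith
      have hW0 : 0 ≤ WW M Q := by rw [WW]; positivity
      have hterm : ∀ π ∈ GP M Q, -(3 / 4 * (1 / (nm π : ℝ)) +
          1 / 4 * (1 / (nm π : ℝ) * Real.cos ((2 * t) * Real.log (nm π)))) ≤
          ((ψ π).re / (nm π : ℝ)) * Real.cos (t * Real.log (nm π)) := by
        intro π hπ
        have hp := nm_posR (GP_ne_zero hπ)
        have h1 := abs_cos_le (t * Real.log (nm π))
        have h2 : |((ψ π).re / (nm π : ℝ)) * Real.cos (t * Real.log (nm π))| ≤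
            1 / (nm π : ℝ) * (3 / 4 + 1 / 4 * Real.cos (2 * (t * Real.log (nm π)))) := by
          rw [abs_mul, abs_div, abs_of_pos hp]
          apply mul_le_mul _ h1 (abs_nonneg _) (by positivity)
          exact div_le_div_of_nonneg_right (hre1 π) hp.le
        have h3 := neg_le_of_abs_le h2
        rw [mul_assoc 2 t]
        linarith
      have hsum := sum_le_sum hterm
      rw [sum_neg_distrib, sum_add_distrib, ← mul_sum, ← mul_sum, ← re_sum] at hsum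
      refine le_trans (neg_le_neg ?_) hsum
      have hWdef : ∑ π ∈ GP M Q, 1 / (nm π : ℝ) = WW M Q := rfl
      rw [hWdef]
      have hR : (∑ π ∈ GP M Q, ((nm π : ℕ) : ℂ) ^ (-1 - Complex.I * ((2 * t : ℝ) : ℂ))).re ≤
          1 + C := by
        rcases hM2 with hM2 | hM2
        · have hC0 : 0 ≤ C := (norm_nonneg _).trans (hPa 3 3 le_rfl le_rfl 0 (by simp; positivity))
          rw [hM2, GP_empty]; simp; linarith
        · have ht0 : 0 < |t| := by
            by_contra h'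
            push Not at h'
            nlinarith
          have h2t : |2 * t| ≤ 2 * T := by rw [abs_mul, abs_two]; linarith
          have h2 := hPa M Q hM3 hMQ (2 * t) h2t
          have h3 := (Complex.abs_re_le_norm _).trans h2
          rw [Complex.sub_re, Complex.ofReal_re] at h3
          have h4 := (abs_le.1 h3).2
          have h5 : Real.log (1 / Real.log M + |2 * t|) ≤ Real.log (3 * |t|) := by
            apply Real.log_le_log (by positivity)
            rw [abs_mul, abs_two]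
            have : 1 / Real.log M ≤ |t| := by
              rw [div_le_iff₀ hlogM]; exact hM2
            linarith
          have h6 : Real.log (2 * |t|) ≤ Real.log (1 / Real.log Q + |2 * t|) := by
            apply Real.log_le_log (by positivity)
            rw [abs_mul, abs_two]
            have : 0 < 1 / Real.log Q := by positivity
            linarith
          have h7 : Real.log (3 * |t|) - Real.log (2 * |t|) ≤ 1 := by
            rw [← Real.log_div (by positivity) (by positivity)]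
            have : 3 * |t| / (2 * |t|) = 3 / 2 := by field_simp
            rw [this]
            have := Real.log_le_sub_one_of_pos (show (0 : ℝ) < 3 / 2 by norm_num)
            linarith
          linarith
      linarith
    have := neg_le_of_abs_le hr1
    linarith

/-! ## the size of `W` -/

lemma W_large (hP : SpecPG) : ∃ C : ℝ, ∀ d : ℝ, 0 < d → d ≤ 1 → ∀ᶠ X : ℝ in atTop,
    3 ≤ X ^ (d ^ 2) ∧ X ^ (d ^ 2) ≤ X ^ d ∧ -Real.log d - C ≤ WW (X ^ (d ^ 2)) (X ^ d) := by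
  obtain ⟨-, ⟨C, hC⟩, -, -⟩ := hP
  refine ⟨C, fun d hd hd1 => ?_⟩
  have h3 : ∀ᶠ X : ℝ in atTop, 3 ≤ X ^ (d ^ 2) :=
    (tendsto_rpow_atTop (by positivity)).eventually_ge_atTop _
  filter_upwards [h3, eventually_gt_atTop 1] with X h3 hX
  have hX0 : 0 < X := by linarith
  have hle : X ^ (d ^ 2) ≤ X ^ d := Real.rpow_le_rpow_of_exponent_le hX.le (by nlinarith)
  refine ⟨h3, hle, ?_⟩
  have h := (abs_le.1 (hC _ _ h3 hle)).1
  have hl : 0 < Real.log X := Real.log_pos hX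
  rw [Real.log_rpow hX0, Real.log_rpow hX0, Real.log_mul hd.ne' hl.ne',
    Real.log_mul (by positivity) hl.ne', Real.log_pow] at h
  push_cast at h
  linarith

end Lower

open Lower in
theorem specLower (hT : SpecType) (hO : SpecOS) (hL : SpecL1) (hP : SpecPG) (hC : SpecCount) :
    SpecLower := by
  obtain ⟨CA, hA⟩ := caseA hT hC hO
  obtain ⟨Cb, hW⟩ := W_large hP
  refine ⟨1 / 40, by norm_num, fun ψ hψ T hT0 => ?_⟩
  obtain ⟨m₀, hm0, hper, hcop⟩ := hψ.period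
  -- the constant in the second case
  obtain ⟨CB, hB⟩ : ∃ CB : ℝ, (¬ (∃ z, ψ z ^ 2 ≠ 0 ∧ ψ z ^ 2 ≠ 1)) → ψ ⟨0, 1⟩ = 1 →
      ∀ P Q : ℝ, 3 ≤ P → P ≤ Q → (∀ π ∈ GP P Q, ψ π ≠ 0) → ∀ t : ℝ, |t| ≤ T →
      1 / 4 * WW P Q - CB ≤ ‖(WW P Q : ℂ) -
        ∑ π ∈ GP P Q, ff ψ π * xi 0 π * ((nm π : ℕ) : ℂ) ^ (-1 - Complex.I * (t : ℂ))‖ := by
    by_cases h : (¬ (∃ z, ψ z ^ 2 ≠ 0 ∧ ψ z ^ 2 ≠ 1)) ∧ ψ ⟨0, 1⟩ = 1
    · obtain ⟨C, hC'⟩ := caseB hL hP ψ hψ (fun z => by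
        by_contra hcon
        push Not at hcon
        exact h.1 ⟨z, hcon⟩) h.2 T hT0
      exact ⟨C, fun _ _ => hC'⟩
    · exact ⟨0, fun h1 h2 => absurd ⟨h1, h2⟩ h⟩
  refine ⟨min (1 / 2) (Real.exp (-(Cb + 2 * |CA| + 5 * |CB|))), by positivity,
    fun d hd hd1 => ?_⟩
  have hd2 : d ≤ 1 / 2 := hd1.trans (min_le_left _ _)
  have hd3 : d ≤ Real.exp (-(Cb + 2 * |CA| + 5 * |CB|)) := hd1.trans (min_le_right _ _)
  have hlogd : Cb + 2 * |CA| + 5 * |CB| ≤ -Real.log d := by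
    have := (Real.log_le_iff_le_exp hd).2 hd3
    linarith
  have hPlarge : ∀ᶠ X : ℝ in atTop, (nm m₀ : ℝ) ≤ X ^ (d ^ 2) :=
    (tendsto_rpow_atTop (by positivity)).eventually_ge_atTop _
  filter_upwards [hA ψ hψ T hT0 d hd hd2, hW d hd (by linarith), hPlarge] with X hAX hWX hPX
  intro k hk hadm t ht
  obtain ⟨hX3, hXle, hWge⟩ := hWX
  have hWge' : 2 * |CA| + 5 * |CB| ≤ WW (X ^ (d ^ 2)) (X ^ d) := by linarith
  have a1 := le_abs_self CA
  have a2 := le_abs_self CB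
  have a3 := abs_nonneg CA
  have a4 := abs_nonneg CB
  by_cases hcase : k ≠ 0 ∨ ∃ z, ψ z ^ 2 ≠ 0 ∧ ψ z ^ 2 ≠ 1
  · have := hAX k hk hadm hcase t ht
    linarith
  · rw [not_or, not_not] at hcase
    obtain ⟨hk0, hns⟩ := hcase
    subst hk0
    have hi : ψ ⟨0, 1⟩ = 1 := by
      have h1 : ψ ⟨0, 1⟩ * Complex.I ^ (0 : ℤ) = 1 := hadm
      rwa [zpow_zero, mul_one] at h1
    have := hB hns hi _ _ hX3 hXle (fun π hπ => chi_ne_zero hm0 hcop hPX hπ) t ht
    linarith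

end Pool.Agent.Lib.MP391708.MR
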