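import Pool.Agent.Lib.MP_391708_nt.MR.Spec
import Pool.Agent.Lib.MP_391708_nt.MR.Basic
import Pool.Agent.Lib.MP_391708_nt.Eqd.Prime

/-!
# PG: prime sums over the split Gaussian primes (helper70)
-/

set_option autoImplicit false

namespace Pool.Agent.Lib.MP391708.MR

open Finset Filter Topology
open scoped ComplexConjugate

namespace PG

lemma nm_cast' (z : Gi) : ((nm z : ℕ) : ℤ) = z.re * z.re + z.im * z.im := by
  rw [nm_cast]; ring

lemma mul_star_self (z : Gi) : z * star z = ((nm z : ℕ) : Gi) := by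
  ext
  · simp [nm_cast']
  · simp; ring

/-- primes `1 mod 4` in `(x, y]` -/
def Pm (x y : ℕ) : Finset ℕ := (Ioc x y).filter (fun p => p.Prime ∧ p % 4 = 1)

/-- units modulo `M` which are `1 mod 4` -/
def UU (M : ℕ) : Finset ℕ := (range M).filter (fun a => a.Coprime M ∧ a % 4 = 1)

/-- main term -/
noncomputable def EE (x y : ℕ) (t : ℝ) : ℝ :=
  Real.log (1 / Real.log x + |t|) - Real.log (1 / Real.log y + |t|)

lemma norm_cpow {p : ℕ} (hp : 0 < p) (t : ℝ) :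
    ‖(p : ℂ) ^ (-1 - Complex.I * (t : ℂ))‖ = 1 / p := by
  rw [Complex.norm_natCast_cpow_of_pos hp]
  simp only [Complex.sub_re, Complex.neg_re, Complex.one_re, Complex.mul_re, Complex.I_re,
    Complex.ofReal_re, Complex.I_im, Complex.ofReal_im]
  rw [zero_mul, one_mul, sub_zero, sub_zero, Real.rpow_neg_one, one_div]

lemma log_pos_of {x : ℕ} (hx : 3 ≤ x) : 0 < Real.log x :=
  Real.log_pos (by
    have : (3 : ℝ) ≤ x := by exact_mod_cast hx
    linarith)

lemma EE_nonneg {x y : ℕ} (hx : 3 ≤ x) (hxy : x ≤ y) (t : ℝ) : 0 ≤ EE x y t := by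
  unfold EE
  have h1 := log_pos_of hx
  have h2 := log_pos_of (hx.trans hxy)
  have h3 : Real.log x ≤ Real.log y :=
    Real.log_le_log (by positivity) (by exact_mod_cast hxy)
  have h4 : 1 / Real.log y ≤ 1 / Real.log x := one_div_le_one_div_of_le h1 h3
  have h5 : 0 < 1 / Real.log y + |t| := by positivity
  have := Real.log_le_log h5 (by linarith : 1 / Real.log y + |t| ≤ 1 / Real.log x + |t|)
  linarith

lemma class_one (M : ℕ) (hM : 0 < M) (a : ℕ) (ha : a.Coprime M) (T : ℝ) (hT : 0 < T) :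
    ∃ C : ℝ, 0 ≤ C ∧ ∀ x y : ℕ, 3 ≤ x → x ≤ y → ∀ t : ℝ, |t| ≤ T →
      ‖(∑ p ∈ (Ioc x y).filter (fun p => p.Prime ∧ p ≡ a [MOD M]),
          (p : ℂ) ^ (-1 - Complex.I * (t : ℂ))) - ((1 / (M.totient : ℝ) * EE x y t : ℝ) : ℂ)‖ ≤ C := by
  obtain ⟨C, hC⟩ := Eqd.specPrime M hM a ha T hT
  refine ⟨2 * |C|, by positivity, fun x y hx hxy t ht => ?_⟩
  have h1 := hC x hx (-t) (by rwa [abs_neg])
  have h2 := hC y (hx.trans hxy) (-t) (by rwa [abs_neg])
  rw [abs_neg] at h1 h2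
  have e0 : (-1 - Complex.I * (t : ℂ)) = (-1 + Complex.I * ((-t : ℝ) : ℂ)) := by push_cast; ring
  rw [e0]
  have hsplit : (Icc 1 y).filter (fun p => p.Prime ∧ p ≡ a [MOD M]) =
      (Icc 1 x).filter (fun p => p.Prime ∧ p ≡ a [MOD M]) ∪
        (Ioc x y).filter (fun p => p.Prime ∧ p ≡ a [MOD M]) := by
    rw [← Finset.filter_union]
    congr 1
    ext p
    rw [Finset.mem_union, Finset.mem_Icc, Finset.mem_Icc, Finset.mem_Ioc]
    omega
  have hdis : Disjoint ((Icc 1 x).filter (fun p => p.Prime ∧ p ≡ a [MOD M]))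
      ((Ioc x y).filter (fun p => p.Prime ∧ p ≡ a [MOD M])) := by
    rw [Finset.disjoint_left]
    intro p hp hp'
    rw [Finset.mem_filter, Finset.mem_Icc] at hp
    rw [Finset.mem_filter, Finset.mem_Ioc] at hp'
    omega
  rw [hsplit, Finset.sum_union hdis] at h2
  set A : ℂ := ∑ p ∈ (Icc 1 x).filter (fun p => p.Prime ∧ p ≡ a [MOD M]),
    (p : ℂ) ^ (-1 + Complex.I * ((-t : ℝ) : ℂ))
  set B : ℂ := ∑ p ∈ (Ioc x y).filter (fun p => p.Prime ∧ p ≡ a [MOD M]),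
    (p : ℂ) ^ (-1 + Complex.I * ((-t : ℝ) : ℂ))
  have e1 : B - ((1 / (M.totient : ℝ) * EE x y t : ℝ) : ℂ) =
      (A + B - (((1 / (M.totient : ℝ)) * (-Real.log (1 / Real.log y + |t|)) : ℝ) : ℂ)) -
      (A - (((1 / (M.totient : ℝ)) * (-Real.log (1 / Real.log x + |t|)) : ℝ) : ℂ)) := by
    unfold EE
    push_cast
    ring
  rw [e1]
  refine (norm_sub_le _ _).trans ?_
  have := le_abs_self C
  linarith

lemma classsum (M : ℕ) (hM : 0 < M) (h4 : 4 ∣ M) (T : ℝ) (hT : 0 < T) :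
    ∃ C : ℝ, 0 ≤ C ∧ ∀ χ : ℕ → ℝ, (∀ n, |χ n| ≤ 1) → (∀ a b, a ≡ b [MOD M] → χ a = χ b) →
      ∀ x y : ℕ, 3 ≤ x → x ≤ y → ∀ t : ℝ, |t| ≤ T →
      ‖(∑ p ∈ Pm x y, (χ p : ℂ) * (p : ℂ) ^ (-1 - Complex.I * (t : ℂ))) -
        (((∑ a ∈ UU M, χ a) / (M.totient : ℝ) * EE x y t : ℝ) : ℂ)‖ ≤ C := by
  have hex : ∀ a : ℕ, ∃ C : ℝ, 0 ≤ C ∧ (a.Coprime M → ∀ x y : ℕ, 3 ≤ x → x ≤ y → ∀ t : ℝ,
      |t| ≤ T → ‖(∑ p ∈ (Ioc x y).filter (fun p => p.Prime ∧ p ≡ a [MOD M]),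
          (p : ℂ) ^ (-1 - Complex.I * (t : ℂ))) -
            ((1 / (M.totient : ℝ) * EE x y t : ℝ) : ℂ)‖ ≤ C) := by
    intro a
    by_cases ha : a.Coprime M
    · obtain ⟨C, h0, hC⟩ := class_one M hM a ha T hT
      exact ⟨C, h0, fun _ => hC⟩
    · exact ⟨0, le_rfl, fun h => absurd h ha⟩
  choose C hC0 hC using hex
  refine ⟨(∑ a ∈ UU M, C a) + M, by
    have := Finset.sum_nonneg (s := UU M) fun a _ => hC0 a
    positivity, fun χ hχ hper x y hx hxy t ht => ?_⟩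
  set s : ℂ := -1 - Complex.I * (t : ℂ)
  -- the primes prime to `M`
  have hmaps : ∀ p ∈ (Pm x y).filter (fun p => p.Coprime M), p % M ∈ UU M := by
    intro p hp
    rw [Finset.mem_filter, Pm, Finset.mem_filter] at hp
    rw [UU, Finset.mem_filter, Finset.mem_range]
    refine ⟨Nat.mod_lt _ hM, ?_, ?_⟩
    · have h5 : Nat.gcd (p % M) M = Nat.gcd p M := (Nat.mod_modEq p M).gcd_eq
      rw [Nat.Coprime, h5]; exact hp.2
    · rw [Nat.mod_mod_of_dvd _ h4]; exact hp.1.2.2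
  have e1 : ∑ p ∈ (Pm x y).filter (fun p => p.Coprime M), (χ p : ℂ) * (p : ℂ) ^ s =
      ∑ a ∈ UU M, (χ a : ℂ) * ∑ p ∈ (Ioc x y).filter (fun p => p.Prime ∧ p ≡ a [MOD M]),
        (p : ℂ) ^ s := by
    rw [← Finset.sum_fiberwise_of_maps_to hmaps]
    refine Finset.sum_congr rfl fun a ha => ?_
    rw [UU, Finset.mem_filter, Finset.mem_range] at ha
    rw [Finset.mul_sum]
    have hset : ((Pm x y).filter (fun p => p.Coprime M)).filter (fun p => p % M = a) =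
        (Ioc x y).filter (fun p => p.Prime ∧ p ≡ a [MOD M]) := by
      ext p
      rw [Finset.mem_filter, Finset.mem_filter, Pm, Finset.mem_filter, Finset.mem_filter]
      constructor
      · rintro ⟨⟨⟨h1, h2, h3⟩, h5⟩, h6⟩
        exact ⟨h1, h2, by rw [Nat.ModEq, h6, Nat.mod_eq_of_lt ha.1]⟩
      · rintro ⟨h1, h2, h3⟩
        rw [Nat.ModEq, Nat.mod_eq_of_lt ha.1] at h3
        refine ⟨⟨⟨h1, h2, ?_⟩, ?_⟩, h3⟩
        · rw [← Nat.mod_mod_of_dvd _ h4, h3]; exact ha.2.2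
        · have h5 : (p % M).Coprime M := by rw [h3]; exact ha.2.1
          have h6 : Nat.gcd (p % M) M = Nat.gcd p M := (Nat.mod_modEq p M).gcd_eq
          rw [Nat.Coprime, ← h6]; exact h5
    rw [hset]
    refine Finset.sum_congr rfl fun p hp => ?_
    rw [Finset.mem_filter] at hp
    rw [hper p a hp.2.2]
  have e2 : ‖∑ p ∈ (Pm x y).filter (fun p => ¬ p.Coprime M), (χ p : ℂ) * (p : ℂ) ^ s‖ ≤ M := by
    refine (norm_sum_le _ _).trans ?_
    have h1 : ∀ p ∈ (Pm x y).filter (fun p => ¬ p.Coprime M), ‖(χ p : ℂ) * (p : ℂ) ^ s‖ ≤ 1 := by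
      intro p hp
      rw [Finset.mem_filter, Pm, Finset.mem_filter] at hp
      have hp0 := hp.1.2.1.pos
      rw [norm_mul, norm_cpow hp0, Complex.norm_real, Real.norm_eq_abs]
      have h2 : (1 : ℝ) / p ≤ 1 := by
        rw [div_le_one (by exact_mod_cast hp0)]
        exact_mod_cast hp0
      exact mul_le_one₀ (hχ p) (by positivity) h2
    refine (Finset.sum_le_sum h1).trans ?_
    rw [Finset.sum_const, nsmul_eq_mul, mul_one]
    have hsub : (Pm x y).filter (fun p => ¬ p.Coprime M) ⊆ Icc 1 M := by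
      intro p hp
      rw [Finset.mem_filter, Pm, Finset.mem_filter] at hp
      rw [Finset.mem_Icc]
      refine ⟨hp.1.2.1.pos, ?_⟩
      have h3 := (Nat.Prime.coprime_iff_not_dvd hp.1.2.1).not.1 hp.2
      push Not at h3
      exact Nat.le_of_dvd hM h3
    have := Finset.card_le_card hsub
    rw [Nat.card_Icc] at this
    have h5 : ((Pm x y).filter (fun p => ¬ p.Coprime M)).card ≤ M := by omega
    exact_mod_cast h5
  have e3 : (∑ p ∈ Pm x y, (χ p : ℂ) * (p : ℂ) ^ s) -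
        (((∑ a ∈ UU M, χ a) / (M.totient : ℝ) * EE x y t : ℝ) : ℂ) =
      (∑ a ∈ UU M, (χ a : ℂ) * ((∑ p ∈ (Ioc x y).filter (fun p => p.Prime ∧ p ≡ a [MOD M]),
        (p : ℂ) ^ s) - ((1 / (M.totient : ℝ) * EE x y t : ℝ) : ℂ))) +
      ∑ p ∈ (Pm x y).filter (fun p => ¬ p.Coprime M), (χ p : ℂ) * (p : ℂ) ^ s := by
    rw [← Finset.sum_filter_add_sum_filter_not (Pm x y) (fun p => p.Coprime M), e1]
    simp_rw [mul_sub]
    rw [Finset.sum_sub_distrib, ← Finset.sum_mul]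
    push_cast
    ring
  rw [e3]
  refine (norm_add_le _ _).trans (add_le_add ?_ e2)
  refine (norm_sum_le _ _).trans (Finset.sum_le_sum fun a ha => ?_)
  rw [UU, Finset.mem_filter, Finset.mem_range] at ha
  rw [norm_mul, Complex.norm_real, Real.norm_eq_abs]
  calc |χ a| * _ ≤ 1 * C a := by
        refine mul_le_mul (hχ a) (hC a ha.2.1 x y hx hxy t ht) (norm_nonneg _) zero_le_one
    _ = C a := one_mul _

/-! ## sums over `GP` -/

lemma nm_mk (a b : ℤ) : ((nm (⟨a, b⟩ : Gi) : ℕ) : ℤ) = a * a + b * b := nm_cast' _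

lemma fiber_card {P Q : ℝ} (hP : 0 ≤ P) {p : ℕ} (hp : p ∈ Pm ⌊P⌋₊ ⌊Q⌋₊) :
    ((GP P Q).filter (fun π => nm π = p)).card = 2 := by
  rw [Pm, mem_filter, mem_Ioc] at hp
  obtain ⟨⟨hp1, hp2⟩, hpp, hp4⟩ := hp
  have : Fact p.Prime := ⟨hpp⟩
  obtain ⟨a, b, hab⟩ := Nat.Prime.sq_add_sq (p := p) (by omega)
  have ha : 0 < a := by
    rcases Nat.eq_zero_or_pos a with h | h
    · exfalso
      rw [h] at hab
      have h1 : b ∣ p := ⟨b, by rw [← hab]; ring⟩
      rcases (Nat.dvd_prime hpp).1 h1 with h2 | h2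
      · rw [h2] at hab; have := hpp.one_lt; omega
      · rw [h2] at hab; have := hpp.one_lt; nlinarith
    · exact h
  have hb : 0 < b := by
    rcases Nat.eq_zero_or_pos b with h | h
    · exfalso
      rw [h] at hab
      have h1 : a ∣ p := ⟨a, by rw [← hab]; ring⟩
      rcases (Nat.dvd_prime hpp).1 h1 with h2 | h2
      · rw [h2] at hab; have := hpp.one_lt; omega
      · rw [h2] at hab; have := hpp.one_lt; nlinarith
    · exact h
  have hne : a ≠ b := by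
    rintro rfl
    have : 2 ∣ p := ⟨a ^ 2, by rw [← hab]; ring⟩
    omega
  have hn1 : nm (⟨a, b⟩ : Gi) = p := by
    have h1 := nm_mk (a : ℤ) b
    have h2 : ((nm (⟨(a : ℤ), (b : ℤ)⟩ : Gi) : ℕ) : ℤ) = p := by
      rw [h1, ← hab]; push_cast; ring
    exact_mod_cast h2
  have hn2 : nm (⟨b, a⟩ : Gi) = p := by
    have h1 := nm_mk (b : ℤ) a
    have h2 : ((nm (⟨(b : ℤ), (a : ℤ)⟩ : Gi) : ℕ) : ℤ) = p := by
      rw [h1, ← hab]; push_cast; ring
    exact_mod_cast h2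
  have hPp : P < (p : ℝ) := (Nat.floor_lt hP).1 hp1
  have hQp : (p : ℝ) ≤ Q := by
    have hQ0 : 0 ≤ Q := by
      by_contra hQ
      push Not at hQ
      rw [Nat.floor_of_nonpos hQ.le] at hp2
      have := hpp.pos
      omega
    exact (Nat.le_floor_iff hQ0).1 hp2
  have hg1 : (⟨a, b⟩ : Gi) ∈ GP P Q := by
    rw [mem_GP, hn1]
    refine ⟨?_, ?_, hpp, hp4, hPp, hQp⟩
    · show (0 : ℤ) < (a : ℤ)
      exact_mod_cast ha
    · show (0 : ℤ) < (b : ℤ)
      exact_mod_cast hb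
  have hg2 : (⟨b, a⟩ : Gi) ∈ GP P Q := by
    rw [mem_GP, hn2]
    refine ⟨?_, ?_, hpp, hp4, hPp, hQp⟩
    · show (0 : ℤ) < (b : ℤ)
      exact_mod_cast hb
    · show (0 : ℤ) < (a : ℤ)
      exact_mod_cast ha
  have hset : (GP P Q).filter (fun π => nm π = p) = {(⟨a, b⟩ : Gi), ⟨b, a⟩} := by
    ext π
    rw [mem_filter, mem_insert, mem_singleton]
    constructor
    · rintro ⟨h1, h2⟩
      have h3 : π * star π = (⟨a, b⟩ : Gi) * star (⟨a, b⟩ : Gi) := by
        rw [mul_star_self, mul_star_self, h2, hn1]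
      have h4 : π ∣ (⟨a, b⟩ : Gi) * star (⟨a, b⟩ : Gi) := by
        rw [← h3]; exact dvd_mul_right _ _
      rcases (GP_prime h1).dvd_or_dvd h4 with h5 | h5
      · left; exact (GP_eq_of_dvd h1 hg1 h5).symm
      · right
        have h6 : π ∣ (⟨b, a⟩ : Gi) := by
          have h7 : (⟨b, a⟩ : Gi) = star (⟨a, b⟩ : Gi) * ⟨0, 1⟩ := by ext <;> simp
          rw [h7]
          exact Dvd.dvd.mul_right h5 _
        exact (GP_eq_of_dvd h1 hg2 h6).symm
    · rintro (rfl | rfl)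
      · exact ⟨hg1, hn1⟩
      · exact ⟨hg2, hn2⟩
  rw [hset, card_pair]
  intro h
  have := congrArg Zsqrtd.re h
  simp only [Nat.cast_inj] at this
  exact hne this

lemma gp_sum {E : Type} [AddCommMonoid E] {P Q : ℝ} (hP : 0 ≤ P) (h : ℕ → E) :
    ∑ π ∈ GP P Q, h (nm π) = ∑ p ∈ Pm ⌊P⌋₊ ⌊Q⌋₊, 2 • h p := by
  have hmaps : ∀ π ∈ GP P Q, nm π ∈ Pm ⌊P⌋₊ ⌊Q⌋₊ := by
    intro π hπ
    rw [mem_GP] at hπ
    rw [Pm, mem_filter, mem_Ioc]
    exact ⟨⟨(Nat.floor_lt hP).2 hπ.2.2.2.2.1, Nat.le_floor hπ.2.2.2.2.2⟩, hπ.2.2.1, hπ.2.2.2.1⟩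
  rw [← sum_fiberwise_of_maps_to hmaps]
  refine sum_congr rfl fun p hp => ?_
  rw [← fiber_card hP hp, ← Finset.sum_const]
  refine sum_congr rfl fun π hπ => ?_
  rw [(mem_filter.1 hπ).2]


end PG

open PG

theorem specPG : SpecPG := by
  have first : ∀ T : ℝ, 0 < T → ∃ C : ℝ, ∀ P Q : ℝ, 3 ≤ P → P ≤ Q → ∀ t : ℝ, |t| ≤ T →
    ‖(∑ π ∈ GP P Q, ((nm π : ℕ) : ℂ) ^ (-1 - Complex.I * (t : ℂ)))
      - ((Real.log (1 / Real.log P + |t|) - Real.log (1 / Real.log Q + |t|) : ℝ) : ℂ)‖ ≤ C := by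
    intro T hT
    obtain ⟨C, hC0, hC⟩ := classsum 4 (by norm_num) ⟨1, rfl⟩ T hT
    have hfl : ∀ x : ℝ, 3 ≤ x → ∀ t : ℝ,
        |Real.log (1 / Real.log ⌊x⌋₊ + |t|) - Real.log (1 / Real.log x + |t|)| ≤ Real.log 2 := by
      intro x hx t
      have hn : 3 ≤ ⌊x⌋₊ := Nat.le_floor (by push_cast; exact hx)
      have hnR : (3 : ℝ) ≤ (⌊x⌋₊ : ℝ) := by exact_mod_cast hn
      have h1 : (⌊x⌋₊ : ℝ) ≤ x := Nat.floor_le (by linarith)
      have h2 : x < (⌊x⌋₊ : ℝ) + 1 := Nat.lt_floor_add_one x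
      have hl0 : 0 < Real.log ⌊x⌋₊ := log_pos_of hn
      have hl1 : Real.log ⌊x⌋₊ ≤ Real.log x := Real.log_le_log (by linarith) h1
      have hl2 : Real.log x ≤ 2 * Real.log ⌊x⌋₊ := by
        have h3 : x ≤ (⌊x⌋₊ : ℝ) ^ 2 := by nlinarith
        have h4 := Real.log_le_log (by linarith) h3
        rw [Real.log_pow] at h4
        exact_mod_cast h4
      have hlx : 0 < Real.log x := lt_of_lt_of_le hl0 hl1
      have hp1 : 0 < 1 / Real.log x := by positivity
      have i1 : 1 / Real.log x ≤ 1 / Real.log ⌊x⌋₊ := one_div_le_one_div_of_le hl0 hl1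
      have i2 : 1 / Real.log ⌊x⌋₊ ≤ 2 * (1 / Real.log x) := by
        rw [mul_one_div, div_le_div_iff₀ hl0 hlx]
        linarith
      have ht := abs_nonneg t
      have j1 := Real.log_le_log (by positivity : 0 < 1 / Real.log x + |t|)
        (by linarith : 1 / Real.log x + |t| ≤ 1 / Real.log ⌊x⌋₊ + |t|)
      have j2 := Real.log_le_log (by positivity : 0 < 1 / Real.log ⌊x⌋₊ + |t|)
        (by linarith : 1 / Real.log ⌊x⌋₊ + |t| ≤ 2 * (1 / Real.log x + |t|))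
      rw [Real.log_mul (by norm_num) (by positivity)] at j2
      have hlog2 : 0 ≤ Real.log 2 := Real.log_nonneg (by norm_num)
      rw [abs_le]
      constructor <;> linarith
    refine ⟨2 * C + 2 * Real.log 2, fun P Q hP hPQ t ht => ?_⟩
    have hP0 : 0 ≤ P := by linarith
    have hx : 3 ≤ ⌊P⌋₊ := Nat.le_floor (by push_cast; exact hP)
    have hxy : ⌊P⌋₊ ≤ ⌊Q⌋₊ := Nat.floor_mono hPQ
    have h1 := hC (fun _ => 1) (by simp) (by simp) ⌊P⌋₊ ⌊Q⌋₊ hx hxy t ht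
    have hUU : UU 4 = {1} := by decide
    have hphi : Nat.totient 4 = 2 := by decide
    rw [hUU, sum_singleton, hphi] at h1
    have h2 := gp_sum (P := P) (Q := Q) hP0
      (fun n => (n : ℂ) ^ (-1 - Complex.I * (t : ℂ)))
    rw [Finset.sum_nsmul, nsmul_eq_mul] at h2
    have e1 := hfl P hP t
    have e2 := hfl Q (hP.trans hPQ) t
    rw [h2]
    simp only [Complex.ofReal_one, one_mul] at h1
    set S : ℂ := ∑ p ∈ Pm ⌊P⌋₊ ⌊Q⌋₊, (p : ℂ) ^ (-1 - Complex.I * (t : ℂ))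
    have e3 : ((2 : ℕ) : ℂ) * S -
        ((Real.log (1 / Real.log P + |t|) - Real.log (1 / Real.log Q + |t|) : ℝ) : ℂ) =
        2 * (S - ((1 / ((2 : ℕ) : ℝ) * EE ⌊P⌋₊ ⌊Q⌋₊ t : ℝ) : ℂ)) +
        (((Real.log (1 / Real.log ⌊P⌋₊ + |t|) - Real.log (1 / Real.log P + |t|)) -
          (Real.log (1 / Real.log ⌊Q⌋₊ + |t|) - Real.log (1 / Real.log Q + |t|)) : ℝ) : ℂ) := by
      unfold EE
      push_cast
      ring
    rw [e3]
    refine (norm_add_le _ _).trans ?_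
    rw [norm_mul, Complex.norm_real, Real.norm_eq_abs]
    have e4 := abs_sub (Real.log (1 / Real.log ⌊P⌋₊ + |t|) - Real.log (1 / Real.log P + |t|))
      (Real.log (1 / Real.log ⌊Q⌋₊ + |t|) - Real.log (1 / Real.log Q + |t|))
    have e5 : ‖(2 : ℂ)‖ = 2 := by simp
    rw [e5]
    linarith
  refine ⟨first, ?_, ?_, ?_⟩
  · obtain ⟨C, hC⟩ := first 1 one_pos
    refine ⟨C, fun P Q hP hPQ => ?_⟩
    have h1 := hC P Q hP hPQ 0 (by simp)
    have h2 : (∑ π ∈ GP P Q, ((nm π : ℕ) : ℂ) ^ (-1 - Complex.I * ((0 : ℝ) : ℂ))) =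
        ((WW P Q : ℝ) : ℂ) := by
      unfold WW
      push_cast
      refine sum_congr rfl fun p hp => ?_
      simp only [mul_zero, sub_zero]
      rw [Complex.cpow_neg_one, one_div]
    rw [h2, ← Complex.ofReal_sub, Complex.norm_real, Real.norm_eq_abs] at h1
    simp only [abs_zero, add_zero] at h1
    rw [one_div, one_div, Real.log_inv, Real.log_inv] at h1
    have e : WW P Q - (Real.log (Real.log Q) - Real.log (Real.log P)) =
      WW P Q - (-Real.log (Real.log P) - -Real.log (Real.log Q)) := by ring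
    rw [e]
    exact h1
  · refine ⟨2 * Real.exp 1 * Real.log 4, by
      have : 0 < Real.log 4 := Real.log_pos (by norm_num)
      positivity, fun x hx => ?_⟩
    have hx0 : 0 < x := by linarith
    have hlx : 0 < Real.log x := Real.log_pos (by linarith)
    unfold WW
    rw [gp_sum hx0.le (fun n => 1 / (n : ℝ)), Finset.sum_nsmul, nsmul_eq_mul]
    have h1 : ∑ p ∈ Pm ⌊x⌋₊ ⌊Real.exp 1 * x⌋₊, 1 / (p : ℝ) ≤
        ∑ p ∈ Pm ⌊x⌋₊ ⌊Real.exp 1 * x⌋₊, 1 / (x * Real.log x) * Real.log p := by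
      refine sum_le_sum fun p hp => ?_
      rw [Pm, mem_filter, mem_Ioc] at hp
      have hxp : x < p := (Nat.floor_lt hx0.le).1 hp.1.1
      have h2 : Real.log x ≤ Real.log p := Real.log_le_log hx0 hxp.le
      rw [one_div_mul_eq_div, div_le_div_iff₀ (by linarith) (by positivity)]
      calc 1 * (x * Real.log x) = Real.log x * x := by ring
        _ ≤ Real.log p * p := mul_le_mul h2 hxp.le hx0.le (hlx.le.trans h2)
    have h2 : ∑ p ∈ Pm ⌊x⌋₊ ⌊Real.exp 1 * x⌋₊, Real.log p ≤ Chebyshev.theta (Real.exp 1 * x) := by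
      rw [Chebyshev.theta_eq_sum_Icc]
      refine sum_le_sum_of_subset_of_nonneg ?_ ?_
      · intro p hp
        rw [Pm, mem_filter, mem_Ioc] at hp
        rw [mem_filter, mem_Icc]
        exact ⟨⟨by omega, hp.1.2⟩, hp.2.1⟩
      · intro p hp _
        rw [mem_filter] at hp
        exact Real.log_nonneg (by exact_mod_cast hp.2.one_le)
    have h3 := Chebyshev.theta_le_log4_mul_x (x := Real.exp 1 * x) (by positivity)
    rw [← mul_sum] at h1
    calc ((2 : ℕ) : ℝ) * ∑ p ∈ Pm ⌊x⌋₊ ⌊Real.exp 1 * x⌋₊, 1 / (p : ℝ)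
        ≤ 2 * (1 / (x * Real.log x) * (Real.log 4 * (Real.exp 1 * x))) := by
          push_cast
          have := mul_le_mul_of_nonneg_left (h2.trans h3)
            (by positivity : 0 ≤ 1 / (x * Real.log x))
          linarith
      _ = 2 * Real.exp 1 * Real.log 4 / Real.log x := by
          field_simp
  · refine ⟨2 * (2 * Real.log 4 + 2), by
      have : 0 < Real.log 4 := Real.log_pos (by norm_num)
      positivity, fun x hx => ?_⟩
    have hx0 : 0 < x := by linarith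
    have hlx : 0 < Real.log x := Real.log_pos (by linarith)
    have h1 := gp_sum (P := 0) (Q := x) le_rfl (fun _ => (1 : ℝ))
    rw [sum_const, Finset.sum_nsmul, sum_const, nsmul_eq_mul, nsmul_eq_mul, nsmul_eq_mul,
      mul_one, mul_one] at h1
    rw [h1]
    have h2 : (Pm ⌊(0 : ℝ)⌋₊ ⌊x⌋₊).card ≤ Nat.primeCounting ⌊x⌋₊ := by
      rw [Nat.primeCounting, Nat.primeCounting', Nat.count_eq_card_filter_range]
      refine card_le_card fun p hp => ?_
      rw [Pm, mem_filter, mem_Ioc] at hp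
      rw [mem_filter, mem_range]
      exact ⟨by omega, hp.2.1⟩
    have h3 := Chebyshev.pi_le_log4_mul_div (x := x) (by linarith)
    have h4 : Real.log (Real.sqrt x) = Real.log x / 2 := Real.log_sqrt hx0.le
    have h5 : Real.sqrt x ≤ 2 * x / Real.log x := by
      rw [le_div_iff₀ hlx]
      have h6 : Real.log (Real.sqrt x) ≤ Real.sqrt x := by
        have := Real.log_le_sub_one_of_pos (Real.sqrt_pos.2 hx0)
        linarith
      have h7 : Real.log x ≤ 2 * Real.sqrt x := by linarith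
      have h8 : Real.sqrt x * Real.sqrt x = x := Real.mul_self_sqrt hx0.le
      have h9 := Real.sqrt_nonneg x
      nlinarith
    have h2' : ((Pm ⌊(0 : ℝ)⌋₊ ⌊x⌋₊).card : ℝ) ≤ (Nat.primeCounting ⌊x⌋₊ : ℝ) := by
      exact_mod_cast h2
    rw [h4] at h3
    have h10 : Real.log 4 * x / (Real.log x / 2) = 2 * Real.log 4 * x / Real.log x := by
      field_simp
    rw [h10] at h3
    push_cast
    have h11 : 2 * (2 * Real.log 4 + 2) * x / Real.log x =
        2 * (2 * Real.log 4 * x / Real.log x + 2 * x / Real.log x) := by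
      field_simp
    rw [h11]
    have h12 := (h2'.trans h3).trans (add_le_add_right h5 _)
    exact mul_le_mul_of_nonneg_left h12 (by norm_num)

end Pool.Agent.Lib.MP391708.MR
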