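import Pool.Agent.Lib.MP_391708_nt.MR.Spec
import Pool.Agent.Lib.MP_391708_nt.MR.Basic

/-!
# PLAN: discrete Plancherel
-/

set_option autoImplicit false

namespace Pool.Agent.Lib.MP391708.MR

namespace PlanM

open Finset Filter Topology MeasureTheory
open scoped ComplexConjugate

/-- `e(x)` -/
noncomputable def ex (x : ℝ) : ℂ := Complex.exp (((2 * Real.pi * x : ℝ) : ℂ) * Complex.I)

lemma norm_ex (x : ℝ) : ‖ex x‖ = 1 := Complex.norm_exp_ofReal_mul_I _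

lemma ex_add (x y : ℝ) : ex (x + y) = ex x * ex y := by
  unfold ex
  rw [← Complex.exp_add]
  congr 1
  push_cast
  ring

lemma ex_zero : ex 0 = 1 := by unfold ex; simp

lemma conj_ex (x : ℝ) : conj (ex x) = ex (-x) := by
  unfold ex
  rw [← Complex.exp_conj, map_mul, Complex.conj_ofReal, Complex.conj_I]
  congr 1
  push_cast
  ring

lemma ex_nat_mul (n : ℕ) (x : ℝ) : ex (n * x) = ex x ^ n := by
  unfold ex
  rw [← Complex.exp_nat_mul]
  congr 1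
  push_cast
  ring

lemma continuous_ex : Continuous ex := by
  unfold ex
  fun_prop

lemma int_ex (j : ℤ) :
    ∫ θ in (-(1 / 2) : ℝ)..(1 / 2), ex (j * θ) = if j = 0 then 1 else 0 := by
  split_ifs with h
  · subst h
    simp [ex_zero]
    norm_num
  · set c : ℂ := 2 * Real.pi * Complex.I * j with hc
    have hc0 : c ≠ 0 := by
      rw [hc]
      simp [h, Real.pi_ne_zero]
    have h1 : ∀ θ : ℝ, ex (j * θ) = Complex.exp (c * θ) := by
      intro θ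
      unfold ex
      congr 1
      rw [hc]; push_cast; ring
    simp_rw [h1]
    rw [integral_exp_mul_complex hc0]
    have h2 : Complex.exp (c * ((1 / 2 : ℝ) : ℂ)) = Complex.exp (c * ((-(1 / 2) : ℝ) : ℂ)) := by
      rw [Complex.exp_eq_exp_iff_exists_int]
      refine ⟨j, ?_⟩
      rw [hc]; push_cast; ring
    rw [h2, sub_self, zero_div]

/-- trigonometric polynomial -/
noncomputable def ft (A : Finset ℤ) (a : ℤ → ℂ) (θ : ℝ) : ℂ := ∑ n ∈ A, a n * ex (-(n * θ))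

lemma continuous_ft (A : Finset ℤ) (a : ℤ → ℂ) : Continuous (ft A a) := by
  unfold ft
  refine continuous_finsetSum _ fun n _ => ?_
  exact continuous_const.mul (continuous_ex.comp (by fun_prop))

/-- Parseval -/
lemma pars (A : Finset ℤ) (a : ℤ → ℂ) :
    ∫ θ in (-(1 / 2) : ℝ)..(1 / 2), ‖ft A a θ‖ ^ 2 = ∑ n ∈ A, ‖a n‖ ^ 2 := by
  have h1 : ∀ θ : ℝ, ((‖ft A a θ‖ ^ 2 : ℝ) : ℂ) =
      ∑ n ∈ A, ∑ m ∈ A, a n * conj (a m) * ex (((m - n : ℤ) : ℝ) * θ) := by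
    intro θ
    have h2 : ((‖ft A a θ‖ ^ 2 : ℝ) : ℂ) = ft A a θ * conj (ft A a θ) := by
      rw [Complex.mul_conj, Complex.normSq_eq_norm_sq]
    rw [h2]
    unfold ft
    rw [map_sum, sum_mul_sum]
    refine sum_congr rfl fun n _ => sum_congr rfl fun m _ => ?_
    rw [map_mul, conj_ex, neg_neg]
    have h3 : ex (((m - n : ℤ) : ℝ) * θ) = ex (-(n * θ)) * ex (m * θ) := by
      rw [← ex_add]
      congr 1
      push_cast
      ring
    rw [h3]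
    ring
  have h4 : ((∫ θ in (-(1 / 2) : ℝ)..(1 / 2), ‖ft A a θ‖ ^ 2 : ℝ) : ℂ) =
      ((∑ n ∈ A, ‖a n‖ ^ 2 : ℝ) : ℂ) := by
    rw [← intervalIntegral.integral_ofReal]
    simp_rw [h1]
    rw [intervalIntegral.integral_finsetSum]
    · rw [Complex.ofReal_sum]
      refine sum_congr rfl fun n hn => ?_
      rw [intervalIntegral.integral_finsetSum]
      · have h5 : ∀ m : ℤ, ∫ θ in (-(1 / 2) : ℝ)..(1 / 2),
            a n * conj (a m) * ex (((m - n : ℤ) : ℝ) * θ) =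
            a n * conj (a m) * (if m - n = 0 then 1 else 0) := by
          intro m
          rw [intervalIntegral.integral_const_mul, int_ex]
        simp_rw [h5]
        rw [sum_eq_single n]
        · rw [if_pos (sub_self n), mul_one, Complex.mul_conj, Complex.normSq_eq_norm_sq]
        · intro m _ hm
          rw [if_neg (sub_ne_zero.2 hm), mul_zero]
        · intro h; exact absurd hn h
      · intro m _
        apply Continuous.intervalIntegrable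
        exact continuous_const.mul (continuous_ex.comp (by fun_prop))
    · intro n _
      apply Continuous.intervalIntegrable
      refine continuous_finsetSum _ fun m _ => ?_
      exact continuous_const.mul (continuous_ex.comp (by fun_prop))
  exact_mod_cast h4

lemma ft_shift (H : ℤ → ℂ) (N M j : ℕ) (hH : ∀ n : ℤ, (n < 0 ∨ (N : ℤ) < n) → H n = 0)
    (hj : N + j ≤ M) (θ : ℝ) : ft (Icc (0 : ℤ) M) (fun n => H (n - j)) θ =
      ex (-(j * θ)) * ft (Icc (0 : ℤ) M) H θ := by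
  unfold ft
  have h1 : ∑ n ∈ Icc (0 : ℤ) M, H (n - j) * ex (-(n * θ)) =
      ∑ n ∈ Icc (j : ℤ) (N + j), H (n - j) * ex (-(n * θ)) := by
    symm
    apply sum_subset
    · intro n hn
      rw [mem_Icc] at hn ⊢
      constructor <;> omega
    · intro n hn hn'
      rw [mem_Icc] at hn hn'
      rw [hH (n - j) (by omega), zero_mul]
  have h2 : ∑ n ∈ Icc (0 : ℤ) M, H n * ex (-(n * θ)) =
      ∑ n ∈ Icc (0 : ℤ) N, H n * ex (-(n * θ)) := by
    symm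
    apply sum_subset
    · intro n hn
      rw [mem_Icc] at hn ⊢
      constructor <;> omega
    · intro n hn hn'
      rw [mem_Icc] at hn hn'
      rw [hH n (by omega), zero_mul]
  rw [h1, h2, mul_sum]
  refine sum_bij' (fun n _ => n - j) (fun n _ => n + j) ?_ ?_ ?_ ?_ ?_
  · intro n hn; rw [mem_Icc] at hn ⊢; omega
  · intro n hn; rw [mem_Icc] at hn ⊢; omega
  · intro n _; ring
  · intro n _; ring
  · intro n _
    have h3 : ex (-(n * θ)) = ex (-(j * θ)) * ex (-(((n - j : ℤ) : ℝ) * θ)) := by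
      rw [← ex_add]
      congr 1
      push_cast
      ring
    rw [h3]
    ring

/-- the high frequencies -/
lemma high (θ θ₀ : ℝ) (S : ℕ) (h0 : 0 < θ₀) (h1 : θ₀ < |θ|) (h2 : |θ| ≤ 1 / 2)
    (hS : 1 / θ₀ ≤ S) : (S : ℝ) ≤ ∑ s ∈ Icc 1 S, ‖ex (-((s : ℕ) * θ)) - 1‖ ^ 2 := by
  set z := ex (-θ) with hz
  have hz1 : ‖z‖ = 1 := norm_ex _
  have e1 : ∀ s : ℕ, ex (-((s : ℕ) * θ)) = z ^ s := by
    intro s
    rw [hz, ← ex_nat_mul]; congr 1; ring
  have e2 : ∀ s : ℕ, ‖ex (-((s : ℕ) * θ)) - 1‖ ^ 2 = 2 - 2 * (z ^ s).re := by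
    intro s
    rw [e1 s]
    have h3 : ‖z ^ s‖ ^ 2 = 1 := by rw [norm_pow, hz1, one_pow, one_pow]
    rw [← Complex.normSq_eq_norm_sq, Complex.normSq_apply] at h3 ⊢
    simp only [Complex.sub_re, Complex.one_re, Complex.sub_im, Complex.one_im]
    nlinarith
  simp_rw [e2]
  rw [sum_sub_distrib, ← mul_sum, ← Complex.re_sum]
  have e3 : ‖z - 1‖ ≥ 4 * |θ| := by
    have h3 : z = Complex.exp (Complex.I * ((-(2 * Real.pi * θ) : ℝ) : ℂ)) := by
      rw [hz]; unfold ex; congr 1; push_cast; ring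
    rw [h3, Complex.norm_exp_I_mul_ofReal_sub_one]
    have h4 : ‖2 * Real.sin (-(2 * Real.pi * θ) / 2)‖ = 2 * Real.sin (Real.pi * |θ|) := by
      have h5 : -(2 * Real.pi * θ) / 2 = -(Real.pi * θ) := by ring
      rw [h5, Real.sin_neg, norm_mul, norm_neg, Real.norm_eq_abs, Real.norm_eq_abs, abs_two]
      congr 1
      have hs : 0 ≤ Real.sin (Real.pi * |θ|) := by
        apply Real.sin_nonneg_of_nonneg_of_le_pi
        · positivity
        · nlinarith [Real.pi_pos]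
      rcases abs_cases θ with ⟨h6, _⟩ | ⟨h6, _⟩
      · rw [h6] at hs ⊢; exact abs_of_nonneg hs
      · rw [h6] at hs ⊢
        rw [mul_neg, Real.sin_neg] at hs ⊢
        exact abs_of_nonpos (by linarith)
    rw [h4]
    have h5 := Real.mul_le_sin (x := Real.pi * |θ|) (by positivity)
      (by nlinarith [Real.pi_pos])
    have h6 : 2 / Real.pi * (Real.pi * |θ|) = 2 * |θ| := by
      field_simp
    rw [h6] at h5
    linarith
  have hz2 : z - 1 ≠ 0 := by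
    intro h
    rw [h, norm_zero] at e3
    linarith
  have e4 : ‖∑ s ∈ Icc 1 S, z ^ s‖ ≤ 2 / (4 * |θ|) := by
    have h3 : (∑ s ∈ Icc 1 S, z ^ s) * (z - 1) = z * (z ^ S - 1) := by
      have h4 : ∑ s ∈ Icc 1 S, z ^ s = z * ∑ s ∈ range S, z ^ s := by
        rw [mul_sum]
        refine sum_bij' (fun s _ => s - 1) (fun s _ => s + 1) ?_ ?_ ?_ ?_ ?_
        · intro s hs; rw [mem_Icc] at hs; rw [mem_range]; omega
        · intro s hs; rw [mem_range] at hs; rw [mem_Icc]; omega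
        · intro s hs; rw [mem_Icc] at hs; omega
        · intro s _; omega
        · intro s hs
          rw [mem_Icc] at hs
          rw [← pow_succ', Nat.sub_add_cancel hs.1]
      rw [h4, mul_assoc, geom_sum_mul]
    have h4 : ‖∑ s ∈ Icc 1 S, z ^ s‖ * ‖z - 1‖ ≤ 2 := by
      rw [← norm_mul, h3, norm_mul, hz1, one_mul]
      have := norm_sub_le (z ^ S) 1
      rw [norm_pow, hz1, one_pow, norm_one] at this
      linarith
    rw [le_div_iff₀ (by linarith)]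
    exact (mul_le_mul_of_nonneg_left e3 (norm_nonneg _)).trans h4
  have e5 : (∑ s ∈ Icc 1 S, z ^ s).re ≤ S / 2 := by
    refine (Complex.re_le_norm _).trans (e4.trans ?_)
    rw [div_le_iff₀ h0] at hS
    rw [div_le_iff₀ (by linarith)]
    nlinarith [Nat.cast_nonneg (α := ℝ) S]
  rw [sum_const, Nat.card_Icc]
  simp only [Nat.add_sub_cancel, nsmul_eq_mul]
  linarith

/-- the pointwise inequality -/
lemma pw (X Y m : ℂ) (hXY : X * m = Y) (c θ θ₀ : ℝ) (S : ℕ) (hc : 0 < c)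
    (hm : |θ| ≤ θ₀ → c / 2 ≤ ‖m‖) (h2 : |θ| ≤ 1 / 2) (h0 : 0 < θ₀) (hS : 1 / θ₀ ≤ S) :
    ‖X‖ ^ 2 ≤ (4 / c ^ 2) * ‖Y‖ ^ 2 +
      (1 / S) * ∑ s ∈ Icc 1 S, ‖(ex (-((s : ℕ) * θ)) - 1) * X‖ ^ 2 := by
  have hS0 : (0 : ℝ) < S := lt_of_lt_of_le (by positivity) hS
  rcases le_or_gt |θ| θ₀ with h | h
  · have h1 := hm h
    have h3 : ‖X‖ * (c / 2) ≤ ‖Y‖ := by
      rw [← hXY, norm_mul]
      exact mul_le_mul_of_nonneg_left h1 (norm_nonneg _)
    have h4 : ‖X‖ ^ 2 ≤ (4 / c ^ 2) * ‖Y‖ ^ 2 := by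
      have h5 : (‖X‖ * (c / 2)) ^ 2 ≤ ‖Y‖ ^ 2 := pow_le_pow_left₀ (by positivity) h3 2
      have h6 : ‖X‖ ^ 2 = (4 / c ^ 2) * (‖X‖ * (c / 2)) ^ 2 := by
        field_simp
        ring
      rw [h6]
      exact mul_le_mul_of_nonneg_left h5 (by positivity)
    have h5 : 0 ≤ (1 / (S : ℝ)) * ∑ s ∈ Icc 1 S, ‖(ex (-((s : ℕ) * θ)) - 1) * X‖ ^ 2 := by
      positivity
    linarith
  · have h1 := high θ θ₀ S h0 h h2 hS
    have h3 : ∑ s ∈ Icc 1 S, ‖(ex (-((s : ℕ) * θ)) - 1) * X‖ ^ 2 =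
        (∑ s ∈ Icc 1 S, ‖ex (-((s : ℕ) * θ)) - 1‖ ^ 2) * ‖X‖ ^ 2 := by
      rw [sum_mul]
      refine sum_congr rfl fun s _ => ?_
      rw [norm_mul, mul_pow]
    rw [h3]
    have h4 : ‖X‖ ^ 2 ≤ (1 / (S : ℝ)) *
        ((∑ s ∈ Icc 1 S, ‖ex (-((s : ℕ) * θ)) - 1‖ ^ 2) * ‖X‖ ^ 2) := by
      rw [← mul_assoc]
      have h5 : 1 ≤ (1 / (S : ℝ)) * (∑ s ∈ Icc 1 S, ‖ex (-((s : ℕ) * θ)) - 1‖ ^ 2) := by
        rw [one_div, ← div_eq_inv_mul, le_div_iff₀ hS0]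
        linarith
      nlinarith [sq_nonneg ‖X‖]
    have h5 : 0 ≤ (4 / c ^ 2) * ‖Y‖ ^ 2 := by positivity
    linarith

/-- the integrated inequality -/
lemma circle (H R : ℤ → ℂ) (N M S : ℕ) (c θ₀ : ℝ) (m : ℝ → ℂ)
    (hH : ∀ n : ℤ, (n < 0 ∨ (N : ℤ) < n) → H n = 0) (hM : N + S ≤ M) (hc : 0 < c)
    (hR : ∀ θ : ℝ, ft (Icc (0 : ℤ) M) H θ * m θ = ft (Icc (0 : ℤ) M) R θ)
    (hm : ∀ θ : ℝ, |θ| ≤ θ₀ → c / 2 ≤ ‖m θ‖) (h0 : 0 < θ₀) (hS : 1 / θ₀ ≤ S) :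
    ∑ n ∈ Icc (0 : ℤ) M, ‖H n‖ ^ 2 ≤ (4 / c ^ 2) * ∑ n ∈ Icc (0 : ℤ) M, ‖R n‖ ^ 2 +
      (1 / S) * ∑ s ∈ Icc 1 S, ∑ n ∈ Icc (0 : ℤ) M, ‖H (n - (s : ℕ)) - H n‖ ^ 2 := by
  have h1 : ∀ θ ∈ Set.Icc (-(1 / 2) : ℝ) (1 / 2), ‖ft (Icc (0 : ℤ) M) H θ‖ ^ 2 ≤
      (4 / c ^ 2) * ‖ft (Icc (0 : ℤ) M) R θ‖ ^ 2 +
      (1 / S) * ∑ s ∈ Icc 1 S, ‖ft (Icc (0 : ℤ) M) (fun n => H (n - (s : ℕ)) - H n) θ‖ ^ 2 := by
    intro θ hθ
    have h2 := pw _ _ _ (hR θ) c θ θ₀ S hc (hm θ) (abs_le.2 ⟨by linarith [hθ.1], hθ.2⟩) h0 hS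
    refine h2.trans (le_of_eq ?_)
    congr 2
    refine sum_congr rfl fun s hs => ?_
    congr 2
    rw [mem_Icc] at hs
    have h3 := ft_shift H N M s hH (by omega) θ
    have h4 : ft (Icc (0 : ℤ) M) (fun n => H (n - (s : ℕ)) - H n) θ =
        ft (Icc (0 : ℤ) M) (fun n => H (n - (s : ℕ))) θ - ft (Icc (0 : ℤ) M) H θ := by
      unfold ft
      rw [← sum_sub_distrib]
      refine sum_congr rfl fun n _ => by ring
    rw [h4, h3]
    ring
  have hcont : ∀ a : ℤ → ℂ, Continuous fun θ : ℝ => ‖ft (Icc (0 : ℤ) M) a θ‖ ^ 2 := fun a =>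
    (continuous_ft _ a).norm.pow 2
  have hcs : Continuous fun θ : ℝ =>
      ∑ s ∈ Icc 1 S, ‖ft (Icc (0 : ℤ) M) (fun n => H (n - (s : ℕ)) - H n) θ‖ ^ 2 :=
    continuous_finsetSum _ fun s _ => hcont _
  have hc1 : Continuous fun θ : ℝ => (4 / c ^ 2) * ‖ft (Icc (0 : ℤ) M) R θ‖ ^ 2 :=
    continuous_const.mul (hcont R)
  have hc2 : Continuous fun θ : ℝ => (1 / (S : ℝ)) *
      ∑ s ∈ Icc 1 S, ‖ft (Icc (0 : ℤ) M) (fun n => H (n - (s : ℕ)) - H n) θ‖ ^ 2 :=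
    continuous_const.mul hcs
  have h5 : ∫ θ in (-(1 / 2) : ℝ)..(1 / 2), ‖ft (Icc (0 : ℤ) M) H θ‖ ^ 2 ≤
      ∫ θ in (-(1 / 2) : ℝ)..(1 / 2), ((4 / c ^ 2) * ‖ft (Icc (0 : ℤ) M) R θ‖ ^ 2 +
      (1 / S) * ∑ s ∈ Icc 1 S, ‖ft (Icc (0 : ℤ) M) (fun n => H (n - (s : ℕ)) - H n) θ‖ ^ 2) :=
    intervalIntegral.integral_mono_on
      (by norm_num : (-(1 / 2) : ℝ) ≤ 1 / 2) ((hcont H).intervalIntegrable _ _)
      ((hc1.add hc2).intervalIntegrable _ _) h1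
  rw [intervalIntegral.integral_add (hc1.intervalIntegrable _ _) (hc2.intervalIntegrable _ _),
    intervalIntegral.integral_const_mul, intervalIntegral.integral_const_mul,
    intervalIntegral.integral_finsetSum (fun s _ => (hcont _).intervalIntegrable _ _),
    pars, pars] at h5
  simp_rw [pars] at h5
  exact h5

/-! ### Jensen -/

lemma jensen (E : Finset Gi) (w : Gi → ℝ) (hw : ∀ i ∈ E, 0 < w i) (hE : E.Nonempty)
    (z : Gi → ℂ) : ‖(1 / ((∑ i ∈ E, w i : ℝ) : ℂ)) * ∑ i ∈ E, (w i : ℂ) * z i‖ ^ 2 ≤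
      (1 / ∑ i ∈ E, w i) * ∑ i ∈ E, w i * ‖z i‖ ^ 2 := by
  have hW : 0 < ∑ i ∈ E, w i := sum_pos hw hE
  set W := ∑ i ∈ E, w i with hWd
  have h1 : ‖∑ i ∈ E, (w i : ℂ) * z i‖ ≤ ∑ i ∈ E, w i * ‖z i‖ := by
    refine (norm_sum_le _ _).trans (sum_le_sum fun i hi => ?_)
    rw [norm_mul, Complex.norm_real, Real.norm_eq_abs, abs_of_pos (hw i hi)]
  have h2 : (∑ i ∈ E, w i * ‖z i‖) ^ 2 ≤ W * ∑ i ∈ E, w i * ‖z i‖ ^ 2 := by
    apply sum_sq_le_sum_mul_sum_of_sq_le_mul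
    · intro i hi; exact (hw i hi).le
    · intro i hi; have := (hw i hi).le; positivity
    · intro i _; exact le_of_eq (by ring)
  rw [norm_mul, norm_div, norm_one, Complex.norm_real, Real.norm_eq_abs, abs_of_pos hW, mul_pow]
  have h3 : ‖∑ i ∈ E, (w i : ℂ) * z i‖ ^ 2 ≤ W * ∑ i ∈ E, w i * ‖z i‖ ^ 2 :=
    (pow_le_pow_left₀ (norm_nonneg _) h1 2).trans h2
  calc (1 / W) ^ 2 * ‖∑ i ∈ E, (w i : ℂ) * z i‖ ^ 2
      ≤ (1 / W) ^ 2 * (W * ∑ i ∈ E, w i * ‖z i‖ ^ 2) := mul_le_mul_of_nonneg_left h3 (by positivity)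
    _ = (1 / W) * ∑ i ∈ E, w i * ‖z i‖ ^ 2 := by field_simp

lemma jensenU (U : Finset ℤ) (E : Finset Gi) (w : Gi → ℝ) (hw : ∀ i ∈ E, 0 < w i)
    (hE : E.Nonempty) (z : ℤ → Gi → ℂ) (B : ℝ) (hz : ∀ i ∈ E, ∑ k ∈ U, ‖z k i‖ ^ 2 ≤ B) :
    ∑ k ∈ U, ‖(1 / ((∑ i ∈ E, w i : ℝ) : ℂ)) * ∑ i ∈ E, (w i : ℂ) * z k i‖ ^ 2 ≤ B := by
  have hW : 0 < ∑ i ∈ E, w i := sum_pos hw hE
  calc ∑ k ∈ U, ‖(1 / ((∑ i ∈ E, w i : ℝ) : ℂ)) * ∑ i ∈ E, (w i : ℂ) * z k i‖ ^ 2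
      ≤ ∑ k ∈ U, (1 / ∑ i ∈ E, w i) * ∑ i ∈ E, w i * ‖z k i‖ ^ 2 :=
        sum_le_sum fun k _ => jensen E w hw hE (z k)
    _ = (1 / ∑ i ∈ E, w i) * ∑ i ∈ E, w i * ∑ k ∈ U, ‖z k i‖ ^ 2 := by
        rw [← mul_sum, sum_comm]
        simp_rw [mul_sum]
    _ ≤ (1 / ∑ i ∈ E, w i) * ∑ i ∈ E, w i * B := by
        apply mul_le_mul_of_nonneg_left _ (by positivity)
        exact sum_le_sum fun i hi => mul_le_mul_of_nonneg_left (hz i hi) (hw i hi).le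
    _ = B := by
        rw [← sum_mul]; field_simp

/-! ### the trapezoid -/

/-- trapezoid -/
noncomputable def ch (N : ℕ) (lm : ℝ) (n : ℤ) : ℝ :=
  max 0 (min 1 (min ((n : ℝ) / lm) (((N : ℝ) - n) / lm)))

lemma ch_nonneg (N : ℕ) (lm : ℝ) (n : ℤ) : 0 ≤ ch N lm n := le_max_left _ _

lemma ch_le_one (N : ℕ) (lm : ℝ) (n : ℤ) : ch N lm n ≤ 1 :=
  max_le zero_le_one (min_le_left _ _)

lemma ch_zero {N : ℕ} {lm : ℝ} (hl : 0 < lm) {n : ℤ} (h : n ≤ 0 ∨ (N : ℤ) ≤ n) :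
    ch N lm n = 0 := by
  unfold ch
  apply max_eq_left
  rcases h with h | h
  · refine (min_le_right _ _).trans ((min_le_left _ _).trans ?_)
    have : (n : ℝ) ≤ 0 := by exact_mod_cast h
    exact div_nonpos_of_nonpos_of_nonneg this hl.le
  · refine (min_le_right _ _).trans ((min_le_right _ _).trans ?_)
    have : ((N : ℤ) : ℝ) ≤ (n : ℝ) := by exact_mod_cast h
    push_cast at this
    exact div_nonpos_of_nonpos_of_nonneg (by linarith) hl.le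

lemma ch_one {N : ℕ} {lm : ℝ} (hl : 0 < lm) {n : ℤ} (h1 : lm ≤ n) (h2 : (n : ℝ) ≤ N - lm) :
    ch N lm n = 1 := by
  unfold ch
  have h3 : 1 ≤ (n : ℝ) / lm := by rw [le_div_iff₀ hl]; linarith
  have h4 : 1 ≤ ((N : ℝ) - n) / lm := by rw [le_div_iff₀ hl]; linarith
  rw [min_eq_left (le_min h3 h4), max_eq_right zero_le_one]

lemma ch_lip (N : ℕ) {lm : ℝ} (hl : 0 < lm) (n m : ℤ) :
    |ch N lm n - ch N lm m| ≤ |(n : ℝ) - m| / lm := by
  unfold ch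
  refine (abs_max_sub_max_le_max _ _ _ _).trans ?_
  have h0 : 0 ≤ |(n : ℝ) - m| / lm := by positivity
  apply max_le
  · rw [sub_self, abs_zero]; exact h0
  refine (abs_min_sub_min_le_max _ _ _ _).trans ?_
  apply max_le
  · rw [sub_self, abs_zero]; exact h0
  refine (abs_min_sub_min_le_max _ _ _ _).trans ?_
  apply max_le
  · rw [← sub_div, abs_div, abs_of_pos hl]
  · rw [← sub_div, abs_div, abs_of_pos hl]
    apply div_le_div_of_nonneg_right _ hl.le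
    rw [sub_sub_sub_cancel_left, abs_sub_comm]

lemma exp_sub_le (x y : ℝ) : ‖Complex.exp (-(Complex.I * x)) - Complex.exp (-(Complex.I * y))‖ ≤
    |x - y| := by
  have h1 : Complex.exp (-(Complex.I * x)) - Complex.exp (-(Complex.I * y)) =
      Complex.exp (-(Complex.I * y)) * (Complex.exp (Complex.I * ((y - x : ℝ) : ℂ)) - 1) := by
    rw [mul_sub, ← Complex.exp_add, mul_one]
    congr 2
    push_cast
    ring
  have h2 : ‖Complex.exp (-(Complex.I * y))‖ = 1 := by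
    have : -(Complex.I * (y : ℂ)) = ((-y : ℝ) : ℂ) * Complex.I := by push_cast; ring
    rw [this, Complex.norm_exp_ofReal_mul_I]
  rw [h1, norm_mul, h2, one_mul]
  refine Real.norm_exp_I_mul_ofReal_sub_one_le.trans ?_
  rw [Real.norm_eq_abs, abs_sub_comm]

lemma sq_add_le (x y : ℂ) : ‖x + y‖ ^ 2 ≤ 2 * ‖x‖ ^ 2 + 2 * ‖y‖ ^ 2 := by
  have h := norm_add_le x y
  have h2 : ‖x + y‖ ^ 2 ≤ (‖x‖ + ‖y‖) ^ 2 := pow_le_pow_left₀ (norm_nonneg _) h 2
  nlinarith [sq_nonneg (‖x‖ - ‖y‖)]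

/-- the core estimate, with explicit parameters -/
lemma core (U : Finset ℤ) (F : ℤ → ℝ → ℂ) (E : Finset Gi) (w lg : Gi → ℝ) (g : ℤ → Gi → ℂ)
    (a Λ D τ ρ c T₀ lm : ℝ) (N S J : ℕ) (hD : 0 < D) (hΛ : 0 ≤ Λ) (hτ : 0 < τ) (hτ1 : τ ≤ 1)
    (hρ : 0 < ρ) (hc : 0 < c) (hT₀ : 0 < T₀) (hlm : 0 < lm) (hτT : T₀ * τ ≤ c / 2)
    (hS : 2 * Real.pi / (T₀ * τ) ≤ S) (hSτ : S * τ ≤ 1) (hJ : J = ⌊Λ / τ⌋₊)
    (hE : E.Nonempty) (hwl : ∀ i ∈ E, 0 < w i ∧ 0 ≤ lg i ∧ lg i ≤ Λ) (hg : ∀ k i, ‖g k i‖ ≤ 1)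
    (h1 : ∀ y : ℝ, a - Λ - 1 ≤ y → y ≤ a + N * τ + 1 → ∑ k ∈ U, ‖F k y‖ ^ 2 ≤ D)
    (h2 : ∀ y y' : ℝ, a - Λ - 1 ≤ y → y ≤ y' → y' ≤ y + 1 → y' ≤ a + N * τ + 1 →
      ∑ k ∈ U, ‖F k y' - F k y‖ ^ 2 ≤ D * ((y' - y) ^ 2 + ρ))
    (h3 : ∀ y : ℝ, a ≤ y → y ≤ a + N * τ →
      ∑ k ∈ U, ‖F k y - (1 / ((∑ i ∈ E, w i : ℝ) : ℂ)) *
        ∑ i ∈ E, (w i : ℂ) * g k i * F k (y - lg i)‖ ^ 2 ≤ D * ρ)
    (h4 : ∀ k ∈ U, ∀ t : ℝ, |t| ≤ T₀ → c * (∑ i ∈ E, w i) ≤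
      ‖((∑ i ∈ E, w i : ℝ) : ℂ) -
        ∑ i ∈ E, (w i : ℂ) * g k i * Complex.exp (-(Complex.I * t * lg i))‖) :
    ∑ n ∈ Icc (0 : ℤ) (N + J + S : ℕ), ∑ k ∈ U, ‖(ch N lm n : ℂ) * F k (a + n * τ)‖ ^ 2 ≤
      (4 / c ^ 2) * (((N + J + S : ℕ) + 1) * (D * (8 * ρ + 4 * τ ^ 2 + 2 * (J / lm) ^ 2))) +
      ((N + J + S : ℕ) + 1) * (D * (2 * ((S * τ) ^ 2 + ρ) + 2 * (S / lm) ^ 2)) := by
  classical
  set M : ℕ := N + J + S with hM
  set W : ℝ := ∑ i ∈ E, w i with hWd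
  have hw : ∀ i ∈ E, 0 < w i := fun i hi => (hwl i hi).1
  have hW : 0 < W := sum_pos hw hE
  have hWc : (W : ℂ) ≠ 0 := by exact_mod_cast hW.ne'
  set G : ℤ → ℤ → ℂ := fun k n => F k (a + n * τ) with hG
  set H : ℤ → ℤ → ℂ := fun k n => (ch N lm n : ℂ) * G k n with hH
  set jj : Gi → ℕ := fun i => ⌊lg i / τ⌋₊ with hjj
  have hjjJ : ∀ i ∈ E, jj i ≤ J := by
    intro i hi
    rw [hJ]
    apply Nat.floor_le_floor
    exact div_le_div_of_nonneg_right (hwl i hi).2.2 hτ.le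
  have hjj1 : ∀ i ∈ E, (jj i : ℝ) * τ ≤ lg i := by
    intro i hi
    have := Nat.floor_le (div_nonneg (hwl i hi).2.1 hτ.le)
    rwa [le_div_iff₀ hτ] at this
  have hjj2 : ∀ i ∈ E, lg i < ((jj i : ℝ) + 1) * τ := by
    intro i _
    have := Nat.lt_floor_add_one (lg i / τ)
    rwa [div_lt_iff₀ hτ] at this
  have hH0 : ∀ k, ∀ n : ℤ, (n < 0 ∨ (N : ℤ) < n) → H k n = 0 := by
    intro k n hn
    rw [hH]
    simp only
    rw [ch_zero hlm (by omega)]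
    simp
  set R : ℤ → ℤ → ℂ := fun k n => H k n - (1 / (W : ℂ)) *
    ∑ i ∈ E, (w i : ℂ) * g k i * H k (n - (jj i : ℕ)) with hR
  set m : ℤ → ℝ → ℂ := fun k θ => 1 - (1 / (W : ℂ)) *
    ∑ i ∈ E, (w i : ℂ) * g k i * ex (-((jj i : ℕ) * θ)) with hm
  have hft : ∀ k, ∀ θ : ℝ, ft (Icc (0 : ℤ) M) (H k) θ * m k θ = ft (Icc (0 : ℤ) M) (R k) θ := by
    intro k θ
    have e1 : ft (Icc (0 : ℤ) M) (R k) θ = ft (Icc (0 : ℤ) M) (H k) θ - (1 / (W : ℂ)) *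
        ∑ i ∈ E, (w i : ℂ) * g k i * ft (Icc (0 : ℤ) M) (fun n => H k (n - (jj i : ℕ))) θ := by
      unfold ft
      simp_rw [mul_sum]
      rw [sum_comm, ← sum_sub_distrib]
      refine sum_congr rfl fun n _ => ?_
      rw [hR]
      simp only
      rw [sub_mul, mul_sum, sum_mul]
      congr 1
      refine sum_congr rfl fun i _ => by ring
    rw [e1, hm]
    simp only
    rw [mul_sub, mul_one]
    congr 1
    rw [mul_left_comm, mul_sum]
    congr 1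
    refine sum_congr rfl fun i hi => ?_
    have := hjjJ i hi
    rw [ft_shift (H k) N M (jj i) (hH0 k) (by omega) θ]
    ring
  have hlow : ∀ k ∈ U, ∀ θ : ℝ, |θ| ≤ T₀ * τ / (2 * Real.pi) → c / 2 ≤ ‖m k θ‖ := by
    intro k hk θ hθ
    set t : ℝ := 2 * Real.pi * θ / τ with ht
    have htT : |t| ≤ T₀ := by
      rw [ht, abs_div, abs_of_pos hτ, abs_mul, abs_of_pos Real.two_pi_pos, div_le_iff₀ hτ]
      rw [le_div_iff₀ Real.two_pi_pos] at hθ
      linarith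
    have e1 := h4 k hk t htT
    have e2 : ∀ i ∈ E, ‖(w i : ℂ) * g k i * Complex.exp (-(Complex.I * t * lg i)) -
        (w i : ℂ) * g k i * ex (-((jj i : ℕ) * θ))‖ ≤ w i * (T₀ * τ) := by
      intro i hi
      have hwi := hw i hi
      rw [← mul_sub, norm_mul, norm_mul, Complex.norm_real, Real.norm_eq_abs, abs_of_pos hwi]
      have e3 : ex (-((jj i : ℕ) * θ)) =
          Complex.exp (-(Complex.I * ((t * ((jj i : ℕ) * τ) : ℝ) : ℂ))) := by
        unfold ex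
        congr 1
        rw [ht]
        have : (τ : ℂ) ≠ 0 := by exact_mod_cast hτ.ne'
        push_cast
        field_simp
      have e4 : Complex.exp (-(Complex.I * t * lg i)) =
          Complex.exp (-(Complex.I * ((t * lg i : ℝ) : ℂ))) := by
        congr 1; push_cast; ring
      rw [e3, e4]
      have e5 := exp_sub_le (t * lg i) (t * ((jj i : ℕ) * τ))
      have e6 : |t * lg i - t * ((jj i : ℕ) * τ)| ≤ T₀ * τ := by
        rw [← mul_sub, abs_mul]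
        apply mul_le_mul htT _ (abs_nonneg _) hT₀.le
        have := hjj1 i hi
        have := hjj2 i hi
        rw [abs_le]
        constructor <;> linarith
      have e7 : w i * ‖g k i‖ ≤ w i := by
        nlinarith [hg k i]
      exact mul_le_mul e7 (e5.trans e6) (norm_nonneg _) hwi.le
    have e3 : ‖(∑ i ∈ E, (w i : ℂ) * g k i * Complex.exp (-(Complex.I * t * lg i))) -
        ∑ i ∈ E, (w i : ℂ) * g k i * ex (-((jj i : ℕ) * θ))‖ ≤ W * (T₀ * τ) := by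
      rw [← sum_sub_distrib]
      refine (norm_sum_le _ _).trans ((sum_le_sum e2).trans (le_of_eq ?_))
      rw [← sum_mul]
    have e4 : (W : ℂ) * m k θ = (W : ℂ) -
        ∑ i ∈ E, (w i : ℂ) * g k i * ex (-((jj i : ℕ) * θ)) := by
      rw [hm]
      simp only
      rw [mul_sub, mul_one, ← mul_assoc, mul_one_div_cancel hWc, one_mul]
    have e5 : W * ‖m k θ‖ = ‖(W : ℂ) - ∑ i ∈ E, (w i : ℂ) * g k i * ex (-((jj i : ℕ) * θ))‖ := by
      rw [← e4, norm_mul, Complex.norm_real, Real.norm_eq_abs, abs_of_pos hW]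
    have e6 : c * W - W * (T₀ * τ) ≤ W * ‖m k θ‖ := by
      rw [e5]
      have e7 : (W : ℂ) - ∑ i ∈ E, (w i : ℂ) * g k i * ex (-((jj i : ℕ) * θ)) =
          ((W : ℂ) - ∑ i ∈ E, (w i : ℂ) * g k i * Complex.exp (-(Complex.I * t * lg i))) +
          ((∑ i ∈ E, (w i : ℂ) * g k i * Complex.exp (-(Complex.I * t * lg i))) -
            ∑ i ∈ E, (w i : ℂ) * g k i * ex (-((jj i : ℕ) * θ))) := by ring
      rw [e7]
      have e8 := norm_sub_le_norm_add ((W : ℂ) - ∑ i ∈ E, (w i : ℂ) * g k i *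
        Complex.exp (-(Complex.I * t * lg i)))
        ((∑ i ∈ E, (w i : ℂ) * g k i * Complex.exp (-(Complex.I * t * lg i))) -
            ∑ i ∈ E, (w i : ℂ) * g k i * ex (-((jj i : ℕ) * θ)))
      linarith
    have e7 : W * (T₀ * τ) ≤ W * (c / 2) := mul_le_mul_of_nonneg_left hτT hW.le
    have e8 : W * (c / 2) ≤ W * ‖m k θ‖ := by nlinarith
    exact le_of_mul_le_mul_left e8 hW
  -- range lemma
  have hrange : ∀ n : ℤ, ∀ b : ℝ, 0 ≤ b → b ≤ Λ + 1 → 0 ≤ (n : ℝ) → ∀ s : ℕ, (s : ℝ) * τ ≤ b →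
      n - s ≤ (N : ℤ) → ∑ k ∈ U, ‖G k (n - s)‖ ^ 2 ≤ D := by
    intro n b _ hb' hn s hs hnN
    apply h1
    · push_cast
      nlinarith [mul_nonneg hn hτ.le]
    · have : ((n - s : ℤ) : ℝ) ≤ N := by exact_mod_cast hnN
      nlinarith
  have hlip : ∀ n : ℤ, ∀ s : ℕ, |ch N lm (n - s) - ch N lm n| ≤ s / lm := by
    intro n s
    refine (ch_lip N hlm _ _).trans (le_of_eq ?_)
    congr 1
    push_cast
    rw [sub_sub_cancel_left, abs_neg, Nat.abs_cast]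
  -- the general bound for the differences of the cut-off
  have hcut : ∀ n : ℤ, 0 ≤ n → ∀ s : ℕ, (s : ℝ) * τ ≤ Λ + 1 → ∀ B : ℝ, (s : ℝ) ≤ B →
      ∑ k ∈ U, ‖((ch N lm (n - s) - ch N lm n : ℝ) : ℂ) * G k (n - s)‖ ^ 2 ≤
        D * (B / lm) ^ 2 := by
    intro n hn s hs B hB
    have hn' : (0 : ℝ) ≤ n := by exact_mod_cast hn
    have hs0 : (0 : ℝ) ≤ s := Nat.cast_nonneg _
    by_cases hN : n - s ≤ (N : ℤ)
    · have e1 := hrange n ((s : ℝ) * τ) (by positivity) hs hn' s le_rfl hN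
      have e2 : ∀ k, ‖((ch N lm (n - s) - ch N lm n : ℝ) : ℂ) * G k (n - s)‖ ^ 2 ≤
          (B / lm) ^ 2 * ‖G k (n - s)‖ ^ 2 := by
        intro k
        rw [norm_mul, mul_pow]
        apply mul_le_mul_of_nonneg_right _ (by positivity)
        rw [Complex.norm_real, Real.norm_eq_abs]
        apply pow_le_pow_left₀ (abs_nonneg _)
        exact (hlip n s).trans (div_le_div_of_nonneg_right hB hlm.le)
      calc _ ≤ ∑ k ∈ U, (B / lm) ^ 2 * ‖G k (n - s)‖ ^ 2 := sum_le_sum fun k _ => e2 k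
        _ = (B / lm) ^ 2 * ∑ k ∈ U, ‖G k (n - s)‖ ^ 2 := by rw [mul_sum]
        _ ≤ (B / lm) ^ 2 * D := mul_le_mul_of_nonneg_left e1 (by positivity)
        _ = D * (B / lm) ^ 2 := by ring
    · have e1 : ch N lm (n - s) = 0 := ch_zero hlm (by omega)
      have e2 : ch N lm n = 0 := ch_zero hlm (by omega)
      rw [e1, e2]
      simp only [sub_self, Complex.ofReal_zero, zero_mul, norm_zero, ne_eq, OfNat.ofNat_ne_zero,
        not_false_eq_true, zero_pow, sum_const_zero]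
      positivity
  -- bound of R
  have hRb : ∀ n ∈ Icc (0 : ℤ) M, ∑ k ∈ U, ‖R k n‖ ^ 2 ≤
      D * (8 * ρ + 4 * τ ^ 2 + 2 * (J / lm) ^ 2) := by
    intro n hn
    rw [mem_Icc] at hn
    have hn' : (0 : ℝ) ≤ n := by exact_mod_cast hn.1
    set E1 : ℤ → ℂ := fun k => G k n - (1 / (W : ℂ)) *
      ∑ i ∈ E, (w i : ℂ) * g k i * G k (n - (jj i : ℕ)) with hE1
    set E2 : ℤ → ℂ := fun k => (1 / (W : ℂ)) * ∑ i ∈ E, (w i : ℂ) *
      (-(g k i * (((ch N lm (n - (jj i : ℕ)) - ch N lm n : ℝ) : ℂ) *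
        G k (n - (jj i : ℕ))))) with hE2
    have e1 : ∀ k, R k n = (ch N lm n : ℂ) * E1 k + E2 k := by
      intro k
      have hAC : ∑ i ∈ E, (w i : ℂ) * g k i * H k (n - (jj i : ℕ)) =
          (ch N lm n : ℂ) * (∑ i ∈ E, (w i : ℂ) * g k i * G k (n - (jj i : ℕ))) -
          ∑ i ∈ E, (w i : ℂ) * (-(g k i * (((ch N lm (n - (jj i : ℕ)) - ch N lm n : ℝ) : ℂ) *
            G k (n - (jj i : ℕ))))) := by
        rw [mul_sum, ← sum_sub_distrib]
        refine sum_congr rfl fun i _ => ?_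
        rw [hH]
        push_cast
        ring
      rw [hR, hE1, hE2]
      simp only
      rw [hAC, hH]
      ring
    have e2 : ∑ k ∈ U, ‖E2 k‖ ^ 2 ≤ D * (J / lm) ^ 2 := by
      apply jensenU U E w hw hE
      intro i hi
      have e3 := hcut n hn.1 (jj i) (by
        have := hjj1 i hi
        have := (hwl i hi).2.2
        linarith) J (by exact_mod_cast hjjJ i hi)
      refine (sum_le_sum fun k _ => ?_).trans e3
      rw [norm_neg, norm_mul]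
      apply pow_le_pow_left₀ (by positivity)
      exact mul_le_of_le_one_left (norm_nonneg _) (hg k i)
    have e3 : ∑ k ∈ U, ‖(ch N lm n : ℂ) * E1 k‖ ^ 2 ≤ D * (4 * ρ + 2 * τ ^ 2) := by
      by_cases hN : n ≤ (N : ℤ)
      · have hN' : (n : ℝ) ≤ N := by exact_mod_cast hN
        set y : ℝ := a + n * τ with hy
        have hya : a ≤ y := by nlinarith [mul_nonneg hn' hτ.le]
        have hyN : y ≤ a + N * τ := by nlinarith
        have e4 := h3 y hya hyN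
        have e5 : ∑ k ∈ U, ‖(1 / (W : ℂ)) * ∑ i ∈ E, (w i : ℂ) *
            (g k i * (F k (y - lg i) - G k (n - (jj i : ℕ))))‖ ^ 2 ≤ D * (τ ^ 2 + ρ) := by
          apply jensenU U E w hw hE
          intro i hi
          have x1 := hjj1 i hi
          have x2 := hjj2 i hi
          have x3 := (hwl i hi).2.2
          have x4 := (hwl i hi).2.1
          have e6 := h2 (y - lg i) (a + ((n - (jj i : ℕ) : ℤ) : ℝ) * τ)
            (by linarith) (by push_cast; nlinarith) (by push_cast; nlinarith)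
            (by push_cast; nlinarith [mul_nonneg (Nat.cast_nonneg (α := ℝ) (jj i)) hτ.le])
          refine (sum_le_sum fun k _ => ?_).trans (e6.trans ?_)
          · rw [norm_mul, norm_sub_rev (F k (y - lg i))]
            apply pow_le_pow_left₀ (by positivity)
            exact mul_le_of_le_one_left (norm_nonneg _) (hg k i)
          · apply mul_le_mul_of_nonneg_left _ hD.le
            have x5 : 0 ≤ a + ((n - (jj i : ℕ) : ℤ) : ℝ) * τ - (y - lg i) := by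
              push_cast; nlinarith
            have x6 : a + ((n - (jj i : ℕ) : ℤ) : ℝ) * τ - (y - lg i) ≤ τ := by
              push_cast; nlinarith
            have := pow_le_pow_left₀ x5 x6 2
            linarith
        have e6 : ∀ k, ‖(ch N lm n : ℂ) * E1 k‖ ^ 2 ≤
            2 * ‖F k y - (1 / ((W : ℝ) : ℂ)) *
              ∑ i ∈ E, (w i : ℂ) * g k i * F k (y - lg i)‖ ^ 2 +
            2 * ‖(1 / (W : ℂ)) * ∑ i ∈ E, (w i : ℂ) *
              (g k i * (F k (y - lg i) - G k (n - (jj i : ℕ))))‖ ^ 2 := by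
          intro k
          have x1 : ‖(ch N lm n : ℂ) * E1 k‖ ^ 2 ≤ ‖E1 k‖ ^ 2 := by
            rw [norm_mul]
            apply pow_le_pow_left₀ (by positivity)
            apply mul_le_of_le_one_left (norm_nonneg _)
            rw [Complex.norm_real, Real.norm_eq_abs, abs_of_nonneg (ch_nonneg _ _ _)]
            exact ch_le_one _ _ _
          have x2 : E1 k = (F k y - (1 / ((W : ℝ) : ℂ)) *
              ∑ i ∈ E, (w i : ℂ) * g k i * F k (y - lg i)) +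
              (1 / (W : ℂ)) * ∑ i ∈ E, (w i : ℂ) *
              (g k i * (F k (y - lg i) - G k (n - (jj i : ℕ)))) := by
            rw [hE1, hG]
            simp only
            rw [← hy, sub_add, ← mul_sub, ← sum_sub_distrib]
            congr 2
            refine sum_congr rfl fun i _ => by ring
          rw [x2] at x1 ⊢
          exact x1.trans (sq_add_le _ _)
        calc ∑ k ∈ U, ‖(ch N lm n : ℂ) * E1 k‖ ^ 2 ≤ _ := sum_le_sum fun k _ => e6 k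
          _ = 2 * ∑ k ∈ U, ‖F k y - (1 / ((W : ℝ) : ℂ)) *
              ∑ i ∈ E, (w i : ℂ) * g k i * F k (y - lg i)‖ ^ 2 +
            2 * ∑ k ∈ U, ‖(1 / (W : ℂ)) * ∑ i ∈ E, (w i : ℂ) *
              (g k i * (F k (y - lg i) - G k (n - (jj i : ℕ))))‖ ^ 2 := by
              rw [sum_add_distrib, ← mul_sum, ← mul_sum]
          _ ≤ 2 * (D * ρ) + 2 * (D * (τ ^ 2 + ρ)) := by linarith
          _ = D * (4 * ρ + 2 * τ ^ 2) := by ring
      · have e4 : ch N lm n = 0 := ch_zero hlm (by omega)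
        rw [e4]
        simp only [Complex.ofReal_zero, zero_mul, norm_zero, ne_eq, OfNat.ofNat_ne_zero,
          not_false_eq_true, zero_pow, sum_const_zero]
        positivity
    calc ∑ k ∈ U, ‖R k n‖ ^ 2 ≤ ∑ k ∈ U, (2 * ‖(ch N lm n : ℂ) * E1 k‖ ^ 2 + 2 * ‖E2 k‖ ^ 2) :=
          sum_le_sum fun k _ => by rw [e1 k]; exact sq_add_le _ _
      _ = 2 * ∑ k ∈ U, ‖(ch N lm n : ℂ) * E1 k‖ ^ 2 + 2 * ∑ k ∈ U, ‖E2 k‖ ^ 2 := by
          rw [sum_add_distrib, ← mul_sum, ← mul_sum]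
      _ ≤ 2 * (D * (4 * ρ + 2 * τ ^ 2)) + 2 * (D * (J / lm) ^ 2) := by linarith
      _ = _ := by ring
  -- bound of the differences
  have hDb : ∀ s ∈ Icc 1 S, ∀ n ∈ Icc (0 : ℤ) M, ∑ k ∈ U, ‖H k (n - (s : ℕ)) - H k n‖ ^ 2 ≤
      D * (2 * ((S * τ) ^ 2 + ρ) + 2 * (S / lm) ^ 2) := by
    intro s hs n hn
    rw [mem_Icc] at hn hs
    have hn' : (0 : ℝ) ≤ n := by exact_mod_cast hn.1
    have hsS : (s : ℝ) ≤ S := by exact_mod_cast hs.2
    have hs0 : (0 : ℝ) ≤ s := Nat.cast_nonneg _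
    have hsτ : (s : ℝ) * τ ≤ S * τ := mul_le_mul_of_nonneg_right hsS hτ.le
    have e1 := hcut n hn.1 s (by linarith) S hsS
    have e2 : ∑ k ∈ U, ‖(ch N lm n : ℂ) * (G k (n - (s : ℕ)) - G k n)‖ ^ 2 ≤
        D * ((S * τ) ^ 2 + ρ) := by
      by_cases hN : n ≤ (N : ℤ)
      · have hN' : (n : ℝ) ≤ N := by exact_mod_cast hN
        have e3 := h2 (a + ((n - (s : ℕ) : ℤ) : ℝ) * τ) (a + n * τ)
          (by push_cast; nlinarith [mul_nonneg hn' hτ.le]) (by push_cast; nlinarith)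
          (by push_cast; nlinarith) (by nlinarith)
        refine (sum_le_sum fun k _ => ?_).trans (e3.trans ?_)
        · rw [norm_mul, norm_sub_rev]
          apply pow_le_pow_left₀ (by positivity)
          apply mul_le_of_le_one_left (norm_nonneg _)
          rw [Complex.norm_real, Real.norm_eq_abs, abs_of_nonneg (ch_nonneg _ _ _)]
          exact ch_le_one _ _ _
        · apply mul_le_mul_of_nonneg_left _ hD.le
          have x1 : a + n * τ - (a + ((n - (s : ℕ) : ℤ) : ℝ) * τ) = s * τ := by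
            push_cast; ring
          rw [x1]
          have := pow_le_pow_left₀ (by positivity) hsτ 2
          linarith
      · have e4 : ch N lm n = 0 := ch_zero hlm (by omega)
        rw [e4]
        simp only [Complex.ofReal_zero, zero_mul, norm_zero, ne_eq, OfNat.ofNat_ne_zero,
          not_false_eq_true, zero_pow, sum_const_zero]
        positivity
    have e3 : ∀ k, H k (n - (s : ℕ)) - H k n =
        (ch N lm n : ℂ) * (G k (n - (s : ℕ)) - G k n) +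
        ((ch N lm (n - s) - ch N lm n : ℝ) : ℂ) * G k (n - s) := by
      intro k
      rw [hH]
      simp only
      push_cast
      ring
    calc ∑ k ∈ U, ‖H k (n - (s : ℕ)) - H k n‖ ^ 2
        ≤ ∑ k ∈ U, (2 * ‖(ch N lm n : ℂ) * (G k (n - (s : ℕ)) - G k n)‖ ^ 2 +
          2 * ‖((ch N lm (n - s) - ch N lm n : ℝ) : ℂ) * G k (n - s)‖ ^ 2) :=
          sum_le_sum fun k _ => by rw [e3 k]; exact sq_add_le _ _
      _ = 2 * ∑ k ∈ U, ‖(ch N lm n : ℂ) * (G k (n - (s : ℕ)) - G k n)‖ ^ 2 +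
          2 * ∑ k ∈ U, ‖((ch N lm (n - s) - ch N lm n : ℝ) : ℂ) * G k (n - s)‖ ^ 2 := by
          rw [sum_add_distrib, ← mul_sum, ← mul_sum]
      _ ≤ 2 * (D * ((S * τ) ^ 2 + ρ)) + 2 * (D * (S / lm) ^ 2) := by linarith
      _ = _ := by ring
  -- conclusion
  have hθ₀ : 0 < T₀ * τ / (2 * Real.pi) := by positivity
  have hSθ : 1 / (T₀ * τ / (2 * Real.pi)) ≤ S := by
    rw [one_div_div]; exact hS
  have hS0 : (0 : ℝ) < S := lt_of_lt_of_le (by positivity) hSθ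
  have hcirc : ∀ k ∈ U, ∑ n ∈ Icc (0 : ℤ) M, ‖H k n‖ ^ 2 ≤
      (4 / c ^ 2) * ∑ n ∈ Icc (0 : ℤ) M, ‖R k n‖ ^ 2 +
      (1 / S) * ∑ s ∈ Icc 1 S, ∑ n ∈ Icc (0 : ℤ) M, ‖H k (n - (s : ℕ)) - H k n‖ ^ 2 :=
    fun k hk => circle (H k) (R k) N M S c (T₀ * τ / (2 * Real.pi)) (m k) (hH0 k) (by omega) hc
      (hft k) (hlow k hk) hθ₀ hSθ
  have hcardM : ((Icc (0 : ℤ) M).card : ℝ) = (M : ℝ) + 1 := by
    rw [Int.card_Icc]
    have : ((M : ℤ) + 1 - 0).toNat = M + 1 := by omega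
    rw [this]; push_cast; rfl
  calc ∑ n ∈ Icc (0 : ℤ) M, ∑ k ∈ U, ‖H k n‖ ^ 2
      = ∑ k ∈ U, ∑ n ∈ Icc (0 : ℤ) M, ‖H k n‖ ^ 2 := sum_comm
    _ ≤ ∑ k ∈ U, ((4 / c ^ 2) * ∑ n ∈ Icc (0 : ℤ) M, ‖R k n‖ ^ 2 +
      (1 / S) * ∑ s ∈ Icc 1 S, ∑ n ∈ Icc (0 : ℤ) M, ‖H k (n - (s : ℕ)) - H k n‖ ^ 2) :=
        sum_le_sum hcirc
    _ = (4 / c ^ 2) * ∑ n ∈ Icc (0 : ℤ) M, ∑ k ∈ U, ‖R k n‖ ^ 2 +
      (1 / S) * ∑ s ∈ Icc 1 S, ∑ n ∈ Icc (0 : ℤ) M,
        ∑ k ∈ U, ‖H k (n - (s : ℕ)) - H k n‖ ^ 2 := by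
        rw [sum_add_distrib, ← mul_sum, ← mul_sum]
        congr 2
        · exact sum_comm
        · rw [sum_comm]
          refine sum_congr rfl fun s _ => sum_comm
    _ ≤ (4 / c ^ 2) * ∑ n ∈ Icc (0 : ℤ) M, D * (8 * ρ + 4 * τ ^ 2 + 2 * (J / lm) ^ 2) +
      (1 / S) * ∑ s ∈ Icc 1 S, ∑ n ∈ Icc (0 : ℤ) M,
        D * (2 * ((S * τ) ^ 2 + ρ) + 2 * (S / lm) ^ 2) := by
        apply add_le_add
        · exact mul_le_mul_of_nonneg_left (sum_le_sum hRb) (by positivity)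
        · apply mul_le_mul_of_nonneg_left _ (by positivity)
          exact sum_le_sum fun s hs => sum_le_sum fun n hn => hDb s hs n hn
    _ = _ := by
        simp only [sum_const, nsmul_eq_mul, hcardM, Nat.card_Icc, Nat.add_sub_cancel]
        field_simp

/-- removing the cut-off -/
lemma uncut (U : Finset ℤ) (F : ℤ → ℝ → ℂ) (a D τ lm : ℝ) (N M : ℕ) (hD : 0 < D) (hlm : 0 < lm)
    (hNM : N ≤ M) (h1 : ∀ n : ℕ, n < N → ∑ k ∈ U, ‖F k (a + n * τ)‖ ^ 2 ≤ D) :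
    ∑ n ∈ range N, ∑ k ∈ U, ‖F k (a + n * τ)‖ ^ 2 ≤
      ∑ n ∈ Icc (0 : ℤ) M, ∑ k ∈ U, ‖(ch N lm n : ℂ) * F k (a + n * τ)‖ ^ 2 +
        D * (2 * lm + 2) := by
  classical
  set f : ℤ → ℝ := fun n => ∑ k ∈ U, ‖(ch N lm n : ℂ) * F k (a + n * τ)‖ ^ 2 with hf
  have hf0 : ∀ n, 0 ≤ f n := fun n => sum_nonneg fun _ _ => by positivity
  have e1 : ∀ n ∈ range N, ∑ k ∈ U, ‖F k (a + n * τ)‖ ^ 2 ≤
      f (n : ℤ) + (if lm ≤ n ∧ (n : ℝ) ≤ N - lm then 0 else D) := by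
    intro n hn
    split_ifs with h
    · have e2 : ch N lm (n : ℤ) = 1 := by
        apply ch_one hlm
        · push_cast; exact h.1
        · push_cast; exact h.2
      rw [hf]
      simp only
      rw [e2]
      simp
    · have := h1 n (mem_range.1 hn)
      have := hf0 (n : ℤ)
      linarith
  have e2 : ∑ n ∈ range N, f (n : ℤ) ≤ ∑ n ∈ Icc (0 : ℤ) M, f n := by
    rw [← sum_image (f := f) (s := range N) (g := fun n : ℕ => (n : ℤ))
      (fun a _ b _ hab => by simpa using hab)]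
    apply sum_le_sum_of_subset_of_nonneg
    · intro x hx
      rw [mem_image] at hx
      obtain ⟨n, hn, rfl⟩ := hx
      rw [mem_range] at hn
      rw [mem_Icc]
      constructor <;> omega
    · intro x _ _; exact hf0 x
  have e3 : ∑ n ∈ range N, (if lm ≤ (n : ℝ) ∧ (n : ℝ) ≤ N - lm then 0 else D) ≤
      D * (2 * lm + 2) := by
    have e4 : ∑ n ∈ range N, (if lm ≤ (n : ℝ) ∧ (n : ℝ) ≤ N - lm then 0 else D) =
        ((range N).filter (fun n : ℕ => ¬ (lm ≤ (n : ℝ) ∧ (n : ℝ) ≤ N - lm))).card * D := by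
      rw [sum_ite, sum_const_zero, zero_add, sum_const, nsmul_eq_mul]
    have e5 : (range N).filter (fun n : ℕ => ¬ (lm ≤ (n : ℝ) ∧ (n : ℝ) ≤ N - lm)) ⊆
        range ⌈lm⌉₊ ∪ Ico (N - ⌈lm⌉₊) N := by
      intro n hn
      rw [mem_filter, mem_range] at hn
      rw [mem_union, mem_range, mem_Ico]
      by_cases h : lm ≤ (n : ℝ)
      · right
        have h2 : ¬ ((n : ℝ) ≤ N - lm) := fun h' => hn.2 ⟨h, h'⟩
        push Not at h2
        refine ⟨?_, hn.1⟩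
        have h3 : (N : ℝ) < n + ⌈lm⌉₊ := by
          have := Nat.le_ceil lm
          linarith
        have h4 : N < n + ⌈lm⌉₊ := by exact_mod_cast h3
        omega
      · left
        push Not at h
        have := Nat.le_ceil lm
        have h3 : (n : ℝ) < ⌈lm⌉₊ := by linarith
        exact_mod_cast h3
    have e6 : ((range N).filter (fun n : ℕ => ¬ (lm ≤ (n : ℝ) ∧ (n : ℝ) ≤ N - lm))).card ≤
        ⌈lm⌉₊ + ⌈lm⌉₊ := by
      refine (card_le_card e5).trans ((card_union_le _ _).trans ?_)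
      rw [card_range, Nat.card_Ico]
      omega
    have e7 : (((range N).filter (fun n : ℕ => ¬ (lm ≤ (n : ℝ) ∧ (n : ℝ) ≤ N - lm))).card : ℝ) ≤
        2 * lm + 2 := by
      have h1 : (⌈lm⌉₊ : ℝ) < lm + 1 := Nat.ceil_lt_add_one hlm.le
      have h2 : (((range N).filter
        (fun n : ℕ => ¬ (lm ≤ (n : ℝ) ∧ (n : ℝ) ≤ N - lm))).card : ℝ) ≤
        ⌈lm⌉₊ + ⌈lm⌉₊ := by exact_mod_cast e6
      linarith
    rw [e4, mul_comm]
    exact mul_le_mul_of_nonneg_left e7 hD.le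
  calc ∑ n ∈ range N, ∑ k ∈ U, ‖F k (a + n * τ)‖ ^ 2
      ≤ ∑ n ∈ range N, (f (n : ℤ) + (if lm ≤ (n : ℝ) ∧ (n : ℝ) ≤ N - lm then 0 else D)) :=
        sum_le_sum e1
    _ ≤ _ := by
        rw [sum_add_distrib]
        linarith

end PlanM

open Finset in
/-- PLAN -/
theorem specPlan : SpecPlan := by
  intro c ε hc hε
  have hπ := Real.pi_pos
  set q : ℝ := 4 / c ^ 2 with hq
  have hq0 : 0 < q := by positivity
  set δ : ℝ := min (1 / 2) (ε / (28 * q + 16)) with hδ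
  have hδ0 : 0 < δ := lt_min (by norm_num) (by positivity)
  have hδ2 : δ ≤ 1 / 2 := min_le_left _ _
  have hδε : δ * (28 * q + 16) ≤ ε := by
    have : δ ≤ ε / (28 * q + 16) := min_le_right _ _
    rwa [le_div_iff₀ (by positivity)] at this
  set T₀ : ℝ := 4 * Real.pi / δ with hT
  have hT0 : 0 < T₀ := by positivity
  refine ⟨T₀, min (δ / 2) (c / (2 * T₀)), hT0, lt_min (by positivity) (by positivity), ?_⟩
  intro τ hτ hττ
  have hτ1 : τ ≤ δ / 2 := hττ.trans (min_le_left _ _)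
  have hτ2 : T₀ * τ ≤ c / 2 := by
    have : τ ≤ c / (2 * T₀) := hττ.trans (min_le_right _ _)
    rw [le_div_iff₀ (by positivity)] at this
    linarith
  set S : ℕ := ⌈2 * Real.pi / (T₀ * τ)⌉₊ with hS
  have hS1 : 2 * Real.pi / (T₀ * τ) ≤ S := Nat.le_ceil _
  have hSτ : (S : ℝ) * τ ≤ δ := by
    have h1 : (S : ℝ) < 2 * Real.pi / (T₀ * τ) + 1 := Nat.ceil_lt_add_one (by positivity)
    have h2 : (S : ℝ) * τ ≤ (2 * Real.pi / (T₀ * τ) + 1) * τ :=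
      mul_le_mul_of_nonneg_right h1.le hτ.le
    have h3 : (2 * Real.pi / (T₀ * τ) + 1) * τ = δ / 2 + τ := by
      rw [hT]; field_simp; ring
    linarith
  refine ⟨δ ^ 2 * τ, by positivity, ⌈(2 * (S : ℝ) + 2) / δ ^ 2⌉₊, ?_⟩
  intro U F E w lg g a Λ D N hN hD hΛ hΛN hE hwl hg h1 h2 h3 h4
  have hN1 : (2 * (S : ℝ) + 2) ≤ δ ^ 2 * N := by
    have h5 : (2 * (S : ℝ) + 2) / δ ^ 2 ≤ N := Nat.ceil_le.1 hN
    rw [div_le_iff₀ (by positivity)] at h5
    linarith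
  have hS0 : (0 : ℝ) ≤ S := Nat.cast_nonneg _
  have hN0 : (0 : ℝ) < N := by
    by_contra hneg
    push Not at hneg
    nlinarith [sq_nonneg δ, mul_nonneg (sq_nonneg δ) (neg_nonneg.2 hneg)]
  have hδsq : δ ^ 2 ≤ δ := by nlinarith
  have hδsq4 : δ ^ 2 ≤ 1 / 4 := by nlinarith
  set lm : ℝ := δ * N with hlm
  have hlm0 : 0 < lm := by positivity
  set J : ℕ := ⌊Λ / τ⌋₊ with hJ
  have hJ1 : (J : ℝ) ≤ δ ^ 2 * N := by
    have h5 : (J : ℝ) ≤ Λ / τ := Nat.floor_le (by positivity)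
    refine h5.trans ?_
    rw [div_le_iff₀ hτ]
    linarith
  have hJ0 : (0 : ℝ) ≤ J := Nat.cast_nonneg _
  have hJl : (J : ℝ) / lm ≤ δ := by
    rw [div_le_iff₀ hlm0, hlm]; nlinarith
  have hSl : (S : ℝ) / lm ≤ δ := by
    rw [div_le_iff₀ hlm0, hlm]; nlinarith
  have hcore := PlanM.core U F E w lg g a Λ D τ (δ ^ 2 * τ) c T₀ lm N S J hD hΛ hτ (by linarith)
    (by positivity) hc hT0 hlm0 hτ2 hS1 (by linarith) hJ hE hwl hg h1 h2 h3 h4
  have hunc := PlanM.uncut U F a D τ lm N (N + J + S) hD hlm0 (by omega) (fun n hn => by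
    have hn' : (n : ℝ) ≤ N := by exact_mod_cast hn.le
    have hn0 : (0 : ℝ) ≤ n := Nat.cast_nonneg _
    apply h1
    · nlinarith [mul_nonneg hn0 hτ.le]
    · nlinarith)
  refine hunc.trans ?_
  have hM : (((N + J + S : ℕ) : ℝ) + 1) ≤ 2 * N := by
    push_cast
    have h5 : δ ^ 2 * N ≤ (1 / 4) * N := mul_le_mul_of_nonneg_right hδsq4 hN0.le
    linarith
  have hM0 : (0 : ℝ) ≤ (((N + J + S : ℕ) : ℝ) + 1) := by positivity
  have hρ : δ ^ 2 * τ ≤ δ := by nlinarith [sq_nonneg δ]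
  have hρ0 : 0 ≤ δ ^ 2 * τ := by positivity
  have hτδ : τ ^ 2 ≤ δ := by nlinarith
  have hJδ : ((J : ℝ) / lm) ^ 2 ≤ δ := by
    have h5 : 0 ≤ (J : ℝ) / lm := by positivity
    nlinarith
  have hSδ : ((S : ℝ) / lm) ^ 2 ≤ δ := by
    have h5 : 0 ≤ (S : ℝ) / lm := by positivity
    nlinarith
  have hSτδ : ((S : ℝ) * τ) ^ 2 ≤ δ := by
    have h5 : 0 ≤ (S : ℝ) * τ := by positivity
    nlinarith
  have hB1 : D * (8 * (δ ^ 2 * τ) + 4 * τ ^ 2 + 2 * ((J : ℝ) / lm) ^ 2) ≤ D * (14 * δ) :=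
    mul_le_mul_of_nonneg_left (by linarith) hD.le
  have hB2 : D * (2 * (((S : ℝ) * τ) ^ 2 + δ ^ 2 * τ) + 2 * ((S : ℝ) / lm) ^ 2) ≤ D * (6 * δ) :=
    mul_le_mul_of_nonneg_left (by linarith) hD.le
  have hB3 : D * (2 * lm + 2) ≤ D * (4 * δ * N) := by
    apply mul_le_mul_of_nonneg_left _ hD.le
    rw [hlm]
    nlinarith
  have hC1 : (((N + J + S : ℕ) : ℝ) + 1) *
      (D * (8 * (δ ^ 2 * τ) + 4 * τ ^ 2 + 2 * ((J : ℝ) / lm) ^ 2)) ≤ 2 * N * (D * (14 * δ)) :=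
    mul_le_mul hM hB1 (by positivity) (by positivity)
  have hC2 : (((N + J + S : ℕ) : ℝ) + 1) *
      (D * (2 * (((S : ℝ) * τ) ^ 2 + δ ^ 2 * τ) + 2 * ((S : ℝ) / lm) ^ 2)) ≤
      2 * N * (D * (6 * δ)) :=
    mul_le_mul hM hB2 (by positivity) (by positivity)
  have hC3 := mul_le_mul_of_nonneg_left hC1 hq0.le
  have hfin : q * (2 * N * (D * (14 * δ))) + 2 * N * (D * (6 * δ)) + D * (4 * δ * N) ≤
      ε * D * N := by
    have h5 : q * (2 * N * (D * (14 * δ))) + 2 * N * (D * (6 * δ)) + D * (4 * δ * N) =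
        (δ * (28 * q + 16)) * (D * N) := by ring
    rw [h5, mul_assoc ε D]
    exact mul_le_mul_of_nonneg_right hδε (by positivity)
  linarith

end Pool.Agent.Lib.MP391708.MR
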