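import Pool.Agent.Lib.MP_391708_nt.MR.Spec

/-!
# LAD: the parameters of the ladder

`b j = exp (C₀ + D (j+1)^2) a j`, `a (j+1) = 64 (j+2)^2 b j`, `h j = D (j+1)^2`,
`al j = α (2 - 1/(j+1))`.
-/

set_option autoImplicit false

namespace Pool.Agent.Lib.MP391708.MR

namespace Lad

open Finset Filter Topology

noncomputable def RR (C₀ D : ℝ) (j : ℕ) : ℝ := Real.exp (C₀ + D * ((j : ℝ) + 1) ^ 2)

noncomputable def aa (C₀ D A : ℝ) : ℕ → ℝ
  | 0 => A
  | (j + 1) => 64 * ((j : ℝ) + 2) ^ 2 * (RR C₀ D j * aa C₀ D A j)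

noncomputable def bb (C₀ D A : ℝ) (j : ℕ) : ℝ := RR C₀ D j * aa C₀ D A j

noncomputable def hh (D : ℝ) (j : ℕ) : ℝ := D * ((j : ℝ) + 1) ^ 2

noncomputable def al (α : ℝ) (j : ℕ) : ℝ := α * (2 - 1 / ((j : ℝ) + 1))

lemma aa_succ (C₀ D A : ℝ) (j : ℕ) :
    aa C₀ D A (j + 1) = 64 * ((j : ℝ) + 2) ^ 2 * bb C₀ D A j := rfl

lemma one_le_RR {C₀ D : ℝ} (hC : 0 ≤ C₀) (hD : 0 ≤ D) (j : ℕ) : 1 ≤ RR C₀ D j := by
  unfold RR
  rw [← Real.exp_zero]
  apply Real.exp_le_exp.2
  positivity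

/-- the standing assumptions -/
structure Hyp (α C₀ D K A : ℝ) : Prop where
  α0 : 0 < α
  α1 : α ≤ 1 / 100
  C1 : 1 ≤ C₀
  D1 : 1 ≤ D
  K1 : 2 * C₀ + 2 * D + 8 ≤ K
  A1 : 10 ^ 6 * K ^ 2 ≤ α ^ 2 * (A / 64)

variable {α C₀ D K A : ℝ}

namespace Hyp

variable (h : Hyp α C₀ D K A)
include h

lemma K0 : 12 ≤ K := by linarith [h.C1, h.D1, h.K1]

lemma A64 : 10 ^ 10 * K ^ 2 ≤ A / 64 := by
  have h1 : α ^ 2 ≤ 1 / 10000 := by nlinarith [h.α0, h.α1]
  have h2 := h.A1
  have h3 : 0 ≤ A / 64 := by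
    by_contra hn
    push Not at hn
    nlinarith [h.K0, mul_pos h.α0 h.α0, sq_nonneg K]
  nlinarith [mul_nonneg h3 (sub_nonneg.2 h1)]

lemma A0 : 0 < A := by
  have := h.A64
  have h2 := h.K0
  nlinarith [sq_nonneg K]

lemma aa_ge (j : ℕ) : A / 64 * ((j : ℝ) + 2) ^ 6 ≤ aa C₀ D A j := by
  have hA := h.A0
  induction j with
  | zero =>
    show A / 64 * (((0 : ℕ) : ℝ) + 2) ^ 6 ≤ A
    norm_num
  | succ j ih =>
    rw [aa_succ]
    have h1 := one_le_RR (by linarith [h.C1]) (by linarith [h.D1]) j (C₀ := C₀) (D := D)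
    have h2 : 0 ≤ A / 64 * ((j : ℝ) + 2) ^ 6 := by positivity
    have h3 : aa C₀ D A j ≤ bb C₀ D A j := by
      unfold bb
      nlinarith [h2.trans ih]
    have hj : (0 : ℝ) ≤ j := Nat.cast_nonneg j
    have h4 : (1 : ℝ) ≤ ((j : ℝ) + 2) ^ 2 := by nlinarith
    have h5 : (((j + 1 : ℕ) : ℝ) + 2) ^ 6 ≤ 64 * ((j : ℝ) + 2) ^ 6 := by
      have : ((j + 1 : ℕ) : ℝ) + 2 ≤ 2 * ((j : ℝ) + 2) := by push_cast; linarith
      calc (((j + 1 : ℕ) : ℝ) + 2) ^ 6 ≤ (2 * ((j : ℝ) + 2)) ^ 6 :=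
            pow_le_pow_left₀ (by positivity) this 6
        _ = _ := by ring
    have h6 : 0 ≤ bb C₀ D A j := (h2.trans ih).trans h3
    calc A / 64 * (((j + 1 : ℕ) : ℝ) + 2) ^ 6 ≤ A / 64 * (64 * ((j : ℝ) + 2) ^ 6) :=
          mul_le_mul_of_nonneg_left h5 (by positivity)
      _ = 64 * (A / 64 * ((j : ℝ) + 2) ^ 6) := by ring
      _ ≤ 64 * bb C₀ D A j := by linarith
      _ ≤ 64 * ((j : ℝ) + 2) ^ 2 * bb C₀ D A j := by nlinarith

lemma aa_pos (j : ℕ) : 0 < aa C₀ D A j := by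
  have := h.A0
  exact lt_of_lt_of_le (by positivity) (h.aa_ge j)

lemma aa_le_bb (j : ℕ) : aa C₀ D A j ≤ bb C₀ D A j := by
  unfold bb
  have h1 := one_le_RR (by linarith [h.C1]) (by linarith [h.D1]) j (C₀ := C₀) (D := D)
  nlinarith [h.aa_pos j]

lemma bb_pos (j : ℕ) : 0 < bb C₀ D A j := (h.aa_pos j).trans_le (h.aa_le_bb j)

lemma bb_le_aa (j : ℕ) : 64 * bb C₀ D A j ≤ aa C₀ D A (j + 1) := by
  rw [aa_succ]
  have hj : (0 : ℝ) ≤ j := Nat.cast_nonneg j
  have h4 : (1 : ℝ) ≤ ((j : ℝ) + 2) ^ 2 := by nlinarith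
  nlinarith [h.bb_pos j]

lemma big (j : ℕ) : 10 ^ 10 * K ^ 2 * ((j : ℝ) + 2) ^ 6 ≤ aa C₀ D A j :=
  (mul_le_mul_of_nonneg_right h.A64 (by positivity)).trans (h.aa_ge j)

/-- `1000 K s^2 ≤ α a / s^2` -/
lemma G1 (j : ℕ) : 1000 * (K * ((j : ℝ) + 2) ^ 2) ≤ α * aa C₀ D A j / ((j : ℝ) + 2) ^ 2 := by
  have hj : (0 : ℝ) ≤ j := Nat.cast_nonneg j
  set s : ℝ := (j : ℝ) + 2 with hs
  have hs2 : 2 ≤ s := by rw [hs]; linarith
  have hK := h.K0
  rw [le_div_iff₀ (by positivity)]
  have h1 := h.aa_ge j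
  have h2 : 1000 * K ≤ α * (A / 64) := by
    have h3 := h.A1
    have h4 : α ^ 2 * (A / 64) ≤ α * (A / 64) * (1 / 100) := by
      have : 0 ≤ α * (A / 64) := by
        have := h.A0; have := h.α0; positivity
      nlinarith [h.α1]
    nlinarith
  have h3 : α * (A / 64 * s ^ 6) ≤ α * aa C₀ D A j := mul_le_mul_of_nonneg_left h1 h.α0.le
  have h4 : s ^ 4 ≤ s ^ 6 := pow_le_pow_right₀ (by linarith) (by norm_num)
  calc 1000 * (K * s ^ 2) * s ^ 2 = (1000 * K) * s ^ 4 := by ring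
    _ ≤ (1000 * K) * s ^ 6 := mul_le_mul_of_nonneg_left h4 (by positivity)
    _ ≤ (α * (A / 64)) * s ^ 6 := mul_le_mul_of_nonneg_right h2 (by positivity)
    _ = α * (A / 64 * s ^ 6) := by ring
    _ ≤ _ := h3

/-- `1000 √a ≤ α a / s^2` -/
lemma G2 (j : ℕ) : 1000 * Real.sqrt (aa C₀ D A j) ≤ α * aa C₀ D A j / ((j : ℝ) + 2) ^ 2 := by
  have hj : (0 : ℝ) ≤ j := Nat.cast_nonneg j
  set s : ℝ := (j : ℝ) + 2 with hs
  have hs2 : 2 ≤ s := by rw [hs]; linarith
  have hK := h.K0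
  have hα := h.α0
  rw [le_div_iff₀ (by positivity)]
  have h1 := h.aa_ge j
  set y := Real.sqrt (aa C₀ D A j) with hy
  have hyy : y * y = aa C₀ D A j := Real.mul_self_sqrt (h.aa_pos j).le
  have hy0 : 0 ≤ y := Real.sqrt_nonneg _
  have h2 : 1000 * K * s ^ 3 / α ≤ y := by
    apply Real.le_sqrt_of_sq_le
    rw [div_pow, div_le_iff₀ (by positivity)]
    have h3 := h.A1
    calc (1000 * K * s ^ 3) ^ 2 = (10 ^ 6 * K ^ 2) * s ^ 6 := by ring
      _ ≤ (α ^ 2 * (A / 64)) * s ^ 6 := mul_le_mul_of_nonneg_right h3 (by positivity)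
      _ = (A / 64 * s ^ 6) * α ^ 2 := by ring
      _ ≤ _ := mul_le_mul_of_nonneg_right h1 (by positivity)
  rw [div_le_iff₀ hα] at h2
  have h3 : 1000 * s ^ 2 ≤ 1000 * K * s ^ 3 := by
    have : s ^ 3 = s ^ 2 * s := by ring
    rw [this]
    have : 1 ≤ K * s := by nlinarith
    nlinarith [sq_nonneg s]
  calc 1000 * y * s ^ 2 = (1000 * s ^ 2) * y := by ring
    _ ≤ (y * α) * y := mul_le_mul_of_nonneg_right (h3.trans h2) hy0
    _ = α * (y * y) := by ring
    _ = _ := by rw [hyy]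

lemma log_aa (j : ℕ) : Real.log (aa C₀ D A j) ≤ 2 * Real.sqrt (aa C₀ D A j) := by
  have h1 := h.aa_pos j
  have h2 : Real.log (aa C₀ D A j) = 2 * Real.log (Real.sqrt (aa C₀ D A j)) := by
    rw [Real.log_sqrt h1.le]; ring
  rw [h2]
  have h3 := Real.log_le_sub_one_of_pos (Real.sqrt_pos.2 h1)
  linarith

lemma log_bb (j : ℕ) : Real.log (bb C₀ D A j) =
    C₀ + D * ((j : ℝ) + 1) ^ 2 + Real.log (aa C₀ D A j) := by
  unfold bb
  rw [Real.log_mul (by unfold RR; exact (Real.exp_pos _).ne') (h.aa_pos j).ne']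
  unfold RR
  rw [Real.log_exp]

lemma log_bb_succ (j : ℕ) : Real.log (bb C₀ D A (j + 1)) ≤
    K * ((j : ℝ) + 2) ^ 2 + 2 * Real.sqrt (aa C₀ D A j) := by
  have hj : (0 : ℝ) ≤ j := Nat.cast_nonneg j
  rw [h.log_bb (j + 1), aa_succ, Real.log_mul (by positivity) (h.bb_pos j).ne', h.log_bb j,
    Real.log_mul (by norm_num) (by positivity), Real.log_pow]
  have h1 := h.log_aa j
  have h2 : Real.log 64 ≤ 6 := by
    have : (64 : ℝ) = 2 ^ 6 := by norm_num
    rw [this, Real.log_pow]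
    have := Real.log_two_lt_d9
    push_cast
    linarith
  have h3 : Real.log ((j : ℝ) + 2) ≤ (j : ℝ) + 1 := by
    have := Real.log_le_sub_one_of_pos (show (0 : ℝ) < (j : ℝ) + 2 by positivity)
    linarith
  push_cast
  have h4 := h.K1
  have h5 := h.C1
  have h6 := h.D1
  nlinarith [mul_nonneg hj hj]

/-- the main growth estimate -/
lemma F4 (j : ℕ) : Real.log (bb C₀ D A (j + 1)) ≤
    α * aa C₀ D A j / ((j : ℝ) + 2) ^ 2 / 300 := by
  have h1 := h.log_bb_succ j
  have h2 := h.G1 j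
  have h3 := h.G2 j
  have h4 : 0 ≤ α * aa C₀ D A j / ((j : ℝ) + 2) ^ 2 := by
    have := h.aa_pos j
    have := h.α0
    positivity
  linarith

lemma one_le_bb (j : ℕ) : (j : ℝ) + 1 ≤ bb C₀ D A j := by
  have h1 := h.big j
  have h2 := h.aa_le_bb j
  have hj : (0 : ℝ) ≤ j := Nat.cast_nonneg j
  have hK := h.K0
  have h3 : (j : ℝ) + 2 ≤ ((j : ℝ) + 2) ^ 6 := le_self_pow₀ (by linarith) (by norm_num)
  have h4 : (1 : ℝ) ≤ 10 ^ 10 * K ^ 2 := by nlinarith
  nlinarith [mul_nonneg (sub_nonneg.2 h4) (sub_nonneg.2 h3)]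

end Hyp

/-! ## the series -/

lemma sum_inv_sq (J : ℕ) : ∑ j ∈ range J, 1 / ((j : ℝ) + 1) ^ 2 ≤ 2 := by
  have key : ∀ J : ℕ, ∑ j ∈ range (J + 1), 1 / ((j : ℝ) + 1) ^ 2 ≤ 2 - 1 / ((J : ℝ) + 1) := by
    intro J
    induction J with
    | zero => norm_num
    | succ J ih =>
      rw [sum_range_succ]
      refine (add_le_add_left ih _).trans ?_
      push_cast
      have h1 : (0 : ℝ) < (J : ℝ) + 1 := by positivity
      have h2 : (0 : ℝ) < (J : ℝ) + 1 + 1 := by positivity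
      have h3 : 1 / ((J : ℝ) + 1 + 1) ^ 2 ≤ 1 / ((J : ℝ) + 1) - 1 / ((J : ℝ) + 1 + 1) := by
        rw [div_sub_div _ _ h1.ne' h2.ne', div_le_div_iff₀ (by positivity) (by positivity)]
        nlinarith
      linarith
  rcases J with _ | J
  · simp
  · refine (key J).trans ?_
    have : (0 : ℝ) < 1 / ((J : ℝ) + 1) := by positivity
    linarith

/-- the increment of `al` -/
lemma al_succ (α : ℝ) (j : ℕ) : al α (j + 1) - al α j = α / (((j : ℝ) + 1) * ((j : ℝ) + 2)) := by
  unfold al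
  push_cast
  have h1 : (0 : ℝ) < (j : ℝ) + 1 := by positivity
  have h2 : (0 : ℝ) < (j : ℝ) + 1 + 1 := by positivity
  have h3 : (0 : ℝ) < (j : ℝ) + 2 := by positivity
  field_simp
  ring

lemma al_le {α : ℝ} (hα : 0 ≤ α) (j : ℕ) : al α j ≤ 2 * α := by
  unfold al
  have : (0 : ℝ) ≤ 1 / ((j : ℝ) + 1) := by positivity
  nlinarith

lemma le_al {α : ℝ} (hα : 0 ≤ α) (j : ℕ) : α ≤ al α j := by
  unfold al
  have : 1 / ((j : ℝ) + 1) ≤ 1 := by
    rw [div_le_one (by positivity)]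
    have : (0 : ℝ) ≤ j := Nat.cast_nonneg j
    linarith
  nlinarith

lemma log_three : Real.log 3 ≤ 2 := by
  have := Real.log_le_sub_one_of_pos (show (0 : ℝ) < 3 by norm_num)
  linarith

/-- `log (h b + 2)` -/
lemma log_hb (hD : 1 ≤ D) {n : ℕ} {b : ℝ} (hb : 1 ≤ b) :
    Real.log (hh D n * b + 2) ≤ 2 + D + 2 * ((n : ℝ) + 1) + Real.log b := by
  have hn : (0 : ℝ) ≤ n := Nat.cast_nonneg n
  have h1 : 1 ≤ hh D n := by
    unfold hh
    nlinarith [mul_nonneg hn hn]
  have h2 : hh D n * b + 2 ≤ 3 * (hh D n * b) := by nlinarith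
  refine (Real.log_le_log (by positivity) h2).trans ?_
  rw [Real.log_mul (by norm_num) (by positivity), Real.log_mul (by positivity) (by positivity)]
  have h3 : Real.log (hh D n) ≤ D + 2 * ((n : ℝ) + 1) := by
    unfold hh
    rw [Real.log_mul (by positivity) (by positivity), Real.log_pow]
    have h4 := Real.log_le_sub_one_of_pos (show (0 : ℝ) < D by linarith)
    have h5 := Real.log_le_sub_one_of_pos (show (0 : ℝ) < (n : ℝ) + 1 by positivity)
    push_cast
    linarith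
  have := log_three
  linarith

/-- factorials -/
lemma factorial_le {l : ℕ} {B : ℝ} (h : (l : ℝ) ≤ B) (hB : 0 < B) :
    (l.factorial : ℝ) ^ 2 ≤ Real.exp (2 * l * Real.log B) := by
  have h1 : (l.factorial : ℝ) ≤ (l : ℝ) ^ l := by exact_mod_cast Nat.factorial_le_pow l
  have h2 : (l : ℝ) ^ l ≤ B ^ l := pow_le_pow_left₀ (Nat.cast_nonneg l) h l
  have h3 : Real.exp (2 * l * Real.log B) = (B ^ l) ^ 2 := by
    rw [← pow_mul, mul_comm l 2]
    have : (2 * (l : ℝ)) * Real.log B = ((2 * l : ℕ) : ℝ) * Real.log B := by push_cast; ring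
    rw [this, Real.exp_nat_mul, Real.exp_log hB]
  rw [h3]
  exact pow_le_pow_left₀ (by positivity) (h1.trans h2) 2

lemma pow_eq_exp {C : ℝ} (hC : 0 < C) (n : ℕ) : C ^ n = Real.exp (n * Real.log C) := by
  rw [Real.exp_nat_mul, Real.exp_log hC]

lemma pow_eq_exp' {C : ℝ} (hC : 0 < C) (n : ℕ) :
    C ^ (n + 1) = Real.exp ((n + 1) * Real.log C) := by
  rw [pow_eq_exp hC]
  push_cast
  rfl

variable (h : Hyp α C₀ D K A)
include h

/-- clause (7) -/
lemma clause7 {ε : ℝ} (hε : 0 < ε) (hKε : -Real.log ε ≤ K) (j l : ℕ) (V V0 : ℝ)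
    (hV1 : aa C₀ D A (j + 1) - 1 ≤ V) (hV2 : V ≤ bb C₀ D A (j + 1))
    (hV3 : aa C₀ D A j - 1 ≤ V0) (hV4 : V0 ≤ bb C₀ D A j)
    (hl1 : V ≤ l * V0) (hl2 : l * V0 ≤ V + V0) :
    C₀ ^ (l + 1) * (l.factorial : ℝ) ^ 2 * Real.exp (2 * l) *
        Real.exp (-2 * (al α (j + 1) - al α j) * V + 2 * al α j * V0) *
        ((hh D (j + 1) * bb C₀ D A (j + 1) + 2) ^ 2 * (hh D j * bb C₀ D A j + 2)) ≤
      ε / 2 ^ (j + 1) := by
  have hj : (0 : ℝ) ≤ j := Nat.cast_nonneg j
  have hK := h.K0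
  have hα := h.α0
  have hC := h.C1
  have hD := h.D1
  have hK1 := h.K1
  set s : ℝ := (j : ℝ) + 2 with hs
  have hs2 : 2 ≤ s := by rw [hs]; linarith
  have hapos := h.aa_pos j
  have hbpos := h.bb_pos j
  have hab := h.aa_le_bb j
  have hba := h.bb_le_aa j
  have hbb1 := h.one_le_bb (j + 1)
  have hbb0 := h.one_le_bb j
  have hG1 := h.G1 j
  have hF4 := h.F4 j
  rw [← hs] at hG1 hF4
  set E := α * aa C₀ D A j / s ^ 2 with hE
  have hEpos : 0 < E := by rw [hE]; positivity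
  have hss : s ≤ s ^ 2 := by nlinarith
  have hs4 : 4 ≤ s ^ 2 := by nlinarith
  have hKs : K * s ≤ K * s ^ 2 := mul_le_mul_of_nonneg_left hss (by linarith)
  have hK2 : 4 * K ≤ K * s ^ 2 := by
    have := mul_le_mul_of_nonneg_left hs4 (show 0 ≤ K by linarith)
    linarith
  -- a is large
  have ha2 : 2 ≤ aa C₀ D A j := by
    have h1 : E ≤ aa C₀ D A j := by
      rw [hE, div_le_iff₀ (by positivity), mul_comm]
      have : α ≤ s ^ 2 := by linarith [h.α1]
      exact mul_le_mul_of_nonneg_left this hapos.le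
    linarith
  have hV0a : aa C₀ D A j / 2 ≤ V0 := by linarith
  have hV0p : 0 < V0 := by linarith
  have haa1 : aa C₀ D A (j + 1) = 64 * s ^ 2 * bb C₀ D A j := by rw [aa_succ]
  have hVb : 32 * s ^ 2 * bb C₀ D A j ≤ V := by
    have h1 : 1 ≤ 32 * s ^ 2 * bb C₀ D A j :=
      one_le_mul_of_one_le_of_one_le (by linarith) (by linarith)
    rw [haa1] at hV1
    linarith
  have hbV : bb C₀ D A j ≤ V := by
    have h1 : 1 * bb C₀ D A j ≤ 32 * s ^ 2 * bb C₀ D A j :=
      mul_le_mul_of_nonneg_right (by linarith) hbpos.le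
    linarith
  have hVV0 : V0 ≤ V := by linarith
  have hVpos : 0 < V := by linarith
  have hl0 : 1 ≤ l := by
    rcases Nat.eq_zero_or_pos l with h0 | h0
    · rw [h0] at hl1
      simp at hl1
      linarith
    · exact h0
  have hl1R : (1 : ℝ) ≤ l := by exact_mod_cast hl0
  -- l a ≤ 4 V
  have hla : (l : ℝ) * aa C₀ D A j ≤ 4 * V := by
    have h1 := mul_le_mul_of_nonneg_left hV0a (show (0 : ℝ) ≤ l by linarith)
    have h2 : (l : ℝ) * (aa C₀ D A j / 2) = l * aa C₀ D A j / 2 := by ring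
    linarith
  have hl2V : (l : ℝ) ≤ 2 * bb C₀ D A (j + 1) := by
    have h1 := mul_le_mul_of_nonneg_left (show 1 ≤ V0 by linarith) (show (0 : ℝ) ≤ l by linarith)
    linarith
  set Λ := Real.log (bb C₀ D A (j + 1)) with hΛ
  -- Δ
  set Δ := al α (j + 1) - al α j with hΔ
  have hΔ1 : α / s ^ 2 ≤ Δ := by
    rw [hΔ, al_succ]
    apply div_le_div_of_nonneg_left hα.le (by positivity)
    rw [hs, sq]
    exact mul_le_mul_of_nonneg_right (by linarith) (by linarith)
  have hΔa : E ≤ Δ * aa C₀ D A j := by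
    rw [hE, mul_div_right_comm]
    exact mul_le_mul_of_nonneg_right hΔ1 hapos.le
  have hΔV : 32 * α * bb C₀ D A j ≤ Δ * V := by
    calc 32 * α * bb C₀ D A j = (α / s ^ 2) * (32 * s ^ 2 * bb C₀ D A j) := by
          field_simp
      _ ≤ Δ * V := by
          apply mul_le_mul hΔ1 hVb (by positivity)
          exact le_trans (by positivity) hΔ1
  have hEb : E ≤ α * bb C₀ D A j := by
    have h1 : E ≤ α * aa C₀ D A j := by
      rw [hE]
      apply div_le_self (by positivity)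
      linarith
    exact h1.trans (mul_le_mul_of_nonneg_left hab hα.le)
  have hΔpos : 0 < Δ := lt_of_lt_of_le (by positivity) hΔ1
  -- logs
  have hlogC : 0 ≤ Real.log C₀ := Real.log_nonneg hC
  have hlogC' : Real.log C₀ ≤ K := by
    have := Real.log_le_sub_one_of_pos (show (0 : ℝ) < C₀ by linarith)
    linarith
  have hlog2 : Real.log (2 * bb C₀ D A (j + 1)) ≤ 1 + Λ := by
    rw [Real.log_mul (by norm_num) (by linarith)]
    have := Real.log_two_lt_d9
    linarith
  have hhb1 := log_hb (D := D) hD (n := j + 1) (b := bb C₀ D A (j + 1)) (by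
    push_cast at hbb1; linarith)
  have hhb0 := log_hb (D := D) hD (n := j) (b := bb C₀ D A j) (by linarith)
  have hlogb0 : Real.log (bb C₀ D A j) ≤ Λ := by
    apply Real.log_le_log hbpos
    have := h.aa_le_bb (j + 1)
    linarith
  have hpos1 : 0 < hh D (j + 1) * bb C₀ D A (j + 1) + 2 := by
    unfold hh; have := h.bb_pos (j + 1); positivity
  have hpos0 : 0 < hh D j * bb C₀ D A j + 2 := by
    unfold hh; positivity
  have hal0 := le_al hα.le j
  have hal1 := al_le hα.le j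
  -- pass to exponentials
  have hL1 : C₀ ^ (l + 1) = Real.exp ((l + 1) * Real.log C₀) := pow_eq_exp' (by linarith) l
  have hL2 := factorial_le (l := l) hl2V (by linarith [h.bb_pos (j + 1)])
  have hL3 : (hh D (j + 1) * bb C₀ D A (j + 1) + 2) ^ 2 * (hh D j * bb C₀ D A j + 2) =
      Real.exp (2 * Real.log (hh D (j + 1) * bb C₀ D A (j + 1) + 2) +
        Real.log (hh D j * bb C₀ D A j + 2)) := by
    rw [Real.exp_add, Real.exp_log hpos0]
    congr 1
    have : (2 : ℝ) * Real.log (hh D (j + 1) * bb C₀ D A (j + 1) + 2) =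
        ((2 : ℕ) : ℝ) * Real.log (hh D (j + 1) * bb C₀ D A (j + 1) + 2) := by push_cast; ring
    rw [this, Real.exp_nat_mul, Real.exp_log hpos1]
  have hL4 : ε / 2 ^ (j + 1) = Real.exp (Real.log ε - (j + 1) * Real.log 2) := by
    rw [Real.exp_sub, Real.exp_log hε, ← pow_eq_exp' (by norm_num)]
  rw [hL1, hL3, hL4]
  calc _ ≤ Real.exp ((l + 1) * Real.log C₀) *
        Real.exp (2 * l * Real.log (2 * bb C₀ D A (j + 1))) * Real.exp (2 * l) *
        Real.exp (-2 * Δ * V + 2 * al α j * V0) *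
        Real.exp (2 * Real.log (hh D (j + 1) * bb C₀ D A (j + 1) + 2) +
        Real.log (hh D j * bb C₀ D A j + 2)) := by
        gcongr
    _ = Real.exp (((l + 1) * Real.log C₀) + (2 * l * Real.log (2 * bb C₀ D A (j + 1))) +
        2 * l + (-2 * Δ * V + 2 * al α j * V0) +
        (2 * Real.log (hh D (j + 1) * bb C₀ D A (j + 1) + 2) +
        Real.log (hh D j * bb C₀ D A j + 2))) := by
        rw [← Real.exp_add, ← Real.exp_add, ← Real.exp_add, ← Real.exp_add]
    _ ≤ _ := by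
        apply Real.exp_le_exp.2
        have hlp : (0 : ℝ) < l := by linarith
        -- terms
        have t1 : ((l : ℝ) + 1) * Real.log C₀ ≤ 2 * l * K := by
          have h1 : ((l : ℝ) + 1) * Real.log C₀ ≤ (2 * l) * Real.log C₀ :=
            mul_le_mul_of_nonneg_right (by linarith) hlogC
          exact h1.trans (mul_le_mul_of_nonneg_left hlogC' (by positivity))
        have t2 : 2 * (l : ℝ) * Real.log (2 * bb C₀ D A (j + 1)) ≤ 2 * l * (1 + Λ) :=
          mul_le_mul_of_nonneg_left hlog2 (by positivity)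
        have t3 : 2 * (l : ℝ) * Λ ≤ Δ * V / 8 := by
          have h1 : 2 * (l : ℝ) * Λ ≤ 2 * l * (Δ * aa C₀ D A j / 300) := by
            apply mul_le_mul_of_nonneg_left _ (by positivity)
            linarith
          have h2 : 2 * (l : ℝ) * (Δ * aa C₀ D A j / 300) = Δ / 150 * (l * aa C₀ D A j) := by
            ring
          have h3 : Δ / 150 * (l * aa C₀ D A j) ≤ Δ / 150 * (4 * V) :=
            mul_le_mul_of_nonneg_left hla (by positivity)
          have h4 : Δ / 150 * (4 * V) = Δ * V * (4 / 150) := by ring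
          have h5 := mul_pos hΔpos hVpos
          linarith
        have t4 : (l : ℝ) * (2 * K + 4) ≤ Δ * V / 8 := by
          have h1 : 32 * (2 * K + 4) ≤ Δ * aa C₀ D A j := by linarith
          have h2 : 32 * ((l : ℝ) * (2 * K + 4)) ≤ l * (Δ * aa C₀ D A j) := by
            have := mul_le_mul_of_nonneg_left h1 hlp.le
            linarith
          have h3 : (l : ℝ) * (Δ * aa C₀ D A j) ≤ Δ * (4 * V) := by
            calc (l : ℝ) * (Δ * aa C₀ D A j) = Δ * (l * aa C₀ D A j) := by ring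
              _ ≤ _ := mul_le_mul_of_nonneg_left hla hΔpos.le
          linarith
        have t5 : 2 * al α j * V0 ≤ Δ * V / 8 := by
          have h1 : 2 * al α j * V0 ≤ 2 * (2 * α) * bb C₀ D A j := by
            apply mul_le_mul _ hV4 hV0p.le (by positivity)
            linarith
          linarith
        have t6 : 3 * Λ ≤ Δ * V / 8 := by linarith
        have t7 : (j + 1) * Real.log 2 ≤ s := by
          have := Real.log_two_lt_d9
          have h1 : ((j : ℝ) + 1) * Real.log 2 ≤ ((j : ℝ) + 1) * 1 :=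
            mul_le_mul_of_nonneg_left (by linarith) (by linarith)
          linarith
        have t8 : 8 * (K * s ^ 2) ≤ Δ * V / 8 := by linarith
        have t9 : 2 * Real.log (hh D (j + 1) * bb C₀ D A (j + 1) + 2) +
            Real.log (hh D j * bb C₀ D A j + 2) ≤ 3 * Λ + 3 * (2 + D + 2 * s) := by
          push_cast at hhb1
          have e1 : ((j : ℝ) + 1 + 1) = s := by rw [hs]; ring
          rw [e1] at hhb1
          linarith
        have t10 : 3 * (2 + D + 2 * s) + K + s ≤ 8 * (K * s ^ 2) := by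
          have h1 : 12 * s ≤ K * s := mul_le_mul_of_nonneg_right hK (by linarith)
          linarith
        have t11 : 2 * (l : ℝ) * (1 + Λ) = 2 * l * 1 + 2 * l * Λ := by ring
        have t12 : (l : ℝ) * (2 * K + 4) = 2 * l * K + 4 * l := by ring
        have t13 : -2 * Δ * V = -2 * (Δ * V) := by ring
        rw [t13]
        linarith

/-- clause (6) -/
lemma clause6 {ε : ℝ} (hε : 0 < ε) (hKε : -Real.log ε ≤ K) :
    C₀ * (hh D 0 * bb C₀ D A 0 + 2) ^ 2 * Real.exp (-2 * al α 0 * (aa C₀ D A 0 - 1)) ≤ ε := by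
  have hK := h.K0
  have hα := h.α0
  have hC := h.C1
  have hD := h.D1
  have hK1 := h.K1
  have hapos := h.aa_pos 0
  have hbpos := h.bb_pos 0
  have hbb0 := h.one_le_bb 0
  have hG1 := h.G1 0
  have hG2 := h.G2 0
  have hlog := h.log_aa 0
  have hlogb := h.log_bb 0
  have hhb0 := log_hb (D := D) hD (n := 0) (b := bb C₀ D A 0) (by
    push_cast at hbb0; linarith)
  have hpos0 : 0 < hh D 0 * bb C₀ D A 0 + 2 := by
    unfold hh; positivity
  have hlogC' : Real.log C₀ ≤ K := by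
    have := Real.log_le_sub_one_of_pos (show (0 : ℝ) < C₀ by linarith)
    linarith
  have hal0 := le_al hα.le 0
  set y := Real.sqrt (aa C₀ D A 0) with hy
  set a := aa C₀ D A 0 with ha
  have e1 : C₀ * (hh D 0 * bb C₀ D A 0 + 2) ^ 2 =
      Real.exp (Real.log C₀ + 2 * Real.log (hh D 0 * bb C₀ D A 0 + 2)) := by
    rw [Real.exp_add, Real.exp_log (by linarith)]
    congr 1
    have : (2 : ℝ) * Real.log (hh D 0 * bb C₀ D A 0 + 2) =
        ((2 : ℕ) : ℝ) * Real.log (hh D 0 * bb C₀ D A 0 + 2) := by push_cast; ring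
    rw [this, Real.exp_nat_mul, Real.exp_log hpos0]
  rw [e1, ← Real.exp_add]
  refine le_trans ?_ (le_of_eq (Real.exp_log hε))
  apply Real.exp_le_exp.2
  norm_num at hG1 hG2 hhb0 hlogb
  have ha1 : 1 ≤ a := by nlinarith [h.α1]
  have h1 : -2 * al α 0 * (a - 1) ≤ -2 * α * (a - 1) := by
    have : 0 ≤ a - 1 := by linarith
    nlinarith
  have h2 : -2 * α * (a - 1) = -2 * (α * a) + 2 * α := by ring
  have hα1 := h.α1
  nlinarith

/-- the last stage -/
lemma exists_J {L : ℝ} (hL : 20 * bb C₀ D A 0 ≤ L) :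
    ∃ J : ℕ, (∀ j ≤ J, 20 * bb C₀ D A j ≤ L) ∧ L < 20 * bb C₀ D A (J + 1) := by
  classical
  have hex : ∃ j : ℕ, L < 20 * bb C₀ D A (j + 1) := by
    obtain ⟨n, hn⟩ := exists_nat_gt L
    refine ⟨n, ?_⟩
    have := h.one_le_bb (n + 1)
    have hn0 : (0 : ℝ) ≤ n := Nat.cast_nonneg n
    push_cast at this
    linarith
  refine ⟨Nat.find hex, ?_, Nat.find_spec hex⟩
  intro j hj
  rcases j with _ | j
  · exact hL
  · have := Nat.find_min hex (show j < Nat.find hex by omega)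
    exact not_lt.1 this

/-- clause (8) -/
lemma clause8 {c₁ ε X L : ℝ} (hc : 100 * α ≤ c₁) (hX : 0 < X) (hLX : Real.log X = L)
    (hL1 : 1 ≤ L) (hL2 : 20 * bb C₀ D A 0 ≤ L) (hL3 : L * C₀ * X ^ (-(1 / 10) : ℝ) ≤ ε)
    (hL4 : 4 + D + 3 * Real.log L ≤ α * L) :
    ∃ J : ℕ, (∀ j ≤ J, 20 * bb C₀ D A j ≤ Real.log X) ∧
      (J + 1) * C₀ * X ^ (-(1 / 10) : ℝ) ≤ ε ∧
      ∀ (l : ℕ) (V : ℝ), aa C₀ D A J - 1 ≤ V → V ≤ bb C₀ D A J → Real.log X ≤ l * V →
        l * V ≤ Real.log X + V →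
        C₀ ^ (l + 1) * (l.factorial : ℝ) ^ 2 * Real.exp (2 * l) *
          Real.exp (2 * al α J * l * V) * (hh D J * bb C₀ D A J + 2) ≤ X ^ c₁ := by
  obtain ⟨J, hJ1, hJ2⟩ := exists_J h hL2
  have hJ : (0 : ℝ) ≤ J := Nat.cast_nonneg J
  have hK := h.K0
  have hα := h.α0
  have hα1 := h.α1
  have hC := h.C1
  have hD := h.D1
  have hK1 := h.K1
  have hbJ := hJ1 J le_rfl
  have hbJ1 := h.one_le_bb J
  refine ⟨J, by rw [hLX]; exact hJ1, ?_, ?_⟩
  · refine le_trans ?_ hL3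
    apply mul_le_mul_of_nonneg_right _ (Real.rpow_nonneg hX.le _)
    apply mul_le_mul_of_nonneg_right _ (by linarith)
    linarith
  intro l V hV1 hV2 hl1 hl2
  rw [hLX] at hl1 hl2
  set s : ℝ := (J : ℝ) + 2 with hs
  have hs2 : 2 ≤ s := by rw [hs]; linarith
  have hapos := h.aa_pos J
  have hbpos := h.bb_pos J
  have hab := h.aa_le_bb J
  have hG1 := h.G1 J
  have hF4 := h.F4 J
  rw [← hs] at hG1 hF4
  set E := α * aa C₀ D A J / s ^ 2 with hE
  have hEpos : 0 < E := by rw [hE]; positivity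
  have hss : s ≤ s ^ 2 := by nlinarith
  have hs4 : 4 ≤ s ^ 2 := by nlinarith
  have hK2 : 4 * K ≤ K * s ^ 2 := by
    have := mul_le_mul_of_nonneg_left hs4 (show 0 ≤ K by linarith)
    linarith
  have hEa : E ≤ α * aa C₀ D A J := by
    rw [hE]
    apply div_le_self (by positivity)
    linarith
  have ha2 : 2 ≤ aa C₀ D A J := by
    have : α * aa C₀ D A J ≤ 1 * aa C₀ D A J :=
      mul_le_mul_of_nonneg_right (by linarith) hapos.le
    linarith
  have hVa : aa C₀ D A J / 2 ≤ V := by linarith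
  have hVpos : 0 < V := by linarith
  have hl0 : 1 ≤ l := by
    rcases Nat.eq_zero_or_pos l with h0 | h0
    · rw [h0] at hl1
      simp at hl1
      linarith
    · exact h0
  have hl1R : (1 : ℝ) ≤ l := by exact_mod_cast hl0
  have hlp : (0 : ℝ) < l := by linarith
  have hlV : (l : ℝ) * V ≤ 2 * L := by linarith
  have hla : (l : ℝ) * aa C₀ D A J ≤ 4 * L := by
    have h1 := mul_le_mul_of_nonneg_left hVa (show (0 : ℝ) ≤ l by linarith)
    have h2 : (l : ℝ) * (aa C₀ D A J / 2) = l * aa C₀ D A J / 2 := by ring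
    linarith
  have hl2L : (l : ℝ) ≤ 2 * L := by
    have h1 := mul_le_mul_of_nonneg_left (show 1 ≤ V by linarith) (show (0 : ℝ) ≤ l by linarith)
    linarith
  -- log L
  have hlogL : Real.log L ≤ 4 + E / 300 := by
    have h1 : Real.log L ≤ Real.log (20 * bb C₀ D A (J + 1)) :=
      Real.log_le_log (by linarith) hJ2.le
    rw [Real.log_mul (by norm_num) (h.bb_pos (J + 1)).ne'] at h1
    have h2 : Real.log 20 ≤ 4 := by
      have h3 : Real.log 20 ≤ Real.log (2 ^ 5) := Real.log_le_log (by norm_num) (by norm_num)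
      rw [Real.log_pow] at h3
      have := Real.log_two_lt_d9
      push_cast at h3
      linarith
    linarith
  have hlogL0 : 0 ≤ Real.log L := Real.log_nonneg hL1
  have hlog2L : Real.log (2 * L) ≤ 5 + E / 300 := by
    rw [Real.log_mul (by norm_num) (by linarith)]
    have := Real.log_two_lt_d9
    linarith
  have hlogC : 0 ≤ Real.log C₀ := Real.log_nonneg hC
  have hlogC' : Real.log C₀ ≤ K := by
    have := Real.log_le_sub_one_of_pos (show (0 : ℝ) < C₀ by linarith)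
    linarith
  -- log (h b + 2)
  have hhb : Real.log (hh D J * bb C₀ D A J + 2) ≤ 4 + D + 3 * Real.log L := by
    have hh1 : 1 ≤ hh D J := by
      unfold hh
      exact one_le_mul_of_one_le_of_one_le hD (one_le_pow₀ (by linarith))
    have hJL : (J : ℝ) + 1 ≤ L := by linarith
    have h1' : 1 ≤ hh D J * bb C₀ D A J := one_le_mul_of_one_le_of_one_le hh1 (by linarith)
    have h1 : hh D J * bb C₀ D A J + 2 ≤ 3 * (hh D J * bb C₀ D A J) := by linarith
    refine (Real.log_le_log (by positivity) h1).trans ?_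
    rw [Real.log_mul (by norm_num) (by positivity), Real.log_mul (by positivity) (by positivity)]
    unfold hh
    rw [Real.log_mul (by positivity) (by positivity), Real.log_pow]
    have h2 := log_three
    have h3 := Real.log_le_sub_one_of_pos (show (0 : ℝ) < D by linarith)
    have h4 : Real.log ((J : ℝ) + 1) ≤ Real.log L := Real.log_le_log (by positivity) hJL
    have h5 : Real.log (bb C₀ D A J) ≤ Real.log L := Real.log_le_log hbpos (by linarith)
    push_cast
    linarith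
  have hpos0 : 0 < hh D J * bb C₀ D A J + 2 := by
    unfold hh; positivity
  have hal0 := le_al hα.le J
  have hal1 := al_le hα.le J
  have hL1' : C₀ ^ (l + 1) = Real.exp ((l + 1) * Real.log C₀) := pow_eq_exp' (by linarith) l
  have hL2' := factorial_le (l := l) hl2L (by linarith)
  have hL3' : hh D J * bb C₀ D A J + 2 = Real.exp (Real.log (hh D J * bb C₀ D A J + 2)) :=
    (Real.exp_log hpos0).symm
  have hL4' : X ^ c₁ = Real.exp (c₁ * L) := by
    rw [Real.rpow_def_of_pos hX, hLX, mul_comm]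
  rw [hL1', hL3', hL4']
  calc _ ≤ Real.exp ((l + 1) * Real.log C₀) *
        Real.exp (2 * l * Real.log (2 * L)) * Real.exp (2 * l) *
        Real.exp (2 * al α J * l * V) *
        Real.exp (Real.log (hh D J * bb C₀ D A J + 2)) := by
        gcongr
    _ = Real.exp (((l + 1) * Real.log C₀) + (2 * l * Real.log (2 * L)) +
        2 * l + (2 * al α J * l * V) + Real.log (hh D J * bb C₀ D A J + 2)) := by
        rw [← Real.exp_add, ← Real.exp_add, ← Real.exp_add, ← Real.exp_add]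
    _ ≤ _ := by
        apply Real.exp_le_exp.2
        have t1 : ((l : ℝ) + 1) * Real.log C₀ ≤ 2 * l * K := by
          have h1 : ((l : ℝ) + 1) * Real.log C₀ ≤ (2 * l) * Real.log C₀ :=
            mul_le_mul_of_nonneg_right (by linarith) hlogC
          exact h1.trans (mul_le_mul_of_nonneg_left hlogC' (by positivity))
        have t2 : 2 * (l : ℝ) * Real.log (2 * L) ≤ 2 * l * (5 + E / 300) :=
          mul_le_mul_of_nonneg_left hlog2L (by positivity)
        have t3 : (l : ℝ) * E ≤ 4 * (α * L) := by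
          have h1 : (l : ℝ) * E ≤ l * (α * aa C₀ D A J) := mul_le_mul_of_nonneg_left hEa hlp.le
          have h2 : (l : ℝ) * (α * aa C₀ D A J) = α * (l * aa C₀ D A J) := by ring
          have h3 := mul_le_mul_of_nonneg_left hla hα.le
          linarith
        have t4 : (l : ℝ) * (2 * K + 12) ≤ l * E := by
          apply mul_le_mul_of_nonneg_left _ hlp.le
          linarith
        have t5 : 2 * al α J * l * V ≤ 8 * (α * L) := by
          have h1 : 2 * al α J * l * V = 2 * al α J * (l * V) := by ring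
          rw [h1]
          have h2 : 2 * al α J * (l * V) ≤ 2 * (2 * α) * (2 * L) := by
            apply mul_le_mul _ hlV (by positivity) (by positivity)
            linarith
          linarith
        have t6 : 2 * (l : ℝ) * (5 + E / 300) = 10 * l + l * E / 150 := by ring
        have t7 : (l : ℝ) * (2 * K + 12) = 2 * l * K + 12 * l := by ring
        have t8 : 100 * (α * L) ≤ c₁ * L := by
          have := mul_le_mul_of_nonneg_right hc (show 0 ≤ L by linarith)
          linarith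
        have t9 : 0 ≤ α * L := by positivity
        linarith

end Lad

open Finset Filter Topology in
/-- LAD -/
theorem specLad : SpecLad := by
  intro c₁ C₀ ε hc₁ hC₀ hε
  set α : ℝ := min (c₁ / 100) (1 / 100) with hα
  have hα0 : 0 < α := lt_min (by positivity) (by norm_num)
  have hα1 : α ≤ 1 / 100 := min_le_right _ _
  have hαc : 100 * α ≤ c₁ := by
    have := min_le_left (c₁ / 100) (1 / 100 : ℝ)
    rw [← hα] at this
    linarith
  set D : ℝ := 4 * C₀ / ε + 1 with hD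
  have hD1 : 1 ≤ D := by
    have : 0 < 4 * C₀ / ε := by positivity
    rw [hD]; linarith
  set K : ℝ := 2 * C₀ + 2 * D + 8 + |Real.log ε| with hK
  have hK1 : 2 * C₀ + 2 * D + 8 ≤ K := by
    have := abs_nonneg (Real.log ε)
    rw [hK]; linarith
  have hKε : -Real.log ε ≤ K := by
    have := neg_le_abs (Real.log ε)
    rw [hK]; linarith
  set A₀ : ℝ := 64 * (10 ^ 6 * K ^ 2 / α ^ 2) with hA₀
  have hA₀p : 0 < A₀ := by
    have : 0 < K := by linarith
    positivity
  set H₀ : ℝ := Real.exp (Real.exp (C₀ + D) * A₀) with hH₀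
  have hH₀1 : 1 < H₀ := by
    rw [hH₀, ← Real.exp_zero]
    apply Real.exp_lt_exp.2
    positivity
  refine ⟨H₀, hH₀1, ?_⟩
  intro H hH
  set A : ℝ := Real.log H / Real.exp (C₀ + D) with hA
  have hAA : A₀ ≤ A := by
    rw [hA, le_div_iff₀ (Real.exp_pos _)]
    have h1 : Real.log H₀ ≤ Real.log H := Real.log_le_log (by linarith) hH
    rw [hH₀, Real.log_exp] at h1
    linarith
  have h : Lad.Hyp α C₀ D K A := by
    refine ⟨hα0, hα1, hC₀, hD1, hK1, ?_⟩
    have h1 : A₀ / 64 ≤ A / 64 := by linarith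
    have h2 : α ^ 2 * (A₀ / 64) = 10 ^ 6 * K ^ 2 := by
      rw [hA₀]
      field_simp
    rw [← h2]
    exact mul_le_mul_of_nonneg_left h1 (by positivity)
  refine ⟨Lad.aa C₀ D A, Lad.bb C₀ D A, Lad.al α, Lad.hh D, ?_, ?_, ?_, ?_, ?_, ?_, ?_, ?_, ?_⟩
  · -- b 0
    show Real.exp (C₀ + D * (((0 : ℕ) : ℝ) + 1) ^ 2) * A = Real.log H
    rw [hA]
    norm_num
    field_simp
  · intro j
    refine ⟨?_, h.aa_le_bb j, ?_⟩
    · have h1 := h.big j
      have hj : (0 : ℝ) ≤ j := Nat.cast_nonneg j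
      have h2 : (1 : ℝ) ≤ ((j : ℝ) + 2) ^ 6 := one_le_pow₀ (by linarith)
      have h3 : K ≤ 10 ^ 10 * K ^ 2 := by nlinarith
      have h4 : C₀ ≤ 10 ^ 10 * K ^ 2 := by linarith
      have h5 : (10 ^ 10 * K ^ 2) * 1 ≤ 10 ^ 10 * K ^ 2 * ((j : ℝ) + 2) ^ 6 :=
        mul_le_mul_of_nonneg_left h2 (by positivity)
      linarith
    · have h1 := h.bb_le_aa j
      have h2 := h.aa_le_bb (j + 1)
      have h3 := h.bb_pos j
      linarith
  · intro j
    refine ⟨?_, ?_, ?_⟩
    · have := Lad.le_al hα0.le j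
      linarith
    · have h1 := Lad.al_succ α j
      have h2 : 0 < α / (((j : ℝ) + 1) * ((j : ℝ) + 2)) := by positivity
      linarith
    · have := Lad.al_le hα0.le j
      linarith
  · intro j
    unfold Lad.hh
    have hj : (0 : ℝ) ≤ j := Nat.cast_nonneg j
    nlinarith [mul_nonneg hj hj]
  · intro j
    have h1 : Real.log (Lad.bb C₀ D A j / Lad.aa C₀ D A j) = C₀ + D * ((j : ℝ) + 1) ^ 2 := by
      rw [Real.log_div (h.bb_pos j).ne' (h.aa_pos j).ne', h.log_bb j]
      ring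
    rw [h1]
    have hj : (0 : ℝ) ≤ j := Nat.cast_nonneg j
    nlinarith [mul_nonneg hj hj]
  · intro J
    have h1 : ∀ j : ℕ, Real.log (Lad.bb C₀ D A j / Lad.aa C₀ D A j) =
        C₀ + D * ((j : ℝ) + 1) ^ 2 := by
      intro j
      rw [Real.log_div (h.bb_pos j).ne' (h.aa_pos j).ne', h.log_bb j]
      ring
    have h2 : ∀ j ∈ range J, C₀ * (1 / (Real.log (Lad.bb C₀ D A j / Lad.aa C₀ D A j) - C₀) +
        1 / Lad.hh D j) = (2 * C₀ / D) * (1 / ((j : ℝ) + 1) ^ 2) := by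
      intro j _
      rw [h1]
      unfold Lad.hh
      have hD0 : 0 < D := by linarith
      have : C₀ + D * ((j : ℝ) + 1) ^ 2 - C₀ = D * ((j : ℝ) + 1) ^ 2 := by ring
      rw [this]
      field_simp
      ring
    rw [sum_congr rfl h2, ← mul_sum]
    have h3 := Lad.sum_inv_sq J
    have hD0 : 0 < D := by linarith
    have h4 : (2 * C₀ / D) * ∑ j ∈ range J, 1 / ((j : ℝ) + 1) ^ 2 ≤ (2 * C₀ / D) * 2 :=
      mul_le_mul_of_nonneg_left h3 (by positivity)
    refine h4.trans ?_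
    have h5 : (2 * C₀ / D) * 2 = 4 * C₀ / D := by ring
    rw [h5, div_le_iff₀ hD0, hD]
    have h6 : ε * (4 * C₀ / ε + 1) = 4 * C₀ + ε := by field_simp
    rw [h6]
    linarith
  · exact Lad.clause6 h hε hKε
  · intro j l V V0 h1 h2 h3 h4 h5 h6
    exact Lad.clause7 h hε hKε j l V V0 h1 h2 h3 h4 h5 h6
  · -- clause (8)
    have hlog : Tendsto Real.log atTop atTop := Real.tendsto_log_atTop
    have e1 : ∀ᶠ X : ℝ in atTop, 1 ≤ Real.log X := hlog.eventually_ge_atTop 1
    have e2 : ∀ᶠ X : ℝ in atTop, 20 * Lad.bb C₀ D A 0 ≤ Real.log X :=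
      hlog.eventually_ge_atTop _
    have e3 : ∀ᶠ X : ℝ in atTop, Real.log X * C₀ * X ^ (-(1 / 10) : ℝ) ≤ ε := by
      have h1 : Tendsto (fun X : ℝ => Real.log X / X ^ (1 / 10 : ℝ)) atTop (𝓝 0) :=
        (isLittleO_log_rpow_atTop (by norm_num : (0 : ℝ) < 1 / 10)).tendsto_div_nhds_zero
      have h2 : ∀ᶠ X : ℝ in atTop, Real.log X / X ^ (1 / 10 : ℝ) ≤ ε / C₀ :=
        h1.eventually_le_const (by positivity)
      filter_upwards [h2, eventually_gt_atTop 0] with X hX hX0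
      rw [Real.rpow_neg hX0.le, ← div_eq_mul_inv]
      rw [le_div_iff₀ (by linarith)] at hX
      calc Real.log X * C₀ / X ^ (1 / 10 : ℝ) = Real.log X / X ^ (1 / 10 : ℝ) * C₀ := by ring
        _ ≤ ε := hX
    have e4 : ∀ᶠ X : ℝ in atTop, 4 + D + 3 * Real.log (Real.log X) ≤ α * Real.log X := by
      apply hlog.eventually (p := fun L => 4 + D + 3 * Real.log L ≤ α * L)
      have h1 : Tendsto (fun L : ℝ => Real.log L / L) atTop (𝓝 0) := by
        have := Real.isLittleO_log_id_atTop.tendsto_div_nhds_zero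
        simpa using this
      have h2 : ∀ᶠ L : ℝ in atTop, Real.log L / L ≤ α / 6 :=
        h1.eventually_le_const (by positivity)
      filter_upwards [h2, eventually_gt_atTop 0, eventually_ge_atTop (2 * (4 + D) / α)]
        with L h3 h4 h5
      rw [div_le_iff₀ h4] at h3
      rw [div_le_iff₀ hα0] at h5
      linarith
    filter_upwards [e1, e2, e3, e4, eventually_gt_atTop 0] with X h1 h2 h3 h4 h5
    exact Lad.clause8 h hαc h5 rfl h1 h2 h3 h4

end Pool.Agent.Lib.MP391708.MR
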