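import Pool.Agent.Lib.MP_391708_nt.MR.Spec

/-!
# LANDAU: one-sided bound for the logarithmic derivative to the right of the zeros
-/

set_option autoImplicit false

namespace Pool.Agent.Lib.MP391708.MR
namespace Landau

open Metric Filter Topology

/-- `n` zeros of `f` (with multiplicity) in the closed ball of radius `r/4` are divided out. -/
def Fac (f : ℂ → ℂ) (s₀ : ℂ) (r : ℝ) (l : List ℂ) (g : ℂ → ℂ) : Prop :=
  (∀ ρ ∈ l, ρ ∈ closedBall s₀ (r / 4)) ∧ (∀ z ∈ closedBall s₀ r, AnalyticAt ℂ g z) ∧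
    ∀ z, f z = (l.map (fun ρ => z - ρ)).prod * g z

theorem analyticAt_dslope {g : ℂ → ℂ} {ρ z : ℂ} (hz : AnalyticAt ℂ g z) (hρ : AnalyticAt ℂ g ρ) :
    AnalyticAt ℂ (dslope g ρ) z := by
  have hopen : IsOpen {w : ℂ | AnalyticAt ℂ g w} := isOpen_analyticAt ℂ g
  have hd : DifferentiableOn ℂ g {w : ℂ | AnalyticAt ℂ g w} :=
    fun w hw => (AnalyticAt.differentiableAt hw).differentiableWithinAt
  have h2 := (Complex.differentiableOn_dslope (hopen.mem_nhds hρ)).2 hd
  exact h2.analyticAt (hopen.mem_nhds hz)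

theorem Fac.step {f g : ℂ → ℂ} {s₀ : ℂ} {r : ℝ} {l : List ℂ} (h : Fac f s₀ r l g) (hr : 0 < r)
    {ρ : ℂ} (hρ : ρ ∈ closedBall s₀ (r / 4)) (h0 : g ρ = 0) : Fac f s₀ r (ρ :: l) (dslope g ρ) := by
  obtain ⟨h1, h2, h3⟩ := h
  refine ⟨?_, ?_, ?_⟩
  · intro x hx
    rcases List.mem_cons.1 hx with h | h
    · rw [h]; exact hρ
    · exact h1 x h
  · intro z hz
    exact analyticAt_dslope (h2 z hz) (h2 ρ (closedBall_subset_closedBall (by linarith) hρ))
  · intro z
    rw [h3 z, List.map_cons, List.prod_cons, mul_comm (z - ρ), mul_assoc, ← smul_eq_mul (z - ρ),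
      sub_smul_dslope_of_zero h0]

theorem prod_ge {l : List ℂ} {z : ℂ} {c : ℝ} (hc : 0 ≤ c) (h : ∀ ρ ∈ l, c ≤ ‖z - ρ‖) :
    c ^ l.length ≤ ‖(l.map (fun ρ => z - ρ)).prod‖ := by
  induction l with
  | nil => simp
  | cons a l ih =>
    rw [List.map_cons, List.prod_cons, norm_mul, List.length_cons, pow_succ, mul_comm]
    exact mul_le_mul (h a (by simp)) (ih fun ρ hρ => h ρ (by simp [hρ])) (by positivity)
      (norm_nonneg _)

theorem prod_le {l : List ℂ} {z : ℂ} {c : ℝ} (hc : 0 ≤ c) (h : ∀ ρ ∈ l, ‖z - ρ‖ ≤ c) :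
    ‖(l.map (fun ρ => z - ρ)).prod‖ ≤ c ^ l.length := by
  induction l with
  | nil => simp
  | cons a l ih =>
    rw [List.map_cons, List.prod_cons, norm_mul, List.length_cons, pow_succ, mul_comm (c ^ _)]
    exact mul_le_mul (h a (by simp)) (ih fun ρ hρ => h ρ (by simp [hρ])) (norm_nonneg _) hc

/-- the comparison of `g` with its value at the centre -/
theorem Fac.bound {f g : ℂ → ℂ} {s₀ : ℂ} {r M : ℝ} {l : List ℂ} (h : Fac f s₀ r l g) (hr : 0 < r)
    (hM : ∀ s ∈ closedBall s₀ r, ‖f s‖ ≤ M * ‖f s₀‖) (hM0 : 0 ≤ M) :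
    ∀ z ∈ closedBall s₀ r, ‖g z‖ ≤ M * (1 / 3) ^ l.length * ‖g s₀‖ := by
  obtain ⟨h1, h2, h3⟩ := h
  have hcl : closure (ball s₀ r) = closedBall s₀ r := closure_ball s₀ hr.ne'
  intro z hz
  refine Complex.norm_le_of_forall_mem_frontier_norm_le (U := ball s₀ r) isBounded_ball
    (DifferentiableOn.diffContOnCl ?_) ?_ (by rw [hcl]; exact hz)
  · rw [hcl]
    exact fun w hw => (h2 w hw).differentiableAt.differentiableWithinAt
  · intro w hw
    rw [frontier_ball s₀ hr.ne'] at hw
    have hw' : dist w s₀ = r := hw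
    have hlow : (3 * r / 4) ^ l.length ≤ ‖(l.map (fun ρ => w - ρ)).prod‖ := by
      apply prod_ge (by positivity)
      intro ρ hρ
      have := mem_closedBall.1 (h1 ρ hρ)
      have h5 : dist w s₀ ≤ dist w ρ + dist ρ s₀ := dist_triangle _ _ _
      rw [← dist_eq_norm]
      linarith
    have hup : ‖(l.map (fun ρ => s₀ - ρ)).prod‖ ≤ (r / 4) ^ l.length := by
      apply prod_le (by positivity)
      intro ρ hρ
      have := mem_closedBall.1 (h1 ρ hρ)
      rw [← dist_eq_norm, dist_comm]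
      exact this
    have h6 : ‖f w‖ ≤ M * ‖f s₀‖ := hM w (by rw [mem_closedBall, hw'])
    rw [h3 w, h3 s₀, norm_mul, norm_mul] at h6
    have h7 : (3 * r / 4) ^ l.length * ‖g w‖ ≤ M * ((r / 4) ^ l.length * ‖g s₀‖) :=
      calc (3 * r / 4) ^ l.length * ‖g w‖ ≤ ‖(l.map (fun ρ => w - ρ)).prod‖ * ‖g w‖ := by gcongr
        _ ≤ _ := h6
        _ ≤ _ := by gcongr
    have h8 : (r / 4) ^ l.length = (1 / 3) ^ l.length * (3 * r / 4) ^ l.length := by
      rw [← mul_pow]; congr 1; ring
    rw [h8] at h7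
    have h9 : (0 : ℝ) < (3 * r / 4) ^ l.length := by positivity
    have h10 : (3 * r / 4) ^ l.length * ‖g w‖ ≤
        (3 * r / 4) ^ l.length * (M * (1 / 3) ^ l.length * ‖g s₀‖) := by
      calc _ ≤ _ := h7
        _ = _ := by ring
    exact le_of_mul_le_mul_left h10 h9

theorem exists_fac {f : ℂ → ℂ} {s₀ : ℂ} {r M : ℝ} (hr : 0 < r) (hM1 : 1 ≤ M)
    (hf : AnalyticOnNhd ℂ f (closedBall s₀ r)) (h0 : f s₀ ≠ 0)
    (hM : ∀ s ∈ closedBall s₀ r, ‖f s‖ ≤ M * ‖f s₀‖) :
    ∃ (l : List ℂ) (g : ℂ → ℂ), Fac f s₀ r l g ∧ ∀ z ∈ closedBall s₀ (r / 4), g z ≠ 0 := by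
  classical
  by_contra hcon
  push Not at hcon
  have hall : ∀ n : ℕ, ∃ (l : List ℂ) (g : ℂ → ℂ), l.length = n ∧ Fac f s₀ r l g := by
    intro n
    induction n with
    | zero => exact ⟨[], f, rfl, by simp, fun z hz => hf z hz, fun z => by simp⟩
    | succ n ih =>
      obtain ⟨l, g, hl, hF⟩ := ih
      obtain ⟨z, hz, hgz⟩ := hcon l g hF
      exact ⟨z :: l, dslope g z, by simp [hl], hF.step hr hz hgz⟩
  obtain ⟨n, hn⟩ : ∃ n : ℕ, M * (1 / 3 : ℝ) ^ n < 1 := by
    have h1 : Tendsto (fun n : ℕ => M * (1 / 3 : ℝ) ^ n) atTop (𝓝 (M * 0)) :=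
      (tendsto_pow_atTop_nhds_zero_of_lt_one (by norm_num) (by norm_num)).const_mul M
    rw [mul_zero] at h1
    exact (h1.eventually (gt_mem_nhds one_pos)).exists
  obtain ⟨l, g, hl, hF⟩ := hall n
  have h1 := hF.bound hr hM (by linarith) s₀ (mem_closedBall_self hr.le)
  rw [hl] at h1
  have h2 : g s₀ ≠ 0 := by
    intro h
    apply h0
    rw [hF.2.2 s₀, h, mul_zero]
  have h3 : 0 < ‖g s₀‖ := norm_pos_iff.2 h2
  nlinarith

/-- the logarithmic derivative of the product -/
theorem logDeriv_prod (l : List ℂ) (z : ℂ) (h : ∀ ρ ∈ l, z ≠ ρ) :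
    logDeriv (fun w => (l.map (fun ρ => w - ρ)).prod) z = (l.map (fun ρ => 1 / (z - ρ))).sum := by
  induction l with
  | nil => simp
  | cons a l ih =>
    simp only [List.map_cons, List.prod_cons, List.sum_cons]
    have hne : (l.map (fun ρ => z - ρ)).prod ≠ 0 := by
      rw [Ne, List.prod_eq_zero_iff]
      intro hmem
      obtain ⟨ρ, hρ, h0⟩ := List.mem_map.1 hmem
      exact h ρ (by simp [hρ]) (sub_eq_zero.1 h0)
    have hd : DifferentiableAt ℂ (fun w => (l.map (fun ρ => w - ρ)).prod) z := by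
      clear ih hne h
      induction l with
      | nil => simp
      | cons b l ih =>
        simp only [List.map_cons, List.prod_cons]
        exact (differentiableAt_id.sub_const b).mul ih
    have h1 := logDeriv_mul (f := fun w => w - a) z (sub_ne_zero.2 (h a (by simp))) hne
      (differentiableAt_id.sub_const a) hd
    rw [h1, ih fun ρ hρ => h ρ (by simp [hρ])]
    congr 1
    rw [logDeriv_apply]
    simp

theorem exists_log {g : ℂ → ℂ} {s₀ : ℂ} {r : ℝ} (hr : 0 < r)
    (hg : ∀ z ∈ ball s₀ r, AnalyticAt ℂ g z) (hg0 : ∀ z ∈ ball s₀ r, g z ≠ 0) :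
    ∃ h : ℂ → ℂ, h s₀ = 0 ∧ (∀ z ∈ ball s₀ r, HasDerivAt h (deriv g z / g z) z) ∧
      ∀ z ∈ ball s₀ r, g z = g s₀ * Complex.exp (h z) := by
  have hd : DifferentiableOn ℂ (fun z => deriv g z / g z) (ball s₀ r) := by
    intro z hz
    exact ((hg z hz).deriv.differentiableAt.div (hg z hz).differentiableAt
      (hg0 z hz)).differentiableWithinAt
  obtain ⟨h, h0, h1⟩ := hd.isExactOn_ball.with_val_at s₀ 0
  refine ⟨h, h0, h1, ?_⟩
  have hconst : ∀ z ∈ ball s₀ r, g z * Complex.exp (-h z) = g s₀ * Complex.exp (-h s₀) := by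
    intro z hz
    refine (convex_ball s₀ r).is_const_of_fderivWithin_eq_zero (𝕜 := ℂ)
      (f := fun z => g z * Complex.exp (-h z)) ?_ ?_ hz (mem_ball_self hr)
    · intro w hw
      exact ((hg w hw).differentiableAt.mul
        ((h1 w hw).differentiableAt.neg.cexp)).differentiableWithinAt
    · intro w hw
      rw [fderivWithin_of_isOpen isOpen_ball hw]
      have h2 : HasDerivAt (fun z => g z * Complex.exp (-h z))
          (deriv g w * Complex.exp (-h w) + g w * (Complex.exp (-h w) * (-(deriv g w / g w)))) w :=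
        (hg w hw).differentiableAt.hasDerivAt.mul ((h1 w hw).neg.cexp)
      have h3 : deriv g w * Complex.exp (-h w) + g w * (Complex.exp (-h w) * (-(deriv g w / g w)))
          = 0 := by
        have := hg0 w hw
        field_simp
        ring
      rw [h3] at h2
      ext
      simp [h2.hasFDerivAt.fderiv]
  intro z hz
  have h4 := hconst z hz
  rw [h0, neg_zero, Complex.exp_zero, mul_one, Complex.exp_neg] at h4
  rw [← h4, mul_assoc, inv_mul_cancel₀ (Complex.exp_ne_zero _), mul_one]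

end Landau

open Landau Metric in
theorem specLandau : SpecLandau := by
  refine ⟨96, by norm_num, ?_⟩
  intro f s₀ r M x₀ hr hM1 hf h0 hM hz s hs hsx
  obtain ⟨l, g, hF, hg0⟩ := exists_fac hr hM1 hf h0 hM
  have hF1 := hF.1
  have hF2 := hF.2.1
  have hF3 := hF.2.2
  have hlog : 0 ≤ Real.log M := Real.log_nonneg hM1
  have hgs0 : g s₀ ≠ 0 := by
    intro h
    apply h0
    rw [hF3 s₀, h, mul_zero]
  -- the zeros
  have hzero : ∀ ρ ∈ l, f ρ = 0 := by
    intro ρ hρ
    rw [hF3 ρ]
    have : (l.map (fun ρ' => ρ - ρ')).prod = 0 := by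
      rw [List.prod_eq_zero_iff]
      exact List.mem_map.2 ⟨ρ, hρ, sub_self ρ⟩
    rw [this, zero_mul]
  have hre : ∀ ρ ∈ l, ρ.re ≤ x₀ := fun ρ hρ =>
    hz ρ (closedBall_subset_closedBall (by linarith) (hF1 ρ hρ)) (hzero ρ hρ)
  have hne : ∀ ρ ∈ l, s ≠ ρ := by
    intro ρ hρ h
    have := hre ρ hρ
    rw [← h] at this
    linarith
  -- the logarithm
  have hg1 : ∀ z ∈ ball s₀ (r / 4), AnalyticAt ℂ g z := fun z hz =>
    hF2 z (ball_subset_closedBall (ball_subset_ball (by linarith) hz))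
  obtain ⟨h, hh0, hh1, hh2⟩ := exists_log (by positivity) hg1
    (fun z hz => hg0 z (ball_subset_closedBall hz))
  have hbd : ∀ z ∈ ball s₀ (r / 4), (h z).re ≤ 1 + Real.log M := by
    intro z hz
    have h1 := hF.bound hr hM (by linarith) z
      (ball_subset_closedBall (ball_subset_ball (by linarith) hz))
    have h2 : M * (1 / 3 : ℝ) ^ l.length ≤ M := by
      have : (1 / 3 : ℝ) ^ l.length ≤ 1 := pow_le_one₀ (by norm_num) (by norm_num)
      nlinarith
    rw [hh2 z hz, norm_mul, Complex.norm_exp] at h1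
    have h3 : 0 < ‖g s₀‖ := norm_pos_iff.2 hgs0
    have h4 : Real.exp (h z).re ≤ M := by
      have : ‖g s₀‖ * Real.exp (h z).re ≤ ‖g s₀‖ * M := by nlinarith
      exact le_of_mul_le_mul_left this h3
    have h5 := Real.log_le_log (Real.exp_pos _) h4
    rw [Real.log_exp] at h5
    linarith
  -- Borel–Carathéodory
  have hBC : ∀ z, dist z s₀ ≤ 3 * r / 16 → ‖h z‖ ≤ 6 * (1 + Real.log M) := by
    intro z hz
    have hd : DifferentiableOn ℂ (fun w => h (s₀ + w)) (ball 0 (r / 4)) := by
      intro w hw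
      have hw' : s₀ + w ∈ ball s₀ (r / 4) := by
        simpa [mem_ball, dist_eq_norm] using hw
      have h2 : HasDerivAt h (deriv g (s₀ + w) / g (s₀ + w)) (s₀ + w) := hh1 _ hw'
      exact (h2.comp_const_add s₀ w).differentiableAt.differentiableWithinAt
    have hm : Set.MapsTo (fun w => h (s₀ + w)) (ball 0 (r / 4)) {z | z.re ≤ 1 + Real.log M} := by
      intro w hw
      have hw' : s₀ + w ∈ ball s₀ (r / 4) := by
        simpa [mem_ball, dist_eq_norm] using hw
      exact hbd _ hw'
    have hz' : ‖z - s₀‖ ≤ 3 * r / 16 := by rwa [dist_eq_norm] at hz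
    have h3 := Complex.borelCaratheodory_zero (f := fun w => h (s₀ + w)) (z := z - s₀)
      (by linarith) hd hm (by positivity)
      (by rw [mem_ball, dist_zero_right]; linarith) (by simpa using hh0)
    simp only [add_sub_cancel] at h3
    refine h3.trans ?_
    rw [div_le_iff₀ (by linarith)]
    nlinarith [norm_nonneg (z - s₀)]
  have hs' : dist s s₀ ≤ r / 8 := mem_closedBall.1 hs
  have hder : ‖deriv g s / g s‖ ≤ 6 * (1 + Real.log M) / (r / 16) := by
    have hsb : s ∈ ball s₀ (r / 4) := by rw [mem_ball]; linarith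
    rw [← (hh1 s hsb).deriv]
    apply Complex.norm_deriv_le_of_forall_mem_sphere_norm_le (by positivity)
    · apply DifferentiableOn.diffContOnCl
      rw [closure_ball s (by positivity)]
      intro w hw
      have hw' : w ∈ ball s₀ (r / 4) := by
        rw [mem_ball]
        have h1 := mem_closedBall.1 hw
        have h2 := dist_triangle w s s₀
        linarith
      exact (hh1 w hw').differentiableAt.differentiableWithinAt
    · intro w hw
      apply hBC
      have h1 : dist w s = r / 16 := hw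
      have h2 := dist_triangle w s s₀
      linarith
  -- the logarithmic derivative
  have hprodne : (l.map (fun ρ => s - ρ)).prod ≠ 0 := by
    rw [Ne, List.prod_eq_zero_iff]
    intro hmem
    obtain ⟨ρ, hρ, h0⟩ := List.mem_map.1 hmem
    exact hne ρ hρ (sub_eq_zero.1 h0)
  have hgs : g s ≠ 0 := hg0 s (by rw [mem_closedBall]; linarith)
  have hgd : DifferentiableAt ℂ g s :=
    (hF2 s (by rw [mem_closedBall]; linarith)).differentiableAt
  have hpd : DifferentiableAt ℂ (fun w => (l.map (fun ρ => w - ρ)).prod) s := by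
    clear hF hF1 hF3 hzero hre hne hprodne hbd
    induction l with
    | nil => simp
    | cons b l ih =>
      simp only [List.map_cons, List.prod_cons]
      exact (differentiableAt_id.sub_const b).mul ih
  have hld : deriv f s / f s = (l.map (fun ρ => 1 / (s - ρ))).sum + deriv g s / g s := by
    have h1 : f = fun w => (l.map (fun ρ => w - ρ)).prod * g w := funext hF3
    have h2 := logDeriv_mul s hprodne hgs hpd hgd
    rw [logDeriv_prod l s hne, logDeriv_apply, logDeriv_apply] at h2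
    rw [← h1, ← hF3 s] at h2
    exact h2
  have hsum : 0 ≤ ((l.map (fun ρ => 1 / (s - ρ))).sum).re := by
    clear hF hF1 hF3 hzero hprodne hbd hpd hld
    induction l with
    | nil => simp
    | cons b l ih =>
      simp only [List.map_cons, List.sum_cons, Complex.add_re]
      have h1 := ih (fun ρ hρ => hre ρ (by simp [hρ])) (fun ρ hρ => hne ρ (by simp [hρ]))
      have h2 : 0 ≤ (1 / (s - b)).re := by
        rw [one_div, Complex.inv_re]
        have h3 := hre b (by simp)
        apply div_nonneg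
        · rw [Complex.sub_re]; linarith
        · exact Complex.normSq_nonneg _
      linarith
  rw [hld, Complex.add_re]
  have h1 : -(deriv g s / g s).re ≤ ‖deriv g s / g s‖ := by
    have := Complex.abs_re_le_norm (deriv g s / g s)
    have h2 := neg_abs_le (deriv g s / g s).re
    linarith
  have h2 : 6 * (1 + Real.log M) / (r / 16) = 96 * (1 + Real.log M) / r := by
    field_simp
    ring
  linarith

end Pool.Agent.Lib.MP391708.MR
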