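import Pool.Agent.Lib.MP_391708_nt.MR.TypeD

set_option autoImplicit false

namespace Pool.Agent.Lib.MP391708.MR

open Finset Filter Topology MeasureTheory
open scoped ComplexConjugate

namespace TypeM

lemma eventually_const_mul_le {C a b : ℝ} (hab : a < b) :
    ∀ᶠ x : ℝ in atTop, C * x ^ a ≤ x ^ b := by
  have h1 : Tendsto (fun x : ℝ => x ^ (b - a)) atTop atTop := tendsto_rpow_atTop (by linarith)
  filter_upwards [h1.eventually_ge_atTop C, eventually_gt_atTop (0 : ℝ)] with x hx hx0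
  have h2 : x ^ b = x ^ (b - a) * x ^ a := by
    rw [← Real.rpow_add hx0]; congr 1; ring
  rw [h2]
  exact mul_le_mul_of_nonneg_right hx (by positivity)

/-- the bound for `BND` -/
lemma BND_le {q d m : ℕ} (hq : 2 ≤ q) (hm : 0 < m) {c Cq κ g e δ : ℝ} (hc : 0 < c)
    (hCq : 0 < Cq) (he : e = 1 / (2 ^ q - 2)) (hg0 : 0 < g) (hg1 : g ≤ e / 2)
    (hg2 : g ≤ 2 / 2 ^ q - ((q : ℝ) / 2 - κ) * e) (hδ : δ * (2 * d + 3 * q) = g / 2)
    (hδ0 : 0 < δ) {x : ℝ} (hx : 1 ≤ x) {k : ℤ} (hk : k ≠ 0) (hk1 : x ^ κ ≤ |(k : ℝ)|)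
    (hk2 : |(k : ℝ)| ≤ x ^ (((q : ℝ) - 1) / 2)) :
    LB q d m c k (x ^ (-δ)) (x ^ (1 / 2 : ℝ)) ≤
      (((q - 1).factorial : ℝ) * (m : ℝ) ^ q / (2 * Real.pi) * c) * x ^ (-(1 / 2) : ℝ) ∧
    BND q d m c Cq k (x ^ (-δ)) (x ^ (1 / 2 : ℝ)) ≤ 1 + (2 * Cq / c *
      ((((q - 1).factorial : ℝ) * (m : ℝ) ^ q / (2 * Real.pi) * c) ^ e +
        (((q - 1).factorial : ℝ) * (m : ℝ) ^ q / (2 * Real.pi) * c) ^ (-e))) *
          x ^ (1 / 2 - g / 2) := by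
  have hx0 : 0 < x := by linarith
  have hpi := Real.pi_pos
  have hm0 : (0 : ℝ) < m := by exact_mod_cast hm
  have hk0 : 0 < |(k : ℝ)| := abs_pos.2 (by exact_mod_cast hk)
  have hq2 : (2 : ℝ) ^ 2 ≤ 2 ^ q := pow_le_pow_right₀ (by norm_num) hq
  have hq2' : (0 : ℝ) < 2 ^ q - 2 := by norm_num at hq2; linarith
  have he0 : 0 < e := by rw [he]; positivity
  have he1 : e ≤ 1 := by
    rw [he, div_le_one hq2']; norm_num at hq2; linarith
  set K := ((q - 1).factorial : ℝ) * (m : ℝ) ^ q / (2 * Real.pi) * c with hK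
  have hK0 : 0 < K := by positivity
  have hLBeq : LB q d m c k (x ^ (-δ)) (x ^ (1 / 2 : ℝ)) =
      K * (|(k : ℝ)| * x ^ (-δ * (d + q) - q / 2)) := by
    unfold LB
    have e1 : (x ^ (-δ)) ^ (d + q) / (x ^ (1 / 2 : ℝ)) ^ q = x ^ (-δ * (d + q) - q / 2) := by
      rw [← Real.rpow_natCast, ← Real.rpow_natCast, ← Real.rpow_mul hx0.le,
        ← Real.rpow_mul hx0.le, ← Real.rpow_sub hx0]
      congr 1
      push_cast
      ring
    rw [mul_div_assoc c, e1, hK]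
    field_simp
  have hd0 : (0 : ℝ) ≤ d := Nat.cast_nonneg _
  have hq0 : (0 : ℝ) ≤ q := Nat.cast_nonneg _
  have hLBup : LB q d m c k (x ^ (-δ)) (x ^ (1 / 2 : ℝ)) ≤ K * x ^ (-(1 / 2) : ℝ) := by
    rw [hLBeq]
    apply mul_le_mul_of_nonneg_left _ hK0.le
    calc |(k : ℝ)| * x ^ (-δ * (d + q) - q / 2) ≤
        x ^ (((q : ℝ) - 1) / 2) * x ^ (-δ * (d + q) - q / 2) :=
          mul_le_mul_of_nonneg_right hk2 (by positivity)
      _ = x ^ (-(1 / 2) - δ * (d + q) : ℝ) := by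
          rw [← Real.rpow_add hx0]; congr 1; ring
      _ ≤ x ^ (-(1 / 2) : ℝ) := by
          apply Real.rpow_le_rpow_of_exponent_le hx
          have : 0 ≤ δ * (d + q) := by positivity
          linarith
  have hLBlow : K * x ^ (κ - q / 2 - δ * (d + q)) ≤
      LB q d m c k (x ^ (-δ)) (x ^ (1 / 2 : ℝ)) := by
    rw [hLBeq]
    apply mul_le_mul_of_nonneg_left _ hK0.le
    calc x ^ (κ - q / 2 - δ * (d + q)) = x ^ κ * x ^ (-δ * (d + q) - q / 2) := by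
          rw [← Real.rpow_add hx0]; congr 1; ring
      _ ≤ _ := mul_le_mul_of_nonneg_right hk1 (by positivity)
  refine ⟨hLBup, ?_⟩
  have hLB0 : 0 < LB q d m c k (x ^ (-δ)) (x ^ (1 / 2 : ℝ)) :=
    lt_of_lt_of_le (by positivity) hLBlow
  unfold BND
  have hne : -(1 : ℝ) / (2 ^ q - 2) = -e := by rw [he, neg_div]
  rw [hne, ← he]
  have hR : 1 / (c * (x ^ (-δ)) ^ (d + 2 * q)) = 1 / c * x ^ (δ * (d + 2 * q)) := by
    have e1 : (x ^ (-δ)) ^ (d + 2 * q) = (x ^ (δ * (d + 2 * q)))⁻¹ := by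
      rw [← Real.rpow_natCast, ← Real.rpow_mul hx0.le, ← Real.rpow_neg hx0.le]
      congr 1
      push_cast
      ring
    rw [e1]
    field_simp
  have h1 : (LB q d m c k (x ^ (-δ)) (x ^ (1 / 2 : ℝ))) ^ e ≤ K ^ e * x ^ (-(e / 2)) := by
    calc _ ≤ (K * x ^ (-(1 / 2) : ℝ)) ^ e := Real.rpow_le_rpow hLB0.le hLBup he0.le
      _ = K ^ e * x ^ (-(e / 2)) := by
        rw [Real.mul_rpow hK0.le (by positivity), ← Real.rpow_mul hx0.le]
        congr 2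
        ring
  have h2 : (LB q d m c k (x ^ (-δ)) (x ^ (1 / 2 : ℝ))) ^ (-e) ≤
      K ^ (-e) * x ^ ((q / 2 - κ) * e + δ * (d + q) * e) := by
    calc _ ≤ (K * x ^ (κ - q / 2 - δ * (d + q))) ^ (-e) :=
          Real.rpow_le_rpow_of_nonpos (by positivity) hLBlow (by linarith)
      _ = _ := by
        rw [Real.mul_rpow hK0.le (by positivity), ← Real.rpow_mul hx0.le]
        congr 2
        ring
  have hθ0 : 0 ≤ 1 - 2 / (2 : ℝ) ^ (q - 1) := by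
    rw [sub_nonneg, div_le_one (by positivity)]
    have : (2 : ℝ) ^ 1 ≤ 2 ^ (q - 1) := pow_le_pow_right₀ (by norm_num) (by omega)
    linarith
  have hθ1 : 1 - 2 / (2 : ℝ) ^ (q - 1) ≤ 1 := by
    have : 0 ≤ 2 / (2 : ℝ) ^ (q - 1) := by positivity
    linarith
  have hθ : (1 - 2 / (2 : ℝ) ^ (q - 1)) / 2 = 1 / 2 - 2 / 2 ^ q := by
    obtain ⟨j, rfl⟩ : ∃ j, q = j + 1 := ⟨q - 1, by omega⟩
    rw [Nat.add_sub_cancel, pow_succ]
    field_simp
  have h3 : (2 * x ^ (1 / 2 : ℝ)) ^ (1 - 2 / (2 : ℝ) ^ (q - 1)) ≤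
      2 * x ^ (1 / 2 - 2 / 2 ^ q : ℝ) := by
    rw [Real.mul_rpow (by norm_num) (by positivity), ← Real.rpow_mul hx0.le]
    have e1 : (1 : ℝ) / 2 * (1 - 2 / (2 : ℝ) ^ (q - 1)) = 1 / 2 - 2 / 2 ^ q := by
      rw [← hθ]; ring
    rw [e1]
    apply mul_le_mul_of_nonneg_right _ (by positivity)
    calc (2 : ℝ) ^ (1 - 2 / (2 : ℝ) ^ (q - 1)) ≤ 2 ^ (1 : ℝ) :=
          Real.rpow_le_rpow_of_exponent_le (by norm_num) hθ1
      _ = 2 := Real.rpow_one 2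
  have h4 : x ^ (δ * (d + 2 * q)) * (2 * x ^ (1 / 2 : ℝ) *
      (LB q d m c k (x ^ (-δ)) (x ^ (1 / 2 : ℝ))) ^ e) ≤ 2 * K ^ e * x ^ (1 / 2 - g / 2) := by
    calc _ ≤ x ^ (δ * (d + 2 * q)) * (2 * x ^ (1 / 2 : ℝ) * (K ^ e * x ^ (-(e / 2)))) := by
          gcongr
      _ = 2 * K ^ e * (x ^ (δ * (d + 2 * q)) * x ^ (1 / 2 : ℝ) * x ^ (-(e / 2))) := by ring
      _ = 2 * K ^ e * x ^ (δ * (d + 2 * q) + 1 / 2 - e / 2) := by
          rw [← Real.rpow_add hx0, ← Real.rpow_add hx0]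
          congr 2
      _ ≤ _ := by
          apply mul_le_mul_of_nonneg_left _ (by positivity)
          apply Real.rpow_le_rpow_of_exponent_le hx
          have : δ * (d + 2 * q) ≤ δ * (2 * d + 3 * q) :=
            mul_le_mul_of_nonneg_left (by linarith) hδ0.le
          linarith
  have h5 : x ^ (δ * (d + 2 * q)) * ((2 * x ^ (1 / 2 : ℝ)) ^ (1 - 2 / (2 : ℝ) ^ (q - 1)) *
      (LB q d m c k (x ^ (-δ)) (x ^ (1 / 2 : ℝ))) ^ (-e)) ≤
        2 * K ^ (-e) * x ^ (1 / 2 - g / 2) := by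
    calc _ ≤ x ^ (δ * (d + 2 * q)) * ((2 * x ^ (1 / 2 - 2 / 2 ^ q : ℝ)) *
          (K ^ (-e) * x ^ ((q / 2 - κ) * e + δ * (d + q) * e))) := by
          gcongr
      _ = 2 * K ^ (-e) * (x ^ (δ * (d + 2 * q)) * x ^ (1 / 2 - 2 / 2 ^ q : ℝ) *
            x ^ ((q / 2 - κ) * e + δ * (d + q) * e)) := by ring
      _ = 2 * K ^ (-e) * x ^ (δ * (d + 2 * q) + (1 / 2 - 2 / 2 ^ q) +
            ((q / 2 - κ) * e + δ * (d + q) * e)) := by
          rw [← Real.rpow_add hx0, ← Real.rpow_add hx0]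
      _ ≤ _ := by
          apply mul_le_mul_of_nonneg_left _ (by positivity)
          apply Real.rpow_le_rpow_of_exponent_le hx
          have h6 : δ * (d + q) * e ≤ δ * (d + q) * 1 :=
            mul_le_mul_of_nonneg_left he1 (by positivity)
          have h7 : δ * (d + 2 * q) + δ * (d + q) = δ * (2 * d + 3 * q) := by ring
          linarith
  rw [hR]
  have h8 : Cq * (1 / c * x ^ (δ * (d + 2 * q))) * (2 * x ^ (1 / 2 : ℝ) *
      (LB q d m c k (x ^ (-δ)) (x ^ (1 / 2 : ℝ))) ^ e +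
        (2 * x ^ (1 / 2 : ℝ)) ^ (1 - 2 / (2 : ℝ) ^ (q - 1)) *
          (LB q d m c k (x ^ (-δ)) (x ^ (1 / 2 : ℝ))) ^ (-e)) ≤
      Cq / c * (2 * K ^ e * x ^ (1 / 2 - g / 2) + 2 * K ^ (-e) * x ^ (1 / 2 - g / 2)) := by
    calc _ = Cq / c * (x ^ (δ * (d + 2 * q)) * (2 * x ^ (1 / 2 : ℝ) *
      (LB q d m c k (x ^ (-δ)) (x ^ (1 / 2 : ℝ))) ^ e) + x ^ (δ * (d + 2 * q)) *
        ((2 * x ^ (1 / 2 : ℝ)) ^ (1 - 2 / (2 : ℝ) ^ (q - 1)) *
          (LB q d m c k (x ^ (-δ)) (x ^ (1 / 2 : ℝ))) ^ (-e))) := by ring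
      _ ≤ _ := mul_le_mul_of_nonneg_left (add_le_add h4 h5) (by positivity)
  calc _ ≤ 1 + Cq / c * (2 * K ^ e * x ^ (1 / 2 - g / 2) + 2 * K ^ (-e) * x ^ (1 / 2 - g / 2)) := by
        linarith
    _ = _ := by ring

lemma num2 {r P C y s t : ℝ} (hr : 0 ≤ r) (hP : 0 ≤ P) (hC : 0 ≤ C) (hs : s ≤ y) (ht : t ≤ y) :
    6 * y + 4 * r * y + 2 * r * s + 2 * P * s + 2 * P * C * t + 3 * s ≤
      (9 + 6 * r + 2 * P + 2 * P * C) * y := by
  have h1 := mul_le_mul_of_nonneg_left hs hr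
  have h2 := mul_le_mul_of_nonneg_left hs hP
  have h3 := mul_le_mul_of_nonneg_left ht (mul_nonneg hP hC)
  linarith

/-- middle range of frequencies -/
lemma type_mid (hV : SpecVDC) {q : ℕ} (hq : 2 ≤ q) {m : ℕ} (hm : 0 < m) {κ : ℝ}
    (hκ : ((q : ℝ) / 2 - κ) / (2 ^ q - 2) < 2 / 2 ^ q) :
    ∃ c' : ℝ, 0 < c' ∧ c' < 1 ∧ ∀ᶠ x : ℝ in atTop, ∀ k : ℤ, k ≠ 0 → x ^ κ ≤ |(k : ℝ)| →
      |(k : ℝ)| ≤ x ^ (((q : ℝ) - 1) / 2) → ∀ w : Gi,
        ‖∑ z ∈ (disc x).filter (cond m w), xi k z‖ ≤ x ^ (1 - c') := by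
  obtain ⟨Cq, hCq, hC⟩ := hV q hq
  obtain ⟨ρ, c, d, hc, hc1, hρ⟩ := exists_lower q (by omega)
  have hpi := Real.pi_pos
  have hq2 : (2 : ℝ) ^ 2 ≤ 2 ^ q := pow_le_pow_right₀ (by norm_num) hq
  have hq2' : (0 : ℝ) < 2 ^ q - 2 := by norm_num at hq2; linarith
  set e : ℝ := 1 / (2 ^ q - 2) with he
  have he0 : 0 < e := by rw [he]; positivity
  have he2 : e ≤ 1 / 2 := by
    rw [he, div_le_div_iff₀ hq2' (by norm_num)]; norm_num at hq2; linarith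
  have hκ' : 0 < 2 / 2 ^ q - ((q : ℝ) / 2 - κ) * e := by
    rw [he, mul_one_div]; linarith
  set g := min (e / 2) (2 / 2 ^ q - ((q : ℝ) / 2 - κ) * e) with hg
  have hg0 : 0 < g := lt_min (by positivity) hκ'
  have hqR : (2 : ℝ) ≤ q := by exact_mod_cast hq
  have hd0 : (0 : ℝ) ≤ d := Nat.cast_nonneg _
  set δ := g / (2 * (2 * d + 3 * q)) with hδdef
  have hδ0 : 0 < δ := by positivity
  have hδ : δ * (2 * d + 3 * q) = g / 2 := by
    have hden : (2 * (2 * (d : ℝ) + 3 * q)) ≠ 0 := by positivity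
    rw [hδdef, div_mul_eq_mul_div, div_eq_div_iff hden two_ne_zero]
    ring
  have hg4 : g ≤ 1 / 4 := (min_le_left _ _).trans (by linarith)
  have hδg : δ ≤ g / 2 := by
    rw [← hδ]
    nlinarith
  set K := ((q - 1).factorial : ℝ) * (m : ℝ) ^ q / (2 * Real.pi) * c with hK
  set C₃ := 2 * Cq / c * (K ^ e + K ^ (-e)) with hC₃
  have hm0 : (0 : ℝ) < m := by exact_mod_cast hm
  have hK0 : 0 < K := by positivity
  have hC₃0 : 0 < C₃ := by positivity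
  set C₄ : ℝ := 9 + 6 * ρ.card + 2 * 2 ^ ρ.card + 2 * 2 ^ ρ.card * C₃ with hC₄
  refine ⟨δ / 2, by positivity, by linarith, ?_⟩
  filter_upwards [eventually_ge_atTop (1 : ℝ),
    eventually_const_mul_le (C := K) (a := -(1 / 2)) (b := 0) (by norm_num),
    eventually_const_mul_le (C := C₄) (a := 1 - δ) (b := 1 - δ / 2) (by linarith)]
    with x hx hx1 hx2
  intro k hk hk1 hk2 w
  have hx0 : 0 < x := by linarith
  rw [Real.rpow_zero] at hx1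
  obtain ⟨b1, b2⟩ := BND_le hq hm hc hCq he hg0 (min_le_left _ _) (min_le_right _ _) hδ hδ0 hx hk
    hk1 hk2
  have hs1 : 1 ≤ x ^ (1 / 2 : ℝ) := Real.one_le_rpow hx (by norm_num)
  have hsx : x = (x ^ (1 / 2 : ℝ)) ^ 2 := by
    rw [← Real.rpow_natCast, ← Real.rpow_mul hx0.le]; norm_num
  have hε1 : x ^ (-δ) ≤ 1 := Real.rpow_le_one_of_one_le_of_nonpos hx (by linarith)
  have h := type_large hq hCq hC hc hc1 hρ hm w hk hs1 hsx (by positivity) hε1 (b1.trans hx1)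
  refine h.trans (le_trans ?_ hx2)
  -- final estimate
  set s := x ^ (1 / 2 : ℝ) with hs
  set y := x ^ (1 - δ) with hy
  have e1 : x ^ (-δ) * s ^ 2 = y := by
    rw [← hsx, hy]
    nth_rewrite 2 [← Real.rpow_one x]
    rw [← Real.rpow_add hx0]
    congr 1; ring
  have e2 : s ≤ y := Real.rpow_le_rpow_of_exponent_le hx (by linarith)
  have e3 : s * x ^ (1 / 2 - g / 2) ≤ y := by
    rw [hs, ← Real.rpow_add hx0]
    exact Real.rpow_le_rpow_of_exponent_le hx (by linarith)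
  have hρ0 : (0 : ℝ) ≤ ρ.card := Nat.cast_nonneg _
  have hs0 : 0 < s := by positivity
  have h2ρ : (0 : ℝ) < 2 ^ ρ.card := by positivity
  calc 2 * (3 * x ^ (-δ) * s ^ 2 + s * ((ρ.card : ℝ) * (2 * x ^ (-δ) * s + 1) +
        2 ^ ρ.card * BND q d m c Cq k (x ^ (-δ)) s)) + 3 * s
      ≤ 2 * (3 * x ^ (-δ) * s ^ 2 + s * ((ρ.card : ℝ) * (2 * x ^ (-δ) * s + 1) +
        2 ^ ρ.card * (1 + C₃ * x ^ (1 / 2 - g / 2)))) + 3 * s := by gcongr
    _ = 6 * (x ^ (-δ) * s ^ 2) + 4 * ρ.card * (x ^ (-δ) * s ^ 2) + 2 * ρ.card * s +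
        2 * 2 ^ ρ.card * s + 2 * 2 ^ ρ.card * C₃ * (s * x ^ (1 / 2 - g / 2)) + 3 * s := by ring
    _ ≤ C₄ * y := by
        rw [e1, hC₄]
        exact num2 hρ0 h2ρ.le hC₃0.le e2 e3

/-- all frequencies up to `x^(n/2)` -/
lemma type_ind (hV : SpecVDC) {m : ℕ} (hm : 0 < m) (n : ℕ) (hn : 1 ≤ n) :
    ∃ c' : ℝ, 0 < c' ∧ c' < 1 ∧ ∀ᶠ x : ℝ in atTop, ∀ k : ℤ, k ≠ 0 →
      |(k : ℝ)| ≤ x ^ ((n : ℝ) / 2) → ∀ w : Gi,
        ‖∑ z ∈ (disc x).filter (cond m w), xi k z‖ ≤ x ^ (1 - c') := by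
  induction n, hn using Nat.le_induction with
  | base =>
    obtain ⟨c₁, h1, h2, h3⟩ := type_mid hV (q := 2) le_rfl hm (κ := 1 / 8) (by norm_num)
    refine ⟨min c₁ (1 / 16), by positivity, (min_le_left _ _).trans_lt h2, ?_⟩
    filter_upwards [h3, eventually_ge_atTop (1 : ℝ),
      eventually_const_mul_le (C := 200 * m) (a := 7 / 8) (b := 15 / 16) (by norm_num)]
      with x hx hx1 hx2
    intro k hk hk2 w
    have hx0 : 0 < x := by linarith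
    rcases le_or_gt (x ^ (1 / 8 : ℝ)) |(k : ℝ)| with hk1 | hk1
    · refine (hx k hk hk1 ?_ w).trans ?_
      · norm_num at hk2 ⊢
        exact hk2
      · apply Real.rpow_le_rpow_of_exponent_le hx1
        linarith [min_le_left c₁ (1 / 16 : ℝ)]
    · refine (type_small hm hk w hx1).trans ?_
      calc 200 * (m : ℝ) * |(k : ℝ)| * x ^ (3 / 4 : ℝ) ≤
          200 * (m : ℝ) * x ^ (1 / 8 : ℝ) * x ^ (3 / 4 : ℝ) := by gcongr
        _ = 200 * m * x ^ (7 / 8 : ℝ) := by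
          rw [mul_assoc, ← Real.rpow_add hx0]; norm_num
        _ ≤ x ^ (15 / 16 : ℝ) := hx2
        _ ≤ _ := by
          apply Real.rpow_le_rpow_of_exponent_le hx1
          linarith [min_le_right c₁ (1 / 16 : ℝ)]
  | succ n hn ih =>
    obtain ⟨c₀, i1, i2, i3⟩ := ih
    have hcond : (((n + 2 : ℕ) : ℝ) / 2 - (n : ℝ) / 2) / (2 ^ (n + 2) - 2) < 2 / 2 ^ (n + 2) := by
      have h8 : (2 : ℝ) ^ 3 ≤ 2 ^ (n + 2) := pow_le_pow_right₀ (by norm_num) (by omega)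
      norm_num at h8
      rw [div_lt_div_iff₀ (by linarith) (by positivity)]
      push_cast
      nlinarith
    obtain ⟨c₁, h1, h2, h3⟩ := type_mid hV (q := n + 2) (by omega) hm (κ := (n : ℝ) / 2) hcond
    refine ⟨min c₀ c₁, lt_min i1 h1, (min_le_left _ _).trans_lt i2, ?_⟩
    filter_upwards [i3, h3, eventually_ge_atTop (1 : ℝ)] with x hx hx' hx1
    intro k hk hk2 w
    rcases le_or_gt |(k : ℝ)| (x ^ ((n : ℝ) / 2)) with hk1 | hk1
    · refine (hx k hk hk1 w).trans ?_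
      apply Real.rpow_le_rpow_of_exponent_le hx1
      linarith [min_le_left c₀ c₁]
    · refine (hx' k hk hk1.le ?_ w).trans ?_
      · push_cast at hk2 ⊢
        have : ((n : ℝ) + 2 - 1) / 2 = ((n : ℝ) + 1) / 2 := by ring
        rw [this]
        exact hk2
      · apply Real.rpow_le_rpow_of_exponent_le hx1
        linarith [min_le_right c₀ c₁]

end TypeM

open TypeM in
theorem specType (hV : SpecVDC) : SpecType := by
  intro A hA m hm
  have hn : 1 ≤ ⌈2 * A⌉₊ := by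
    apply Nat.one_le_iff_ne_zero.2
    intro h
    rw [Nat.ceil_eq_zero] at h
    linarith
  obtain ⟨c, h1, h2, h3⟩ := type_ind hV hm ⌈2 * A⌉₊ hn
  refine ⟨c, h1, h2, ?_⟩
  filter_upwards [h3, eventually_ge_atTop (1 : ℝ)] with x hx hx1
  intro k hk hk2 w
  refine hx k hk (hk2.trans ?_) w
  apply Real.rpow_le_rpow_of_exponent_le hx1
  have := Nat.le_ceil (2 * A)
  linarith

end Pool.Agent.Lib.MP391708.MR
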