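import Pool.Agent.Lib.MP_391708_nt.MR.TypeB

set_option autoImplicit false

namespace Pool.Agent.Lib.MP391708.MR

open Finset Filter Topology MeasureTheory
open scoped ComplexConjugate

namespace TypeM

/-- an interval in a residue class is an arithmetic progression -/
lemma exists_prog {G : Finset ℤ} (hG : G.Nonempty) {m : ℕ} (hm : 0 < m)
    (hmod : ∀ a ∈ G, ∀ a' ∈ G, (m : ℤ) ∣ a - a')
    (hconv : ∀ a₁ ∈ G, ∀ a₃ ∈ G, ∀ a₂, a₁ ≤ a₂ → a₂ ≤ a₃ → (m : ℤ) ∣ a₂ - a₁ → a₂ ∈ G) :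
    ∃ (a : ℤ) (N : ℕ), a ∈ G ∧ a + m * N ∈ G ∧
      ∀ f : ℤ → ℂ, ∑ z ∈ G, f z = ∑ n ∈ range (N + 1), f (a + m * n) := by
  have hmZ : (0 : ℤ) < m := by exact_mod_cast hm
  set a := G.min' hG with ha
  set a' := G.max' hG with ha'
  have h1 : a ∈ G := G.min'_mem hG
  have h2 : a' ∈ G := G.max'_mem hG
  have h3 : a ≤ a' := G.min'_le _ h2
  obtain ⟨c, hc⟩ := hmod a' h2 a h1
  have hc0 : 0 ≤ c := by
    by_contra hneg
    push Not at hneg
    nlinarith
  obtain ⟨N, rfl⟩ := Int.eq_ofNat_of_zero_le hc0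
  have h4 : a + m * N = a' := by linarith
  refine ⟨a, N, h1, by rw [h4]; exact h2, ?_⟩
  intro f
  have himg : G = (range (N + 1)).image (fun n : ℕ => a + m * n) := by
    ext z
    rw [mem_image]
    constructor
    · intro hz
      obtain ⟨e, he⟩ := hmod z hz a h1
      have h5 : a ≤ z := G.min'_le _ hz
      have h6 : z ≤ a' := G.le_max' _ hz
      have he0 : 0 ≤ e := by
        by_contra hneg
        push Not at hneg
        nlinarith
      obtain ⟨n, rfl⟩ := Int.eq_ofNat_of_zero_le he0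
      refine ⟨n, ?_, by linarith⟩
      rw [mem_range]
      have h7 : (m : ℤ) * n ≤ m * N := by linarith
      have h8 : (n : ℤ) ≤ N := le_of_mul_le_mul_left h7 hmZ
      omega
    · rintro ⟨n, hn, rfl⟩
      rw [mem_range] at hn
      apply hconv a h1 a' h2
      · have : 0 ≤ (m : ℤ) * n := by positivity
        linarith
      · rw [← h4]
        have : (m : ℤ) * n ≤ m * N := by
          apply mul_le_mul_of_nonneg_left _ hmZ.le
          exact_mod_cast (by omega : n ≤ N)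
        linarith
      · simp
  nth_rewrite 1 [himg]
  rw [sum_image]
  intro n _ n' _ h
  have : (m : ℤ) * n = m * n' := by simpa using h
  have := mul_left_cancel₀ hmZ.ne' this
  exact_mod_cast this

lemma good_between {ρ : Finset ℝ} {ε b α β u : ℝ} (hb : 0 < b)
    (hα : ∀ r ∈ ρ, ε ≤ |α / b - r|) (hβ : ∀ r ∈ ρ, ε ≤ |β / b - r|) (hε : 0 < ε)
    (hαβ : ∀ r ∈ ρ, (r < α / b ↔ r < β / b)) (h1 : α ≤ u) (h2 : u ≤ β) :
    (∀ r ∈ ρ, ε ≤ |u / b - r|) ∧ ∀ r ∈ ρ, (r < u / b ↔ r < α / b) := by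
  have e1 : α / b ≤ u / b := div_le_div_of_nonneg_right h1 hb.le
  have e2 : u / b ≤ β / b := div_le_div_of_nonneg_right h2 hb.le
  have key : ∀ r ∈ ρ, ε ≤ |u / b - r| ∧ (r < u / b ↔ r < α / b) := by
    intro r hr
    by_cases h : r < α / b
    · have h3 := hα r hr
      rw [abs_of_pos (by linarith)] at h3
      constructor
      · rw [abs_of_pos (by linarith)]; linarith
      · constructor
        · intro _; exact h
        · intro _; linarith
    · have h' : ¬ r < β / b := fun hh => h ((hαβ r hr).2 hh)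
      have h3 := hβ r hr
      push Not at h'
      rw [abs_of_nonpos (by linarith)] at h3
      constructor
      · rw [abs_of_nonpos (by linarith)]; linarith
      · constructor
        · intro hh; linarith
        · intro hh; exact absurd hh h
  exact ⟨fun r hr => (key r hr).1, fun r hr => (key r hr).2⟩

/-- the size of the lower bound for the derivative -/
noncomputable def LB (q d m : ℕ) (c : ℝ) (k : ℤ) (ε s : ℝ) : ℝ :=
  |(k : ℝ)| / (2 * Real.pi) * ((q - 1).factorial : ℝ) * (m : ℝ) ^ q * (c * ε ^ (d + q) / s ^ q)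

/-- the bound on a line -/
noncomputable def BND (q d m : ℕ) (c Cq : ℝ) (k : ℤ) (ε s : ℝ) : ℝ :=
  1 + Cq * (1 / (c * ε ^ (d + 2 * q))) * ((2 * s) * (LB q d m c k ε s) ^ ((1 : ℝ) / (2 ^ q - 2)) +
    (2 * s) ^ (1 - 2 / (2 : ℝ) ^ (q - 1)) * (LB q d m c k ε s) ^ (-(1 : ℝ) / (2 ^ q - 2)))

lemma line_piece {q : ℕ} (hq : 2 ≤ q) {Cq : ℝ} (hCq : 0 < Cq) (hC : VDCq q Cq) {ρ : Finset ℝ}
    {c : ℝ} {d : ℕ} (hc : 0 < c) (hc1 : c ≤ 1)
    (hρ : ∀ ε : ℝ, 0 < ε → ∀ τ : ℝ, (∀ r ∈ ρ, ε ≤ |τ - r|) →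
      c * ε ^ d ≤ |(((τ : ℂ) + Complex.I) ^ q).im|)
    {m : ℕ} (hm : 0 < m) {k : ℤ} (hk : k ≠ 0) {s ε : ℝ} {b : ℤ} (hs : 1 ≤ s) (hε : 0 < ε)
    (hε1 : ε ≤ 1) (hb : ε * s ≤ b) (hlb1 : LB q d m c k ε s ≤ 1) (G : Finset ℤ)
    (hmod : ∀ a ∈ G, ∀ a' ∈ G, (m : ℤ) ∣ a - a')
    (hconv : ∀ a₁ ∈ G, ∀ a₃ ∈ G, ∀ a₂, a₁ ≤ a₂ → a₂ ≤ a₃ → (m : ℤ) ∣ a₂ - a₁ → a₂ ∈ G)
    (hdisc : ∀ a ∈ G, (a : ℝ) ^ 2 + (b : ℝ) ^ 2 ≤ s ^ 2)
    (hgood : ∀ a ∈ G, ∀ r ∈ ρ, ε ≤ |(a : ℝ) / b - r|)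
    (hpat : ∀ a ∈ G, ∀ a' ∈ G, ∀ r ∈ ρ, (r < (a : ℝ) / b ↔ r < (a' : ℝ) / b)) :
    ‖∑ a ∈ G, xi k ⟨a, b⟩‖ ≤ BND q d m c Cq k ε s := by
  have hs0 : 0 < s := by linarith
  have hbR : (0 : ℝ) < b := lt_of_lt_of_le (by positivity) hb
  have hbZ : 0 < b := by exact_mod_cast hbR
  have hk0 : 0 < |(k : ℝ)| := abs_pos.2 (by exact_mod_cast hk)
  have hm0 : (0 : ℝ) < m := by exact_mod_cast hm
  have hLB0 : 0 < LB q d m c k ε s := by
    unfold LB
    have := Real.pi_pos
    positivity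
  have hBND1 : 1 ≤ BND q d m c Cq k ε s := by
    unfold BND
    have : 0 ≤ Cq * (1 / (c * ε ^ (d + 2 * q))) * ((2 * s) * (LB q d m c k ε s) ^ ((1 : ℝ) / (2 ^ q - 2)) +
    (2 * s) ^ (1 - 2 / (2 : ℝ) ^ (q - 1)) * (LB q d m c k ε s) ^ (-(1 : ℝ) / (2 ^ q - 2))) := by
      positivity
    linarith
  rcases G.eq_empty_or_nonempty with rfl | hG
  · rw [sum_empty, norm_zero]; linarith
  obtain ⟨a, N, ha, ha', hsum⟩ := exists_prog hG hm hmod hconv
  rw [hsum (fun a => xi k ⟨a, b⟩), sum_range_succ]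
  have hlast : ‖xi k ⟨a + m * N, b⟩‖ ≤ 1 := by
    rw [norm_xi]
    intro h
    have := congrArg Zsqrtd.im h
    simp at this
    omega
  rcases Nat.eq_zero_or_pos N with rfl | hN
  · rw [sum_range_zero, zero_add]
    exact hlast.trans hBND1
  -- the interval
  have hN2 : (N : ℝ) ≤ 2 * s := by
    have h1 := hdisc a ha
    have h2 := hdisc _ ha'
    have h3 : -s ≤ (a : ℝ) := by
      have : |(a : ℝ)| ≤ s := abs_le_of_sq_le_sq (by nlinarith [sq_nonneg (b : ℝ)]) hs0.le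
      exact (abs_le.1 this).1
    have h4 : ((a + m * N : ℤ) : ℝ) ≤ s := by
      have : |((a + m * N : ℤ) : ℝ)| ≤ s :=
        abs_le_of_sq_le_sq (by nlinarith [sq_nonneg (b : ℝ)]) hs0.le
      exact (abs_le.1 this).2
    push_cast at h4
    have h5 : (N : ℝ) ≤ m * N := by
      have : (1 : ℝ) ≤ m := by exact_mod_cast hm
      nlinarith [Nat.cast_nonneg (α := ℝ) N]
    linarith
  have hin : ∀ t ∈ Set.Icc (0 : ℝ) N, ((a : ℝ) + m * t) ^ 2 + (b : ℝ) ^ 2 ≤ s ^ 2 ∧
      ∀ r ∈ ρ, ε ≤ |((a : ℝ) + m * t) / b - r| := by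
    intro t ht
    have h1 : (a : ℝ) ≤ a + m * t := by nlinarith [ht.1]
    have h2 : (a : ℝ) + m * t ≤ ((a + m * N : ℤ) : ℝ) := by
      push_cast
      have := mul_le_mul_of_nonneg_left ht.2 hm0.le
      linarith
    constructor
    · have e1 := hdisc a ha
      have e2 := hdisc _ ha'
      set u := (a : ℝ) + m * t
      set v := ((a + m * N : ℤ) : ℝ)
      rcases le_or_gt 0 u with h | h
      · nlinarith
      · nlinarith
    · exact (good_between hbR (hgood a ha) (hgood _ ha') hε (hpat a ha _ ha') h1 h2).1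
  have hv := vdc_line hq hC hc hc1 hρ hm hk (s := s) (ε := ε) (b := (b : ℝ)) (a := (a : ℝ)) hs hε
    hε1 hb (L := N) hN hin hlb1
  have e1 : ∑ n ∈ range N, xi k ⟨a + m * n, b⟩ = Complex.I ^ k *
      ∑ n ∈ range N, Complex.exp (2 * Real.pi * Complex.I * (FF k m a b n : ℂ)) := by
    rw [mul_sum]
    apply sum_congr rfl
    intro n _
    rw [xi_line k _ b hbZ]
    congr 3
    unfold FF
    push_cast
    rfl
  have hI : ‖(Complex.I ^ k : ℂ)‖ = 1 := by rw [norm_zpow, Complex.norm_I, one_zpow]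
  refine (norm_add_le _ _).trans ?_
  rw [e1, norm_mul, hI, one_mul]
  unfold BND
  rw [add_comm]
  apply add_le_add hlast
  refine hv.trans ?_
  apply mul_le_mul_of_nonneg_left _ (by positivity)
  have hN0 : (0 : ℝ) ≤ N := Nat.cast_nonneg _
  apply add_le_add
  · exact mul_le_mul_of_nonneg_right hN2 (by positivity)
  · apply mul_le_mul_of_nonneg_right _ (by positivity)
    apply Real.rpow_le_rpow hN0 hN2
    rw [sub_nonneg, div_le_one (by positivity)]
    obtain ⟨j, rfl⟩ : ∃ j, q = j + 2 := ⟨q - 2, by omega⟩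
    have : (2 : ℝ) ^ (j + 2 - 1) = 2 * 2 ^ j := by
      rw [show j + 2 - 1 = j + 1 by omega, pow_succ]; ring
    rw [this]
    have : (1 : ℝ) ≤ 2 ^ j := one_le_pow₀ (by norm_num)
    linarith

lemma card_int_le (F : Finset ℤ) {α β : ℝ} (hαβ : α ≤ β + 1)
    (h : ∀ a ∈ F, α ≤ (a : ℝ) ∧ (a : ℝ) ≤ β) : (F.card : ℝ) ≤ β - α + 1 := by
  have hsub : F ⊆ Icc ⌈α⌉ ⌊β⌋ := by
    intro a ha
    rw [mem_Icc]
    exact ⟨Int.ceil_le.2 (h a ha).1, Int.le_floor.2 (h a ha).2⟩
  have h1 := card_le_card hsub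
  rw [Int.card_Icc] at h1
  have h2 : (F.card : ℤ) ≤ max (⌊β⌋ + 1 - ⌈α⌉) 0 := by
    rw [← Int.toNat_eq_max]
    exact_mod_cast h1
  have h3 : (F.card : ℝ) ≤ max ((⌊β⌋ : ℝ) + 1 - (⌈α⌉ : ℝ)) 0 := by exact_mod_cast h2
  refine h3.trans (max_le ?_ (by linarith))
  have := Int.floor_le β
  have := Int.le_ceil α
  linarith

/-- the part with positive imaginary part equal to `b` -/
lemma line_total {q : ℕ} (hq : 2 ≤ q) {Cq : ℝ} (hCq : 0 < Cq) (hC : VDCq q Cq) {ρ : Finset ℝ}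
    {c : ℝ} {d : ℕ} (hc : 0 < c) (hc1 : c ≤ 1)
    (hρ : ∀ ε : ℝ, 0 < ε → ∀ τ : ℝ, (∀ r ∈ ρ, ε ≤ |τ - r|) →
      c * ε ^ d ≤ |(((τ : ℂ) + Complex.I) ^ q).im|)
    {m : ℕ} (hm : 0 < m) (w : Gi) {k : ℤ} (hk : k ≠ 0) {x s ε : ℝ} {b : ℤ} (hs : 1 ≤ s)
    (hx : x = s ^ 2) (hε : 0 < ε)
    (hε1 : ε ≤ 1) (hb : ε * s ≤ b) (hbs : (b : ℝ) ≤ s) (hlb1 : LB q d m c k ε s ≤ 1) :
    ‖∑ z ∈ ((disc x).filter (cond m w)).filter (fun z => z.im = b), xi k z‖ ≤
      (ρ.card : ℝ) * (2 * ε * s + 1) + 2 ^ ρ.card * BND q d m c Cq k ε s := by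
  classical
  have hs0 : 0 < s := by linarith
  have hbR : (0 : ℝ) < b := lt_of_lt_of_le (by positivity) hb
  set D := ((disc x).filter (cond m w)).filter (fun z => z.im = b) with hD
  have hDmem : ∀ z, z ∈ D ↔ z ≠ 0 ∧ (nm z : ℝ) ≤ x ∧ cond m w z ∧ z.im = b := by
    intro z
    rw [hD, mem_filter, mem_filter, mem_disc]
    tauto
  set good : Gi → Prop := fun z => ∀ r ∈ ρ, ε ≤ |(z.re : ℝ) / b - r| with hgooddef
  set σ : Gi → Finset ℝ := fun z => ρ.filter (fun r => r < (z.re : ℝ) / b) with hσ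
  rw [← sum_filter_add_sum_filter_not D good]
  have hbad : ‖∑ z ∈ D.filter (fun z => ¬ good z), xi k z‖ ≤ (ρ.card : ℝ) * (2 * ε * s + 1) := by
    have h1 : ‖∑ z ∈ D.filter (fun z => ¬ good z), xi k z‖ ≤
        ((D.filter (fun z => ¬ good z)).card : ℝ) := by
      refine (norm_sum_le _ _).trans ?_
      refine (sum_le_card_nsmul _ _ 1 fun z _ => ?_).trans ?_
      · rw [xi_eq_ph]; exact norm_ph_le hk _
      · rw [nsmul_eq_mul, mul_one]
    refine h1.trans ?_
    have h2 : D.filter (fun z => ¬ good z) ⊆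
        ρ.biUnion (fun r => D.filter (fun z => |(z.re : ℝ) / b - r| < ε)) := by
      intro z hz
      rw [mem_filter] at hz
      obtain ⟨hz1, hz2⟩ := hz
      rw [hgooddef] at hz2
      push Not at hz2
      obtain ⟨r, hr, hr2⟩ := hz2
      rw [mem_biUnion]
      exact ⟨r, hr, mem_filter.2 ⟨hz1, hr2⟩⟩
    have h3 : ∀ r ∈ ρ, ((D.filter (fun z => |(z.re : ℝ) / b - r| < ε)).card : ℝ) ≤
        2 * ε * s + 1 := by
      intro r _
      have hinj : Set.InjOn (fun z : Gi => z.re)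
          (D.filter (fun z => |(z.re : ℝ) / b - r| < ε)) := by
        intro z hz z' hz' h
        have e1 := ((hDmem z).1 (mem_filter.1 hz).1).2.2.2
        have e2 := ((hDmem z').1 (mem_filter.1 hz').1).2.2.2
        exact Zsqrtd.ext h (e1.trans e2.symm)
      rw [← card_image_of_injOn hinj]
      refine (card_int_le _ (α := b * (r - ε)) (β := b * (r + ε)) (by nlinarith) ?_).trans ?_
      · intro a ha
        rw [mem_image] at ha
        obtain ⟨z, hz, rfl⟩ := ha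
        have h4 := (mem_filter.1 hz).2
        rw [abs_lt] at h4
        have h5 : (z.re : ℝ) = b * ((z.re : ℝ) / b) := by field_simp
        rw [h5]
        constructor
        · apply mul_le_mul_of_nonneg_left _ hbR.le
          linarith
        · apply mul_le_mul_of_nonneg_left _ hbR.le
          linarith
      · nlinarith
    calc ((D.filter (fun z => ¬ good z)).card : ℝ) ≤
        ((ρ.biUnion (fun r => D.filter (fun z => |(z.re : ℝ) / b - r| < ε))).card : ℝ) := by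
          exact_mod_cast card_le_card h2
      _ ≤ ((∑ r ∈ ρ, (D.filter (fun z => |(z.re : ℝ) / b - r| < ε)).card : ℕ) : ℝ) := by
          exact_mod_cast card_biUnion_le
      _ = ∑ r ∈ ρ, ((D.filter (fun z => |(z.re : ℝ) / b - r| < ε)).card : ℝ) := by
          push_cast; rfl
      _ ≤ ∑ r ∈ ρ, (2 * ε * s + 1) := sum_le_sum h3
      _ = (ρ.card : ℝ) * (2 * ε * s + 1) := by rw [sum_const, nsmul_eq_mul]
  have hgood : ‖∑ z ∈ D.filter good, xi k z‖ ≤ 2 ^ ρ.card * BND q d m c Cq k ε s := by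
    rw [← sum_fiberwise_of_maps_to (s := D.filter good) (t := ρ.powerset) (g := σ)
      (fun z _ => mem_powerset.2 (filter_subset _ _))]
    refine (norm_sum_le _ _).trans ?_
    have h1 : ∀ T ∈ ρ.powerset, ‖∑ z ∈ (D.filter good).filter (fun z => σ z = T), xi k z‖ ≤
        BND q d m c Cq k ε s := by
      intro T _
      set E := (D.filter good).filter (fun z => σ z = T) with hE
      have hEmem : ∀ z, z ∈ E ↔ z ∈ D ∧ good z ∧ σ z = T := by
        intro z
        rw [hE, mem_filter, mem_filter]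
        tauto
      have hEb : ∀ z ∈ E, z = ⟨z.re, b⟩ := by
        intro z hz
        exact Zsqrtd.ext rfl ((hDmem z).1 ((hEmem z).1 hz).1).2.2.2
      have hsum : ∑ z ∈ E, xi k z = ∑ a ∈ E.image (fun z => z.re), xi k ⟨a, b⟩ := by
        rw [sum_image]
        · apply sum_congr rfl
          intro z hz
          rw [← hEb z hz]
        · intro z hz z' hz' h
          rw [hEb z hz, hEb z' hz']
          exact Zsqrtd.ext h rfl
      have hnm : ∀ a : ℤ, (nm ⟨a, b⟩ : ℝ) = (a : ℝ) ^ 2 + (b : ℝ) ^ 2 := fun a => nm_castR _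
      have hGmem : ∀ a, a ∈ E.image (fun z => z.re) ↔ (⟨a, b⟩ : Gi) ∈ E := by
        intro a
        rw [mem_image]
        constructor
        · rintro ⟨z, hz, rfl⟩
          rw [← hEb z hz]
          exact hz
        · intro h
          exact ⟨_, h, rfl⟩
      have hpatE : ∀ a, (⟨a, b⟩ : Gi) ∈ E → ∀ r ∈ ρ, (r < (a : ℝ) / b ↔ r ∈ T) := by
        intro a ha r hr
        rw [← ((hEmem _).1 ha).2.2, hσ]
        simp only [mem_filter, hr, true_and]
      rw [hsum]
      apply line_piece hq hCq hC hc hc1 hρ hm hk hs hε hε1 hb hlb1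
      · intro a ha a' ha'
        have e1 := ((hDmem _).1 ((hEmem _).1 ((hGmem a).1 ha)).1).2.2.1.1
        have e2 := ((hDmem _).1 ((hEmem _).1 ((hGmem a').1 ha')).1).2.2.1.1
        have := dvd_sub e1 e2
        rwa [sub_sub_sub_cancel_right] at this
      · intro a₁ h₁ a₃ h₃ a₂ h12 h23 hdiv
        rw [hGmem] at h₁ h₃ ⊢
        have g1 := (hEmem _).1 h₁
        have g3 := (hEmem _).1 h₃
        have d1 := (hDmem _).1 g1.1
        have d3 := (hDmem _).1 g3.1
        have hbetw := good_between (u := (a₂ : ℝ)) hbR g1.2.1 g3.2.1 hε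
          (fun r hr => (hpatE a₁ h₁ r hr).trans (hpatE a₃ h₃ r hr).symm)
          (by exact_mod_cast h12) (by exact_mod_cast h23)
        rw [hEmem]
        refine ⟨(hDmem _).2 ⟨?_, ?_, ⟨?_, d1.2.2.1.2⟩, rfl⟩, hbetw.1, ?_⟩
        · intro h
          have := congrArg Zsqrtd.im h
          have hb' : (0 : ℤ) < b := by exact_mod_cast hbR
          simp at this
          omega
        · have n1 := d1.2.1
          have n3 := d3.2.1
          rw [hnm] at n1 n3 ⊢
          have h12' : (a₁ : ℝ) ≤ a₂ := by exact_mod_cast h12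
          have h23' : (a₂ : ℝ) ≤ a₃ := by exact_mod_cast h23
          rcases le_or_gt 0 (a₂ : ℝ) with h | h
          · nlinarith
          · nlinarith
        · have e1 := d1.2.2.1.1
          have := dvd_add hdiv e1
          simpa using this
        · rw [← g1.2.2, hσ]
          apply filter_congr
          intro r hr
          exact hbetw.2 r hr
      · intro a ha
        have := ((hDmem _).1 ((hEmem _).1 ((hGmem a).1 ha)).1).2.1
        rw [hnm, hx] at this
        exact this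
      · intro a ha
        exact ((hEmem _).1 ((hGmem a).1 ha)).2.1
      · intro a ha a' ha' r hr
        exact (hpatE a ((hGmem a).1 ha) r hr).trans (hpatE a' ((hGmem a').1 ha') r hr).symm
    refine (sum_le_sum h1).trans ?_
    rw [sum_const, nsmul_eq_mul, card_powerset]
    push_cast
    exact le_rfl
  refine (norm_add_le _ _).trans ?_
  linarith

end TypeM

end Pool.Agent.Lib.MP391708.MR
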