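import Pool.Agent.Lib.MP_391708_nt.MR.Spec
import Pool.Agent.Lib.MP_391708_nt.MR.Basic

/-!
# CLS: from characters to residue classes
-/

set_option autoImplicit false

namespace Pool.Agent.Lib.MP391708.MR

open Finset Filter Topology
open scoped ComplexConjugate

namespace Cls

/-! ## primitive elements -/

lemma prim_iff {z : Gi} : prim z ↔ ∀ n : ℤ, (n : Gi) ∣ z → IsUnit n := by
  unfold prim
  constructor
  · intro h n hn
    rw [Zsqrtd.intCast_dvd] at hn
    exact (Int.isCoprime_iff_gcd_eq_one.2 h).isUnit_of_dvd' hn.1 hn.2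
  · intro h
    have h1 : ((Int.gcd z.re z.im : ℤ) : Gi) ∣ z := by
      rw [Zsqrtd.intCast_dvd]
      exact ⟨Int.gcd_dvd_left .., Int.gcd_dvd_right ..⟩
    have := Int.isUnit_iff_natAbs_eq.1 (h _ h1)
    simpa using this

lemma prim_iff_prime {z : Gi} : prim z ↔ ∀ p : ℕ, p.Prime → ¬ (((p : ℤ) : Gi) ∣ z) := by
  rw [prim_iff]
  constructor
  · intro h p hp hd
    have := Int.isUnit_iff_natAbs_eq.1 (h p hd)
    rw [Int.natAbs_natCast] at this
    exact hp.one_lt.ne' this
  · intro h n hn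
    rw [Int.isUnit_iff_natAbs_eq]
    by_contra hne
    obtain ⟨p, hp, hpd⟩ := Nat.exists_prime_and_dvd hne
    apply h p hp
    have h1 : (p : ℤ) ∣ n := Int.natCast_dvd.2 hpd
    have h2 : ((p : ℤ) : Gi) ∣ (n : Gi) := by
      rw [Zsqrtd.intCast_dvd_intCast]; exact h1
    exact h2.trans hn

lemma mul_star (z : Gi) : z * star z = ((nm z : ℤ) : Gi) := by
  rw [nm_cast]
  apply Zsqrtd.ext
  · rw [Zsqrtd.re_intCast, Zsqrtd.re_mul, Zsqrtd.re_star, Zsqrtd.im_star]; ring
  · rw [Zsqrtd.im_intCast, Zsqrtd.im_mul, Zsqrtd.re_star, Zsqrtd.im_star]; ring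

lemma star_mul_self (z : Gi) : star z * z = ((nm z : ℤ) : Gi) := by
  rw [mul_comm, mul_star]

lemma intCast_dvd_star {n : ℤ} {z : Gi} : (n : Gi) ∣ star z ↔ (n : Gi) ∣ z := by
  rw [Zsqrtd.intCast_dvd, Zsqrtd.intCast_dvd]
  simp

lemma star_dvd_star {x y : Gi} (h : x ∣ y) : star x ∣ star y := by
  obtain ⟨c, rfl⟩ := h
  rw [star_mul']
  exact dvd_mul_right _ _

lemma prim_of_dvd {x y : Gi} (h : x ∣ y) (hy : prim y) : prim x := by
  rw [prim_iff] at hy ⊢
  exact fun n hn => hy n (hn.trans h)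

lemma prim_mul_iff {d z : Gi} : prim (d * z) ↔ prim d ∧ prim z ∧ IsCoprime z (star d) := by
  constructor
  · intro h
    refine ⟨prim_of_dvd (dvd_mul_right _ _) h, prim_of_dvd (dvd_mul_left _ _) h, ?_⟩
    classical
    rw [← EuclideanDomain.gcd_isUnit_iff]
    set g := EuclideanDomain.gcd z (star d) with hg
    have h1 : g ∣ z := EuclideanDomain.gcd_dvd_left _ _
    have h2 : g ∣ star d := EuclideanDomain.gcd_dvd_right _ _
    have h3 : star g ∣ d := by
      have := star_dvd_star h2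
      rwa [star_star] at this
    have h4 : ((nm g : ℤ) : Gi) ∣ d * z := by
      rw [← star_mul_self]
      exact mul_dvd_mul h3 h1
    have h5 := (prim_iff.1 h) _ h4
    rw [isUnit_iff_nm]
    have := Int.isUnit_iff_natAbs_eq.1 h5
    simpa using this
  · rintro ⟨hd, hz, a, b, hab⟩
    rw [prim_iff_prime]
    intro p hp hpd
    have hpI : Prime (p : ℤ) := Nat.prime_iff_prime_int.1 hp
    by_cases hN : (p : ℤ) ∣ (nm d : ℤ)
    · apply prim_iff_prime.1 hd p hp
      have h1 : d = a * (d * z) + b * ((nm d : ℤ) : Gi) := by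
        rw [← mul_star]
        linear_combination (-d) * hab
      rw [h1]
      refine dvd_add (dvd_mul_of_dvd_right hpd _) (dvd_mul_of_dvd_right ?_ _)
      rw [Zsqrtd.intCast_dvd_intCast]; exact hN
    · have h2 : p ∣ nm z := by
        have h3 : nm (((p : ℤ) : Gi)) ∣ nm (d * z) := nm_dvd hpd
        have h4 : nm (((p : ℤ) : Gi)) = p ^ 2 := by
          unfold nm
          simp [Int.natAbs_pow]
        rw [h4, nm_mul] at h3
        have h5 : p ∣ nm d * nm z := (dvd_pow_self p two_ne_zero).trans h3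
        rcases hp.dvd_mul.1 h5 with h6 | h6
        · exact absurd (Int.natCast_dvd_natCast.2 h6) hN
        · exact h6
      apply prim_iff_prime.1 hz p hp
      rw [← intCast_dvd_star]
      have h1 : star z = a * ((nm z : ℤ) : Gi) + b * star (d * z) := by
        rw [← mul_star, star_mul']
        linear_combination (-star z) * hab
      rw [h1]
      refine dvd_add (dvd_mul_of_dvd_right ?_ _) (dvd_mul_of_dvd_right ?_ _)
      · rw [Zsqrtd.intCast_dvd_intCast]; exact Int.natCast_dvd_natCast.2 h2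
      · rw [intCast_dvd_star]; exact hpd

/-! ## characters -/

/-- the residue ring -/
abbrev RR (q : Gi) := Gi ⧸ Ideal.span {q}

lemma mk_eq_iff {q x y : Gi} : (Ideal.Quotient.mk (Ideal.span {q}) x) =
    Ideal.Quotient.mk (Ideal.span {q}) y ↔ q ∣ x - y := by
  rw [Ideal.Quotient.mk_eq_mk_iff_sub_mem, Ideal.mem_span_singleton]

lemma nm_dvd_self (q : Gi) : q ∣ ((nm q : ℤ) : Gi) := by
  have h : q * star q = ((nm q : ℤ) : Gi) := by
    rw [nm_cast]
    apply Zsqrtd.ext
    · rw [Zsqrtd.re_intCast, Zsqrtd.re_mul, Zsqrtd.re_star, Zsqrtd.im_star]; ring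
    · rw [Zsqrtd.im_intCast, Zsqrtd.im_mul, Zsqrtd.re_star, Zsqrtd.im_star]; ring
  rw [← h]
  exact dvd_mul_right _ _

lemma finite_RR {q : Gi} (hq : q ≠ 0) : Finite (RR q) := by
  set n := nm q with hn
  have hn0 : (0 : ℤ) < n := by exact_mod_cast nm_pos hq
  have : Finite (Set.Ico (0 : ℤ) n × Set.Ico (0 : ℤ) n) := inferInstance
  refine Finite.of_surjective (fun p : Set.Ico (0 : ℤ) n × Set.Ico (0 : ℤ) n =>
    Ideal.Quotient.mk (Ideal.span {q}) (⟨p.1, p.2⟩ : Gi)) ?_
  intro x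
  obtain ⟨z, rfl⟩ := Ideal.Quotient.mk_surjective x
  refine ⟨(⟨z.re % n, Int.emod_nonneg _ hn0.ne', Int.emod_lt_of_pos _ hn0⟩,
    ⟨z.im % n, Int.emod_nonneg _ hn0.ne', Int.emod_lt_of_pos _ hn0⟩), ?_⟩
  rw [mk_eq_iff]
  refine (nm_dvd_self q).trans ?_
  rw [Zsqrtd.intCast_dvd]
  constructor
  · rw [Zsqrtd.re_sub]
    exact (Int.mod_modEq z.re n).symm.dvd
  · rw [Zsqrtd.im_sub]
    exact (Int.mod_modEq z.im n).symm.dvd

lemma isUnit_mk {q x : Gi} : IsUnit (Ideal.Quotient.mk (Ideal.span {q}) x) ↔ IsCoprime x q := by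
  constructor
  · intro h
    obtain ⟨y, hy⟩ := h.exists_right_inv
    obtain ⟨y, rfl⟩ := Ideal.Quotient.mk_surjective y
    rw [← map_mul, ← map_one (Ideal.Quotient.mk (Ideal.span {q})), mk_eq_iff] at hy
    obtain ⟨c, hc⟩ := hy
    exact ⟨y, -c, by linear_combination hc⟩
  · rintro ⟨a, b, hab⟩
    apply IsUnit.of_mul_eq_one (Ideal.Quotient.mk (Ideal.span {q}) a)
    rw [← map_mul, ← map_one (Ideal.Quotient.mk (Ideal.span {q})), mk_eq_iff]
    exact ⟨-b, by linear_combination hab⟩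

open Classical in
/-- the function on Gaussian integers attached to a character modulo `q`, restricted to the
elements coprime to `s` -/
noncomputable def chi {q : Gi} (χ : MulChar (RR q) ℂ) (s : Gi) : Gi → ℂ := fun z =>
  if IsCoprime z s then χ (Ideal.Quotient.mk (Ideal.span {q}) z) else 0

lemma Chi_chi {q s : Gi} (hq : q ≠ 0) (hs : s ≠ 0) (χ : MulChar (RR q) ℂ) : Chi (chi χ s) where
  one := by
    unfold chi
    rw [if_pos isCoprime_one_left, map_one, map_one]
  mul x y := by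
    unfold chi
    by_cases hx : IsCoprime x s
    · by_cases hy : IsCoprime y s
      · rw [if_pos hx, if_pos hy, if_pos (hx.mul_left hy), map_mul, map_mul]
      · rw [if_neg hy, if_neg (fun h => hy (IsCoprime.mul_left_iff.1 h).2), mul_zero]
    · rw [if_neg hx, if_neg (fun h => hx (IsCoprime.mul_left_iff.1 h).1), zero_mul]
  period := by
    refine ⟨q * s, mul_ne_zero hq hs, fun x y => ?_, fun x => ?_⟩
    · unfold chi
      have h1 : IsCoprime (x + q * s * y) s ↔ IsCoprime x s := by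
        rw [show x + q * s * y = x + s * (q * y) by ring]
        exact IsCoprime.add_mul_left_left_iff
      have h2 : Ideal.Quotient.mk (Ideal.span {q}) (x + q * s * y) =
          Ideal.Quotient.mk (Ideal.span {q}) x := by
        rw [mk_eq_iff]
        exact ⟨s * y, by ring⟩
      rw [h2]
      by_cases hx : IsCoprime x s
      · rw [if_pos hx, if_pos (h1.2 hx)]
      · rw [if_neg hx, if_neg (fun h => hx (h1.1 h))]
    · rw [IsCoprime.mul_right_iff]
      unfold chi
      constructor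
      · intro h
        by_cases hx : IsCoprime x s
        · rw [if_pos hx] at h
          refine ⟨?_, hx⟩
          rw [← isUnit_mk]
          by_contra hu
          exact h (χ.map_nonunit hu)
        · rw [if_neg hx] at h
          exact absurd rfl h
      · rintro ⟨h1, h2⟩
        rw [if_pos h2]
        exact ((isUnit_mk.2 h1).map χ).ne_zero

open Classical in
/-- orthogonality -/
lemma sum_char {q : Gi} (hq : q ≠ 0) [Fintype (MulChar (RR q) ℂ)] (u : (RR q)ˣ) (x : RR q) :
    ∑ χ : MulChar (RR q) ℂ, χ (↑(u⁻¹) : RR q) * χ x =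
      if x = u then (Fintype.card (MulChar (RR q) ℂ) : ℂ) else 0 := by
  have := finite_RR hq
  simp_rw [← map_mul]
  split_ifs with h
  · rw [h, Units.inv_mul]
    simp
  · have ha : (↑(u⁻¹) : RR q) * x ≠ 1 := by
      intro h'
      apply h
      have := congrArg (fun y => (u : RR q) * y) h'
      simpa [← mul_assoc] using this
    have : NeZero (Monoid.exponent (RR q)ˣ) := ⟨Monoid.exponent_ne_zero_of_finite⟩
    obtain ⟨χ, hχ⟩ := MulChar.exists_apply_ne_one_of_hasEnoughRootsOfUnity (RR q) ℂ ha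
    refine eq_zero_of_mul_eq_self_left hχ ?_
    simp only [Finset.mul_sum, ← MulChar.mul_apply]
    exact Fintype.sum_bijective _ (Group.mulLeft_bijective χ) _ _ fun χ' ↦ rfl

lemma norm_char_le {q : Gi} (hq : q ≠ 0) (χ : MulChar (RR q) ℂ) (x : RR q) : ‖χ x‖ ≤ 1 := by
  obtain ⟨z, rfl⟩ := Ideal.Quotient.mk_surjective x
  have := (Chi_chi hq one_ne_zero χ).norm_le_one z
  unfold chi at this
  rwa [if_pos isCoprime_one_right] at this


/-! ## positive semidefinite forms -/

/-- the form -/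
noncomputable def BB (S : Finset Gi) (T : Gi → Gi → ℝ) (f g : Gi → ℂ) : ℝ :=
  (∑ z ∈ S, ∑ z' ∈ S, f z * conj (g z') * (T z z' : ℂ)).re

section BB

variable {S : Finset Gi} {T : Gi → Gi → ℝ}

lemma BB_sub_left (f f' g : Gi → ℂ) : BB S T (f - f') g = BB S T f g - BB S T f' g := by
  unfold BB
  rw [← Complex.sub_re, ← sum_sub_distrib]
  congr 1
  refine sum_congr rfl fun z _ => ?_
  rw [← sum_sub_distrib]
  refine sum_congr rfl fun z' _ => ?_
  rw [Pi.sub_apply]; ring

lemma BB_sub_right (f g g' : Gi → ℂ) : BB S T f (g - g') = BB S T f g - BB S T f g' := by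
  unfold BB
  rw [← Complex.sub_re, ← sum_sub_distrib]
  congr 1
  refine sum_congr rfl fun z _ => ?_
  rw [← sum_sub_distrib]
  refine sum_congr rfl fun z' _ => ?_
  rw [Pi.sub_apply, map_sub]; ring

lemma BB_sum_left {ι : Type*} (I : Finset ι) (f : ι → Gi → ℂ) (g : Gi → ℂ) :
    BB S T (∑ i ∈ I, f i) g = ∑ i ∈ I, BB S T (f i) g := by
  unfold BB
  rw [← Complex.re_sum]
  congr 1
  simp only [Finset.sum_apply, sum_mul]
  rw [Finset.sum_comm (s := I) (t := S)]
  refine sum_congr rfl fun z _ => ?_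
  rw [Finset.sum_comm (s := S) (t := I)]

lemma BB_sum_right {ι : Type*} (I : Finset ι) (f : Gi → ℂ) (g : ι → Gi → ℂ) :
    BB S T f (∑ i ∈ I, g i) = ∑ i ∈ I, BB S T f (g i) := by
  unfold BB
  rw [← Complex.re_sum]
  congr 1
  simp only [Finset.sum_apply, map_sum, mul_sum, sum_mul]
  rw [Finset.sum_comm (s := I) (t := S)]
  refine sum_congr rfl fun z _ => ?_
  rw [Finset.sum_comm (s := S) (t := I)]

lemma BB_smul (c : ℂ) (f : Gi → ℂ) : BB S T (fun z => c * f z) (fun z => c * f z) =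
    ‖c‖ ^ 2 * BB S T f f := by
  unfold BB
  rw [← Complex.re_ofReal_mul, mul_sum]
  congr 1
  refine sum_congr rfl fun z _ => ?_
  rw [mul_sum]
  refine sum_congr rfl fun z' _ => ?_
  have : (c * conj c) = ((‖c‖ ^ 2 : ℝ) : ℂ) := by
    rw [Complex.mul_conj, Complex.normSq_eq_norm_sq]
  rw [map_mul, ← this]
  ring

lemma BB_avg (hpos : ∀ f, 0 ≤ BB S T f f) {ι : Type*} [Fintype ι] (g : ι → Gi → ℂ) :
    BB S T (∑ i, g i) (∑ i, g i) ≤ Fintype.card ι * ∑ i, BB S T (g i) (g i) := by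
  have h1 : 0 ≤ ∑ i, ∑ j, BB S T (g i - g j) (g i - g j) :=
    sum_nonneg fun i _ => sum_nonneg fun j _ => hpos _
  have h2 : ∑ i, ∑ j, BB S T (g i - g j) (g i - g j) =
      2 * (Fintype.card ι * ∑ i, BB S T (g i) (g i)) - 2 * BB S T (∑ i, g i) (∑ i, g i) := by
    have h3 : ∀ i j, BB S T (g i - g j) (g i - g j) = BB S T (g i) (g i) + BB S T (g j) (g j)
        - BB S T (g i) (g j) - BB S T (g j) (g i) := by
      intro i j
      rw [BB_sub_left, BB_sub_right, BB_sub_right]; ring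
    simp_rw [h3, sum_sub_distrib, sum_add_distrib, sum_const, card_univ, nsmul_eq_mul]
    have h4 : ∑ i, ∑ j, BB S T (g i) (g j) = BB S T (∑ i, g i) (∑ i, g i) := by
      rw [BB_sum_left]
      refine sum_congr rfl fun i _ => ?_
      rw [BB_sum_right]
    have h5 : ∑ i, ∑ j, BB S T (g j) (g i) = BB S T (∑ i, g i) (∑ i, g i) := by
      rw [sum_comm]; exact h4
    rw [h4, h5, ← mul_sum]
    ring
  linarith

end BB

/-! ## angles -/

lemma ang_mul {d : Gi} (hd : d ≠ 0) (z z' : Gi) : ang (d * z) (d * z') = ang z z' := by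
  unfold ang
  have h : GaussianInt.toComplex (d * z) * conj (GaussianInt.toComplex (d * z')) =
      ((nm d : ℝ) : ℂ) * (GaussianInt.toComplex z * conj (GaussianInt.toComplex z')) := by
    rw [map_mul, map_mul, map_mul, ← nm_toComplex]
    have : GaussianInt.toComplex d * conj (GaussianInt.toComplex d) =
        ((‖GaussianInt.toComplex d‖ ^ 2 : ℝ) : ℂ) := by
      rw [Complex.mul_conj, Complex.normSq_eq_norm_sq]
    rw [← this]
    ring
  rw [h, Complex.arg_real_mul _ (nm_posR hd)]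

/-! ## one residue class -/

lemma class_bound (hTri : SpecTri) (hPsd : SpecPsd) (q : ℕ) (hq : 0 < q) (w : Gi) {η ε : ℝ}
    (hη : 0 < η) (hη1 : η ≤ 1) (hε : 0 < ε) : ∀ᶠ M : ℝ in atTop, ∀ᶠ X : ℝ in atTop,
    ∑ z ∈ (ann X ((1 + η) ^ 2 * X)).filter
        (fun z => prim z ∧ (q : ℤ) ∣ z.re - w.re ∧ (q : ℤ) ∣ z.im - w.im),
      ∑ z' ∈ (ann X ((1 + η) ^ 2 * X)).filter
        (fun z => prim z ∧ (q : ℤ) ∣ z.re - w.re ∧ (q : ℤ) ∣ z.im - w.im),
        lam z * lam z' * tri (ang z z' * X / M) ≤ ε * M * X := by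
  classical
  set Q : Gi := ((q : ℤ) : Gi) with hQ
  have hQ0 : Q ≠ 0 := by
    rw [hQ]
    intro h
    have := congrArg Zsqrtd.re h
    rw [Zsqrtd.re_intCast] at this
    simp at this
    omega
  set d := EuclideanDomain.gcd w Q with hd
  have hd1 : d ∣ w := EuclideanDomain.gcd_dvd_left _ _
  have hd2 : d ∣ Q := EuclideanDomain.gcd_dvd_right _ _
  have hd0 : d ≠ 0 := fun h => hQ0 (by rw [h] at hd2; exact zero_dvd_iff.1 hd2)
  obtain ⟨w', hw'⟩ := hd1
  obtain ⟨q', hq'⟩ := hd2
  have hq'0 : q' ≠ 0 := fun h => hQ0 (by rw [hq', h, mul_zero])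
  have hcop : IsCoprime w' q' := by
    have h1 := EuclideanDomain.gcd_eq_gcd_ab w Q
    rw [← hd] at h1
    refine ⟨EuclideanDomain.gcdA w Q, EuclideanDomain.gcdB w Q, ?_⟩
    apply mul_left_cancel₀ hd0
    rw [mul_one]
    calc d * (EuclideanDomain.gcdA w Q * w' + EuclideanDomain.gcdB w Q * q')
        = (d * w') * EuclideanDomain.gcdA w Q + (d * q') * EuclideanDomain.gcdB w Q := by ring
      _ = w * EuclideanDomain.gcdA w Q + Q * EuclideanDomain.gcdB w Q := by rw [← hw', ← hq']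
      _ = d := h1.symm
  set N : ℝ := ((nm d : ℕ) : ℝ) with hN
  have hN0 : 0 < N := nm_posR hd0
  have hN1 : 1 ≤ N := one_le_nm hd0
  set A : ℝ → Finset Gi := fun X => (ann X ((1 + η) ^ 2 * X)).filter
        (fun z => prim z ∧ (q : ℤ) ∣ z.re - w.re ∧ (q : ℤ) ∣ z.im - w.im) with hA
  have hQdvd : ∀ z : Gi, ((q : ℤ) ∣ z.re - w.re ∧ (q : ℤ) ∣ z.im - w.im) ↔ Q ∣ z - w := by
    intro z
    rw [hQ, Zsqrtd.intCast_dvd, Zsqrtd.re_sub, Zsqrtd.im_sub]
  -- elements of the class are multiples of `d`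
  have hmul : ∀ z, Q ∣ z - w → ∃ z', z = d * z' ∧ q' ∣ z' - w' := by
    rintro z ⟨y, hy⟩
    refine ⟨w' + q' * y, ?_, ⟨y, by ring⟩⟩
    calc z = w + Q * y := by rw [← hy]; ring
      _ = d * w' + d * q' * y := by rw [← hw', ← hq']
      _ = d * (w' + q' * y) := by ring
  have hmul' : ∀ z', q' ∣ z' - w' → Q ∣ d * z' - w := by
    rintro z' ⟨y, hy⟩
    refine ⟨y, ?_⟩
    rw [hw', hq', ← mul_sub, hy]; ring
  by_cases hpd : prim d
  swap
  · have hempty : ∀ X, A X = ∅ := by
      intro X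
      rw [Finset.eq_empty_iff_forall_notMem]
      intro z hz
      rw [hA, mem_filter, hQdvd] at hz
      obtain ⟨z', rfl, _⟩ := hmul z hz.2.2
      exact hpd (prim_mul_iff.1 hz.2.1).1
    filter_upwards [eventually_gt_atTop 0] with M hM
    filter_upwards [eventually_gt_atTop 0] with X hX
    change ∑ z ∈ A X, ∑ z' ∈ A X, _ ≤ _
    rw [hempty]
    simp only [sum_empty]
    positivity
  -- the reduced set
  set D : ℝ → Finset Gi := fun X => (ann X ((1 + η) ^ 2 * X)).filter prim with hD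
  set cond : Gi → Prop := fun z => IsCoprime z (star d) ∧ q' ∣ z - w' with hcond
  have himage : ∀ X, A X = ((D (X / N)).filter cond).image (fun z => d * z) := by
    intro X
    ext z
    rw [mem_image]
    constructor
    · intro hz
      rw [hA, mem_filter, hQdvd, mem_ann] at hz
      obtain ⟨⟨hz0, hz1, hz2⟩, hz3, hz4⟩ := hz
      obtain ⟨z', rfl, hz'⟩ := hmul z hz4
      refine ⟨z', ?_, rfl⟩
      have hp := prim_mul_iff.1 hz3
      rw [nm_mul] at hz1 hz2
      push_cast at hz1 hz2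
      rw [hD, mem_filter, mem_filter, mem_ann]
      refine ⟨⟨⟨prim_ne_zero hp.2.1, ?_, ?_⟩, hp.2.1⟩, hp.2.2, hz'⟩
      · rw [div_lt_iff₀ hN0]; linarith
      · rw [← mul_div_assoc, le_div_iff₀ hN0]; linarith
    · rintro ⟨z', hz', rfl⟩
      rw [hD, mem_filter, mem_filter, mem_ann] at hz'
      obtain ⟨⟨⟨h0, h1, h2⟩, h3⟩, h4, h5⟩ := hz'
      rw [hA, mem_filter, hQdvd, mem_ann, nm_mul]
      push_cast
      refine ⟨⟨mul_ne_zero hd0 h0, ?_, ?_⟩, prim_mul_iff.2 ⟨hpd, h3, h4⟩, hmul' z' h5⟩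
      · rw [div_lt_iff₀ hN0] at h1; linarith
      · rw [← mul_div_assoc, le_div_iff₀ hN0] at h2; linarith
  -- characters
  have hfin := finite_RR hq'0
  let _ : Fintype (MulChar (RR q') ℂ) := Fintype.ofFinite _
  set n : ℝ := ((Fintype.card (MulChar (RR q') ℂ) : ℕ) : ℝ) with hn
  have hn0 : 0 < n := by
    rw [hn]
    exact_mod_cast Fintype.card_pos
  have hs0 : star d ≠ 0 := fun h => hd0 (by rw [← star_star d, h, star_zero])
  obtain ⟨u, hu⟩ := isUnit_mk.2 hcop
  -- bounds for the characters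
  have hev : ∀ᶠ M : ℝ in atTop, ∀ᶠ X : ℝ in atTop, ∀ χ : MulChar (RR q') ℂ,
      ‖∑ z ∈ D X, ∑ z' ∈ D X, ff (chi χ (star d)) z * conj (ff (chi χ (star d)) z') *
        (tri (ang z z' * X / M) : ℂ)‖ ≤ ε * M * X := by
    have h1 : ∀ᶠ M : ℝ in atTop, ∀ χ : MulChar (RR q') ℂ, ∀ᶠ X : ℝ in atTop,
      ‖∑ z ∈ D X, ∑ z' ∈ D X, ff (chi χ (star d)) z * conj (ff (chi χ (star d)) z') *
        (tri (ang z z' * X / M) : ℂ)‖ ≤ ε * M * X := by
      rw [eventually_all]
      intro χ
      obtain ⟨M₀, hM₀⟩ := hTri (chi χ (star d)) (Chi_chi hq'0 hs0 χ) η ε hη hη1 hε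
      filter_upwards [eventually_ge_atTop M₀] with M hM
      exact hM₀ M hM
    filter_upwards [h1] with M hM
    rw [eventually_all]
    exact hM
  have hev2 := (tendsto_id.atTop_div_const hN0).eventually hev
  filter_upwards [hev2, eventually_gt_atTop 0] with M hM hM0
  have hM2 := (tendsto_id.atTop_div_const hN0).eventually hM
  filter_upwards [hM2, eventually_gt_atTop 0, eventually_ge_atTop (M / Real.pi)] with X hX hX0 hXpi
  simp only [id] at hX
  change ∑ z ∈ A X, ∑ z' ∈ A X, _ ≤ _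
  have hinj : Set.InjOn (fun z => d * z) (((D (X / N)).filter cond : Finset Gi) : Set Gi) :=
    fun x _ y _ hxy => mul_left_cancel₀ hd0 hxy
  rw [himage X, sum_image hinj]
  set S := D (X / N) with hS
  set T : Gi → Gi → ℝ := fun z z' => tri (ang z z' * (X / N) / (M / N)) with hT
  set f : Gi → ℂ := fun z => if cond z then (lam z : ℂ) else 0 with hf
  -- the sum in terms of the form
  have hsum : ∑ z ∈ S.filter cond, ∑ z' ∈ (S.filter cond).image (fun z => d * z),
      lam (d * z) * lam z' * tri (ang (d * z) z' * X / M) = BB S T f f := by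
    unfold BB
    rw [Complex.re_sum, sum_filter]
    refine sum_congr rfl fun z hz => ?_
    rw [Complex.re_sum]
    by_cases hc : cond z
    swap
    · rw [if_neg hc]
      symm
      apply sum_eq_zero
      intro z' _
      rw [hf]
      simp only [if_neg hc]
      simp
    rw [if_pos hc, sum_image hinj, sum_filter]
    refine sum_congr rfl fun z' hz' => ?_
    have hz0 : z ≠ 0 := by
      rw [hS, hD, mem_filter, mem_ann] at hz; exact hz.1.1
    have hz'0 : z' ≠ 0 := by
      rw [hS, hD, mem_filter, mem_ann] at hz'; exact hz'.1.1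
    by_cases hc' : cond z'
    swap
    · rw [if_neg hc', hf]
      simp only [if_neg hc']
      simp
    rw [if_pos hc', hf]
    simp only [if_pos hc, if_pos hc']
    rw [ang_mul hd0, lam_mul hd0 hz0, lam_mul hd0 hz'0]
    have h1 : conj ((lam z' : ℝ) : ℂ) = ((lam z' : ℝ) : ℂ) := Complex.conj_ofReal _
    rw [h1, ← Complex.ofReal_mul, ← Complex.ofReal_mul, Complex.ofReal_re, hT]
    have h2 : ang z z' * (X / N) / (M / N) = ang z z' * X / M := by
      field_simp
    simp only [h2]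
    have h3 := lam_sq d
    linear_combination (lam z * lam z' * tri (ang z z' * X / M)) * h3
  rw [hsum]
  -- positivity
  have hpos : ∀ g, 0 ≤ BB S T g g := by
    intro g
    have hφ : 0 < (M / N) / (X / N) := by positivity
    have hφ2 : (M / N) / (X / N) ≤ Real.pi := by
      rw [div_div_div_cancel_right₀ hN0.ne', div_le_iff₀ hX0]
      rw [div_le_iff₀ Real.pi_pos] at hXpi
      linarith
    have h1 := hPsd S g _ hφ hφ2 (fun z hz => by
      rw [hS, hD, mem_filter, mem_ann] at hz; exact hz.1.1)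
    unfold BB
    refine h1.trans (le_of_eq ?_)
    congr 1
    refine sum_congr rfl fun z _ => sum_congr rfl fun z' _ => ?_
    rw [hT]
    simp only
    congr 3
    field_simp
  -- the expansion
  set g : MulChar (RR q') ℂ → Gi → ℂ := fun χ z =>
    ((1 / n : ℂ) * χ (↑(u⁻¹) : RR q')) * ff (chi χ (star d)) z with hg
  have hfg : f = ∑ χ, g χ := by
    funext z
    rw [Finset.sum_apply, hf, hg]
    simp only
    have h1 : ∀ χ : MulChar (RR q') ℂ, (1 / n : ℂ) * χ (↑(u⁻¹) : RR q') *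
        ff (chi χ (star d)) z = (if IsCoprime z (star d) then (1 / n : ℂ) * lam z *
          (χ (↑(u⁻¹) : RR q') * χ (Ideal.Quotient.mk (Ideal.span {q'}) z)) else 0) := by
      intro χ
      unfold ff chi
      split_ifs
      · ring
      · ring
    simp_rw [h1]
    by_cases hc : IsCoprime z (star d)
    · simp only [if_pos hc]
      rw [← mul_sum, sum_char hq'0]
      by_cases hc2 : q' ∣ z - w'
      · rw [if_pos ⟨hc, hc2⟩, if_pos (by rw [hu]; exact mk_eq_iff.2 hc2)]
        have : (Fintype.card (MulChar (RR q') ℂ) : ℂ) = (n : ℂ) := by rw [hn]; simp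
        rw [this]
        have hn' : (n : ℂ) ≠ 0 := by exact_mod_cast hn0.ne'
        field_simp
      · rw [if_neg (fun h => hc2 h.2), if_neg (fun h => hc2 (mk_eq_iff.1 (h.trans hu))), mul_zero]
    · rw [if_neg (fun h => hc h.1)]
      simp [if_neg hc]
  rw [hfg]
  refine (BB_avg hpos g).trans ?_
  have hgb : ∀ χ, BB S T (g χ) (g χ) ≤ (1 / n) ^ 2 * (ε * (M / N) * (X / N)) := by
    intro χ
    rw [hg, BB_smul]
    have h1 : ‖(1 / n : ℂ) * χ (↑(u⁻¹) : RR q')‖ ≤ 1 / n := by
      rw [norm_mul]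
      have h2 : ‖(1 / n : ℂ)‖ = 1 / n := by
        rw [norm_div, norm_one, Complex.norm_real, Real.norm_eq_abs, abs_of_pos hn0]
      rw [h2]
      have := norm_char_le hq'0 χ (↑(u⁻¹) : RR q')
      have h3 : 0 ≤ 1 / n := by positivity
      nlinarith
    have h2 : BB S T (ff (chi χ (star d))) (ff (chi χ (star d))) ≤ ε * (M / N) * (X / N) := by
      unfold BB
      exact (Complex.re_le_norm _).trans (hX χ)
    apply mul_le_mul _ h2 (hpos _) (by positivity)
    exact pow_le_pow_left₀ (norm_nonneg _) h1 2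
  calc (Fintype.card (MulChar (RR q') ℂ) : ℝ) * ∑ χ, BB S T (g χ) (g χ)
      ≤ n * ∑ χ : MulChar (RR q') ℂ, (1 / n) ^ 2 * (ε * (M / N) * (X / N)) := by
        apply mul_le_mul_of_nonneg_left _ hn0.le
        exact sum_le_sum fun χ _ => hgb χ
    _ = ε * (M / N) * (X / N) := by
        rw [sum_const, card_univ, nsmul_eq_mul, ← hn]
        field_simp
    _ ≤ ε * M * X := by
        have h1 : M / N ≤ M := div_le_self hM0.le hN1
        have h2 : X / N ≤ X := div_le_self hX0.le hN1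
        have h3 : 0 ≤ X / N := by positivity
        have h4 : ε * (M / N) ≤ ε * M := mul_le_mul_of_nonneg_left h1 hε.le
        exact mul_le_mul h4 h2 h3 (by positivity)

end Cls

open Cls in
theorem specMR (hTri : SpecTri) (hPsd : SpecPsd) : SpecMR := by
  classical
  intro q hq η ε hη hη1 hε
  have : NeZero q := ⟨hq.ne'⟩
  have hq0 : (0 : ℝ) < q := by exact_mod_cast hq
  set ε' := ε / (q : ℝ) ^ 2 with hε'
  have hε'0 : 0 < ε' := by positivity
  set rep : ZMod q × ZMod q → Gi := fun c => ⟨c.1.val, c.2.val⟩ with hrep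
  have hall : ∀ᶠ M : ℝ in atTop, ∀ᶠ X : ℝ in atTop, ∀ c : ZMod q × ZMod q,
      ∑ z ∈ (ann X ((1 + η) ^ 2 * X)).filter
        (fun z => prim z ∧ (q : ℤ) ∣ z.re - (rep c).re ∧ (q : ℤ) ∣ z.im - (rep c).im),
      ∑ z' ∈ (ann X ((1 + η) ^ 2 * X)).filter
        (fun z => prim z ∧ (q : ℤ) ∣ z.re - (rep c).re ∧ (q : ℤ) ∣ z.im - (rep c).im),
        lam z * lam z' * tri (ang z z' * X / M) ≤ ε' * M * X := by
    have h1 := eventually_all.2 fun c : ZMod q × ZMod q =>
      class_bound hTri hPsd q hq (rep c) hη hη1 hε'0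
    filter_upwards [h1] with M hM
    exact eventually_all.2 hM
  obtain ⟨M₀, hM₀⟩ := eventually_atTop.1 hall
  refine ⟨M₀, fun M hM => ?_⟩
  filter_upwards [hM₀ M hM] with X hX
  set D := ann X ((1 + η) ^ 2 * X) with hD
  set cl : Gi → ZMod q × ZMod q := fun z => ((z.re : ZMod q), (z.im : ZMod q)) with hcl
  have hclrep : ∀ z c, cl z = c ↔ (q : ℤ) ∣ z.re - (rep c).re ∧ (q : ℤ) ∣ z.im - (rep c).im := by
    intro z c
    have key : ∀ (a : ℤ) (x : ZMod q), (a : ZMod q) = x ↔ (q : ℤ) ∣ a - x.val := by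
      intro a x
      have h1 : (((x.val : ℕ) : ℤ) : ZMod q) = x := by
        rw [Int.cast_natCast, ZMod.natCast_zmod_val]
      nth_rw 1 [← h1]
      rw [eq_comm, ZMod.intCast_eq_intCast_iff_dvd_sub]
    rw [hcl, Prod.ext_iff]
    exact and_congr (key _ _) (key _ _)
  have hsplit : ∑ z ∈ D.filter prim, ∑ z' ∈ D.filter
        (fun z' => prim z' ∧ (q : ℤ) ∣ z.re - z'.re ∧ (q : ℤ) ∣ z.im - z'.im),
        lam z * lam z' * tri (ang z z' * X / M) =
      ∑ c : ZMod q × ZMod q, ∑ z ∈ D.filter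
        (fun z => prim z ∧ (q : ℤ) ∣ z.re - (rep c).re ∧ (q : ℤ) ∣ z.im - (rep c).im),
      ∑ z' ∈ D.filter
        (fun z => prim z ∧ (q : ℤ) ∣ z.re - (rep c).re ∧ (q : ℤ) ∣ z.im - (rep c).im),
        lam z * lam z' * tri (ang z z' * X / M) := by
    rw [← sum_fiberwise (D.filter prim) cl]
    refine sum_congr rfl fun c _ => ?_
    have h1 : (D.filter prim).filter (fun z => cl z = c) = D.filter
        (fun z => prim z ∧ (q : ℤ) ∣ z.re - (rep c).re ∧ (q : ℤ) ∣ z.im - (rep c).im) := by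
      rw [filter_filter]
      refine filter_congr fun z _ => ?_
      rw [hclrep]
    rw [h1]
    refine sum_congr rfl fun z hz => ?_
    rw [mem_filter, ← hclrep] at hz
    refine sum_congr (filter_congr fun z' _ => ?_) fun _ _ => rfl
    have h2 : ((q : ℤ) ∣ z.re - z'.re ∧ (q : ℤ) ∣ z.im - z'.im) ↔ cl z' = c := by
      rw [← hz.2.2, hcl, Prod.ext_iff]
      simp only [ZMod.intCast_eq_intCast_iff_dvd_sub]
    rw [h2, hclrep]
  rw [hsplit]
  calc _ ≤ ∑ c : ZMod q × ZMod q, ε' * M * X := sum_le_sum fun c _ => hX c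
    _ = ε * M * X := by
      rw [sum_const, card_univ, Fintype.card_prod, ZMod.card, nsmul_eq_mul, hε']
      push_cast
      field_simp

end Pool.Agent.Lib.MP391708.MR
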