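import Pool.Agent.Lib.MP_391708_nt.MR.Spec
import Pool.Agent.Lib.MP_391708_nt.MR.Basic

/-!
# COUNT: lattice points in discs and residue classes
-/

set_option autoImplicit false

namespace Pool.Agent.Lib.MP391708.MR

open Finset Filter Topology MeasureTheory
open scoped ComplexConjugate

namespace CountM

/-- the half open square of side `m` with lower left corner `z` -/
def sq (m : ℕ) (z : Gi) : Set ℂ :=
  {p | ((z.re : ℝ) ≤ p.re ∧ p.re < z.re + m) ∧ ((z.im : ℝ) ≤ p.im ∧ p.im < z.im + m)}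

lemma sq_eq (m : ℕ) (z : Gi) : sq m z = Complex.measurableEquivRealProd ⁻¹'
    ((Set.Ico (z.re : ℝ) (z.re + m)) ×ˢ (Set.Ico (z.im : ℝ) (z.im + m))) := by
  ext p
  simp [sq, Complex.measurableEquivRealProd_apply]

lemma measurableSet_sq (m : ℕ) (z : Gi) : MeasurableSet (sq m z) := by
  rw [sq_eq]
  exact Complex.measurableEquivRealProd.measurable (measurableSet_Ico.prod measurableSet_Ico)

lemma volume_sq (m : ℕ) (z : Gi) : volume (sq m z) = ENNReal.ofReal ((m : ℝ) ^ 2) := by
  rw [sq_eq, Complex.volume_preserving_equiv_real_prod.measure_preimage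
    (measurableSet_Ico.prod measurableSet_Ico).nullMeasurableSet, Measure.volume_eq_prod,
    Measure.prod_prod, Real.volume_Ico, Real.volume_Ico, add_sub_cancel_left, add_sub_cancel_left,
    ← ENNReal.ofReal_mul (Nat.cast_nonneg _), ← pow_two]

lemma norm_sub_le {m : ℕ} {z : Gi} {p : ℂ} (h : p ∈ sq m z) :
    ‖p - GaussianInt.toComplex z‖ ≤ 2 * m := by
  obtain ⟨⟨h1, h2⟩, h3, h4⟩ := h
  refine (Complex.norm_le_abs_re_add_abs_im _).trans ?_
  rw [Complex.sub_re, Complex.sub_im, ← GaussianInt.intCast_re, ← GaussianInt.intCast_im,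
    abs_of_nonneg (by linarith), abs_of_nonneg (by linarith)]
  linarith

end CountM

open CountM in
theorem specCount : SpecCount := by
  intro m hm
  have hm1 : (1 : ℝ) ≤ m := by exact_mod_cast hm
  have hm0 : (0 : ℝ) < m := by linarith
  refine ⟨8 * Real.pi + 1, by positivity, ?_⟩
  intro w Y hY
  classical
  set r := Real.sqrt Y with hr
  have hr0 : 0 ≤ r := Real.sqrt_nonneg _
  have hrY : r ^ 2 = Y := Real.sq_sqrt hY
  set cond : Gi → Prop := fun z => (m : ℤ) ∣ z.re - w.re ∧ (m : ℤ) ∣ z.im - w.im with hcond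
  set S := (disc Y).filter cond with hS
  set S1 := (insert 0 (disc Y)).filter cond with hS1
  have hmem : ∀ z, z ∈ S1 ↔ (nm z : ℝ) ≤ Y ∧ cond z := by
    intro z
    rw [hS1, mem_filter, mem_insert, mem_disc]
    constructor
    · rintro ⟨rfl | h, h2⟩
      · exact ⟨by simpa using hY, h2⟩
      · exact ⟨h.2, h2⟩
    · rintro ⟨h1, h2⟩
      by_cases hz : z = 0
      · exact ⟨Or.inl hz, h2⟩
      · exact ⟨Or.inr ⟨hz, h1⟩, h2⟩
  have hsub : S ⊆ S1 := filter_subset_filter _ (subset_insert _ _)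
  have hsub2 : S1 ⊆ insert 0 S := by
    intro z hz
    rw [hS1, mem_filter, mem_insert] at hz
    rw [mem_insert, hS, mem_filter]
    tauto
  have hc1 : (S.card : ℝ) ≤ S1.card := by exact_mod_cast card_le_card hsub
  have hc2 : (S1.card : ℝ) ≤ S.card + 1 := by
    exact_mod_cast (card_le_card hsub2).trans (card_insert_le _ _)
  have hdisj : Set.PairwiseDisjoint (↑S1 : Set Gi) (sq m) := by
    intro z hz z' hz' hne
    rw [Function.onFun, Set.disjoint_left]
    rintro p ⟨⟨a1, a2⟩, a3, a4⟩ ⟨⟨b1, b2⟩, b3, b4⟩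
    apply hne
    have hz := ((hmem z).1 hz).2
    have hz' := ((hmem z').1 hz').2
    have key : ∀ a b c : ℤ, (m : ℤ) ∣ a - c → (m : ℤ) ∣ b - c → (a : ℝ) < b + m →
        (b : ℝ) < a + m → a = b := by
      intro a b c h1 h2 h3 h4
      have h5 : (m : ℤ) ∣ a - b := by
        have := dvd_sub h1 h2
        rwa [sub_sub_sub_cancel_right] at this
      have h3' : a < b + m := by exact_mod_cast h3
      have h4' : b < a + m := by exact_mod_cast h4
      have := Int.eq_zero_of_abs_lt_dvd h5 (by rw [abs_lt]; constructor <;> omega)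
      omega
    exact Zsqrtd.ext (key _ _ _ hz.1 hz'.1 (by linarith) (by linarith))
      (key _ _ _ hz.2 hz'.2 (by linarith) (by linarith))
  have hvol : volume (⋃ z ∈ S1, sq m z) = ENNReal.ofReal (S1.card * (m : ℝ) ^ 2) := by
    rw [measure_biUnion_finset hdisj (fun z _ => measurableSet_sq m z),
      Finset.sum_congr rfl (fun z _ => volume_sq m z), sum_const, nsmul_eq_mul,
      ENNReal.ofReal_mul (Nat.cast_nonneg _), ENNReal.ofReal_natCast]
  have hball : ∀ R : ℝ, 0 ≤ R → volume (Metric.closedBall (0 : ℂ) R) =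
      ENNReal.ofReal (R ^ 2 * Real.pi) := by
    intro R hR
    rw [Complex.volume_closedBall, ENNReal.ofReal_mul (by positivity),
      ENNReal.ofReal_pow hR]
    congr 1
    rw [← NNReal.coe_real_pi, ENNReal.ofReal_coe_nnreal]
  -- upper bound
  have hup : (S1.card : ℝ) * (m : ℝ) ^ 2 ≤ (r + 2 * m) ^ 2 * Real.pi := by
    have h1 : (⋃ z ∈ S1, sq m z) ⊆ Metric.closedBall (0 : ℂ) (r + 2 * m) := by
      intro p hp
      rw [Set.mem_iUnion₂] at hp
      obtain ⟨z, hz, hpz⟩ := hp
      rw [mem_closedBall_zero_iff]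
      have h2 := norm_sub_le hpz
      have h3 : ‖GaussianInt.toComplex z‖ ≤ r := by
        rw [norm_toComplex]
        exact Real.sqrt_le_sqrt ((hmem z).1 hz).1
      calc ‖p‖ = ‖(p - GaussianInt.toComplex z) + GaussianInt.toComplex z‖ := by
            rw [sub_add_cancel]
        _ ≤ ‖p - GaussianInt.toComplex z‖ + ‖GaussianInt.toComplex z‖ := norm_add_le _ _
        _ ≤ r + 2 * m := by linarith
    have h2 := measure_mono (μ := volume) h1
    rw [hvol, hball _ (by positivity), ENNReal.ofReal_le_ofReal_iff (by positivity)] at h2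
    exact h2
  -- lower bound
  have hlow : (r ^ 2 - 4 * m * r) * Real.pi ≤ (S1.card : ℝ) * (m : ℝ) ^ 2 := by
    rcases lt_or_ge r (2 * m) with hlt | hge
    · have : (r ^ 2 - 4 * m * r) * Real.pi ≤ 0 := by
        apply mul_nonpos_of_nonpos_of_nonneg _ Real.pi_pos.le
        nlinarith
      have : 0 ≤ (S1.card : ℝ) * (m : ℝ) ^ 2 := by positivity
      linarith
    · have h1 : Metric.closedBall (0 : ℂ) (r - 2 * m) ⊆ (⋃ z ∈ S1, sq m z) := by
        intro p hp
        rw [mem_closedBall_zero_iff] at hp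
        set z : Gi := ⟨w.re + m * ⌊(p.re - w.re) / m⌋, w.im + m * ⌊(p.im - w.im) / m⌋⟩ with hz
        have key : ∀ (a : ℤ) (x : ℝ), ((a + m * ⌊(x - a) / m⌋ : ℤ) : ℝ) ≤ x ∧
            x < ((a + m * ⌊(x - a) / m⌋ : ℤ) : ℝ) + m := by
          intro a x
          have h2 := Int.floor_le ((x - a) / (m : ℝ))
          have h3 := Int.lt_floor_add_one ((x - a) / (m : ℝ))
          rw [le_div_iff₀ hm0] at h2
          rw [div_lt_iff₀ hm0] at h3
          push_cast
          constructor <;> nlinarith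
        have hpz : p ∈ sq m z := ⟨key w.re p.re, key w.im p.im⟩
        rw [Set.mem_iUnion₂]
        refine ⟨z, (hmem z).2 ⟨?_, ?_, ?_⟩, hpz⟩
        · have h2 := norm_sub_le hpz
          have h3 : ‖GaussianInt.toComplex z‖ ≤ r := by
            calc ‖GaussianInt.toComplex z‖ = ‖p - (p - GaussianInt.toComplex z)‖ := by
                  rw [sub_sub_cancel]
              _ ≤ ‖p‖ + ‖p - GaussianInt.toComplex z‖ := norm_sub_le _ _
              _ ≤ r := by linarith
          rw [← nm_toComplex, ← hrY]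
          exact pow_le_pow_left₀ (norm_nonneg _) h3 2
        · rw [hz]; simp
        · rw [hz]; simp
      have h2 := measure_mono (μ := volume) h1
      rw [hvol, hball _ (by linarith), ENNReal.ofReal_le_ofReal_iff (by positivity)] at h2
      refine le_trans ?_ h2
      apply mul_le_mul_of_nonneg_right _ Real.pi_pos.le
      nlinarith
  have hpi := Real.pi_pos
  rw [abs_le]
  have hdiv : Real.pi * Y / (m : ℝ) ^ 2 * (m : ℝ) ^ 2 = Real.pi * r ^ 2 := by
    rw [div_mul_cancel₀ _ (by positivity), hrY]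
  have hm2 : (m : ℝ) ≤ (m : ℝ) ^ 2 := by nlinarith
  constructor
  · -- lower
    have h1 : Real.pi * Y / (m : ℝ) ^ 2 - 4 * Real.pi * r ≤ S1.card := by
      have : (Real.pi * Y / (m : ℝ) ^ 2 - 4 * Real.pi * r) * (m : ℝ) ^ 2 ≤
          S1.card * (m : ℝ) ^ 2 := by
        rw [sub_mul, hdiv]
        refine le_trans ?_ hlow
        have : 4 * Real.pi * r * m ≤ 4 * Real.pi * r * (m : ℝ) ^ 2 :=
          mul_le_mul_of_nonneg_left hm2 (by positivity)
        nlinarith
      exact le_of_mul_le_mul_right this (by positivity)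
    nlinarith
  · have h1 : (S1.card : ℝ) ≤ Real.pi * Y / (m : ℝ) ^ 2 + 4 * Real.pi * r + 4 * Real.pi := by
      have : (S1.card : ℝ) * (m : ℝ) ^ 2 ≤
          (Real.pi * Y / (m : ℝ) ^ 2 + 4 * Real.pi * r + 4 * Real.pi) * (m : ℝ) ^ 2 := by
        rw [add_mul, add_mul, hdiv]
        refine hup.trans ?_
        have : 4 * Real.pi * r * m ≤ 4 * Real.pi * r * (m : ℝ) ^ 2 :=
          mul_le_mul_of_nonneg_left hm2 (by positivity)
        nlinarith
      exact le_of_mul_le_mul_right this (by positivity)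
    nlinarith

end Pool.Agent.Lib.MP391708.MR
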