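import Mathlib

/-!
# Matomäki–Radziwiłł for the Liouville function of the norm in thin sectors of `ℤ[i]`: definitions

Project: parity of `Ω(n² + 1)` in the critical window (MP_391708_nt).
-/

set_option autoImplicit false

namespace Pool.Agent.Lib.MP391708.MR

open Finset Filter Topology
open scoped ComplexConjugate

/-- Gaussian integers -/
abbrev Gi := GaussianInt

/-- the norm as a natural number -/
def nm (z : Gi) : ℕ := (z.re ^ 2 + z.im ^ 2).natAbs

/-- the Liouville function of the norm -/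
noncomputable def lam (z : Gi) : ℝ := (-1) ^ (ArithmeticFunction.cardFactors (nm z))

/-- `z / |z|` -/
noncomputable def dir (z : Gi) : ℂ :=
  GaussianInt.toComplex z / ((‖GaussianInt.toComplex z‖ : ℝ) : ℂ)

/-- `(z / |z|)^k` -/
noncomputable def xi (k : ℤ) (z : Gi) : ℂ := dir z ^ k

/-- primitive -/
def prim (z : Gi) : Prop := Int.gcd z.re z.im = 1

instance : DecidablePred prim := fun z => by unfold prim; infer_instance

/-- same direction -/
def par (z z' : Gi) : Prop :=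
  z.re * z'.im - z.im * z'.re = 0 ∧ 0 < z.re * z'.re + z.im * z'.im

instance : DecidableRel par := fun z z' => by unfold par; infer_instance

/-- the nonzero `z` with `nm z ≤ x` -/
noncomputable def disc (x : ℝ) : Finset Gi :=
  (((Icc (-(⌊x⌋₊ : ℤ)) ⌊x⌋₊) ×ˢ (Icc (-(⌊x⌋₊ : ℤ)) ⌊x⌋₊)).image
    (fun p => (⟨p.1, p.2⟩ : Gi))).filter (fun z => z ≠ 0 ∧ (nm z : ℝ) ≤ x)

/-- `x < nm z ≤ x'` -/
noncomputable def ann (x x' : ℝ) : Finset Gi := (disc x').filter (fun z => x < (nm z : ℝ))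

/-- the split Gaussian primes in the open first quadrant with norm in `(P, Q]`; each rational
prime `p ≡ 1 mod 4` is the norm of exactly two of them -/
noncomputable def GP (P Q : ℝ) : Finset Gi :=
  (disc Q).filter (fun z => 0 < z.re ∧ 0 < z.im ∧ (nm z).Prime ∧ (nm z) % 4 = 1 ∧
    P < (nm z : ℝ))

/-- `∑ 1/N(π)` -/
noncomputable def WW (P Q : ℝ) : ℝ := ∑ π ∈ GP P Q, 1 / (nm π : ℝ)

/-- number of primes of `GP P Q` dividing `z` -/
noncomputable def om (P Q : ℝ) (z : Gi) : ℕ := by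
  classical exact ((GP P Q).filter (fun π => π ∣ z)).card

/-- characters modulo a Gaussian integer `m`, extended by `0` -/
structure Chi (ψ : Gi → ℂ) : Prop where
  one : ψ 1 = 1
  mul : ∀ x y, ψ (x * y) = ψ x * ψ y
  period : ∃ m : Gi, m ≠ 0 ∧ (∀ x y, ψ (x + m * y) = ψ x) ∧ ∀ x, ψ x ≠ 0 ↔ IsCoprime x m

/-- the completely multiplicative function `λ(N z) ψ(z)` -/
noncomputable def ff (ψ : Gi → ℂ) (z : Gi) : ℂ := (lam z : ℂ) * ψ z

/-- admissible frequencies: `z ↦ ψ(z) (z/|z|)^k` is invariant under units -/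
def Adm (ψ : Gi → ℂ) (k : ℤ) : Prop := ψ ⟨0, 1⟩ * Complex.I ^ k = 1

/-- sum over primitive `z` with norm in `(Y, Y']` -/
noncomputable def MM (ψ : Gi → ℂ) (Y Y' : ℝ) (k : ℤ) : ℂ :=
  ∑ m ∈ (ann Y Y').filter prim, ff ψ m * xi k m

/-- sum over primitive `z` with norm at most `x` -/
noncomputable def SS (ψ : Gi → ℂ) (k : ℤ) (x : ℝ) : ℂ :=
  ∑ m ∈ (disc x).filter prim, ff ψ m * xi k m

/-- the primes `π` of `GP P Q` with `v ≤ h log N(π) < v + 1` -/
noncomputable def cell (h P Q : ℝ) (v : ℕ) : Finset Gi :=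
  (GP P Q).filter (fun π => ⌊h * Real.log (nm π)⌋₊ = v)

/-- the prime sum over a cell -/
noncomputable def QQ (ψ : Gi → ℂ) (h P Q : ℝ) (v : ℕ) (k : ℤ) : ℂ :=
  ∑ π ∈ cell h P Q v, ff ψ π * xi k π

/-- the range of `v` -/
noncomputable def VV (h P Q : ℝ) : Finset ℕ := Icc ⌊h * Real.log P⌋₊ ⌊h * Real.log Q⌋₊

/-- the angle between `z` and `z'`, in `[0, π]` -/
noncomputable def ang (z z' : Gi) : ℝ :=
  |Complex.arg (GaussianInt.toComplex z * conj (GaussianInt.toComplex z'))|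

/-- the tent function -/
noncomputable def tri (t : ℝ) : ℝ := max 0 (1 - |t|)

/-- integers in `[-K, K]` -/
noncomputable def IK (K : ℕ) : Finset ℤ := Icc (-(K : ℤ)) K

end Pool.Agent.Lib.MP391708.MR
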