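import Pool.Agent.Lib.MP_391708_nt.MR.Spec
import Pool.Agent.Lib.MP_391708_nt.MR.Basic

/-!
# MOM: moments of prime sums times a short sum

Pairs of tuples `(f, m)`, `(f', m')` with parallel products are counted through the content of
`∏ f * ∏ sw f' * m`.
-/

set_option autoImplicit false

namespace Pool.Agent.Lib.MP391708.MR

namespace Mom

open Finset
open scoped ComplexConjugate

/-- the content -/
def ct (z : Gi) : ℕ := Int.gcd z.re z.im

/-- exchange the coordinates -/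
def sw (z : Gi) : Gi := ⟨z.im, z.re⟩

lemma sw_eq (z : Gi) : sw z = ⟨0, 1⟩ * star z := by
  unfold sw
  ext <;> simp

lemma sw_inj : Function.Injective sw := by
  intro x y h
  unfold sw at h
  have h1 := congrArg Zsqrtd.re h
  have h2 := congrArg Zsqrtd.im h
  exact Zsqrtd.ext h2 h1

lemma nm_sw (z : Gi) : nm (sw z) = nm z := by
  unfold nm sw
  simp only
  rw [add_comm]

lemma sw_mem {P Q : ℝ} {z : Gi} (h : z ∈ GP P Q) : sw z ∈ GP P Q := by
  rw [mem_GP] at h ⊢
  rw [nm_sw]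
  exact ⟨h.2.1, h.1, h.2.2⟩

lemma ct_zero : ct 0 = 0 := by simp [ct]

lemma ct_prim {z : Gi} (h : prim z) : ct z = 1 := h

lemma ct_pos {z : Gi} (h : z ≠ 0) : 0 < ct z := by
  unfold ct
  rw [Nat.pos_iff_ne_zero, Ne, Int.gcd_eq_zero_iff]
  rintro ⟨h1, h2⟩
  exact h (Zsqrtd.ext h1 h2)

lemma ct_smul (g : ℕ) (z : Gi) : ct ((g : Gi) * z) = g * ct z := by
  unfold ct
  have h1 : ((g : Gi) * z).re = g * z.re := by simp
  have h2 : ((g : Gi) * z).im = g * z.im := by simp
  rw [h1, h2, Int.gcd_mul_left]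
  simp

/-- decomposition by the content -/
lemma ct_decomp {z : Gi} (h : z ≠ 0) : ∃ z0 : Gi, prim z0 ∧ z = (ct z : Gi) * z0 := by
  have hp := ct_pos h
  have h1 : ((ct z : ℕ) : ℤ) ∣ z.re := Int.gcd_dvd_left _ _
  have h2 : ((ct z : ℕ) : ℤ) ∣ z.im := Int.gcd_dvd_right _ _
  obtain ⟨a, ha⟩ := h1
  obtain ⟨b, hb⟩ := h2
  have he : z = (ct z : Gi) * ⟨a, b⟩ := by
    ext
    · simp; exact ha
    · simp; exact hb
  refine ⟨⟨a, b⟩, ?_, he⟩
  have h3 : ct z = ct z * ct ⟨a, b⟩ := by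
    conv_lhs => rw [he]
    rw [ct_smul]
  have h4 : ct ⟨a, b⟩ = 1 := by
    have : ct z * 1 = ct z * ct ⟨a, b⟩ := by rw [mul_one]; exact h3
    exact (Nat.eq_of_mul_eq_mul_left hp this).symm
  exact h4

lemma nm_natCast (g : ℕ) : nm (g : Gi) = g ^ 2 := by
  have h := nm_cast (g : Gi)
  have h1 : ((g : Gi)).re = g := by simp
  have h2 : ((g : Gi)).im = 0 := by simp
  rw [h1, h2] at h
  have : ((nm (g : Gi) : ℕ) : ℤ) = ((g ^ 2 : ℕ) : ℤ) := by rw [h]; push_cast; ring
  exact_mod_cast this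

lemma star_mul_self' (z : Gi) : star z * z = ((nm z : ℕ) : Gi) := by
  ext
  · simp
    rw [nm_cast]; ring
  · simp
    ring

lemma nm_star (z : Gi) : nm (star z) = nm z := by
  unfold nm
  simp

lemma natCast_dvd {g : ℕ} {z : Gi} : (g : Gi) ∣ z ↔ (g : ℤ) ∣ z.re ∧ (g : ℤ) ∣ z.im := by
  constructor
  · rintro ⟨w, rfl⟩
    constructor
    · simp
    · simp
  · rintro ⟨⟨a, ha⟩, ⟨b, hb⟩⟩
    refine ⟨⟨a, b⟩, ?_⟩
    ext
    · simp; exact ha
    · simp; exact hb

lemma natCast_dvd_ct {g : ℕ} {z : Gi} : (g : Gi) ∣ z ↔ g ∣ ct z := by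
  rw [natCast_dvd]
  unfold ct
  constructor
  · rintro ⟨h1, h2⟩
    have := Int.dvd_coe_gcd h1 h2
    exact_mod_cast this
  · intro h
    have h' : (g : ℤ) ∣ ((Int.gcd z.re z.im : ℕ) : ℤ) := by exact_mod_cast h
    exact ⟨h'.trans (Int.gcd_dvd_left _ _), h'.trans (Int.gcd_dvd_right _ _)⟩

/-- the content after multiplication by a split prime -/
lemma ct_GP_mul {P Q : ℝ} {π : Gi} (hπ : π ∈ GP P Q) (z : Gi) [Decidable (sw π ∣ z)] :
    ct (π * z) ≤ ct z * (if sw π ∣ z then nm π else 1) := by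
  rcases eq_or_ne z 0 with rfl | hz
  · simp [ct_zero]
  obtain ⟨z0, hz0, hz1⟩ := ct_decomp hz
  have hπ0 := GP_ne_zero hπ
  have hπp := (mem_GP.1 hπ).2.2.1
  have e1 : π * z = (ct z : Gi) * (π * z0) := by
    conv_lhs => rw [hz1]
    ring
  rw [e1, ct_smul]
  apply Nat.mul_le_mul_left
  -- the content of `π z0` divides `nm π`
  have h1 : (ct (π * z0) : Gi) ∣ π * z0 := natCast_dvd_ct.2 dvd_rfl
  have h2 : (ct (π * z0) : Gi) ∣ ((nm π : ℕ) : Gi) * z0 := by
    have : (ct (π * z0) : Gi) ∣ star π * (π * z0) := h1.mul_left _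
    rwa [← mul_assoc, star_mul_self'] at this
  rw [natCast_dvd_ct, ct_smul, ct_prim hz0, mul_one] at h2
  rcases (Nat.dvd_prime hπp).1 h2 with h3 | h3
  · rw [h3]
    split_ifs
    · exact hπp.one_lt.le
    · exact le_rfl
  · have h4 : sw π ∣ z := by
      rw [h3, ← star_mul_self', mul_comm (star π) π] at h1
      have h5 : star π ∣ z0 := (mul_dvd_mul_iff_left hπ0).1 h1
      have h6 : sw π ∣ z0 := by
        obtain ⟨w, hw⟩ := h5
        refine ⟨⟨0, -1⟩ * w, ?_⟩
        rw [hw, sw_eq]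
        have : (⟨0, 1⟩ : Gi) * ⟨0, -1⟩ = 1 := by ext <;> simp
        linear_combination (-(star π) * w) * this
      rw [hz1]
      exact h6.mul_left _
    rw [if_pos h4, h3]

/-- divisors of a product with a split prime -/
lemma om_GP_mul {P Q : ℝ} {π : Gi} (hπ : π ∈ GP P Q) (z : Gi) :
    om P Q (π * z) ≤ 1 + om P Q z := by
  classical
  unfold om
  have hsub : (GP P Q).filter (fun ρ => ρ ∣ π * z) ⊆
      insert π ((GP P Q).filter (fun ρ => ρ ∣ z)) := by
    intro ρ hρ
    rw [mem_filter] at hρ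
    rw [mem_insert, mem_filter]
    rcases (GP_prime hρ.1).dvd_or_dvd hρ.2 with h | h
    · left; exact (GP_eq_of_dvd hρ.1 hπ h).symm
    · right; exact ⟨hρ.1, h⟩
  refine le_trans (le_of_eq ?_) ((card_le_card hsub).trans ((card_insert_le _ _).trans ?_))
  · congr 1
  · rw [add_comm]

lemma sum_pi_succ {M : Type*} [AddCommMonoid M] (A : Finset Gi) (n : ℕ)
    (φ : (Fin (n + 1) → Gi) → M) :
    ∑ f ∈ Fintype.piFinset (fun _ : Fin (n + 1) => A), φ f =
      ∑ π ∈ A, ∑ f ∈ Fintype.piFinset (fun _ : Fin n => A), φ (Fin.cons π f) := by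
  rw [← Finset.sum_product']
  refine Finset.sum_nbij' (fun f => (f 0, Fin.tail f)) (fun p => Fin.cons p.1 p.2) ?_ ?_ ?_ ?_ ?_
  · intro f hf
    rw [Fintype.mem_piFinset] at hf
    rw [mem_product, Fintype.mem_piFinset]
    exact ⟨hf 0, fun i => hf i.succ⟩
  · rintro ⟨π, f⟩ hp
    rw [mem_product, Fintype.mem_piFinset] at hp
    rw [Fintype.mem_piFinset]
    intro i
    refine Fin.cases ?_ (fun j => ?_) i
    · simpa using hp.1
    · simpa using hp.2 j
  · intro f _
    exact Fin.cons_self_tail f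
  · rintro ⟨π, f⟩ _
    simp
  · intro f _
    rw [Fin.cons_self_tail]

lemma card_GP_le {P Q : ℝ} (hQ : 0 ≤ Q) : ((GP P Q).card : ℝ) ≤ 9 * Q := by
  refine le_trans ?_ (card_disc_le hQ)
  exact_mod_cast card_le_card (filter_subset _ _)

lemma sum_ct_le {Y Z : ℝ} (hZ : 0 ≤ Z) {A : Finset Gi} (hA : A ⊆ GP Y Z) (z : Gi) :
    ∑ π ∈ A, (ct (π * z) : ℝ) ≤ ct z * (Z * (9 + om Y Z z)) := by
  classical
  have h1 : ∑ π ∈ A, (ct (π * z) : ℝ) ≤
      ∑ π ∈ GP Y Z, (ct z : ℝ) * (1 + if sw π ∣ z then Z else 0) := by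
    refine (sum_le_sum_of_subset_of_nonneg hA (fun _ _ _ => Nat.cast_nonneg _)).trans ?_
    apply sum_le_sum
    intro π hπ
    have h := ct_GP_mul hπ z
    have h' : (ct (π * z) : ℝ) ≤ ct z * ((if sw π ∣ z then nm π else 1 : ℕ) : ℝ) := by
      exact_mod_cast h
    refine h'.trans (mul_le_mul_of_nonneg_left ?_ (Nat.cast_nonneg _))
    split_ifs
    · have := (mem_GP.1 hπ).2.2.2.2.2
      linarith
    · simp
  refine h1.trans ?_
  rw [← mul_sum]
  apply mul_le_mul_of_nonneg_left _ (Nat.cast_nonneg _)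
  rw [sum_add_distrib, sum_const, nsmul_eq_mul, mul_one, ← sum_filter, sum_const, nsmul_eq_mul]
  have h2 : ((GP Y Z).filter (fun π => sw π ∣ z)).card ≤ om Y Z z := by
    unfold om
    refine card_le_card_of_injOn sw ?_ (sw_inj.injOn)
    intro π hπ
    simp only [coe_filter, Set.mem_ofPred_eq] at hπ ⊢
    exact ⟨sw_mem hπ.1, hπ.2⟩
  have h3 : (((GP Y Z).filter (fun π => sw π ∣ z)).card : ℝ) ≤ om Y Z z := by exact_mod_cast h2
  have h4 := card_GP_le (P := Y) hZ
  nlinarith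

lemma sum_ct_pow {Y Z : ℝ} (hZ : 0 ≤ Z) {A : Finset Gi} (hA : A ⊆ GP Y Z) (n : ℕ) :
    ∀ z : Gi, ∑ f ∈ Fintype.piFinset (fun _ : Fin n => A), (ct ((∏ i, f i) * z) : ℝ) ≤
      ct z * (Z * (9 + n + om Y Z z)) ^ n := by
  induction n with
  | zero =>
    intro z
    simp
  | succ n ih =>
    intro z
    rw [sum_pi_succ]
    have h1 : ∀ π ∈ A, ∑ f ∈ Fintype.piFinset (fun _ : Fin n => A),
        (ct ((∏ i, (Fin.cons π f : Fin (n + 1) → Gi) i) * z) : ℝ) ≤
        ct (π * z) * (Z * (9 + (n + 1) + om Y Z z)) ^ n := by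
      intro π hπ
      have h2 := ih (π * z)
      have h3 : ∀ f ∈ Fintype.piFinset (fun _ : Fin n => A),
          (ct ((∏ i, (Fin.cons π f : Fin (n + 1) → Gi) i) * z) : ℝ) =
            ct ((∏ i, f i) * (π * z)) := by
        intro f _
        rw [Fin.prod_univ_succ]
        simp only [Fin.cons_zero, Fin.cons_succ]
        congr 2
        ring
      rw [sum_congr rfl h3]
      refine h2.trans (mul_le_mul_of_nonneg_left ?_ (Nat.cast_nonneg _))
      have h4 : ((om Y Z (π * z) : ℕ) : ℝ) ≤ 1 + om Y Z z := by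
        exact_mod_cast om_GP_mul (hA hπ) z
      gcongr ?_ ^ n
      apply mul_le_mul_of_nonneg_left _ hZ
      linarith
    refine (sum_le_sum h1).trans ?_
    rw [← sum_mul]
    push_cast
    have h5 := sum_ct_le hZ hA z
    have h6 : 0 ≤ (Z * (9 + ((n : ℝ) + 1) + om Y Z z)) ^ n := by positivity
    calc (∑ π ∈ A, (ct (π * z) : ℝ)) * (Z * (9 + ((n : ℝ) + 1) + om Y Z z)) ^ n
        ≤ (ct z * (Z * (9 + om Y Z z))) * (Z * (9 + ((n : ℝ) + 1) + om Y Z z)) ^ n :=
          mul_le_mul_of_nonneg_right h5 h6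
      _ ≤ (ct z * (Z * (9 + ((n : ℝ) + 1) + om Y Z z))) *
          (Z * (9 + ((n : ℝ) + 1) + om Y Z z)) ^ n := by
          apply mul_le_mul_of_nonneg_right _ h6
          apply mul_le_mul_of_nonneg_left _ (Nat.cast_nonneg _)
          apply mul_le_mul_of_nonneg_left _ hZ
          have : (0 : ℝ) ≤ n := Nat.cast_nonneg _
          linarith
      _ = ct z * (Z * (9 + ((n : ℝ) + 1) + om Y Z z)) ^ (n + 1) := by ring

lemma om_prod_le {Y Z : ℝ} (n : ℕ) : ∀ (f : Fin n → Gi) (_ : ∀ i, f i ∈ GP Y Z) (z : Gi),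
    om Y Z ((∏ i, f i) * z) ≤ n + om Y Z z := by
  induction n with
  | zero => intro f _ z; simp
  | succ n ih =>
    intro f hf z
    rw [Fin.prod_univ_succ, mul_assoc]
    have h1 := om_GP_mul (hf 0) ((∏ i : Fin n, f i.succ) * z)
    have h2 := ih (fun i => f i.succ) (fun i => hf i.succ) z
    omega

/-! ## the exponential moment of `om` -/

lemma card_dvd_le {x : ℝ} (hx : 0 ≤ x) {P Q : ℝ} {D : Finset Gi} (hD : D ⊆ GP P Q)
    [DecidablePred (fun m : Gi => ∀ π ∈ D, π ∣ m)] :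
    (((disc x).filter (fun m => ∀ π ∈ D, π ∣ m)).card : ℝ) ≤
      9 * x * ∏ π ∈ D, (1 / (nm π : ℝ)) := by
  classical
  have hpos : (0 : ℝ) < ∏ π ∈ D, (nm π : ℝ) :=
    prod_pos (fun π hπ => nm_posR (GP_ne_zero (hD hπ)))
  have hnm : ((nm (∏ π ∈ D, π) : ℕ) : ℝ) = ∏ π ∈ D, (nm π : ℝ) := by
    clear hpos
    induction D using Finset.induction_on with
    | empty => simp
    | insert a s ha ih =>
      rw [prod_insert ha, prod_insert ha, nm_mul]
      push_cast
      rw [ih (fun y hy => hD (mem_insert_of_mem hy))]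
  have hsub : (disc x).filter (fun m => ∀ π ∈ D, π ∣ m) ⊆
      (disc (x / ∏ π ∈ D, (nm π : ℝ))).image (fun w => (∏ π ∈ D, π) * w) := by
    intro m hm
    rw [mem_filter, mem_disc] at hm
    have hd : (∏ π ∈ D, π) ∣ m := by
      apply Finset.prod_dvd_of_coprime
      · intro a ha b hb hab
        exact GP_coprime (hD ha) (hD hb) hab
      · exact hm.2
    obtain ⟨w, hw⟩ := hd
    rw [mem_image]
    refine ⟨w, ?_, hw.symm⟩
    rw [mem_disc]
    constructor
    · rintro rfl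
      rw [mul_zero] at hw
      exact hm.1.1 hw
    · rw [le_div_iff₀ hpos, ← hnm]
      have h1 : nm m = nm (∏ π ∈ D, π) * nm w := by rw [hw, nm_mul]
      have h2 : (nm m : ℝ) = nm (∏ π ∈ D, π) * nm w := by exact_mod_cast h1
      rw [mul_comm, ← h2]
      exact hm.1.2
  have h1 : (((disc x).filter (fun m => ∀ π ∈ D, π ∣ m)).card : ℝ) ≤
      ((disc (x / ∏ π ∈ D, (nm π : ℝ))).card : ℝ) := by
    exact_mod_cast (card_le_card hsub).trans card_image_le
  refine h1.trans ((card_disc_le (div_nonneg hx hpos.le)).trans (le_of_eq ?_))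
  rw [prod_div_distrib, prod_const_one]
  ring

lemma sum_exp_om_le {Y Z x : ℝ} (hY : 0 < Y) (hYZ : Z ≤ Real.exp 2 * Y) (hZ : 0 ≤ Z)
    (hx : 0 ≤ x) :
    ∑ m ∈ disc x, Real.exp (om Y Z m) ≤ 9 * x * Real.exp (18 * Real.exp 2) := by
  classical
  set e1 : ℝ := Real.exp 1 - 1 with he1
  have he1p : 0 ≤ e1 := by
    have := Real.add_one_le_exp (1 : ℝ)
    rw [he1]; linarith
  have he1u : e1 ≤ 2 := by
    have := Real.exp_one_lt_d9
    rw [he1]; linarith
  have h1 : ∀ m : Gi, Real.exp (om Y Z m) =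
      ∑ D ∈ (GP Y Z).powerset, ∏ π ∈ D, (if π ∣ m then e1 else 0) := by
    intro m
    rw [← Finset.prod_one_add]
    have h2 : Real.exp (om Y Z m) = ∏ π ∈ (GP Y Z).filter (fun π => π ∣ m), Real.exp 1 := by
      rw [prod_const, ← Real.exp_nat_mul, mul_one]
      rfl
    rw [h2, prod_filter]
    apply prod_congr rfl
    intro π _
    split_ifs
    · rw [he1]; ring
    · ring
  rw [sum_congr rfl (fun m _ => h1 m), sum_comm]
  have h3 : ∀ D ∈ (GP Y Z).powerset, ∑ m ∈ disc x, ∏ π ∈ D, (if π ∣ m then e1 else 0) ≤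
      9 * x * ∏ π ∈ D, (e1 / (nm π : ℝ)) := by
    intro D hD
    rw [mem_powerset] at hD
    have h4 : ∀ m ∈ disc x, ∏ π ∈ D, (if π ∣ m then e1 else 0) =
        if (∀ π ∈ D, π ∣ m) then e1 ^ D.card else 0 := by
      intro m _
      split_ifs with h
      · rw [prod_congr rfl (fun π hπ => if_pos (h π hπ)), prod_const]
      · push Not at h
        obtain ⟨π, hπ, hn⟩ := h
        exact prod_eq_zero hπ (if_neg hn)
    rw [sum_congr rfl h4, ← sum_filter, sum_const, nsmul_eq_mul]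
    have h5 := card_dvd_le hx hD
    calc _ ≤ (9 * x * ∏ π ∈ D, (1 / (nm π : ℝ))) * e1 ^ D.card :=
          mul_le_mul_of_nonneg_right h5 (pow_nonneg he1p _)
      _ = 9 * x * ∏ π ∈ D, (e1 / (nm π : ℝ)) := by
          rw [mul_assoc, ← prod_const, ← prod_mul_distrib]
          congr 1
          apply prod_congr rfl
          intro π _
          ring
  refine (sum_le_sum h3).trans ?_
  rw [← mul_sum, ← Finset.prod_one_add]
  apply mul_le_mul_of_nonneg_left _ (by positivity)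
  have h6 : ∏ π ∈ GP Y Z, (1 + e1 / (nm π : ℝ)) ≤ ∏ π ∈ GP Y Z, Real.exp (e1 / (nm π : ℝ)) := by
    apply prod_le_prod
    · intro π _; positivity
    · intro π _
      rw [add_comm]
      exact Real.add_one_le_exp _
  refine h6.trans ?_
  rw [← Real.exp_sum]
  apply Real.exp_le_exp.2
  have h7 : ∑ π ∈ GP Y Z, e1 / (nm π : ℝ) ≤ ∑ π ∈ GP Y Z, 2 / Y := by
    apply sum_le_sum
    intro π hπ
    have h8 := (mem_GP.1 hπ).2.2.2.2.1
    exact div_le_div₀ (by norm_num) he1u hY h8.le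
  refine h7.trans ?_
  rw [sum_const, nsmul_eq_mul]
  have h9 := card_GP_le (P := Y) hZ
  rw [mul_div_assoc', div_le_iff₀ hY]
  nlinarith

/-! ## pairs of tuples -/

lemma par_symm {z z' : Gi} (h : par z z') : par z' z := by
  obtain ⟨h1, h2⟩ := h
  constructor
  · linarith [h1, mul_comm z.re z'.im, mul_comm z.im z'.re]
  · linarith [h2, mul_comm z.re z'.re, mul_comm z.im z'.im]

/-- from `F m ∥ F' m'` the vector `star F' * (F * m)` is a positive multiple of `m'` -/
lemma par_star {x y m' : Gi} (hy : y ≠ 0) (h : par x (y * m')) : par (star y * x) m' := by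
  obtain ⟨h1, h2⟩ := h
  have hn : (0 : ℤ) < y.re ^ 2 + y.im ^ 2 := by
    have := nm_pos hy
    have h3 := nm_cast y
    have : (0 : ℤ) < ((nm y : ℕ) : ℤ) := by exact_mod_cast this
    rwa [h3] at this
  simp only [Zsqrtd.re_mul, Zsqrtd.im_mul] at h1 h2
  unfold par
  simp only [Zsqrtd.re_mul, Zsqrtd.im_mul, Zsqrtd.re_star, Zsqrtd.im_star]
  constructor
  · linear_combination h1
  · linarith [h2]

lemma eq_ct_mul {W m' : Gi} (hW : W ≠ 0) (hm : prim m') (h : par W m') :
    W = (ct W : Gi) * m' := by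
  obtain ⟨z0, hz0, hz1⟩ := ct_decomp hW
  have hp : (0 : ℤ) < ct W := by exact_mod_cast ct_pos hW
  have h1 : par z0 m' := by
    obtain ⟨h1, h2⟩ := h
    have hre : W.re = ct W * z0.re := by
      have := congrArg Zsqrtd.re hz1
      simpa using this
    have him : W.im = ct W * z0.im := by
      have := congrArg Zsqrtd.im hz1
      simpa using this
    rw [hre, him] at h1 h2
    constructor
    · have : (ct W : ℤ) * (z0.re * m'.im - z0.im * m'.re) = 0 := by linear_combination h1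
      rcases mul_eq_zero.1 this with h | h
      · omega
      · exact h
    · have : 0 < (ct W : ℤ) * (z0.re * m'.re + z0.im * m'.im) := by
        linarith [h2]
      exact (pos_iff_pos_of_mul_pos this).1 hp
  have h2 := eq_of_par_of_prim hz0 hm h1
  rw [← h2]
  exact hz1

lemma prod_sw (n : ℕ) : ∀ f : Fin n → Gi, ∏ i, sw (f i) = ⟨0, 1⟩ ^ n * star (∏ i, f i) := by
  induction n with
  | zero => intro f; simp
  | succ n ih =>
    intro f
    rw [Fin.prod_univ_succ, Fin.prod_univ_succ, ih, sw_eq, star_mul', pow_succ]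
    ring

lemma ct_I_mul (z : Gi) : ct (⟨0, 1⟩ * z) = ct z := by
  unfold ct
  simp
  rw [Int.gcd_comm]

lemma ct_I_pow (n : ℕ) (z : Gi) : ct (⟨0, 1⟩ ^ n * z) = ct z := by
  induction n with
  | zero => simp
  | succ n ih => rw [pow_succ', mul_assoc, ct_I_mul, ih]

lemma ct_prod_sw {n : ℕ} (f : Fin n → Gi) (z : Gi) :
    ct ((∏ i, sw (f i)) * z) = ct (star (∏ i, f i) * z) := by
  rw [prod_sw, mul_assoc, ct_I_pow]

/-- the product of a tuple and an element -/
def val {l : ℕ} (t : (Fin l → Gi) × Gi) : Gi := (∏ i, t.1 i) * t.2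

lemma prod_ne_zero' {Y Z : ℝ} {l : ℕ} {f : Fin l → Gi} (hf : ∀ i, f i ∈ GP Y Z) :
    ∏ i, f i ≠ 0 := prod_ne_zero_iff.2 (fun i _ => GP_ne_zero (hf i))

lemma nm_prod (n : ℕ) : ∀ f : Fin n → Gi, nm (∏ i, f i) = ∏ i, nm (f i) := by
  induction n with
  | zero => intro f; simp
  | succ n ih =>
    intro f
    rw [Fin.prod_univ_succ, Fin.prod_univ_succ, nm_mul, ih]

lemma le_nm_prod {Y Z : ℝ} (hY : 0 ≤ Y) {l : ℕ} {f : Fin l → Gi} (hf : ∀ i, f i ∈ GP Y Z) :
    Y ^ l ≤ nm (∏ i, f i) := by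
  rw [nm_prod]
  push_cast
  calc Y ^ l = ∏ _i : Fin l, Y := by simp
    _ ≤ _ := prod_le_prod (fun _ _ => hY) (fun i _ => (mem_GP.1 (hf i)).2.2.2.2.1.le)

lemma nm_prod_le {Y Z : ℝ} {l : ℕ} {f : Fin l → Gi} (hf : ∀ i, f i ∈ GP Y Z) :
    (nm (∏ i, f i) : ℝ) ≤ Z ^ l := by
  rw [nm_prod]
  push_cast
  calc _ ≤ ∏ _i : Fin l, Z :=
        prod_le_prod (fun _ _ => Nat.cast_nonneg _) (fun i _ => (mem_GP.1 (hf i)).2.2.2.2.2)
    _ = Z ^ l := by simp

/-- for a fixed tuple `(f, m)` and a fixed `f'` there is at most one `m'` -/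
lemma inner_count {Y Z : ℝ} (hY : 0 < Y) {l : ℕ} {S : Finset Gi} (hS : ∀ m ∈ S, prim m)
    {f f' : Fin l → Gi} (hf : ∀ i, f i ∈ GP Y Z) (hf' : ∀ i, f' i ∈ GP Y Z) {m : Gi}
    (hm : m ∈ S) :
    ∑ m' ∈ S, (if par (val (f, m)) (val (f', m')) ∧ nm m' ≤ nm m then (1 : ℝ) else 0) ≤
      ct ((∏ i, sw (f' i)) * val (f, m)) / Y ^ l := by
  have hY' : 0 < Y ^ l := pow_pos hY l
  rw [← sum_filter, sum_const, nsmul_eq_mul, mul_one]
  set R := S.filter (fun m' => par (val (f, m)) (val (f', m')) ∧ nm m' ≤ nm m) with hR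
  rcases R.eq_empty_or_nonempty with h | ⟨m', hm'⟩
  · rw [h]
    simp only [card_empty, Nat.cast_zero]
    positivity
  have hF := prod_ne_zero' hf
  have hF' := prod_ne_zero' hf'
  have hm0 : m ≠ 0 := prim_ne_zero (hS m hm)
  set W : Gi := star (∏ i, f' i) * val (f, m) with hW
  have hW0 : W ≠ 0 := by
    rw [hW]
    refine mul_ne_zero ?_ (mul_ne_zero hF hm0)
    rwa [Ne, star_eq_zero]
  have key : ∀ x ∈ R, W = (ct W : Gi) * x := by
    intro x hx
    rw [hR, mem_filter] at hx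
    exact eq_ct_mul hW0 (hS x hx.1) (par_star hF' hx.2.1)
  have hc0 : (ct W : Gi) ≠ 0 := by
    have := ct_pos hW0
    exact_mod_cast this.ne'
  have hcard : R.card ≤ 1 := by
    rw [card_le_one]
    intro x hx y hy
    have h1 := key x hx
    have h2 := key y hy
    exact mul_left_cancel₀ hc0 (h1.symm.trans h2)
  have h1 : ((R.card : ℕ) : ℝ) ≤ 1 := by exact_mod_cast hcard
  refine h1.trans ?_
  rw [ct_prod_sw, ← hW, le_div_iff₀ hY', one_mul]
  have h2 : nm W = ct W ^ 2 * nm m' := by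
    conv_lhs => rw [key m' hm']
    rw [nm_mul, nm_natCast]
  have h3 : nm W = nm (∏ i, f' i) * (nm (∏ i, f i) * nm m) := by
    rw [hW, nm_mul, nm_star, val, nm_mul]
  have h4 := le_nm_prod hY.le hf
  have h5 := le_nm_prod hY.le hf'
  rw [hR, mem_filter] at hm'
  have h6 : (nm m' : ℝ) ≤ nm m := by exact_mod_cast hm'.2.2
  have h7 : (0 : ℝ) < nm m' := nm_posR (prim_ne_zero (hS m' hm'.1))
  have h8 : (Y ^ l * Y ^ l) * (nm m' : ℝ) ≤ (ct W : ℝ) ^ 2 * nm m' := by
    have h9 : ((nm W : ℕ) : ℝ) = (ct W : ℝ) ^ 2 * nm m' := by exact_mod_cast h2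
    have h10 : ((nm W : ℕ) : ℝ) = nm (∏ i, f' i) * (nm (∏ i, f i) * nm m) := by
      exact_mod_cast h3
    rw [← h9, h10, mul_assoc]
    apply mul_le_mul h5 _ (by positivity) (by positivity)
    exact mul_le_mul h4 h6 (by positivity) (by positivity)
  have h9 := le_of_mul_le_mul_right h8 h7
  rw [← sq] at h9
  exact (pow_le_pow_iff_left₀ hY'.le (Nat.cast_nonneg _) (by norm_num)).1 h9

lemma sum_sw {l : ℕ} {E : Finset Gi} (φ : (Fin l → Gi) → ℝ) (hφ : ∀ f, 0 ≤ φ f) :
    ∑ f ∈ Fintype.piFinset (fun _ : Fin l => E), φ (fun i => sw (f i)) ≤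
      ∑ f ∈ Fintype.piFinset (fun _ : Fin l => E.image sw), φ f := by
  classical
  have hinj : Function.Injective (fun (f : Fin l → Gi) (i : Fin l) => sw (f i)) := by
    intro f g h
    ext1 i
    exact sw_inj (congrFun h i)
  rw [← sum_image (f := φ) (g := fun (f : Fin l → Gi) (i : Fin l) => sw (f i)) hinj.injOn]
  apply sum_le_sum_of_subset_of_nonneg
  · intro g hg
    rw [mem_image] at hg
    obtain ⟨f, hf, rfl⟩ := hg
    rw [Fintype.mem_piFinset] at hf ⊢
    exact fun i => mem_image_of_mem _ (hf i)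
  · intro f _ _
    exact hφ f

lemma pair_count {Y Z N : ℝ} (hY : 1 ≤ Y) (hYZ' : Y ≤ Z) (hYZ : Z ≤ Real.exp 2 * Y)
    (hN : 0 ≤ N) (l : ℕ) (E S : Finset Gi) (hE : E ⊆ GP Y Z)
    (hS : ∀ m ∈ S, prim m ∧ Z ^ l * nm m ≤ N) :
    ∑ t ∈ Fintype.piFinset (fun _ : Fin l => E) ×ˢ S,
      ∑ t' ∈ Fintype.piFinset (fun _ : Fin l => E) ×ˢ S,
        (if par (val t) (val t') then (1 : ℝ) else 0) ≤
      18 * Real.exp (9 + 18 * Real.exp 2) * (4 * Real.exp 4) ^ l * (l.factorial : ℝ) ^ 2 * N := by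
  classical
  have hY0 : 0 < Y := by linarith
  have hZ0 : 0 < Z := by linarith
  set T := Fintype.piFinset (fun _ : Fin l => E) ×ˢ S with hT
  -- symmetric reduction
  have hA : ∑ t ∈ T, ∑ t' ∈ T, (if par (val t) (val t') then (1 : ℝ) else 0) ≤
      2 * ∑ t ∈ T, ∑ t' ∈ T,
        (if par (val t) (val t') ∧ nm t'.2 ≤ nm t.2 then (1 : ℝ) else 0) := by
    have h1 : ∑ t ∈ T, ∑ t' ∈ T,
        (if par (val t) (val t') ∧ nm t.2 ≤ nm t'.2 then (1 : ℝ) else 0) =
        ∑ t ∈ T, ∑ t' ∈ T,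
        (if par (val t) (val t') ∧ nm t'.2 ≤ nm t.2 then (1 : ℝ) else 0) := by
      rw [sum_comm]
      apply sum_congr rfl
      intro t _
      apply sum_congr rfl
      intro t' _
      have : (par (val t') (val t) ∧ nm t'.2 ≤ nm t.2) ↔
          (par (val t) (val t') ∧ nm t'.2 ≤ nm t.2) :=
        ⟨fun h => ⟨par_symm h.1, h.2⟩, fun h => ⟨par_symm h.1, h.2⟩⟩
      simp only [this]
    rw [two_mul]
    nth_rewrite 1 [← h1]
    rw [← sum_add_distrib]
    apply sum_le_sum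
    intro t _
    rw [← sum_add_distrib]
    apply sum_le_sum
    intro t' _
    rcases le_total (nm t.2) (nm t'.2) with h | h
    · by_cases hp : par (val t) (val t')
      · simp only [hp, h, and_self, if_true, true_and]
        split_ifs <;> norm_num
      · simp [hp]
    · by_cases hp : par (val t) (val t')
      · simp only [hp, h, and_self, if_true, true_and]
        split_ifs <;> norm_num
      · simp [hp]
  refine hA.trans ?_
  -- the inner sum
  have hB : ∀ t ∈ T, ∑ t' ∈ T,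
      (if par (val t) (val t') ∧ nm t'.2 ≤ nm t.2 then (1 : ℝ) else 0) ≤
      ct (val t) * (Z * (9 + 2 * l + om Y Z t.2)) ^ l / Y ^ l := by
    rintro ⟨f, m⟩ ht
    rw [hT, mem_product, Fintype.mem_piFinset] at ht
    obtain ⟨hf, hm⟩ := ht
    simp only at hf hm
    have hf1 : ∀ i, f i ∈ GP Y Z := fun i => hE (hf i)
    rw [hT, sum_product]
    have h1 : ∀ f' ∈ Fintype.piFinset (fun _ : Fin l => E),
        ∑ m' ∈ S, (if par (val (f, m)) (val (f', m')) ∧ nm m' ≤ nm m then (1 : ℝ) else 0) ≤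
        ct ((∏ i, sw (f' i)) * val (f, m)) / Y ^ l := by
      intro f' hf'
      rw [Fintype.mem_piFinset] at hf'
      exact inner_count hY0 (fun m hm => (hS m hm).1) hf1 (fun i => hE (hf' i)) hm
    refine (sum_le_sum h1).trans ?_
    rw [← sum_div]
    apply div_le_div_of_nonneg_right _ (by positivity)
    have h2 := sum_sw (l := l) (E := E) (fun g => (ct ((∏ i, g i) * val (f, m)) : ℝ))
      (fun _ => Nat.cast_nonneg _)
    refine h2.trans ?_
    have hE' : E.image sw ⊆ GP Y Z := by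
      intro x hx
      rw [mem_image] at hx
      obtain ⟨y, hy, rfl⟩ := hx
      exact sw_mem (hE hy)
    refine (sum_ct_pow hZ0.le hE' l (val (f, m))).trans ?_
    apply mul_le_mul_of_nonneg_left _ (Nat.cast_nonneg _)
    have h3 : ((om Y Z (val (f, m)) : ℕ) : ℝ) ≤ l + om Y Z m := by
      exact_mod_cast om_prod_le l f hf1 m
    gcongr ?_ ^ l
    apply mul_le_mul_of_nonneg_left _ hZ0.le
    linarith
  have hC : ∑ t ∈ T, ∑ t' ∈ T,
      (if par (val t) (val t') ∧ nm t'.2 ≤ nm t.2 then (1 : ℝ) else 0) ≤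
      ∑ m ∈ S, ((Z * (9 + 2 * l + om Y Z m)) ^ l * (Z * (9 + 2 * l + om Y Z m)) ^ l) / Y ^ l := by
    refine (sum_le_sum hB).trans ?_
    rw [hT, sum_product_right]
    apply sum_le_sum
    intro m hm
    simp only
    rw [← sum_div]
    apply div_le_div_of_nonneg_right _ (by positivity)
    rw [← sum_mul]
    apply mul_le_mul_of_nonneg_right _ (by positivity)
    have h1 := sum_ct_pow hZ0.le hE l m
    rw [ct_prim (hS m hm).1] at h1
    refine h1.trans ?_
    rw [Nat.cast_one, one_mul]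
    gcongr ?_ ^ l
    apply mul_le_mul_of_nonneg_left _ hZ0.le
    have : (0 : ℝ) ≤ l := Nat.cast_nonneg l
    linarith
  -- exponential bound
  have hD : ∀ m : Gi, ((Z * (9 + 2 * l + om Y Z m)) ^ l * (Z * (9 + 2 * l + om Y Z m)) ^ l) / Y ^ l ≤
      (Z ^ l * Real.exp (9 + 2 * l) * (Real.exp 2) ^ l * (2 * l).factorial) *
        Real.exp (om Y Z m) := by
    intro m
    have h1 : (9 + 2 * (l : ℝ) + om Y Z m) ^ (2 * l) / (2 * l).factorial ≤
        Real.exp (9 + 2 * l + om Y Z m) := by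
      apply Real.pow_div_factorial_le_exp
      positivity
    have h2 : (0 : ℝ) < (2 * l).factorial := by exact_mod_cast Nat.factorial_pos _
    rw [div_le_iff₀ h2] at h1
    have h3 : Z ^ l ≤ (Real.exp 2) ^ l * Y ^ l := by
      rw [← mul_pow]
      exact pow_le_pow_left₀ hZ0.le hYZ l
    rw [div_le_iff₀ (by positivity)]
    calc (Z * (9 + 2 * l + om Y Z m)) ^ l * (Z * (9 + 2 * l + om Y Z m)) ^ l
        = (Z ^ l * Z ^ l) * (9 + 2 * (l : ℝ) + om Y Z m) ^ (2 * l) := by
          rw [mul_pow, two_mul l, pow_add]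
          ring
      _ ≤ (Z ^ l * ((Real.exp 2) ^ l * Y ^ l)) *
          (Real.exp (9 + 2 * l + om Y Z m) * (2 * l).factorial) := by
          apply mul_le_mul _ h1 (by positivity) (by positivity)
          exact mul_le_mul_of_nonneg_left h3 (by positivity)
      _ = _ := by
          rw [Real.exp_add (9 + 2 * (l : ℝ)) (om Y Z m)]
          ring
  have hE1 : ∑ m ∈ S, Real.exp (om Y Z m) ≤ 9 * (N / Z ^ l) * Real.exp (18 * Real.exp 2) := by
    refine le_trans ?_ (sum_exp_om_le hY0 hYZ hZ0.le (x := N / Z ^ l) (by positivity))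
    apply sum_le_sum_of_subset_of_nonneg
    · intro m hm
      rw [mem_disc]
      refine ⟨prim_ne_zero (hS m hm).1, ?_⟩
      rw [le_div_iff₀ (by positivity), mul_comm]
      exact (hS m hm).2
    · intro _ _ _
      exact (Real.exp_pos _).le
  have hF : ((2 * l).factorial : ℝ) ≤ 4 ^ l * (l.factorial : ℝ) ^ 2 := by
    have h1 := Nat.choose_mul_factorial_mul_factorial (show l ≤ 2 * l by omega)
    have h2 : (2 * l).choose l ≤ 2 ^ (2 * l) := Nat.choose_le_two_pow _ _
    have h3 : 2 * l - l = l := by omega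
    rw [h3] at h1
    have h4 : (2 * l).factorial ≤ 4 ^ l * l.factorial ^ 2 := by
      rw [← h1, mul_assoc, ← sq]
      apply Nat.mul_le_mul_right
      calc _ ≤ 2 ^ (2 * l) := h2
        _ = 4 ^ l := by rw [pow_mul]; norm_num
    exact_mod_cast h4
  calc 2 * ∑ t ∈ T, ∑ t' ∈ T,
      (if par (val t) (val t') ∧ nm t'.2 ≤ nm t.2 then (1 : ℝ) else 0)
      ≤ 2 * ∑ m ∈ S, (Z ^ l * Real.exp (9 + 2 * l) * (Real.exp 2) ^ l * (2 * l).factorial) *
        Real.exp (om Y Z m) := by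
        apply mul_le_mul_of_nonneg_left _ (by norm_num)
        exact hC.trans (sum_le_sum (fun m _ => hD m))
    _ = 2 * ((Z ^ l * Real.exp (9 + 2 * l) * (Real.exp 2) ^ l * (2 * l).factorial) *
        ∑ m ∈ S, Real.exp (om Y Z m)) := by rw [← mul_sum]
    _ ≤ 2 * ((Z ^ l * Real.exp (9 + 2 * l) * (Real.exp 2) ^ l * (4 ^ l * (l.factorial : ℝ) ^ 2)) *
        (9 * (N / Z ^ l) * Real.exp (18 * Real.exp 2))) := by
        apply mul_le_mul_of_nonneg_left _ (by norm_num)
        apply mul_le_mul _ hE1 (sum_nonneg (fun _ _ => (Real.exp_pos _).le)) (by positivity)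
        exact mul_le_mul_of_nonneg_left hF (by positivity)
    _ = _ := by
        have h1 : Real.exp (9 + 2 * (l : ℝ)) = Real.exp 9 * (Real.exp 2) ^ l := by
          rw [Real.exp_add, ← Real.exp_nat_mul, mul_comm (2 : ℝ)]
        have h2 : Real.exp 4 = Real.exp 2 * Real.exp 2 := by
          rw [← Real.exp_add]; norm_num
        have h3 : Real.exp (9 + 18 * Real.exp 2) = Real.exp 9 * Real.exp (18 * Real.exp 2) :=
          Real.exp_add _ _
        rw [h1, h3, h2, mul_pow, mul_pow]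
        have h4 : Z ^ l * (N / Z ^ l) = N := by
          rw [mul_div_cancel₀]
          positivity
        calc _ = 18 * (Real.exp 9 * Real.exp (18 * Real.exp 2)) *
              (4 ^ l * (Real.exp 2 ^ l * Real.exp 2 ^ l)) * (l.factorial : ℝ) ^ 2 *
              (Z ^ l * (N / Z ^ l)) := by ring
          _ = _ := by rw [h4]

/-! ## expansion of the power and grouping by value -/

lemma expand {l : ℕ} (E S : Finset Gi) (b a : Gi → ℂ) (k : ℤ) :
    (∑ π ∈ E, b π * xi k π) ^ l * ∑ m ∈ S, a m * xi k m =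
      ∑ t ∈ Fintype.piFinset (fun _ : Fin l => E) ×ˢ S,
        ((∏ i, b (t.1 i)) * a t.2) * xi k (val t) := by
  have h1 : (∑ π ∈ E, b π * xi k π) ^ l =
      ∑ f ∈ Fintype.piFinset (fun _ : Fin l => E), ∏ i, (b (f i) * xi k (f i)) := by
    have h := Finset.prod_univ_sum (fun _ : Fin l => E) (fun _ π => b π * xi k π)
    rw [← h]
    simp
  have h2 : ∀ f : Fin l → Gi, xi k (∏ i, f i) = ∏ i, xi k (f i) := by
    clear h1
    induction l with
    | zero => intro f; simp [xi_one]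
    | succ n ih =>
      intro f
      rw [Fin.prod_univ_succ, Fin.prod_univ_succ, xi_mul, ih]
  rw [h1, sum_product, sum_mul]
  apply sum_congr rfl
  intro f _
  rw [mul_sum]
  apply sum_congr rfl
  intro m _
  simp only [val]
  rw [xi_mul, h2, prod_mul_distrib]
  ring

lemma group {l : ℕ} (T : Finset ((Fin l → Gi) × Gi)) (c : (Fin l → Gi) × Gi → ℂ) (k : ℤ) :
    ∑ t ∈ T, c t * xi k (val t) =
      ∑ z ∈ T.image val, (∑ t ∈ T.filter (fun t => val t = z), c t) * xi k z := by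
  rw [← sum_fiberwise_of_maps_to (fun t ht => mem_image_of_mem val ht)]
  apply sum_congr rfl
  intro z _
  rw [sum_mul]
  apply sum_congr rfl
  intro t ht
  rw [mem_filter] at ht
  rw [ht.2]

lemma group_pairs {l : ℕ} (T : Finset ((Fin l → Gi) × Gi)) (c : (Fin l → Gi) × Gi → ℂ)
    (hc : ∀ t ∈ T, ‖c t‖ ≤ 1) :
    ∑ z ∈ T.image val, ∑ z' ∈ (T.image val).filter (fun z' => par z z'),
      ‖∑ t ∈ T.filter (fun t => val t = z), c t‖ * ‖∑ t ∈ T.filter (fun t => val t = z'), c t‖ ≤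
    ∑ t ∈ T, ∑ t' ∈ T, (if par (val t) (val t') then (1 : ℝ) else 0) := by
  have h1 : ∀ z, ‖∑ t ∈ T.filter (fun t => val t = z), c t‖ ≤
      ∑ t ∈ T.filter (fun t => val t = z), (1 : ℝ) := by
    intro z
    refine (norm_sum_le _ _).trans (sum_le_sum ?_)
    intro t ht
    exact hc t (mem_filter.1 ht).1
  calc _ ≤ ∑ z ∈ T.image val, ∑ z' ∈ (T.image val).filter (fun z' => par z z'),
        (∑ t ∈ T.filter (fun t => val t = z), (1 : ℝ)) *
          (∑ t' ∈ T.filter (fun t => val t = z'), (1 : ℝ)) := by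
        apply sum_le_sum
        intro z _
        apply sum_le_sum
        intro z' _
        exact mul_le_mul (h1 z) (h1 z') (norm_nonneg _) (sum_nonneg (fun _ _ => zero_le_one))
    _ = ∑ z ∈ T.image val, ∑ t ∈ T.filter (fun t => val t = z), ∑ z' ∈ T.image val,
        ∑ t' ∈ T.filter (fun t => val t = z'), (if par (val t) (val t') then (1 : ℝ) else 0) := by
        apply sum_congr rfl
        intro z _
        rw [sum_filter]
        have h2 : ∀ z' ∈ T.image val, (if par z z' then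
            (∑ t ∈ T.filter (fun t => val t = z), (1 : ℝ)) *
              (∑ t' ∈ T.filter (fun t => val t = z'), (1 : ℝ)) else 0) =
            ∑ t ∈ T.filter (fun t => val t = z), ∑ t' ∈ T.filter (fun t => val t = z'),
              (if par (val t) (val t') then (1 : ℝ) else 0) := by
          intro z' _
          have h3 : ∀ t ∈ T.filter (fun t => val t = z), ∑ t' ∈ T.filter (fun t => val t = z'),
              (if par (val t) (val t') then (1 : ℝ) else 0) =
              ∑ t' ∈ T.filter (fun t => val t = z'), (if par z z' then (1 : ℝ) else 0) := by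
            intro t ht
            apply sum_congr rfl
            intro t' ht'
            rw [(mem_filter.1 ht).2, (mem_filter.1 ht').2]
          rw [sum_congr rfl h3]
          split_ifs with hp
          · rw [sum_mul_sum]
            simp
          · simp
        rw [sum_congr rfl h2, sum_comm]
    _ = _ := by
        rw [sum_fiberwise_of_maps_to (fun t ht => mem_image_of_mem val ht)
          (f := fun t => ∑ z' ∈ T.image val,
            ∑ t' ∈ T.filter (fun t => val t = z'), (if par (val t) (val t') then (1 : ℝ) else 0))]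
        apply sum_congr rfl
        intro t _
        rw [sum_fiberwise_of_maps_to (fun t ht => mem_image_of_mem val ht)
          (f := fun t' => (if par (val t) (val t') then (1 : ℝ) else 0))]

end Mom

open Finset in
/-- MOM -/
theorem specMom (hLSG : SpecLSG) : SpecMom := by
  obtain ⟨C0, hC0, hL⟩ := hLSG
  set C1 : ℝ := 18 * Real.exp (9 + 18 * Real.exp 2) with hC1
  set C : ℝ := 1 + C0 * C1 + 4 * Real.exp 4 with hC
  have hC1p : 0 < C1 := by positivity
  have hCge : 1 ≤ C := by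
    have : 0 < C0 * C1 := mul_pos hC0 hC1p
    have h2 := Real.exp_pos 4
    rw [hC]; linarith
  refine ⟨C, hCge, ?_⟩
  intro Y Z N l K E S b a hCY hYZ' hYZ hN hE hb ha hS
  classical
  have hY : 1 ≤ Y := hCge.trans hCY
  set T := Fintype.piFinset (fun _ : Fin l => E) ×ˢ S with hT
  have hZ0 : 0 < Z := by linarith
  -- the values
  have hval : ∀ z ∈ T.image Mom.val, z ≠ 0 ∧ (nm z : ℝ) ≤ N := by
    intro z hz
    rw [mem_image] at hz
    obtain ⟨⟨f, m⟩, ht, rfl⟩ := hz
    rw [hT, mem_product, Fintype.mem_piFinset] at ht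
    obtain ⟨hf, hm⟩ := ht
    simp only at hf hm
    have hf1 : ∀ i, f i ∈ GP Y Z := fun i => hE (hf i)
    refine ⟨mul_ne_zero (Mom.prod_ne_zero' hf1) (prim_ne_zero (hS m hm).1), ?_⟩
    simp only [Mom.val]
    rw [nm_mul]
    push_cast
    refine le_trans ?_ (hS m hm).2
    exact mul_le_mul_of_nonneg_right (Mom.nm_prod_le hf1) (Nat.cast_nonneg _)
  have hcoef : ∀ t ∈ T, ‖(∏ i, b (t.1 i)) * a t.2‖ ≤ 1 := by
    intro t _
    rw [norm_mul, norm_prod]
    calc _ ≤ (∏ _i : Fin l, (1 : ℝ)) * 1 := by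
          apply mul_le_mul _ (ha _) (norm_nonneg _) (prod_nonneg (fun _ _ => zero_le_one))
          exact prod_le_prod (fun _ _ => norm_nonneg _) (fun i _ => hb _)
      _ = 1 := by simp
  have h1 : ∀ k ∈ IK K, ‖(∑ π ∈ E, b π * xi k π) ^ l * ∑ m ∈ S, a m * xi k m‖ ^ 2 =
      ‖∑ z ∈ T.image Mom.val,
        (∑ t ∈ T.filter (fun t => Mom.val t = z), (∏ i, b (t.1 i)) * a t.2) * xi k z‖ ^ 2 := by
    intro k _
    rw [Mom.expand, ← hT, Mom.group T (fun t => (∏ i, b (t.1 i)) * a t.2) k]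
  rw [sum_congr rfl h1]
  refine (hL (T.image Mom.val)
    (fun z => ∑ t ∈ T.filter (fun t => Mom.val t = z), (∏ i, b (t.1 i)) * a t.2) N K hN hval).trans ?_
  have h2 := Mom.group_pairs T (fun t => (∏ i, b (t.1 i)) * a t.2) hcoef
  have h3 := Mom.pair_count hY hYZ' hYZ (by linarith) l E S hE hS
  have hKN : 0 ≤ C0 * (K + N) := by positivity
  calc _ ≤ C0 * (K + N) * (C1 * (4 * Real.exp 4) ^ l * (l.factorial : ℝ) ^ 2 * N) :=
        mul_le_mul_of_nonneg_left (h2.trans h3) hKN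
    _ = (C0 * C1) * (4 * Real.exp 4) ^ l * ((l.factorial : ℝ) ^ 2 * (K + N) * N) := by ring
    _ ≤ C * C ^ l * ((l.factorial : ℝ) ^ 2 * (K + N) * N) := by
        apply mul_le_mul_of_nonneg_right _ (by positivity)
        have h5 : C0 * C1 ≤ C := by
          have h2 := Real.exp_pos 4
          rw [hC]; linarith
        have h6 : 4 * Real.exp 4 ≤ C := by
          have : 0 < C0 * C1 := mul_pos hC0 hC1p
          rw [hC]; linarith
        exact mul_le_mul h5 (pow_le_pow_left₀ (by positivity) h6 l) (by positivity) (by linarith)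
    _ = _ := by ring

end Pool.Agent.Lib.MP391708.MR
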