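import Pool.Agent.Lib.MP_391708_nt.MR.Basic

/-!
# Module OS, part 1: the logarithm of the norm as a sum over prime powers
-/

set_option autoImplicit false

namespace Pool.Agent.Lib.MP391708.MR

open Finset Filter Topology
open scoped ComplexConjugate

namespace OS

/-- representatives modulo units -/
def Rep (z : Gi) : Prop := 0 < z.re ∧ 0 ≤ z.im

lemma nm_unit_eq {u : Gi} (h : u = 1 ∨ u = -1 ∨ u = ⟨0, 1⟩ ∨ u = ⟨0, -1⟩) : nm u = 1 := by
  rcases h with rfl | rfl | rfl | rfl <;> simp [nm]

lemma exists_rep {z : Gi} (hz : z ≠ 0) : ∃ u : Gi, nm u = 1 ∧ Rep (z * u) := by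
  obtain ⟨a, b⟩ := z
  have hab : a ≠ 0 ∨ b ≠ 0 := by
    by_contra h
    push Not at h
    exact hz (Zsqrtd.ext h.1 h.2)
  by_cases h1 : 0 < a ∧ 0 ≤ b
  · exact ⟨1, nm_unit_eq (by tauto), by simpa [Rep] using h1⟩
  by_cases h2 : a < 0 ∧ b ≤ 0
  · exact ⟨-1, nm_unit_eq (by tauto), by simpa [Rep] using h2⟩
  by_cases h3 : b < 0 ∧ 0 ≤ a
  · exact ⟨⟨0, 1⟩, nm_unit_eq (by tauto), by simpa [Rep] using h3⟩
  · refine ⟨⟨0, -1⟩, nm_unit_eq (by tauto), ?_⟩
    simp [Rep]
    omega

lemma rep_unique {z z' u : Gi} (h : Rep z) (h' : Rep z') (hu : nm u = 1) (e : z' = z * u) :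
    z' = z := by
  obtain ⟨h1, h2⟩ := h
  obtain ⟨h3, h4⟩ := h'
  rcases unit_cases hu with rfl | rfl | rfl | rfl
  · simpa using e
  · rw [e] at h3; simp at h3; omega
  · rw [e] at h3; simp at h3; omega
  · rw [e] at h4; simp at h4; omega

/-- representatives of the primes -/
abbrev RP : Type := {π : Gi // Prime π ∧ Rep π}

/-- the prime powers -/
def pw (x : RP × ℕ) : Gi := (x.1 : Gi) ^ (x.2 + 1)

lemma pw_ne_zero (x : RP × ℕ) : pw x ≠ 0 := pow_ne_zero _ x.1.2.1.ne_zero

lemma nm_pow (z : Gi) (n : ℕ) : nm (z ^ n) = nm z ^ n := by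
  induction n with
  | zero => simp
  | succ n ih => rw [pow_succ, nm_mul, ih, pow_succ]

lemma two_le_nm (x : RP) : 2 ≤ nm (x : Gi) := by
  have h1 := nm_pos x.2.1.ne_zero
  have h2 : nm (x : Gi) ≠ 1 := fun h => x.2.1.not_isUnit (isUnit_iff_nm.2 h)
  omega

lemma hasSum_log {z : Gi} (hz : z ≠ 0) :
    HasSum (fun x : RP × ℕ => by classical exact if pw x ∣ z then Real.log (nm (x.1 : Gi)) else 0)
      (Real.log (nm z)) := by
  classical
  induction z using UniqueFactorizationMonoid.induction_on_prime with
  | h₁ => exact absurd rfl hz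
  | h₂ z hu =>
    have h1 : nm z = 1 := isUnit_iff_nm.1 hu
    have h2 : (fun x : RP × ℕ => if pw x ∣ z then Real.log (nm (x.1 : Gi)) else 0) =
        fun _ => 0 := by
      funext x
      rw [if_neg]
      intro hd
      have h3 : (x.1 : Gi) ∣ z := (dvd_pow_self _ (Nat.succ_ne_zero _)).trans hd
      exact x.1.2.1.not_isUnit (isUnit_of_dvd_unit h3 hu)
    simp only [h2, h1, Nat.cast_one, Real.log_one]
    exact hasSum_zero
  | h₃ w p hw hp ih =>
    obtain ⟨u, hu1, hu2⟩ := exists_rep hp.ne_zero
    have huu : IsUnit u := isUnit_iff_nm.2 hu1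
    have hpp : Prime (p * u) := (Associated.prime_iff (associated_mul_unit_right p u huu)).1 hp
    set p' : RP := ⟨p * u, hpp, hu2⟩ with hp'
    have hnp : nm (p' : Gi) = nm p := by
      show nm (p * u) = nm p
      rw [nm_mul, hu1, mul_one]
    -- the shift
    let ι : RP × ℕ → RP × ℕ := fun x => if x.1 = p' then (x.1, x.2 + 1) else x
    have hι : Function.Injective ι := by
      rintro ⟨a, i⟩ ⟨b, j⟩ h
      simp only [ι] at h
      split_ifs at h with h1 h2 h2
      · simp only [Prod.mk.injEq] at h
        rw [Prod.mk.injEq]; exact ⟨h.1, by omega⟩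
      · simp only [Prod.mk.injEq] at h
        exact absurd (h.1 ▸ h1) h2
      · simp only [Prod.mk.injEq] at h
        exact absurd (h.1 ▸ h2) h1
      · exact h
    have hdiv : ∀ x : RP × ℕ, (pw (ι x) ∣ p * w ↔ pw x ∣ w) := by
      rintro ⟨a, i⟩
      simp only [ι]
      split_ifs with h1
      · have e1 : pw (a, i + 1) = pw (a, i) * (p * u) := by
          unfold pw
          have : (a : Gi) = p * u := by
            rw [show a = p' from h1]
          simp only
          rw [pow_succ (a : Gi) (i + 1)]
          rw [← this]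
        show pw (a, i + 1) ∣ p * w ↔ pw (a, i) ∣ w
        rw [e1]
        have e2 : pw (a, i) * (p * u) = p * (pw (a, i) * u) := by ring
        rw [e2, mul_dvd_mul_iff_left hp.ne_zero]
        exact huu.mul_right_dvd
      · have hcop : IsCoprime (pw (a, i)) p := by
          unfold pw
          apply IsCoprime.pow_left
          rw [Prime.coprime_iff_not_dvd a.2.1]
          intro hd
          obtain ⟨v, hv⟩ := hd
          have hvu : IsUnit v := (hp.irreducible.isUnit_or_isUnit hv).resolve_left
            (fun h => a.2.1.not_isUnit h)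
          apply h1
          apply Subtype.ext
          have e3 : (p' : Gi) = (a : Gi) * (v * u) := by
            show p * u = _
            rw [hv]; ring
          have e4 : nm (v * u) = 1 := isUnit_iff_nm.1 (hvu.mul huu)
          exact (rep_unique a.2.2 p'.2.2 e4 e3).symm
        constructor
        · exact fun h => hcop.dvd_of_dvd_mul_left h
        · exact fun h => h.mul_left p
    have hpd : pw (p', 0) ∣ p * w := by
      show (p' : Gi) ^ (0 + 1) ∣ p * w
      rw [zero_add, pow_one]
      show p * u ∣ p * w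
      exact mul_dvd_mul_left p huu.dvd
    have hne : ∀ x, ι x ≠ (p', 0) := by
      rintro ⟨a, i⟩ h
      simp only [ι] at h
      split_ifs at h with h1
      · simp only [Prod.mk.injEq] at h
        omega
      · rw [Prod.mk.injEq] at h
        exact h1 h.1
    have hrange : ∀ x, x ∉ Set.range ι → x = (p', 0) := by
      rintro ⟨a, i⟩ h
      by_cases h1 : a = p'
      · rcases i with _ | i
        · rw [h1]
        · exact absurd ⟨(a, i), by simp [ι, h1]⟩ h
      · exact absurd ⟨(a, i), by simp [ι, h1]⟩ h
    set f : RP × ℕ → ℝ := fun x => if pw x ∣ p * w then Real.log (nm (x.1 : Gi)) else 0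
    set g : RP × ℕ → ℝ := fun x => if x = (p', 0) then 0 else f x
    have hg : HasSum g (Real.log (nm w)) := by
      rw [← hι.hasSum_iff]
      · have : g ∘ ι = fun x : RP × ℕ => if pw x ∣ w then Real.log (nm (x.1 : Gi)) else 0 := by
          funext x
          simp only [Function.comp, g, f]
          rw [if_neg (hne x)]
          have e5 : ((ι x).1 : Gi) = (x.1 : Gi) := by
            simp only [ι]; split_ifs <;> rfl
          rw [e5]
          by_cases h : pw x ∣ w
          · rw [if_pos h, if_pos ((hdiv x).2 h)]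
          · rw [if_neg h, if_neg (fun h' => h ((hdiv x).1 h'))]
        rw [this]
        exact ih hw
      · intro x hx
        simp only [g]
        rw [if_pos (hrange x hx)]
    have hs : HasSum (fun x : RP × ℕ => if x = (p', 0) then Real.log (nm p) else 0)
        (Real.log (nm p)) := by
      have := hasSum_ite_eq ((p', 0) : RP × ℕ) (Real.log (nm p))
      exact this
    have hfin := hg.add hs
    have e6 : (fun x : RP × ℕ => g x + if x = (p', 0) then Real.log (nm p) else 0) = f := by
      funext x
      simp only [g]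
      split_ifs with h
      · rw [zero_add, h]
        simp only [f]
        rw [if_pos hpd, hnp]
      · rw [add_zero]
    rw [e6] at hfin
    have e7 : Real.log (nm (p * w)) = Real.log (nm w) + Real.log (nm p) := by
      rw [nm_mul]
      push_cast
      rw [Real.log_mul (nm_posR hp.ne_zero).ne' (nm_posR hw).ne']
      ring
    rw [e7]
    exact hfin

end OS

end Pool.Agent.Lib.MP391708.MR
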