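import Pool.Agent.Lib.MP_391708_nt.MR.OSAlg

/-!
# Module OS, part 2: Dirichlet series over the Gaussian integers
-/

set_option autoImplicit false

namespace Pool.Agent.Lib.MP391708.MR

open Finset Filter Topology
open scoped ComplexConjugate

namespace OS

/-! ## summability -/

lemma sum_disc_le {σ : ℝ} (h : 1 < σ) (n : ℕ) :
    ∑ z ∈ disc (2 ^ n), (nm z : ℝ) ^ (-σ) ≤
      9 + ∑ j ∈ range n, 18 * ((2 : ℝ) ^ (1 - σ)) ^ j := by
  induction n with
  | zero =>
    simp only [pow_zero, range_zero, sum_empty, add_zero]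
    calc ∑ z ∈ disc 1, (nm z : ℝ) ^ (-σ) ≤ ∑ z ∈ disc 1, (1 : ℝ) := by
          apply sum_le_sum
          intro z hz
          exact Real.rpow_le_one_of_one_le_of_nonpos (one_le_nm (mem_disc.1 hz).1) (by linarith)
      _ = ((disc 1).card : ℝ) := by simp
      _ ≤ 9 * 1 := card_disc_le (by norm_num)
      _ = 9 := by norm_num
  | succ n ih =>
    have h2 : (2 : ℝ) ^ n ≤ 2 ^ (n + 1) := pow_le_pow_right₀ (by norm_num) (Nat.le_succ _)
    rw [disc_union h2, sum_union (disc_disjoint _ _), sum_range_succ]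
    have h3 : ∑ z ∈ ann (2 ^ n) (2 ^ (n + 1)), (nm z : ℝ) ^ (-σ) ≤
        18 * ((2 : ℝ) ^ (1 - σ)) ^ n := by
      have hpos : (0 : ℝ) < 2 ^ n := by positivity
      calc ∑ z ∈ ann (2 ^ n) (2 ^ (n + 1)), (nm z : ℝ) ^ (-σ)
          ≤ ∑ z ∈ ann (2 ^ n) (2 ^ (n + 1)), ((2 : ℝ) ^ n) ^ (-σ) := by
            apply sum_le_sum
            intro z hz
            rw [mem_ann] at hz
            exact Real.rpow_le_rpow_of_nonpos hpos hz.2.1.le (by linarith)
        _ = ((ann (2 ^ n) (2 ^ (n + 1))).card : ℝ) * ((2 : ℝ) ^ n) ^ (-σ) := by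
            rw [sum_const, nsmul_eq_mul]
        _ ≤ (9 * 2 ^ (n + 1)) * ((2 : ℝ) ^ n) ^ (-σ) := by
            apply mul_le_mul_of_nonneg_right _ (by positivity)
            refine le_trans ?_ (card_disc_le (x := 2 ^ (n + 1)) (by positivity))
            exact_mod_cast card_le_card (ann_subset_disc _ _)
        _ = 18 * ((2 : ℝ) ^ (1 - σ)) ^ n := by
            rw [← Real.rpow_natCast ((2 : ℝ) ^ (1 - σ)) n, ← Real.rpow_mul (by norm_num),
              ← Real.rpow_natCast 2 n, ← Real.rpow_mul (by norm_num), pow_succ,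
              ← Real.rpow_natCast 2 n]
            have : (2 : ℝ) ^ ((1 - σ) * n) = 2 ^ (n : ℝ) * 2 ^ ((n : ℝ) * -σ) := by
              rw [← Real.rpow_add (by norm_num)]
              ring_nf
            rw [this]; ring
    linarith

lemma two_rpow_lt {σ : ℝ} (h : 1 < σ) : (2 : ℝ) ^ (1 - σ) < 1 :=
  Real.rpow_lt_one_of_one_lt_of_neg (by norm_num) (by linarith)

lemma sum_nm_le {σ : ℝ} (h : 1 < σ) (F : Finset Gi) :
    ∑ z ∈ F, (nm z : ℝ) ^ (-σ) ≤ 9 + 18 / (1 - (2 : ℝ) ^ (1 - σ)) := by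
  classical
  set n := ∑ z ∈ F, nm z
  have hsub : F ⊆ insert 0 (disc (2 ^ n)) := by
    intro z hz
    rw [mem_insert]
    by_cases h0 : z = 0
    · left; exact h0
    · right
      rw [mem_disc]
      refine ⟨h0, ?_⟩
      have h1 : nm z ≤ n := single_le_sum (f := fun z => nm z) (fun _ _ => Nat.zero_le _) hz
      have h2 : n ≤ 2 ^ n := Nat.lt_two_pow_self.le
      exact_mod_cast h1.trans h2
  have h0 : (0 : Gi) ∉ disc (2 ^ n) := fun h => (mem_disc.1 h).1 rfl
  calc ∑ z ∈ F, (nm z : ℝ) ^ (-σ) ≤ ∑ z ∈ insert 0 (disc (2 ^ n)), (nm z : ℝ) ^ (-σ) :=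
        sum_le_sum_of_subset_of_nonneg hsub (fun _ _ _ => by positivity)
    _ = ∑ z ∈ disc (2 ^ n), (nm z : ℝ) ^ (-σ) := by
        rw [sum_insert h0, nm_zero, Nat.cast_zero, Real.zero_rpow (by linarith), zero_add]
    _ ≤ 9 + ∑ j ∈ range n, 18 * ((2 : ℝ) ^ (1 - σ)) ^ j := sum_disc_le h n
    _ ≤ 9 + 18 / (1 - (2 : ℝ) ^ (1 - σ)) := by
        rw [← mul_sum, div_eq_mul_inv]
        have := two_rpow_lt h
        have h3 : ∑ j ∈ range n, ((2 : ℝ) ^ (1 - σ)) ^ j ≤ (1 - (2 : ℝ) ^ (1 - σ))⁻¹ :=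
          sum_le_hasSum _ (fun _ _ => by positivity)
            (hasSum_geometric_of_lt_one (by positivity) this)
        linarith

lemma summable_nm {σ : ℝ} (h : 1 < σ) : Summable (fun z : Gi => (nm z : ℝ) ^ (-σ)) :=
  summable_of_sum_le (fun _ => by positivity) (sum_nm_le h)

/-- the Dedekind zeta function, times four -/
noncomputable def ZZ (σ : ℝ) : ℝ := ∑' z : Gi, (nm z : ℝ) ^ (-σ)

lemma ZZ_le {t : ℝ} (h : 0 < t) (h1 : t ≤ 1) : ZZ (1 + t) ≤ 63 / t := by
  have h2 : ZZ (1 + t) ≤ 9 + 18 / (1 - (2 : ℝ) ^ (1 - (1 + t))) :=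
    Real.tsum_le_of_sum_le (fun _ => by positivity) (sum_nm_le (by linarith))
  have e : (1 : ℝ) - (1 + t) = -t := by ring
  rw [e] at h2
  have h3 : (2 : ℝ) ^ (-t) ≤ 1 - t / 3 := by
    have h4 : (1 + t / 2) ≤ (2 : ℝ) ^ t := by
      have h5 := Real.add_one_le_exp (Real.log 2 * t)
      rw [← Real.rpow_def_of_pos (by norm_num)] at h5
      have h6 : (0.5 : ℝ) < Real.log 2 := by
        have := Real.log_two_gt_d9; linarith
      nlinarith
    rw [Real.rpow_neg (by norm_num)]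
    have h7 : (0 : ℝ) < 1 + t / 2 := by linarith
    calc ((2 : ℝ) ^ t)⁻¹ ≤ (1 + t / 2)⁻¹ := inv_anti₀ h7 h4
      _ ≤ 1 - t / 3 := by
        rw [inv_le_iff_one_le_mul₀ h7]
        nlinarith
  have h8 : (0 : ℝ) < t / 3 := by linarith
  have h9 : 18 / (1 - (2 : ℝ) ^ (-t)) ≤ 18 / (t / 3) :=
    div_le_div_of_nonneg_left (by norm_num) h8 (by linarith)
  have h10 : 18 / (t / 3) = 54 / t := by field_simp; norm_num
  have h11 : 9 ≤ 9 / t := by
    rw [le_div_iff₀ h]; linarith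
  calc ZZ (1 + t) ≤ 9 + 18 / (1 - (2 : ℝ) ^ (-t)) := h2
    _ ≤ 9 / t + 54 / t := by linarith
    _ = 63 / t := by ring

lemma ZZ_nonneg (σ : ℝ) : 0 ≤ ZZ σ := tsum_nonneg (fun _ => by positivity)

lemma log_nm_nonneg (z : Gi) : 0 ≤ Real.log (nm z) := by
  rcases Nat.eq_zero_or_pos (nm z) with h | h
  · rw [h]; simp
  · exact Real.log_nonneg (by exact_mod_cast h)

/-- the logarithm costs nothing -/
lemma log_mul_le {σ σ' : ℝ} (h : 1 < σ) (h' : σ < σ') (z : Gi) :
    Real.log (nm z) * (nm z : ℝ) ^ (-σ') ≤ 1 / (σ' - σ) * (nm z : ℝ) ^ (-σ) := by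
  rcases Nat.eq_zero_or_pos (nm z) with h0 | h0
  · rw [h0]
    simp only [Nat.cast_zero, Real.log_zero, zero_mul]
    rw [Real.zero_rpow (by linarith), mul_zero]
  · have hpos : (0 : ℝ) < nm z := by exact_mod_cast h0
    have h1 := Real.log_le_rpow_div hpos.le (sub_pos.2 h')
    calc Real.log (nm z) * (nm z : ℝ) ^ (-σ')
        ≤ (nm z : ℝ) ^ (σ' - σ) / (σ' - σ) * (nm z : ℝ) ^ (-σ') :=
          mul_le_mul_of_nonneg_right h1 (by positivity)
      _ = 1 / (σ' - σ) * ((nm z : ℝ) ^ (σ' - σ) * (nm z : ℝ) ^ (-σ')) := by ring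
      _ = 1 / (σ' - σ) * (nm z : ℝ) ^ (-σ) := by
          rw [← Real.rpow_add hpos]
          ring_nf

lemma summable_log_nm {σ : ℝ} (h : 1 < σ) :
    Summable (fun z : Gi => Real.log (nm z) * (nm z : ℝ) ^ (-σ)) := by
  have h1 : 1 < (1 + σ) / 2 := by linarith
  have h2 : (1 + σ) / 2 < σ := by linarith
  refine Summable.of_nonneg_of_le (fun z => mul_nonneg (log_nm_nonneg z) (by positivity))
    (fun z => log_mul_le h1 h2 z) ((summable_nm h1).mul_left _)

/-! ## completely multiplicative functions -/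

/-- the functions of the module -/
structure CM (G : Gi → ℂ) : Prop where
  one : G 1 = 1
  I : G ⟨0, 1⟩ = 1
  mul : ∀ x y, G (x * y) = G x * G y
  le : ∀ z, ‖G z‖ ≤ 1

lemma CM_one : CM (fun _ => 1) := ⟨rfl, rfl, fun _ _ => by simp, fun _ => by simp⟩

/-- the terms of the Dirichlet series -/
noncomputable def T (G : Gi → ℂ) (s : ℂ) (z : Gi) : ℂ := G z * ((nm z : ℕ) : ℂ) ^ (-s)

variable {G : Gi → ℂ} (hG : CM G)
include hG

lemma T_mul (s : ℂ) (x y : Gi) : T G s (x * y) = T G s x * T G s y := by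
  unfold T
  rw [hG.mul, nm_mul]
  push_cast
  rw [Complex.natCast_mul_natCast_cpow]
  ring

omit hG in
lemma T_zero {s : ℂ} (hs : s ≠ 0) : T G s 0 = 0 := by
  unfold T
  rw [nm_zero, Nat.cast_zero, Complex.zero_cpow (neg_ne_zero.2 hs), mul_zero]

omit hG in
lemma norm_nm_cpow {s : ℂ} (hs : 0 < s.re) (z : Gi) :
    ‖((nm z : ℕ) : ℂ) ^ (-s)‖ = (nm z : ℝ) ^ (-s.re) := by
  rw [Complex.norm_natCast_cpow_of_re_ne_zero _ (by rw [Complex.neg_re]; linarith),
    Complex.neg_re]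

lemma norm_T_le {s : ℂ} (hs : 0 < s.re) (z : Gi) : ‖T G s z‖ ≤ (nm z : ℝ) ^ (-s.re) := by
  unfold T
  rw [norm_mul, norm_nm_cpow hs]
  exact mul_le_of_le_one_left (by positivity) (hG.le z)

lemma summable_norm_T {s : ℂ} (hs : 1 < s.re) : Summable (fun z => ‖T G s z‖) :=
  Summable.of_nonneg_of_le (fun _ => norm_nonneg _) (norm_T_le hG (by linarith)) (summable_nm hs)

/-- the Dirichlet series -/
noncomputable def LL (G : Gi → ℂ) (s : ℂ) : ℂ := ∑' z, T G s z

/-- minus its logarithmic derivative -/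
noncomputable def La (G : Gi → ℂ) (s : ℂ) : ℂ :=
  ∑' x : RP × ℕ, (Real.log (nm (x.1 : Gi)) : ℂ) * T G s (pw x)

/-- the terms of `La` -/
lemma norm_La_term_le {s : ℂ} (hs : 1 < s.re) (x : RP × ℕ) :
    ‖(Real.log (nm (x.1 : Gi)) : ℂ) * T G s (pw x)‖ ≤
      Real.log (nm (x.1 : Gi)) * (nm (x.1 : Gi) : ℝ) ^ (-s.re) * (1 / 2) ^ x.2 := by
  have h1 : (0 : ℝ) < nm (x.1 : Gi) := nm_posR x.1.2.1.ne_zero
  have h2 : (2 : ℝ) ≤ nm (x.1 : Gi) := by exact_mod_cast two_le_nm x.1
  rw [norm_mul, Complex.norm_real, Real.norm_eq_abs, abs_of_nonneg (log_nm_nonneg _), mul_assoc]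
  apply mul_le_mul_of_nonneg_left _ (log_nm_nonneg _)
  refine (norm_T_le hG (by linarith) _).trans ?_
  unfold pw
  rw [nm_pow, pow_succ]
  push_cast
  rw [Real.mul_rpow (by positivity) (by positivity), mul_comm]
  apply mul_le_mul_of_nonneg_left _ (by positivity)
  rw [← Real.rpow_natCast, ← Real.rpow_mul h1.le, mul_comm, Real.rpow_mul h1.le,
    Real.rpow_natCast]
  apply pow_le_pow_left₀ (by positivity)
  calc (nm (x.1 : Gi) : ℝ) ^ (-s.re) ≤ (nm (x.1 : Gi) : ℝ) ^ (-1 : ℝ) :=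
        Real.rpow_le_rpow_of_exponent_le (by linarith) (by linarith)
    _ = (nm (x.1 : Gi) : ℝ)⁻¹ := Real.rpow_neg_one _
    _ ≤ 1 / 2 := by
        rw [one_div]
        exact inv_anti₀ (by norm_num) h2

omit hG in
lemma summable_La_bound {σ : ℝ} (hs : 1 < σ) : Summable (fun x : RP × ℕ =>
      Real.log (nm (x.1 : Gi)) * (nm (x.1 : Gi) : ℝ) ^ (-σ) * (1 / 2) ^ x.2) := by
  have h1 : Summable (fun π : RP => Real.log (nm (π : Gi)) * (nm (π : Gi) : ℝ) ^ (-σ)) :=
    (summable_log_nm hs).comp_injective Subtype.val_injective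
  exact h1.mul_of_nonneg (summable_geometric_of_lt_one (by norm_num) (by norm_num))
    (fun π => mul_nonneg (log_nm_nonneg _) (by positivity)) (fun _ => by positivity)

lemma summable_norm_La {s : ℂ} (hs : 1 < s.re) :
    Summable (fun x : RP × ℕ => ‖(Real.log (nm (x.1 : Gi)) : ℂ) * T G s (pw x)‖) :=
  Summable.of_nonneg_of_le (fun _ => norm_nonneg _) (norm_La_term_le hG hs)
    (summable_La_bound hs)

/-- the identity `∑ log N(z) G(z) N(z)^{-s} = Λ(s) L(s)` -/
lemma hasSum_log_T {s : ℂ} (hs : 1 < s.re) :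
    HasSum (fun z : Gi => (Real.log (nm z) : ℂ) * T G s z) (La G s * LL G s) := by
  classical
  have hs0 : s ≠ 0 := by
    rintro rfl
    simp at hs
    linarith
  set f : (RP × ℕ) × Gi → ℂ := fun p =>
    if pw p.1 ∣ p.2 then (Real.log (nm (p.1.1 : Gi)) : ℂ) * T G s p.2 else 0 with hf
  let Φ : (RP × ℕ) × Gi → (RP × ℕ) × Gi := fun p => (p.1, pw p.1 * p.2)
  have hΦ : Function.Injective Φ := by
    rintro ⟨x, z⟩ ⟨x', z'⟩ h
    simp only [Φ, Prod.mk.injEq] at h
    obtain ⟨rfl, h⟩ := h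
    rw [Prod.mk.injEq]
    exact ⟨rfl, mul_left_cancel₀ (pw_ne_zero x) h⟩
  have h1 : HasSum f (La G s * LL G s) := by
    rw [← hΦ.hasSum_iff]
    · have e1 : f ∘ Φ = fun p : (RP × ℕ) × Gi =>
          ((Real.log (nm (p.1.1 : Gi)) : ℂ) * T G s (pw p.1)) * T G s p.2 := by
        funext p
        simp only [Function.comp, f, Φ]
        rw [if_pos (dvd_mul_right _ _), T_mul hG]
        ring
      rw [e1]
      have h2 := summable_mul_of_summable_norm (summable_norm_La hG hs) (summable_norm_T hG hs)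
      have h3 := tsum_mul_tsum_of_summable_norm (summable_norm_La hG hs) (summable_norm_T hG hs)
      unfold La LL
      rw [h3]
      exact h2.hasSum
    · rintro ⟨x, z⟩ h
      simp only [f]
      rw [if_neg]
      rintro ⟨w, hw⟩
      exact h ⟨(x, w), by simp only [Φ, hw]⟩
  have h2 : HasSum (fun p : Gi × (RP × ℕ) => f (p.2, p.1)) (La G s * LL G s) := by
    have := (Equiv.prodComm Gi (RP × ℕ)).hasSum_iff (f := f) (a := La G s * LL G s)
    exact this.2 h1
  refine h2.prod_fiberwise (fun z => ?_)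
  simp only [f]
  by_cases hz : z = 0
  · rw [hz, T_zero hs0, mul_zero]
    simp only [mul_zero, ite_self]
    exact hasSum_zero
  · have h3 := (hasSum_log hz).mapL Complex.ofRealCLM
    have h4 := h3.mul_right (T G s z)
    have e2 : (fun x : RP × ℕ => if pw x ∣ z then (Real.log (nm (x.1 : Gi)) : ℂ) * T G s z
        else 0) = fun x : RP × ℕ => (Complex.ofRealCLM
          (if pw x ∣ z then Real.log (nm (x.1 : Gi)) else 0)) * T G s z := by
      funext x
      split_ifs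
      · rfl
      · simp
    rw [e2]
    exact h4

omit hG in
lemma hasDerivAt_T (z : Gi) {s : ℂ} (hs : s ≠ 0) :
    HasDerivAt (fun s => T G s z) (-((Real.log (nm z) : ℂ) * T G s z)) s := by
  have h0 : ((nm z : ℕ) : ℂ) ≠ 0 ∨ -s ≠ 0 := Or.inr (neg_ne_zero.2 hs)
  have h1 := ((hasDerivAt_id s).neg.const_cpow (c := ((nm z : ℕ) : ℂ)) h0).const_mul (G z)
  have h2 : HasDerivAt (fun s => T G s z)
      (G z * (((nm z : ℕ) : ℂ) ^ (-s) * Complex.log ((nm z : ℕ) : ℂ) * -1)) s := h1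
  have e : (G z * (((nm z : ℕ) : ℂ) ^ (-s) * Complex.log ((nm z : ℕ) : ℂ) * -1)) =
      -((Real.log (nm z) : ℂ) * T G s z) := by
    unfold T
    rw [Complex.natCast_log]
    ring
  rw [e] at h2
  exact h2

omit hG in
lemma isOpen_re (a : ℝ) : IsOpen {s : ℂ | a < s.re} := isOpen_lt continuous_const Complex.continuous_re

/-- the derivative of the Dirichlet series -/
lemma hasDerivAt_LL {s : ℂ} (hs : 1 < s.re) : HasDerivAt (LL G) (-(La G s * LL G s)) s := by
  set a := (1 + s.re) / 2 with ha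
  have h1 : 1 < a := by rw [ha]; linarith
  have h2 : a < s.re := by rw [ha]; linarith
  set U : Set ℂ := {s : ℂ | a < s.re} with hU
  have hUo : IsOpen U := isOpen_re a
  have hne : ∀ w ∈ U, w ≠ 0 := by
    rintro w hw rfl
    simp only [hU, Set.mem_ofPred_eq, Complex.zero_re] at hw
    linarith
  have hf : ∀ z : Gi, DifferentiableOn ℂ (fun w => T G w z) U := fun z w hw =>
    (hasDerivAt_T z (hne w hw)).differentiableAt.differentiableWithinAt
  have hle : ∀ (z : Gi) (w : ℂ), w ∈ U → ‖T G w z‖ ≤ (nm z : ℝ) ^ (-a) := by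
    intro z w hw
    have hw' : a < w.re := hw
    refine (norm_T_le hG (by linarith) z).trans ?_
    rcases Nat.eq_zero_or_pos (nm z) with h0 | h0
    · rw [h0, Nat.cast_zero, Real.zero_rpow (by linarith), Real.zero_rpow (by linarith)]
    · exact Real.rpow_le_rpow_of_exponent_le (by exact_mod_cast h0) (by linarith)
  have hsU : s ∈ U := h2
  have hd := Complex.hasSum_deriv_of_summable_norm (summable_nm h1) hf hUo hle hsU
  have hdiff := Complex.differentiableOn_tsum_of_summable_norm (summable_nm h1) hf hUo hle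
  have e1 : (fun z : Gi => deriv (fun w => T G w z) s) =
      fun z => -((Real.log (nm z) : ℂ) * T G s z) := by
    funext z
    exact (hasDerivAt_T z (hne s hsU)).deriv
  rw [e1] at hd
  have hd2 := hd.unique (hasSum_log_T hG hs).neg
  have h3 : HasDerivAt (LL G) (deriv (LL G) s) s :=
    ((hdiff s hsU).differentiableAt (hUo.mem_nhds hsU)).hasDerivAt
  have h4 : deriv (LL G) s = -(La G s * LL G s) := hd2
  rw [h4] at h3
  exact h3

end OS

end Pool.Agent.Lib.MP391708.MR
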