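import Pool.Agent.Lib.MP_391708_nt.MR.OSDir

/-!
# Module OS, part 3: the lower bound to the right of the line `Re s = 1`, and the continuation
-/

set_option autoImplicit false

namespace Pool.Agent.Lib.MP391708.MR

open Finset Filter Topology
open scoped ComplexConjugate

namespace OS

variable {G : Gi → ℂ} (hG : CM G)

/-! ## the lower bound -/

lemma T_one_eq {σ : ℝ} (z : Gi) : T (fun _ => 1) (σ : ℂ) z = (((nm z : ℝ) ^ (-σ) : ℝ) : ℂ) := by
  unfold T
  rw [one_mul, Complex.ofReal_cpow (by positivity)]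
  push_cast
  rfl

lemma LL_one {σ : ℝ} : LL (fun _ => 1) (σ : ℂ) = (ZZ σ : ℂ) := by
  unfold LL ZZ
  rw [Complex.ofReal_tsum]
  exact tsum_congr (fun z => T_one_eq z)

include hG in
lemma norm_La_le {σ y : ℝ} (hs : 1 < σ) :
    ‖La G (σ + y * Complex.I)‖ ≤ (La (fun _ => 1) (σ : ℂ)).re := by
  have e : (La (fun _ => 1) (σ : ℂ)) =
      ((∑' x : RP × ℕ, Real.log (nm (x.1 : Gi)) * (nm (pw x) : ℝ) ^ (-σ) : ℝ) : ℂ) := by
    unfold La
    rw [Complex.ofReal_tsum]
    apply tsum_congr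
    intro x
    rw [T_one_eq]
    push_cast
    rfl
  have hs1 : 1 < ((σ : ℂ)).re := by simpa using hs
  have hs2 : 1 < ((σ : ℂ) + y * Complex.I).re := by simpa using hs
  have hsum : Summable (fun x : RP × ℕ => Real.log (nm (x.1 : Gi)) * (nm (pw x) : ℝ) ^ (-σ)) := by
    have := summable_norm_La CM_one hs1
    refine this.congr (fun x => ?_)
    rw [T_one_eq, norm_mul, Complex.norm_real, Complex.norm_real, Real.norm_eq_abs,
      Real.norm_eq_abs, abs_of_nonneg (log_nm_nonneg _), abs_of_nonneg (by positivity)]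
  rw [e, Complex.ofReal_re]
  apply tsum_of_norm_bounded hsum.hasSum
  intro x
  rw [norm_mul, Complex.norm_real, Real.norm_eq_abs, abs_of_nonneg (log_nm_nonneg _)]
  apply mul_le_mul_of_nonneg_left _ (log_nm_nonneg _)
  have := norm_T_le hG (s := (σ : ℂ) + y * Complex.I) (by linarith) (pw x)
  simpa using this

include hG in
lemma hasDerivAt_norm_sq {σ : ℝ} (y : ℝ) (hs : 1 < σ) :
    HasDerivAt (fun σ : ℝ => ‖LL G (σ + y * Complex.I)‖ ^ 2)
      (-2 * (La G (σ + y * Complex.I)).re * ‖LL G (σ + y * Complex.I)‖ ^ 2) σ := by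
  have hs2 : 1 < ((σ : ℂ) + y * Complex.I).re := by simpa using hs
  have h1 := hasDerivAt_LL hG hs2
  have h2 : HasDerivAt (fun w : ℂ => LL G (w + y * Complex.I))
      (-(La G (σ + y * Complex.I) * LL G (σ + y * Complex.I))) (σ : ℂ) :=
    HasDerivAt.comp_add_const (x := (σ : ℂ)) (a := y * Complex.I) h1
  have h3 := h2.comp_ofReal.norm_sq
  have e : 2 * inner ℝ (LL G (σ + y * Complex.I))
      (-(La G (σ + y * Complex.I) * LL G (σ + y * Complex.I))) =
      -2 * (La G (σ + y * Complex.I)).re * ‖LL G (σ + y * Complex.I)‖ ^ 2 := by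
    rw [Complex.inner]
    have e2 : (-(La G (σ + y * Complex.I) * LL G (σ + y * Complex.I)) *
        conj (LL G (σ + y * Complex.I))) =
        -(La G (σ + y * Complex.I) * ((‖LL G (σ + y * Complex.I)‖ ^ 2 : ℝ) : ℂ)) := by
      rw [← Complex.normSq_eq_norm_sq, ← Complex.mul_conj]
      ring
    rw [e2, Complex.neg_re, Complex.re_mul_ofReal]
    ring
  rw [e] at h3
  exact h3

include hG in
lemma G_unit {z : Gi} (hz : nm z = 1) : G z = 1 := by
  have e1 : G (-1) = 1 := by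
    have : (-1 : Gi) = ⟨0, 1⟩ * ⟨0, 1⟩ := by ext <;> simp
    rw [this, hG.mul, hG.I, one_mul]
  have e2 : G ⟨0, -1⟩ = 1 := by
    have : (⟨0, -1⟩ : Gi) = ⟨0, 1⟩ * (-1) := by ext <;> simp
    rw [this, hG.mul, hG.I, one_mul, e1]
  rcases unit_cases hz with rfl | rfl | rfl | rfl
  · exact hG.one
  · exact e1
  · exact hG.I
  · exact e2

include hG in
lemma tendsto_LL (y : ℝ) : Tendsto (fun σ : ℝ => LL G (σ + y * Complex.I)) atTop (𝓝 4) := by
  classical
  set g : Gi → ℂ := fun z => if nm z = 1 then 1 else 0 with hg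
  have hsum : ∑' z, g z = 4 := by
    rw [tsum_eq_sum (s := {1, -1, ⟨0, 1⟩, ⟨0, -1⟩})]
    · rw [sum_insert, sum_insert, sum_insert, sum_singleton]
      · simp only [hg, nm]
        norm_num
      · decide
      · decide
      · decide
    · intro z hz
      simp only [hg]
      rw [if_neg]
      intro h
      apply hz
      simp only [mem_insert, mem_singleton]
      exact unit_cases h
  rw [← hsum]
  unfold LL
  refine tendsto_tsum_of_dominated_convergence (summable_nm (σ := 2) (by norm_num)) ?_ ?_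
  · intro z
    rcases Nat.lt_or_ge (nm z) 2 with h | h
    · interval_cases h1 : nm z
      · -- z = 0
        have hz : z = 0 := nm_eq_zero.1 h1
        have e : g z = 0 := by simp [hg, h1]
        rw [e]
        apply tendsto_nhds_of_eventually_eq
        filter_upwards [eventually_gt_atTop (0 : ℝ)] with σ hσ
        rw [hz]
        apply T_zero
        intro h0
        have := congrArg Complex.re h0
        simp at this
        linarith
      · have e : g z = 1 := by simp [hg, h1]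
        rw [e]
        apply tendsto_nhds_of_eventually_eq
        filter_upwards with σ
        unfold T
        rw [h1, Nat.cast_one, Complex.one_cpow, mul_one]
        exact G_unit hG h1
    · have e : g z = 0 := by
        simp only [hg]; rw [if_neg (by omega)]
      rw [e]
      rw [tendsto_zero_iff_norm_tendsto_zero]
      have h2 : (2 : ℝ) ≤ nm z := by exact_mod_cast h
      have h3 : Tendsto (fun σ : ℝ => ((nm z : ℝ)⁻¹) ^ σ) atTop (𝓝 0) := by
        apply tendsto_rpow_atTop_of_base_lt_one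
        · have : (0 : ℝ) ≤ (nm z : ℝ)⁻¹ := by positivity
          linarith
        · exact inv_lt_one_of_one_lt₀ (by linarith)
      refine squeeze_zero' (Eventually.of_forall fun _ => norm_nonneg _) ?_ h3
      filter_upwards [eventually_gt_atTop (0 : ℝ)] with σ hσ
      have h4 := norm_T_le hG (s := (σ : ℂ) + y * Complex.I) (by simpa using hσ) z
      have h5 : ((σ : ℂ) + y * Complex.I).re = σ := by simp
      rw [h5] at h4
      rw [Real.inv_rpow (by positivity), ← Real.rpow_neg (by positivity)]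
      exact h4
  · filter_upwards [eventually_ge_atTop (2 : ℝ)] with σ hσ z
    have h4 := norm_T_le hG (s := (σ : ℂ) + y * Complex.I) (by simp; linarith) z
    have h5 : ((σ : ℂ) + y * Complex.I).re = σ := by simp
    rw [h5] at h4
    refine h4.trans ?_
    rcases Nat.eq_zero_or_pos (nm z) with h0 | h0
    · rw [h0, Nat.cast_zero, Real.zero_rpow (by linarith), Real.zero_rpow (by norm_num)]
    · exact Real.rpow_le_rpow_of_exponent_le (by exact_mod_cast h0) (by linarith)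

include hG in
/-- the lower bound -/
lemma LL_lower {σ : ℝ} (y : ℝ) (hs : 1 < σ) : 16 ≤ ‖LL G (σ + y * Complex.I)‖ * ZZ σ := by
  set h : ℝ → ℝ := fun σ => ‖LL G (σ + y * Complex.I)‖ ^ 2 *
    ‖LL (fun _ => 1) (σ + (0 : ℝ) * Complex.I)‖ ^ 2 with hh
  have hd : ∀ x : ℝ, 1 < x → HasDerivAt h
      ((-2 * (La G (x + y * Complex.I)).re * ‖LL G (x + y * Complex.I)‖ ^ 2) *
        ‖LL (fun _ => 1) (x + (0 : ℝ) * Complex.I)‖ ^ 2 + ‖LL G (x + y * Complex.I)‖ ^ 2 *
        (-2 * (La (fun _ => 1) (x + (0 : ℝ) * Complex.I)).re *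
          ‖LL (fun _ => 1) (x + (0 : ℝ) * Complex.I)‖ ^ 2)) x := fun x hx =>
    (hasDerivAt_norm_sq hG y hx).mul (hasDerivAt_norm_sq CM_one 0 hx)
  have hanti : AntitoneOn h (Set.Ioi 1) := by
    apply antitoneOn_of_deriv_nonpos (convex_Ioi 1)
    · exact fun x hx => (hd x hx).continuousAt.continuousWithinAt
    · rw [interior_Ioi]
      exact fun x hx => (hd x hx).differentiableAt.differentiableWithinAt
    · rw [interior_Ioi]
      intro x hx
      rw [(hd x hx).deriv]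
      have h1 := norm_La_le hG (y := y) hx
      have h2 : -(La G (x + y * Complex.I)).re ≤ ‖La G (x + y * Complex.I)‖ :=
        (neg_le_abs _).trans (Complex.abs_re_le_norm _)
      have h3 : ((x : ℂ) + (0 : ℝ) * Complex.I) = (x : ℂ) := by simp
      rw [h3]
      have h4 : 0 ≤ (La G (x + y * Complex.I)).re + (La (fun _ => 1) (x : ℂ)).re := by linarith
      have h5 : 0 ≤ ‖LL G (x + y * Complex.I)‖ ^ 2 * ‖LL (fun _ => 1) (x : ℂ)‖ ^ 2 := by
        positivity
      nlinarith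
  have hlim : Tendsto h atTop (𝓝 256) := by
    have h1 := (tendsto_LL hG y).norm.pow 2
    have h2 := (tendsto_LL CM_one 0).norm.pow 2
    have h3 := h1.mul h2
    have e : ‖(4 : ℂ)‖ ^ 2 * ‖(4 : ℂ)‖ ^ 2 = 256 := by
      have : ‖(4 : ℂ)‖ = 4 := by simp
      rw [this]; norm_num
    rw [e] at h3
    exact h3
  have h1 : 256 ≤ h σ := by
    apply le_of_tendsto hlim
    filter_upwards [eventually_ge_atTop σ] with x hx
    exact hanti hs (lt_of_lt_of_le hs hx) hx
  simp only [hh] at h1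
  have h3 : ((σ : ℂ) + (0 : ℝ) * Complex.I) = (σ : ℂ) := by simp
  rw [h3, LL_one, Complex.norm_real, Real.norm_eq_abs, abs_of_nonneg (ZZ_nonneg _),
    ← mul_pow] at h1
  have h4 : (16 : ℝ) ^ 2 ≤ (‖LL G (σ + y * Complex.I)‖ * ZZ σ) ^ 2 := by linarith
  exact (pow_le_pow_iff_left₀ (by norm_num)
    (mul_nonneg (norm_nonneg _) (ZZ_nonneg _)) (by norm_num)).1 h4

include hG in
lemma LL_ne_zero {s : ℂ} (hs : 1 < s.re) : LL G s ≠ 0 := by
  intro h
  have h1 := LL_lower hG s.im hs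
  rw [Complex.re_add_im, h, norm_zero, zero_mul] at h1
  linarith

include hG in
lemma LL_lower' {t : ℝ} (y : ℝ) (h : 0 < t) (h1 : t ≤ 1) :
    t / 4 ≤ ‖LL G (((1 + t : ℝ) : ℂ) + y * Complex.I)‖ := by
  have h2 := LL_lower hG y (σ := 1 + t) (by linarith)
  have h3 := ZZ_le h h1
  have h4 : 16 ≤ ‖LL G (((1 + t : ℝ) : ℂ) + y * Complex.I)‖ * (63 / t) :=
    h2.trans (mul_le_mul_of_nonneg_left h3 (norm_nonneg _))
  have h5 : ‖LL G (((1 + t : ℝ) : ℂ) + y * Complex.I)‖ * (63 / t) =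
    63 * ‖LL G (((1 + t : ℝ) : ℂ) + y * Complex.I)‖ / t := by ring
  rw [h5, le_div_iff₀ h] at h4
  linarith

/-! ## the continuation -/

/-- the summatory function -/
noncomputable def AA (G : Gi → ℂ) (n : ℕ) : ℂ := ∑ z ∈ disc (n : ℝ), G z

include hG in
lemma norm_AA_le (n : ℕ) : ‖AA G n‖ ≤ 9 * n := by
  unfold AA
  refine (norm_sum_le _ _).trans ?_
  calc ∑ z ∈ disc (n : ℝ), ‖G z‖ ≤ ∑ z ∈ disc (n : ℝ), (1 : ℝ) :=
        sum_le_sum (fun z _ => hG.le z)
    _ = ((disc (n : ℝ)).card : ℝ) := by simp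
    _ ≤ 9 * n := card_disc_le (by positivity)

lemma norm_cpow_sub_le {n : ℕ} (hn : 0 < n) {s : ℂ} (hs : 0 < s.re) :
    ‖((n : ℕ) : ℂ) ^ (-s) - (((n + 1 : ℕ)) : ℂ) ^ (-s)‖ ≤ ‖s‖ * (n : ℝ) ^ (-s.re - 1) := by
  have hn' : (0 : ℝ) < n := by exact_mod_cast hn
  have hd : ∀ u ∈ Set.Icc (n : ℝ) (n + 1), HasDerivWithinAt (fun u : ℝ => (u : ℂ) ^ (-s))
      (-s * (u : ℂ) ^ (-s - 1)) (Set.Icc (n : ℝ) (n + 1)) u := by
    intro u hu
    have hu0 : 0 < u := lt_of_lt_of_le hn' hu.1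
    have hmem : ((u : ℂ)) ∈ Complex.slitPlane := by
      rw [Complex.ofReal_mem_slitPlane]; exact hu0
    have h1 := ((hasDerivAt_id ((u : ℂ))).cpow_const (c := -s) hmem).comp_ofReal
    rw [mul_one] at h1
    exact h1.hasDerivWithinAt
  have hb : ∀ u ∈ Set.Icc (n : ℝ) (n + 1), ‖-s * (u : ℂ) ^ (-s - 1)‖ ≤
      ‖s‖ * (n : ℝ) ^ (-s.re - 1) := by
    intro u hu
    have hu0 : 0 < u := lt_of_lt_of_le hn' hu.1
    rw [norm_mul, norm_neg, Complex.norm_cpow_eq_rpow_re_of_pos hu0]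
    apply mul_le_mul_of_nonneg_left _ (norm_nonneg _)
    have e : (-s - 1).re = -s.re - 1 := by simp
    rw [e]
    exact Real.rpow_le_rpow_of_nonpos hn' hu.1 (by linarith)
  have h := Convex.norm_image_sub_le_of_norm_hasDerivWithin_le hd hb (convex_Icc _ _)
    (Set.right_mem_Icc.2 (by linarith)) (Set.left_mem_Icc.2 (by linarith))
  have e : ‖(n : ℝ) - (n + 1)‖ = 1 := by
    rw [show (n : ℝ) - (n + 1) = -1 by ring]; simp
  rw [e, mul_one] at h
  push_cast at h ⊢
  exact h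

/-- the terms of the continuation -/
noncomputable def EE (G : Gi → ℂ) (n : ℕ) (s : ℂ) : ℂ :=
  AA G (n + 1) * (((n + 1 : ℕ) : ℂ) ^ (-s) - (((n + 2 : ℕ)) : ℂ) ^ (-s))

/-- the continuation -/
noncomputable def FF (G : Gi → ℂ) (s : ℂ) : ℂ := ∑' n, EE G n s

lemma norm_EE_le (n : ℕ) {s : ℂ} (hs : 0 < s.re) :
    ‖EE G n s‖ ≤ ‖AA G (n + 1)‖ * (‖s‖ * ((n + 1 : ℕ) : ℝ) ^ (-s.re - 1)) := by
  unfold EE
  rw [norm_mul]
  exact mul_le_mul_of_nonneg_left (norm_cpow_sub_le (Nat.succ_pos n) hs) (norm_nonneg _)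

lemma partial_sum {s : ℂ} (N : ℕ) :
    ∑ z ∈ disc ((N + 1 : ℕ) : ℝ), T G s z =
      ∑ n ∈ range N, EE G n s + AA G (N + 1) * (((N + 1 : ℕ)) : ℂ) ^ (-s) := by
  induction N with
  | zero =>
    rw [range_zero, sum_empty, zero_add (AA G (0 + 1) * _)]
    unfold AA T
    rw [sum_mul]
    apply sum_congr rfl
    intro z hz
    rw [mem_disc] at hz
    have h1 := nm_pos hz.1
    have h2 : nm z ≤ 0 + 1 := by exact_mod_cast hz.2
    have h3 : nm z = 0 + 1 := by omega
    rw [h3]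
  | succ N ih =>
    have hle : ((N + 1 : ℕ) : ℝ) ≤ ((N + 1 + 1 : ℕ) : ℝ) := by push_cast; linarith
    have h1 : ∀ f : Gi → ℂ, ∑ z ∈ disc ((N + 1 + 1 : ℕ) : ℝ), f z =
        ∑ z ∈ disc ((N + 1 : ℕ) : ℝ), f z +
          ∑ z ∈ ann ((N + 1 : ℕ) : ℝ) ((N + 1 + 1 : ℕ) : ℝ), f z := fun f => by
      rw [disc_union hle, sum_union (disc_disjoint _ _)]
    have h2 : ∑ z ∈ ann ((N + 1 : ℕ) : ℝ) ((N + 1 + 1 : ℕ) : ℝ), T G s z =
        (∑ z ∈ ann ((N + 1 : ℕ) : ℝ) ((N + 1 + 1 : ℕ) : ℝ), G z) *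
          (((N + 2 : ℕ)) : ℂ) ^ (-s) := by
      rw [sum_mul]
      apply sum_congr rfl
      intro z hz
      rw [mem_ann] at hz
      have h3 : N + 1 < nm z := by exact_mod_cast hz.2.1
      have h4 : nm z ≤ N + 1 + 1 := by exact_mod_cast hz.2.2
      have h5 : nm z = N + 2 := by omega
      unfold T
      rw [h5]
    have h3 : AA G (N + 1 + 1) = AA G (N + 1) +
        ∑ z ∈ ann ((N + 1 : ℕ) : ℝ) ((N + 1 + 1 : ℕ) : ℝ), G z := h1 G
    rw [h1, ih, h2, h3, sum_range_succ]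
    unfold EE
    ring

include hG in
lemma FF_eq_LL {s : ℂ} (hs : 1 < s.re) : FF G s = LL G s := by
  classical
  have hs0 : s ≠ 0 := by
    rintro rfl
    simp at hs
    linarith
  -- the series converges
  have hb : ∀ n, ‖EE G n s‖ ≤ 9 * ‖s‖ * ((n + 1 : ℕ) : ℝ) ^ (-s.re) := by
    intro n
    have hn : (0 : ℝ) < ((n + 1 : ℕ) : ℝ) := by positivity
    refine (norm_EE_le n (by linarith)).trans ?_
    calc ‖AA G (n + 1)‖ * (‖s‖ * ((n + 1 : ℕ) : ℝ) ^ (-s.re - 1))
        ≤ (9 * ((n + 1 : ℕ) : ℝ)) * (‖s‖ * ((n + 1 : ℕ) : ℝ) ^ (-s.re - 1)) :=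
          mul_le_mul_of_nonneg_right (norm_AA_le hG _) (by positivity)
      _ = 9 * ‖s‖ * (((n + 1 : ℕ) : ℝ) ^ (-s.re - 1) * ((n + 1 : ℕ) : ℝ) ^ (1 : ℝ)) := by
          rw [Real.rpow_one]; ring
      _ = 9 * ‖s‖ * ((n + 1 : ℕ) : ℝ) ^ (-s.re) := by
          rw [← Real.rpow_add hn]; ring_nf
  have hsumm : Summable (fun n : ℕ => ((n + 1 : ℕ) : ℝ) ^ (-s.re)) :=
    (summable_nat_add_iff 1).2 (Real.summable_nat_rpow.2 (by linarith))
  have hE : Summable (fun n => EE G n s) := Summable.of_norm_bounded (hsumm.mul_left _) hb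
  have h1 : Tendsto (fun N => ∑ n ∈ range N, EE G n s) atTop (𝓝 (FF G s)) :=
    hE.hasSum.tendsto_sum_nat
  have h2 : Tendsto (fun N : ℕ => AA G (N + 1) * (((N + 1 : ℕ)) : ℂ) ^ (-s)) atTop (𝓝 0) := by
    rw [tendsto_zero_iff_norm_tendsto_zero]
    have h3 : Tendsto (fun N : ℕ => 9 * ((N + 1 : ℕ) : ℝ) ^ (-(s.re - 1))) atTop (𝓝 (9 * 0)) := by
      apply Tendsto.const_mul
      exact (tendsto_rpow_neg_atTop (by linarith)).comp
        (tendsto_natCast_atTop_atTop.comp (tendsto_add_atTop_nat 1))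
    rw [mul_zero] at h3
    refine squeeze_zero (fun _ => norm_nonneg _) (fun N => ?_) h3
    have hn : (0 : ℝ) < ((N + 1 : ℕ) : ℝ) := by positivity
    rw [norm_mul, Complex.norm_natCast_cpow_of_re_ne_zero _ (by rw [Complex.neg_re]; linarith),
      Complex.neg_re]
    calc ‖AA G (N + 1)‖ * ((N + 1 : ℕ) : ℝ) ^ (-s.re)
        ≤ (9 * ((N + 1 : ℕ) : ℝ)) * ((N + 1 : ℕ) : ℝ) ^ (-s.re) :=
          mul_le_mul_of_nonneg_right (norm_AA_le hG _) (by positivity)
      _ = 9 * (((N + 1 : ℕ) : ℝ) ^ (-s.re) * ((N + 1 : ℕ) : ℝ) ^ (1 : ℝ)) := by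
          rw [Real.rpow_one]; ring
      _ = 9 * ((N + 1 : ℕ) : ℝ) ^ (-(s.re - 1)) := by
          rw [← Real.rpow_add hn]; ring_nf
  have h3 := h1.add h2
  rw [add_zero] at h3
  have h4 : Tendsto (fun N : ℕ => ∑ z ∈ disc ((N + 1 : ℕ) : ℝ), T G s z) atTop
      (𝓝 (LL G s)) := by
    have h5 : HasSum (fun z => T G s z) (LL G s) :=
      (summable_norm_T hG hs).of_norm.hasSum
    have h6 : Tendsto (fun N : ℕ => insert (0 : Gi) (disc ((N + 1 : ℕ) : ℝ))) atTop atTop := by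
      apply tendsto_atTop_finset_of_monotone
      · intro a b hab
        apply insert_subset_insert
        apply disc_subset
        push_cast
        have : (a : ℝ) ≤ b := by exact_mod_cast hab
        linarith
      · intro z
        by_cases hz : z = 0
        · exact ⟨0, by rw [hz]; exact mem_insert_self _ _⟩
        · refine ⟨nm z, mem_insert_of_mem (mem_disc.2 ⟨hz, ?_⟩)⟩
          push_cast; linarith
    have h7 := h5.comp h6
    refine h7.congr (fun N => ?_)
    simp only [Function.comp]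
    rw [sum_insert, T_zero hs0, zero_add]
    exact fun h => (mem_disc.1 h).1 rfl
  refine tendsto_nhds_unique h3 (h4.congr (fun N => partial_sum N))

end OS

end Pool.Agent.Lib.MP391708.MR
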