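import Pool.Agent.Lib.MP_391708_nt.MR.OSLow
import Pool.Agent.Lib.MP_391708_nt.MR.Spec

/-!
# Module OS, part 5: the contribution of the split primes
-/

set_option autoImplicit false

namespace Pool.Agent.Lib.MP391708.MR

open Finset Filter Topology
open scoped ComplexConjugate

namespace OS

/-- the primes in the open first quadrant -/
abbrev FQ : Type := {π : Gi // Prime π ∧ 0 < π.re ∧ 0 < π.im}

lemma FQ_nm (π : FQ) : (nm (π : Gi)).Prime ∧ (nm (π : Gi) % 4 = 1 ∨ nm (π : Gi) = 2) := by
  obtain ⟨z, hz, h1, h2⟩ := π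
  simp only
  have hn0 := nm_pos hz.ne_zero
  -- z divides a rational prime
  have hzn : z ∣ ((nm z : ℕ) : Gi) := by
    refine ⟨star z, ?_⟩
    have h := nm_cast z
    ext
    · rw [Zsqrtd.re_natCast, h]; simp; ring
    · rw [Zsqrtd.im_natCast]; simp; ring
  have key : ∃ p : ℕ, p.Prime ∧ z ∣ (p : Gi) := by
    have h3 : ((nm z : ℕ) : Gi) = ((nm z).primeFactorsList.map (fun p : ℕ => (p : Gi))).prod := by
      rw [← Nat.cast_list_prod, Nat.prod_primeFactorsList hn0.ne']
    rw [h3] at hzn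
    obtain ⟨a, ha, hza⟩ := (Prime.dvd_prod_iff hz).1 hzn
    rw [List.mem_map] at ha
    obtain ⟨p, hp, rfl⟩ := ha
    exact ⟨p, Nat.prime_of_mem_primeFactorsList hp, hza⟩
  obtain ⟨p, hp, w, hw⟩ := key
  have hnp : nm ((p : ℕ) : Gi) = p ^ 2 := by
    unfold nm
    simp
  have hmul : nm z * nm w = p ^ 2 := by rw [← nm_mul, ← hw, hnp]
  have hz1 : nm z ≠ 1 := fun h => hz.not_isUnit (isUnit_iff_nm.2 h)
  have hdvd : nm z ∣ p ^ 2 := ⟨nm w, hmul.symm⟩
  obtain ⟨k, hk, hk'⟩ := (Nat.dvd_prime_pow hp).1 hdvd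
  have hcases : nm z = p := by
    interval_cases k
    · rw [pow_zero] at hk'; exact absurd hk' hz1
    · rw [pow_one] at hk'; exact hk'
    · exfalso
      have hw1 : nm w = 1 := by
        have hp2 : 0 < p ^ 2 := by have := hp.pos; positivity
        rw [hk'] at hmul
        exact Nat.eq_of_mul_eq_mul_left hp2 (by rw [hmul, mul_one])
      have hre : ((p : ℕ) : Gi).re = p := by simp
      have him : ((p : ℕ) : Gi).im = 0 := by simp
      rcases unit_cases hw1 with rfl | rfl | rfl | rfl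
      · rw [hw] at him; simp at him; omega
      · rw [hw] at him; simp at him; omega
      · rw [hw] at him; simp at him; omega
      · rw [hw] at him; simp at him; omega
  refine ⟨hcases ▸ hp, ?_⟩
  have hprime : (nm z).Prime := hcases ▸ hp
  rcases hprime.eq_two_or_odd with h | h
  · right; exact h
  · left
    have h5 := nm_cast z
    have h6 : ((nm z : ℕ) : ℤ) % 4 = 1 ∨ ((nm z : ℕ) : ℤ) % 4 = 0 ∨ ((nm z : ℕ) : ℤ) % 4 = 2 := by
      rw [h5]
      rcases Int.even_or_odd' z.re with ⟨a, ha | ha⟩ <;>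
        rcases Int.even_or_odd' z.im with ⟨b, hb | hb⟩ <;> rw [ha, hb] <;> ring_nf <;> omega
    omega

variable {G : Gi → ℂ} (hG : CM G)

/-- the prime sum with logarithms -/
noncomputable def L0 (G : Gi → ℂ) (s : ℂ) : ℂ :=
  ∑' π : FQ, (Real.log (nm (π : Gi)) : ℂ) * T G s π

/-- the prime sum -/
noncomputable def H0 (G : Gi → ℂ) (s : ℂ) : ℂ := ∑' π : FQ, T G s π

/-- the bound for the other terms -/
noncomputable def bet (x : RP × ℕ) : ℝ :=
  2 * (Real.log (nm (x.1 : Gi)) * (nm (x.1 : Gi) : ℝ) ^ (-2 : ℝ) * (1 / 2) ^ x.2) +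
    (if x.2 = 0 ∧ (x.1 : Gi).im = 0 then
      Real.log (nm (x.1 : Gi)) * (nm (x.1 : Gi) : ℝ) ^ (-1 : ℝ) else 0)

lemma summable_bet : Summable bet := by
  unfold bet
  apply Summable.add
  · exact (summable_La_bound (σ := 2) (by norm_num)).mul_left 2
  · let ι : {π : RP // (π : Gi).im = 0} → RP × ℕ := fun π => (π, 0)
    have hι : Function.Injective ι := by
      intro a b h
      simp only [ι, Prod.mk.injEq, and_true] at h
      exact Subtype.ext h
    rw [← hι.summable_iff]
    · have e1 : ((fun x : RP × ℕ => if x.2 = 0 ∧ (x.1 : Gi).im = 0 then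
          Real.log (nm (x.1 : Gi)) * (nm (x.1 : Gi) : ℝ) ^ (-1 : ℝ) else 0) ∘ ι) =
          fun π : {π : RP // (π : Gi).im = 0} =>
            (fun n : ℕ => Real.log ((n : ℝ) ^ 2) * ((n : ℝ) ^ 2) ^ (-1 : ℝ))
            ((π : RP) : Gi).re.toNat := by
        funext π
        simp only [Function.comp, ι]
        rw [if_pos ⟨trivial, π.2⟩]
        have h1 := nm_castR (π.1 : Gi)
        have h2 : (0 : ℤ) < ((π : RP) : Gi).re := π.1.2.2.1
        have h3 : ((((π : RP) : Gi).re.toNat : ℕ) : ℝ) = (((π : RP) : Gi).re : ℝ) := by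
          have : ((((π : RP) : Gi).re.toNat : ℕ) : ℤ) = ((π : RP) : Gi).re :=
            Int.toNat_of_nonneg h2.le
          exact_mod_cast this
        rw [h1, π.2, h3]
        norm_num
      rw [e1]
      have h1 : Summable (fun n : ℕ => Real.log ((n : ℝ) ^ 2) * ((n : ℝ) ^ 2) ^ (-1 : ℝ)) := by
        have h2 : Summable (fun n : ℕ => 4 * (n : ℝ) ^ (-(3 / 2) : ℝ)) :=
          (Real.summable_nat_rpow.2 (by norm_num)).mul_left 4
        refine Summable.of_nonneg_of_le ?_ ?_ h2
        · intro n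
          rcases Nat.eq_zero_or_pos n with h | h
          · rw [h]; simp
          · have : (1 : ℝ) ≤ n := by exact_mod_cast h
            exact mul_nonneg (Real.log_nonneg (by nlinarith)) (by positivity)
        · intro n
          rcases Nat.eq_zero_or_pos n with h | h
          · rw [h]; simp
          · have hn : (0 : ℝ) < n := by exact_mod_cast h
            have h3 := Real.log_le_rpow_div hn.le (show (0 : ℝ) < 1 / 2 by norm_num)
            rw [Real.log_pow]
            push_cast
            have e2 : ((n : ℝ) ^ 2) ^ (-1 : ℝ) = (n : ℝ) ^ (-2 : ℝ) := by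
              rw [← Real.rpow_natCast, ← Real.rpow_mul hn.le]
              norm_num
            rw [e2]
            calc 2 * Real.log n * (n : ℝ) ^ (-2 : ℝ)
                ≤ 2 * ((n : ℝ) ^ (1 / 2 : ℝ) / (1 / 2)) * (n : ℝ) ^ (-2 : ℝ) := by
                  apply mul_le_mul_of_nonneg_right _ (by positivity)
                  linarith
              _ = 4 * ((n : ℝ) ^ (1 / 2 : ℝ) * (n : ℝ) ^ (-2 : ℝ)) := by ring
              _ = 4 * (n : ℝ) ^ (-(3 / 2) : ℝ) := by
                  rw [← Real.rpow_add hn]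
                  norm_num
      apply h1.comp_injective
      intro a b h
      have ha : (0 : ℤ) < ((a : RP) : Gi).re := a.1.2.2.1
      have hb : (0 : ℤ) < ((b : RP) : Gi).re := b.1.2.2.1
      apply Subtype.ext
      apply Subtype.ext
      have h' : ((a : RP) : Gi).re.toNat = ((b : RP) : Gi).re.toNat := h
      exact Zsqrtd.ext (by omega) (by rw [a.2, b.2])
    · rintro ⟨π, n⟩ h
      simp only
      rw [if_neg]
      rintro ⟨h1, h2⟩
      exact h ⟨⟨π, h2⟩, by simp only [ι]; rw [← h1]⟩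

include hG in
lemma norm_La_sub_le {s : ℂ} (hs : 1 < s.re) : ‖La G s - L0 G s‖ ≤ ∑' x, bet x := by
  classical
  set f : RP × ℕ → ℂ := fun x => (Real.log (nm (x.1 : Gi)) : ℂ) * T G s (pw x) with hf
  have hsum : Summable f := (summable_norm_La hG hs).of_norm
  let ι : FQ → RP × ℕ := fun π => (⟨π, π.2.1, π.2.2.1, π.2.2.2.le⟩, 0)
  have hι : Function.Injective ι := by
    intro a b h
    simp only [ι, Prod.mk.injEq, and_true] at h
    exact Subtype.ext (congrArg (fun x : RP => (x : Gi)) h)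
  set g : RP × ℕ → ℂ := fun x => if x.2 = 0 ∧ 0 < (x.1 : Gi).im then f x else 0 with hg
  have hgι : g ∘ ι = fun π : FQ => (Real.log (nm (π : Gi)) : ℂ) * T G s π := by
    funext π
    simp only [Function.comp, g, ι, f]
    rw [if_pos ⟨trivial, π.2.2.2⟩]
    unfold pw
    rw [zero_add, pow_one]
  have hsF : Summable (fun π : FQ => (Real.log (nm (π : Gi)) : ℂ) * T G s π) := by
    have := hsum.comp_injective hι
    refine this.congr (fun π => ?_)
    simp only [Function.comp, f, ι]
    unfold pw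
    rw [zero_add, pow_one]
  have h1 : HasSum g (L0 G s) := by
    rw [← hι.hasSum_iff]
    · rw [hgι]; exact hsF.hasSum
    · rintro ⟨π, n⟩ h
      simp only [g]
      rw [if_neg]
      rintro ⟨h1, h2⟩
      exact h ⟨⟨π, π.2.1, π.2.2.1, h2⟩, by simp only [ι]; rw [← h1]⟩
  have h2 : HasSum (fun x => f x - g x) (La G s - L0 G s) := hsum.hasSum.sub h1
  have h3 : ∀ x, ‖f x - g x‖ ≤ bet x := by
    intro x
    have hnm : (0 : ℝ) < nm (x.1 : Gi) := nm_posR x.1.2.1.ne_zero
    have hnm2 : (2 : ℝ) ≤ nm (x.1 : Gi) := by exact_mod_cast two_le_nm x.1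
    have hA : 0 ≤ 2 * (Real.log (nm (x.1 : Gi)) * (nm (x.1 : Gi) : ℝ) ^ (-2 : ℝ) *
        (1 / 2) ^ x.2) :=
      mul_nonneg (by norm_num)
        (mul_nonneg (mul_nonneg (log_nm_nonneg _) (by positivity)) (by positivity))
    have hB : 0 ≤ (if x.2 = 0 ∧ (x.1 : Gi).im = 0 then
      Real.log (nm (x.1 : Gi)) * (nm (x.1 : Gi) : ℝ) ^ (-1 : ℝ) else 0) := by
      split_ifs
      · exact mul_nonneg (log_nm_nonneg _) (by positivity)
      · exact le_rfl
    simp only [g]
    by_cases hx : x.2 = 0 ∧ 0 < (x.1 : Gi).im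
    · rw [if_pos hx, sub_self, norm_zero]
      unfold bet
      linarith
    · rw [if_neg hx, sub_zero]
      simp only [f]
      have hT : ‖T G s (pw x)‖ ≤ (nm (pw x) : ℝ) ^ (-1 : ℝ) := by
        refine (norm_T_le hG (by linarith) _).trans ?_
        apply Real.rpow_le_rpow_of_exponent_le (one_le_nm (pw_ne_zero x)) (by linarith)
      have hn : ‖(Real.log (nm (x.1 : Gi)) : ℂ) * T G s (pw x)‖ ≤
          Real.log (nm (x.1 : Gi)) * (nm (pw x) : ℝ) ^ (-1 : ℝ) := by
        rw [norm_mul, Complex.norm_real, Real.norm_eq_abs, abs_of_nonneg (log_nm_nonneg _)]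
        exact mul_le_mul_of_nonneg_left hT (log_nm_nonneg _)
      refine hn.trans ?_
      obtain ⟨π, n⟩ := x
      simp only at *
      rcases n with _ | n
      · have him : (π : Gi).im = 0 := by
          have h1 : 0 ≤ (π : Gi).im := π.2.2.2
          have h2 : ¬ 0 < (π : Gi).im := fun h => hx ⟨rfl, h⟩
          omega
        unfold bet pw
        simp only
        rw [if_pos ⟨trivial, him⟩, zero_add, pow_one]
        linarith
      · unfold bet pw
        simp only
        rw [if_neg (by omega), add_zero, nm_pow]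
        have e : (((nm (π : Gi)) ^ (n + 1 + 1) : ℕ) : ℝ) ^ (-1 : ℝ) =
            (nm (π : Gi) : ℝ) ^ (-2 : ℝ) * ((nm (π : Gi) : ℝ)⁻¹) ^ n := by
          rw [Real.rpow_neg_one, Real.rpow_neg (by positivity)]
          push_cast
          rw [show n + 1 + 1 = 2 + n by ring, pow_add, mul_inv, inv_pow]
          congr 1
          norm_num
        rw [e, pow_succ]
        have h5 : ((nm (π : Gi) : ℝ)⁻¹) ^ n ≤ (1 / 2) ^ n := by
          apply pow_le_pow_left₀ (by positivity)
          rw [one_div]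
          exact inv_anti₀ (by norm_num) hnm2
        calc Real.log (nm (π : Gi)) * ((nm (π : Gi) : ℝ) ^ (-2 : ℝ) *
              ((nm (π : Gi) : ℝ)⁻¹) ^ n)
            = (Real.log (nm (π : Gi)) * (nm (π : Gi) : ℝ) ^ (-2 : ℝ)) *
              ((nm (π : Gi) : ℝ)⁻¹) ^ n := by ring
          _ ≤ (Real.log (nm (π : Gi)) * (nm (π : Gi) : ℝ) ^ (-2 : ℝ)) * (1 / 2) ^ n :=
              mul_le_mul_of_nonneg_left h5 (mul_nonneg (log_nm_nonneg _) (by positivity))
          _ = 2 * (Real.log (nm (π : Gi)) * (nm (π : Gi) : ℝ) ^ (-2 : ℝ) *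
              ((1 / 2) ^ n * (1 / 2))) := by ring
  rw [← h2.tsum_eq]
  exact tsum_of_norm_bounded summable_bet.hasSum h3

include hG in
lemma hasDerivAt_H0 {s : ℂ} (hs : 1 < s.re) : HasDerivAt (H0 G) (-(L0 G s)) s := by
  set a := (1 + s.re) / 2 with ha
  have h1 : 1 < a := by rw [ha]; linarith
  have h2 : a < s.re := by rw [ha]; linarith
  set U : Set ℂ := {s : ℂ | a < s.re} with hU
  have hUo : IsOpen U := isOpen_re a
  have hne : ∀ w ∈ U, w ≠ 0 := by
    rintro w hw rfl
    simp only [hU, Set.mem_ofPred_eq, Complex.zero_re] at hw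
    linarith
  have hf : ∀ π : FQ, DifferentiableOn ℂ (fun w => T G w π) U := fun z w hw =>
    (hasDerivAt_T _ (hne w hw)).differentiableAt.differentiableWithinAt
  have hle : ∀ (π : FQ) (w : ℂ), w ∈ U → ‖T G w π‖ ≤ (nm (π : Gi) : ℝ) ^ (-a) := by
    intro z w hw
    have hw' : a < w.re := hw
    refine (norm_T_le hG (by linarith) _).trans ?_
    exact Real.rpow_le_rpow_of_exponent_le (one_le_nm z.2.1.ne_zero) (by linarith)
  have hsU : s ∈ U := h2
  have hsn : Summable (fun π : FQ => (nm (π : Gi) : ℝ) ^ (-a)) :=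
    (summable_nm h1).comp_injective Subtype.val_injective
  have hd := Complex.hasSum_deriv_of_summable_norm hsn hf hUo hle hsU
  have hdiff := Complex.differentiableOn_tsum_of_summable_norm hsn hf hUo hle
  have e1 : (fun π : FQ => deriv (fun w => T G w π) s) =
      fun π : FQ => -((Real.log (nm (π : Gi)) : ℂ) * T G s π) := by
    funext z
    exact (hasDerivAt_T _ (hne s hsU)).deriv
  rw [e1] at hd
  have h3 : HasDerivAt (H0 G) (deriv (H0 G) s) s :=
    ((hdiff s hsU).differentiableAt (hUo.mem_nhds hsU)).hasDerivAt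
  have h4 : deriv (H0 G) s = -(L0 G s) := by
    have h5 := hd.tsum_eq
    rw [tsum_neg] at h5
    exact h5.symm
  rw [h4] at h3
  exact h3

end OS

end Pool.Agent.Lib.MP391708.MR
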