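import Pool.Agent.Lib.MP_391708_nt.MR.Spec
import Pool.Agent.Lib.MP_391708_nt.MR.Basic

/-!
# The Fourier expansion of the tent kernel
-/

set_option autoImplicit false

namespace Pool.Agent.Lib.MP391708.MR

open Finset Filter Topology
open scoped ComplexConjugate

/-- the Fourier coefficients of the tent (at `n ≥ 1`) -/
noncomputable def cc (φ : ℝ) (n : ℕ) : ℝ := (1 - Real.cos (n * φ)) / (Real.pi * φ * n ^ 2)

lemma cc_nonneg {φ : ℝ} (hφ : 0 < φ) (n : ℕ) : 0 ≤ cc φ n := by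
  unfold cc
  have := Real.cos_le_one (n * φ)
  have := Real.pi_pos
  apply div_nonneg (by linarith) (by positivity)

lemma cc_le_one {φ : ℝ} (hφ : 0 < φ) (n : ℕ) : cc φ n ≤ φ / (2 * Real.pi) := by
  unfold cc
  have hpi := Real.pi_pos
  rcases Nat.eq_zero_or_pos n with rfl | hn
  · simp; positivity
  have hn' : (0 : ℝ) < n := by exact_mod_cast hn
  have h := Real.one_sub_sq_div_two_le_cos (x := n * φ)
  rw [div_le_div_iff₀ (by positivity) (by positivity)]
  calc (1 - Real.cos (n * φ)) * (2 * Real.pi) ≤ ((n * φ) ^ 2 / 2) * (2 * Real.pi) := by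
        gcongr; linarith
    _ = φ * (Real.pi * φ * n ^ 2) := by ring

lemma cc_le_two {φ : ℝ} (hφ : 0 < φ) {n : ℕ} (hn : 0 < n) :
    cc φ n ≤ 2 / (Real.pi * φ) * (1 / (n : ℝ) ^ 2) := by
  unfold cc
  have hpi := Real.pi_pos
  have hn' : (0 : ℝ) < n := by exact_mod_cast hn
  have h := Real.neg_one_le_cos (n * φ)
  rw [div_mul_div_comm, mul_one]
  gcongr
  linarith

/-- `∑ cos (n y) / n²` -/
lemma hasSum_cos_sq {y : ℝ} (h0 : 0 ≤ y) (h1 : y ≤ 2 * Real.pi) :
    HasSum (fun n : ℕ => 1 / (n : ℝ) ^ 2 * Real.cos (n * y))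
      (y ^ 2 / 4 - Real.pi * y / 2 + Real.pi ^ 2 / 6) := by
  have hpi := Real.pi_pos
  have hx : y / (2 * Real.pi) ∈ Set.Icc (0 : ℝ) 1 := by
    constructor
    · positivity
    · rw [div_le_one (by positivity)]; exact h1
  have h := hasSum_one_div_nat_pow_mul_cos (k := 1) one_ne_zero hx
  have h2 := bernoulliFun_two (y / (2 * Real.pi))
  unfold bernoulliFun at h2
  rw [show 2 * 1 = 2 by norm_num, h2] at h
  have h3 : (fun n : ℕ => 1 / (n : ℝ) ^ 2 * Real.cos (n * y)) =
      fun n : ℕ => 1 / (n : ℝ) ^ 2 * Real.cos (2 * Real.pi * n * (y / (2 * Real.pi))) := by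
    funext n
    congr 2
    field_simp
  rw [h3]
  convert h using 1
  have h4 : ((Nat.factorial 2 : ℕ) : ℝ) = 2 := by norm_num [Nat.factorial]
  rw [h4]
  field_simp
  ring

/-- the Fourier series of the tent -/
lemma tent_hasSum {φ t : ℝ} (hφ : 0 < φ) (hφ' : φ ≤ Real.pi) (ht : 0 ≤ t) (ht' : t ≤ Real.pi) :
    HasSum (fun n : ℕ => 2 * cc φ n * Real.cos (n * t)) (tri (t / φ) - φ / (2 * Real.pi)) := by
  have hpi := Real.pi_pos
  have h1 := hasSum_cos_sq (y := t) ht (by linarith)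
  have h2 := hasSum_cos_sq (y := t + φ) (by linarith) (by linarith)
  have h3 := hasSum_cos_sq (y := |t - φ|) (abs_nonneg _)
    (by rw [abs_le]; constructor <;> linarith)
  have h4 := ((h1.sub (h2.mul_left (1 / 2))).sub (h3.mul_left (1 / 2))).mul_left
    (2 / (Real.pi * φ))
  convert! h4 using 1
  · funext n
    have e1 : Real.cos (n * |t - φ|) = Real.cos (n * t - n * φ) := by
      rw [← Real.cos_abs (n * t - n * φ), ← mul_sub, abs_mul, Nat.abs_cast]
    rw [e1, mul_add, Real.cos_add, Real.cos_sub]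
    unfold cc
    rcases Nat.eq_zero_or_pos n with rfl | hn
    · simp
    have hn' : (n : ℝ) ≠ 0 := by exact_mod_cast hn.ne'
    field_simp
    ring
  · have e2 : |t - φ| ^ 2 = (t - φ) ^ 2 := sq_abs _
    rw [e2]
    unfold tri
    have e3 : |t / φ| = t / φ := abs_of_nonneg (by positivity)
    rw [e3]
    rcases le_total t φ with h | h
    · have e4 : |t - φ| = φ - t := by rw [abs_sub_comm, abs_of_nonneg (by linarith)]
      have e5 : 0 ≤ 1 - t / φ := by
        rw [sub_nonneg, div_le_one hφ]; exact h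
      rw [e4, max_eq_right e5]
      field_simp
      ring
    · have e4 : |t - φ| = t - φ := abs_of_nonneg (by linarith)
      have e5 : 1 - t / φ ≤ 0 := by
        rw [sub_nonpos, one_le_div hφ]; exact h
      rw [e4, max_eq_left e5]
      field_simp
      ring

lemma ang_nonneg (z z' : Gi) : 0 ≤ ang z z' := abs_nonneg _

lemma ang_le_pi (z z' : Gi) : ang z z' ≤ Real.pi := Complex.abs_arg_le_pi _

/-- `cos (n ang)` as a symmetric sum of characters -/
lemma cos_ang {z z' : Gi} (hz : z ≠ 0) (hz' : z' ≠ 0) (n : ℕ) :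
    (Real.cos (n * ang z z') : ℂ) =
      (xi n z * conj (xi n z') + xi (-n) z * conj (xi (-n) z')) / 2 := by
  set u := GaussianInt.toComplex z * conj (GaussianInt.toComplex z') with hu
  have hu0 : u ≠ 0 := by
    rw [hu]
    refine mul_ne_zero (toComplex_ne_zero hz) ?_
    rw [Ne, map_eq_zero]
    exact toComplex_ne_zero hz'
  have hA : ‖u‖ = ‖GaussianInt.toComplex z‖ * ‖GaussianInt.toComplex z'‖ := by
    rw [hu, norm_mul, RCLike.norm_conj]
  have h1 : ((‖GaussianInt.toComplex z‖ : ℝ) : ℂ) ≠ 0 := by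
    exact_mod_cast norm_ne_zero_iff.2 (toComplex_ne_zero hz)
  have h2 : ((‖GaussianInt.toComplex z'‖ : ℝ) : ℂ) ≠ 0 := by
    exact_mod_cast norm_ne_zero_iff.2 (toComplex_ne_zero hz')
  have hw : dir z * conj (dir z') = Complex.exp (Complex.arg u * Complex.I) := by
    have h3 := Complex.norm_mul_exp_arg_mul_I u
    rw [hA] at h3
    unfold dir
    rw [map_div₀, Complex.conj_ofReal, div_mul_div_comm, ← hu,
      div_eq_iff (mul_ne_zero h1 h2)]
    push_cast at h3
    rw [mul_comm (Complex.exp _)]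
    exact h3.symm
  have hpow : ∀ k : ℤ, xi k z * conj (xi k z') = Complex.exp (k * (Complex.arg u * Complex.I)) := by
    intro k
    unfold xi
    rw [map_zpow₀, ← mul_zpow, hw, Complex.exp_int_mul]
  rw [hpow, hpow]
  have h4 : Real.cos (n * ang z z') = Real.cos (n * Complex.arg u) := by
    unfold ang
    rw [← hu, ← Real.cos_abs (n * Complex.arg u), abs_mul, Nat.abs_cast]
  rw [h4, Complex.ofReal_cos, Complex.cos]
  push_cast
  congr 2
  · congr 1; ring
  · congr 1; ring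

/-- the form attached to the tent kernel -/
theorem tent_form (S : Finset Gi) (f : Gi → ℂ) {φ : ℝ} (hφ : 0 < φ) (hφ' : φ ≤ Real.pi)
    (hS : ∀ z ∈ S, z ≠ 0) :
    ∃ R : ℝ, HasSum (fun n : ℕ => cc φ n * (‖∑ z ∈ S, f z * xi n z‖ ^ 2 +
        ‖∑ z ∈ S, f z * xi (-n) z‖ ^ 2)) R ∧
      ∑ z ∈ S, ∑ z' ∈ S, f z * conj (f z') * (tri (ang z z' / φ) : ℂ) =
        ((φ / (2 * Real.pi) * ‖∑ z ∈ S, f z * xi 0 z‖ ^ 2 + R : ℝ) : ℂ) := by
  -- squares of the sums as double sums
  have hsq : ∀ k : ℤ, ((‖∑ z ∈ S, f z * xi k z‖ : ℂ)) ^ 2 =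
      ∑ z ∈ S, ∑ z' ∈ S, f z * conj (f z') * (xi k z * conj (xi k z')) := by
    intro k
    rw [← Complex.ofReal_pow, ← Complex.normSq_eq_norm_sq, ← Complex.mul_conj, map_sum,
      Finset.sum_mul_sum]
    refine Finset.sum_congr rfl fun z _ => Finset.sum_congr rfl fun z' _ => ?_
    rw [map_mul]
    ring
  set s : ℂ := ∑ z ∈ S, ∑ z' ∈ S, f z * conj (f z') *
    ((tri (ang z z' / φ) - φ / (2 * Real.pi) : ℝ) : ℂ) with hs
  have h1 : HasSum (fun n : ℕ => ∑ z ∈ S, ∑ z' ∈ S, f z * conj (f z') *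
      ((2 * cc φ n * Real.cos (n * ang z z') : ℝ) : ℂ)) s := by
    rw [hs]
    refine hasSum_sum fun z _ => hasSum_sum fun z' _ => ?_
    refine HasSum.mul_left _ ?_
    exact Complex.hasSum_ofReal.2 (tent_hasSum hφ hφ' (ang_nonneg z z') (ang_le_pi z z'))
  have h2 : (fun n : ℕ => ∑ z ∈ S, ∑ z' ∈ S, f z * conj (f z') *
      ((2 * cc φ n * Real.cos (n * ang z z') : ℝ) : ℂ)) =
      fun n : ℕ => ((cc φ n * (‖∑ z ∈ S, f z * xi n z‖ ^ 2 +
        ‖∑ z ∈ S, f z * xi (-n) z‖ ^ 2) : ℝ) : ℂ) := by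
    funext n
    push_cast
    rw [hsq, hsq, ← Finset.sum_add_distrib, Finset.mul_sum]
    refine Finset.sum_congr rfl fun z hz => ?_
    rw [← Finset.sum_add_distrib, Finset.mul_sum]
    refine Finset.sum_congr rfl fun z' hz' => ?_
    have := cos_ang (hS z hz) (hS z' hz') n
    push_cast at this
    rw [this]
    ring
  rw [h2] at h1
  have h3 := (Complex.hasSum_iff _ _).1 h1
  simp only [Complex.ofReal_re, Complex.ofReal_im] at h3
  have h4 : s.im = 0 := h3.2.unique hasSum_zero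
  refine ⟨s.re, h3.1, ?_⟩
  have h5 : s = (s.re : ℂ) := Complex.ext (by simp) (by simp [h4])
  rw [Complex.ofReal_add, ← h5, hs]
  push_cast
  rw [hsq, Finset.mul_sum, ← Finset.sum_add_distrib]
  refine Finset.sum_congr rfl fun z _ => ?_
  rw [Finset.mul_sum, ← Finset.sum_add_distrib]
  refine Finset.sum_congr rfl fun z' _ => ?_
  simp only [xi, zpow_zero, map_one, mul_one]
  ring

/-- PSD: the tent kernel is positive semidefinite -/
theorem specPsd : SpecPsd := by
  intro S f φ hφ hφ' hS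
  obtain ⟨R, hR, h⟩ := tent_form S f hφ hφ' hS
  rw [h, Complex.ofReal_re]
  have h1 : 0 ≤ R := hR.nonneg fun n => mul_nonneg (cc_nonneg hφ n) (by positivity)
  have := Real.pi_pos
  positivity

end Pool.Agent.Lib.MP391708.MR
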