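import Pool.Agent.Lib.MP_391708_nt.MR.Count

/-!
# TYPE, small frequencies: comparison with the integral over the disc
-/

set_option autoImplicit false

namespace Pool.Agent.Lib.MP391708.MR

open Finset Filter Topology MeasureTheory
open scoped ComplexConjugate

namespace TypeM

/-- `(u / |u|)^k` for complex `u` -/
noncomputable def ph (k : ℤ) (u : ℂ) : ℂ := (u / ((‖u‖ : ℝ) : ℂ)) ^ k

lemma xi_eq_ph (k : ℤ) (z : Gi) : xi k z = ph k (GaussianInt.toComplex z) := rfl

lemma norm_div_norm {u : ℂ} (hu : u ≠ 0) : ‖u / ((‖u‖ : ℝ) : ℂ)‖ = 1 := by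
  rw [norm_div, Complex.norm_real, Real.norm_eq_abs, abs_of_nonneg (norm_nonneg _)]
  exact div_self (norm_ne_zero_iff.2 hu)

lemma norm_ph {u : ℂ} (hu : u ≠ 0) (k : ℤ) : ‖ph k u‖ = 1 := by
  unfold ph
  rw [norm_zpow, norm_div_norm hu, one_zpow]

lemma ph_zero {k : ℤ} (hk : k ≠ 0) : ph k 0 = 0 := by
  unfold ph
  rw [zero_div, zero_zpow _ hk]

lemma norm_ph_le {k : ℤ} (hk : k ≠ 0) (u : ℂ) : ‖ph k u‖ ≤ 1 := by
  by_cases hu : u = 0
  · rw [hu, ph_zero hk]; simp
  · rw [norm_ph hu]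

lemma measurable_ph (k : ℤ) : Measurable (ph k) := by
  unfold ph
  exact (measurable_id.div (Complex.measurable_ofReal.comp measurable_norm)).pow_const k

lemma norm_pow_sub_pow {α β : ℂ} (hα : ‖α‖ = 1) (hβ : ‖β‖ = 1) (n : ℕ) :
    ‖α ^ n - β ^ n‖ ≤ n * ‖α - β‖ := by
  induction n with
  | zero => simp
  | succ n ih =>
    have h : α ^ (n + 1) - β ^ (n + 1) = α * (α ^ n - β ^ n) + (α - β) * β ^ n := by ring
    rw [h]
    refine (norm_add_le _ _).trans ?_
    rw [norm_mul, norm_mul, norm_pow, hα, hβ]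
    push_cast
    simp only [one_mul, one_pow, mul_one]
    linarith

lemma norm_zpow_sub_zpow {α β : ℂ} (hα : ‖α‖ = 1) (hβ : ‖β‖ = 1) (k : ℤ) :
    ‖α ^ k - β ^ k‖ ≤ |(k : ℝ)| * ‖α - β‖ := by
  rcases Int.eq_nat_or_neg k with ⟨n, rfl | rfl⟩
  · rw [zpow_natCast, zpow_natCast]
    simpa using norm_pow_sub_pow hα hβ n
  · have key : ∀ γ : ℂ, ‖γ‖ = 1 → γ⁻¹ = conj γ := by
      intro γ hγ
      rw [Complex.inv_def, Complex.normSq_eq_norm_sq, hγ]
      simp
    rw [zpow_neg, zpow_neg, zpow_natCast, zpow_natCast, ← inv_pow, ← inv_pow, key α hα, key β hβ]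
    have h := norm_pow_sub_pow (α := conj α) (β := conj β) (by rw [RCLike.norm_conj, hα])
      (by rw [RCLike.norm_conj, hβ]) n
    have h2 : ‖conj α - conj β‖ = ‖α - β‖ := by rw [← map_sub, RCLike.norm_conj]
    rw [h2] at h
    simpa using h

lemma norm_unit_sub {u v : ℂ} (hu : u ≠ 0) (hv : v ≠ 0) :
    ‖u / ((‖u‖ : ℝ) : ℂ) - v / ((‖v‖ : ℝ) : ℂ)‖ ≤ 2 * ‖u - v‖ / ‖v‖ := by
  have hu' : (0 : ℝ) < ‖u‖ := norm_pos_iff.2 hu
  have hv' : (0 : ℝ) < ‖v‖ := norm_pos_iff.2 hv
  have hu'' : ((‖u‖ : ℝ) : ℂ) ≠ 0 := by exact_mod_cast hu'.ne'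
  have hv'' : ((‖v‖ : ℝ) : ℂ) ≠ 0 := by exact_mod_cast hv'.ne'
  have h : u / ((‖u‖ : ℝ) : ℂ) - v / ((‖v‖ : ℝ) : ℂ) =
      (u / ((‖u‖ : ℝ) : ℂ)) * (((‖v‖ - ‖u‖ : ℝ) : ℂ) / ((‖v‖ : ℝ) : ℂ)) +
        (u - v) / ((‖v‖ : ℝ) : ℂ) := by
    push_cast
    field_simp
    ring
  rw [h]
  refine (norm_add_le _ _).trans ?_
  rw [norm_mul, norm_div_norm hu, one_mul, norm_div, norm_div, Complex.norm_real,
    Complex.norm_real, Real.norm_eq_abs, Real.norm_eq_abs, abs_of_pos hv', ← add_div]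
  apply div_le_div_of_nonneg_right _ hv'.le
  have h2 : |‖v‖ - ‖u‖| ≤ ‖u - v‖ := by
    rw [abs_sub_comm]
    exact abs_norm_sub_norm_le u v
  linarith

lemma norm_ph_sub {k : ℤ} (hk : k ≠ 0) (u : ℂ) {v : ℂ} (hv : v ≠ 0) :
    ‖ph k u - ph k v‖ ≤ 2 * |(k : ℝ)| * ‖u - v‖ / ‖v‖ := by
  have hv' : (0 : ℝ) < ‖v‖ := norm_pos_iff.2 hv
  have hk1 : (1 : ℝ) ≤ |(k : ℝ)| := by
    have : (1 : ℤ) ≤ |k| := Int.one_le_abs hk
    exact_mod_cast this
  by_cases hu : u = 0
  · rw [hu, ph_zero hk, zero_sub, norm_neg, norm_ph hv, zero_sub, norm_neg,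
      mul_div_assoc, div_self hv'.ne']
    linarith
  · unfold ph
    refine (norm_zpow_sub_zpow (norm_div_norm hu) (norm_div_norm hv) k).trans ?_
    have := mul_le_mul_of_nonneg_left (norm_unit_sub hu hv) (abs_nonneg (k : ℝ))
    calc |(k : ℝ)| * _ ≤ |(k : ℝ)| * (2 * ‖u - v‖ / ‖v‖) := this
      _ = _ := by ring

lemma ph_mul {k : ℤ} {ζ : ℂ} (hζ : ‖ζ‖ = 1) (u : ℂ) : ph k (ζ * u) = ζ ^ k * ph k u := by
  unfold ph
  rw [norm_mul, hζ, one_mul, mul_div_assoc, mul_zpow]

/-- the integral over a disc vanishes -/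
lemma integral_ph {k : ℤ} (hk : k ≠ 0) (R : ℝ) :
    ∫ u in Metric.closedBall (0 : ℂ) R, ph k u = 0 := by
  set a : Circle := Circle.exp (Real.pi / k) with ha
  have hak : ((a : ℂ)) ^ k = -1 := by
    rw [ha, Circle.coe_exp, ← Complex.exp_int_mul]
    have hk' : (k : ℂ) ≠ 0 := by exact_mod_cast hk
    have : (k : ℂ) * (((Real.pi / k : ℝ) : ℂ) * Complex.I) = Real.pi * Complex.I := by
      push_cast
      field_simp
    rw [this, Complex.exp_pi_mul_I]
  have hmp := (rotation a).measurePreserving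
  have hpre : (rotation a) ⁻¹' Metric.closedBall (0 : ℂ) R = Metric.closedBall (0 : ℂ) R := by
    ext u
    simp only [Set.mem_preimage, mem_closedBall_zero_iff, LinearIsometryEquiv.norm_map]
  have h := hmp.setIntegral_preimage_emb
    (rotation a).toHomeomorph.toMeasurableEquiv.measurableEmbedding (ph k)
    (Metric.closedBall (0 : ℂ) R)
  rw [hpre] at h
  have h2 : ∀ u, ph k ((rotation a) u) = -ph k u := by
    intro u
    rw [rotation_apply, ph_mul (Circle.norm_coe a), hak]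
    ring
  simp_rw [h2] at h
  rw [integral_neg] at h
  have h3 : (2 : ℂ) * ∫ u in Metric.closedBall (0 : ℂ) R, ph k u = 0 := by
    linear_combination -h
  exact (mul_eq_zero.1 h3).resolve_left two_ne_zero

/-- the class of `w` modulo `m` -/
def cond (m : ℕ) (w z : Gi) : Prop := (m : ℤ) ∣ z.re - w.re ∧ (m : ℤ) ∣ z.im - w.im

instance (m : ℕ) (w : Gi) : DecidablePred (cond m w) := fun z => by unfold cond; infer_instance

open CountM

lemma sq_disjoint {m : ℕ} {w z z' : Gi} (hz : cond m w z) (hz' : cond m w z')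
    (hne : z ≠ z') : Disjoint (sq m z) (sq m z') := by
  rw [Set.disjoint_left]
  rintro p ⟨⟨a1, a2⟩, a3, a4⟩ ⟨⟨b1, b2⟩, b3, b4⟩
  apply hne
  have key : ∀ a b c : ℤ, (m : ℤ) ∣ a - c → (m : ℤ) ∣ b - c → (a : ℝ) < b + m →
      (b : ℝ) < a + m → a = b := by
    intro a b c h1 h2 h3 h4
    have h5 : (m : ℤ) ∣ a - b := by
      have := dvd_sub h1 h2
      rwa [sub_sub_sub_cancel_right] at this
    have h3' : a < b + m := by exact_mod_cast h3
    have h4' : b < a + m := by exact_mod_cast h4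
    have := Int.eq_zero_of_abs_lt_dvd h5 (by rw [abs_lt]; constructor <;> omega)
    omega
  exact Zsqrtd.ext (key _ _ _ hz.1 hz'.1 (by linarith) (by linarith))
    (key _ _ _ hz.2 hz'.2 (by linarith) (by linarith))

lemma exists_cell {m : ℕ} (hm : 0 < m) (w : Gi) (p : ℂ) : ∃ z, cond m w z ∧ p ∈ sq m z := by
  have hm0 : (0 : ℝ) < m := by exact_mod_cast hm
  have key : ∀ (a : ℤ) (x : ℝ), ((a + m * ⌊(x - a) / m⌋ : ℤ) : ℝ) ≤ x ∧
      x < ((a + m * ⌊(x - a) / m⌋ : ℤ) : ℝ) + m := by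
    intro a x
    have h2 := Int.floor_le ((x - a) / (m : ℝ))
    have h3 := Int.lt_floor_add_one ((x - a) / (m : ℝ))
    rw [le_div_iff₀ hm0] at h2
    rw [div_lt_iff₀ hm0] at h3
    push_cast
    constructor <;> nlinarith
  refine ⟨⟨w.re + m * ⌊(p.re - w.re) / m⌋, w.im + m * ⌊(p.im - w.im) / m⌋⟩, ⟨?_, ?_⟩,
    key w.re p.re, key w.im p.im⟩
  · simp
  · simp

lemma volume_real_closedBall {R : ℝ} (hR : 0 ≤ R) :
    volume.real (Metric.closedBall (0 : ℂ) R) = R ^ 2 * Real.pi := by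
  have : volume (Metric.closedBall (0 : ℂ) R) = ENNReal.ofReal (R ^ 2 * Real.pi) := by
    rw [Complex.volume_closedBall, ENNReal.ofReal_mul (by positivity),
      ENNReal.ofReal_pow hR]
    congr 1
    rw [← NNReal.coe_real_pi, ENNReal.ofReal_coe_nnreal]
  rw [measureReal_def, this, ENNReal.toReal_ofReal (by positivity)]

lemma volume_real_sq (m : ℕ) (z : Gi) : volume.real (sq m z) = (m : ℝ) ^ 2 := by
  rw [measureReal_def, volume_sq, ENNReal.toReal_ofReal (by positivity)]

lemma integrableOn_ph {k : ℤ} (hk : k ≠ 0) {s : Set ℂ} (hs : volume s < ⊤) :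
    IntegrableOn (ph k) s :=
  Measure.integrableOn_of_bounded (M := 1) hs.ne (measurable_ph k).aestronglyMeasurable
    (Eventually.of_forall fun u => norm_ph_le hk u)

lemma num1 {m K r y x xn : ℝ} (hm : 1 ≤ m) (hK : 1 ≤ K) (hy : 1 ≤ y) (hr : r ≤ y)
    (hr0 : 0 ≤ r) (_hxn0 : 0 ≤ xn) (hxn : xn ≤ y) (hxy : x * xn = y) :
    8 * Real.pi * m * r + m ^ 2 * ((9 * x + 1) * (4 * K * m * xn) + (9 * r + 1) * 2) ≤
      m ^ 2 * ((200 * m) * K * y) := by
  have hpi := Real.pi_lt_four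
  have hpi0 := Real.pi_pos
  have hm0 : 0 < m := by linarith
  have hK0 : 0 < K := by linarith
  have hkm : 1 ≤ K * m := by
    have := mul_le_mul hK hm zero_le_one hK0.le
    linarith
  have a1 : (9 * x + 1) * (4 * K * m * xn) ≤ 40 * (K * m) * y := by
    have h1 : (9 * x + 1) * (4 * K * m * xn) = 4 * (K * m) * (9 * (x * xn) + xn) := by ring
    rw [h1, hxy]
    have h2 : 9 * y + xn ≤ 10 * y := by linarith
    have h3 := mul_le_mul_of_nonneg_left h2 (by positivity : 0 ≤ 4 * (K * m))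
    linarith
  have a2 : (9 * r + 1) * 2 ≤ 20 * (K * m) * y := by
    have h1 : y ≤ (K * m) * y := by
      have := mul_le_mul_of_nonneg_right hkm (by linarith : 0 ≤ y)
      linarith
    nlinarith
  have a3 : 8 * Real.pi * m * r ≤ m ^ 2 * (32 * (K * m) * y) := by
    have h1 : 8 * Real.pi * m * r ≤ 32 * (m * r) := by
      have h2 : Real.pi * (m * r) ≤ 4 * (m * r) :=
        mul_le_mul_of_nonneg_right hpi.le (by positivity)
      linarith
    have h2 : m * r ≤ m * y := mul_le_mul_of_nonneg_left hr hm0.le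
    have h3 : m * y ≤ m ^ 2 * ((K * m) * y) := by
      have h4 : 1 ≤ m * (K * m) := by
        have := mul_le_mul hm hkm zero_le_one hm0.le
        linarith
      have h5 : 1 * (m * y) ≤ (m * (K * m)) * (m * y) :=
        mul_le_mul_of_nonneg_right h4 (by positivity)
      calc m * y = 1 * (m * y) := by ring
        _ ≤ (m * (K * m)) * (m * y) := h5
        _ = _ := by ring
    linarith
  have a4 : m ^ 2 * ((9 * x + 1) * (4 * K * m * xn) + (9 * r + 1) * 2) ≤
      m ^ 2 * (60 * (K * m) * y) := mul_le_mul_of_nonneg_left (by linarith) (by positivity)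
  have a5 : 0 ≤ m ^ 2 * ((K * m) * y) := by positivity
  calc _ ≤ m ^ 2 * (32 * (K * m) * y) + m ^ 2 * (60 * (K * m) * y) := add_le_add a3 a4
    _ = 92 * (m ^ 2 * ((K * m) * y)) := by ring
    _ ≤ 200 * (m ^ 2 * ((K * m) * y)) := by linarith
    _ = _ := by ring

/-- comparison of the sum with the integral -/
lemma type_small_aux {m : ℕ} (hm : 0 < m) {k : ℤ} (hk : k ≠ 0) (w : Gi) {x : ℝ} (hx : 1 ≤ x)
    (hr : 2 * (m : ℝ) ≤ Real.sqrt x) :
    ‖∑ z ∈ (disc x).filter (cond m w), xi k z‖ ≤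
      (200 * m) * |(k : ℝ)| * x ^ (3 / 4 : ℝ) := by
  classical
  have hm1 : (1 : ℝ) ≤ m := by exact_mod_cast hm
  have hm0 : (0 : ℝ) < m := by linarith
  have hx0 : (0 : ℝ) ≤ x := by linarith
  set r := Real.sqrt x with hrdef
  have hr0 : 0 ≤ r := Real.sqrt_nonneg _
  have hr1 : 1 ≤ r := by rw [hrdef, Real.one_le_sqrt]; exact hx
  have hrx : r ^ 2 = x := Real.sq_sqrt hx0
  have hk1 : (1 : ℝ) ≤ |(k : ℝ)| := by
    have : (1 : ℤ) ≤ |k| := Int.one_le_abs hk
    exact_mod_cast this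
  set S := (disc x).filter (cond m w) with hS
  set S1 := (insert 0 (disc x)).filter (cond m w) with hS1
  have hmem : ∀ z, z ∈ S1 ↔ (nm z : ℝ) ≤ x ∧ cond m w z := by
    intro z
    rw [hS1, mem_filter, mem_insert, mem_disc]
    constructor
    · rintro ⟨rfl | h, h2⟩
      · exact ⟨by simpa using hx0, h2⟩
      · exact ⟨h.2, h2⟩
    · rintro ⟨h1, h2⟩
      by_cases hz : z = 0
      · exact ⟨Or.inl hz, h2⟩
      · exact ⟨Or.inr ⟨hz, h1⟩, h2⟩
  have hxi0 : xi k 0 = 0 := by
    rw [xi_eq_ph, map_zero, ph_zero hk]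
  have hsum : ∑ z ∈ S, xi k z = ∑ z ∈ S1, xi k z := by
    apply sum_subset (filter_subset_filter _ (subset_insert _ _))
    intro z hz hz'
    rw [mem_filter, mem_insert] at hz
    rw [mem_filter] at hz'
    have : z = 0 := by tauto
    rw [this, hxi0]
  have hS1card : (S1.card : ℝ) ≤ 9 * x + 1 := by
    have h1 : S1.card ≤ (disc x).card + 1 := (card_filter_le _ _).trans (card_insert_le _ _)
    have h2 : (S1.card : ℝ) ≤ (disc x).card + 1 := by exact_mod_cast h1
    linarith [card_disc_le hx0]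
  set U : Set ℂ := ⋃ z ∈ S1, sq m z with hU
  set B := Metric.closedBall (0 : ℂ) r with hB
  have hUm : MeasurableSet U := Finset.measurableSet_biUnion _ fun z _ => measurableSet_sq m z
  have hBm : MeasurableSet B := Metric.isClosed_closedBall.measurableSet
  have hUsub : U ⊆ Metric.closedBall (0 : ℂ) (r + 2 * m) := by
    intro p hp
    rw [hU, Set.mem_iUnion₂] at hp
    obtain ⟨z, hz, hpz⟩ := hp
    rw [mem_closedBall_zero_iff]
    have h2 := norm_sub_le hpz
    have h3 : ‖GaussianInt.toComplex z‖ ≤ r := by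
      rw [norm_toComplex]
      exact Real.sqrt_le_sqrt ((hmem z).1 hz).1
    calc ‖p‖ = ‖(p - GaussianInt.toComplex z) + GaussianInt.toComplex z‖ := by
          rw [sub_add_cancel]
      _ ≤ ‖p - GaussianInt.toComplex z‖ + ‖GaussianInt.toComplex z‖ := norm_add_le _ _
      _ ≤ r + 2 * m := by linarith
  have hsubU : Metric.closedBall (0 : ℂ) (r - 2 * m) ⊆ U := by
    intro p hp
    rw [mem_closedBall_zero_iff] at hp
    obtain ⟨z, hz, hpz⟩ := exists_cell hm w p
    rw [hU, Set.mem_iUnion₂]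
    refine ⟨z, (hmem z).2 ⟨?_, hz⟩, hpz⟩
    have h2 := norm_sub_le hpz
    have h3 : ‖GaussianInt.toComplex z‖ ≤ r := by
      calc ‖GaussianInt.toComplex z‖ = ‖p - (p - GaussianInt.toComplex z)‖ := by
            rw [sub_sub_cancel]
        _ ≤ ‖p‖ + ‖p - GaussianInt.toComplex z‖ := _root_.norm_sub_le _ _
        _ ≤ r := by linarith
    rw [← nm_toComplex, ← hrx]
    exact pow_le_pow_left₀ (norm_nonneg _) h3 2
  have hUfin : volume U < ⊤ := (measure_mono hUsub).trans_lt measure_closedBall_lt_top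
  have hBfin : volume B < ⊤ := measure_closedBall_lt_top
  -- the integral over `U`
  have hUint : ∫ u in U, ph k u = ∑ z ∈ S1, ∫ u in sq m z, ph k u := by
    apply integral_biUnion_finset
    · exact fun z _ => measurableSet_sq m z
    · intro z hz z' hz' hne
      exact sq_disjoint ((hmem z).1 hz).2 ((hmem z').1 hz').2 hne
    · intro z _
      apply integrableOn_ph hk
      rw [volume_sq]
      exact ENNReal.ofReal_lt_top
  have h1 : ‖∫ u in U, ph k u‖ ≤ 8 * Real.pi * m * r := by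
    have e1 := integral_inter_add_sdiff (μ := volume) (f := ph k) (s := U) (t := B) hBm
      (integrableOn_ph hk hUfin)
    have e2 := integral_inter_add_sdiff (μ := volume) (f := ph k) (s := B) (t := U) hUm
      (integrableOn_ph hk hBfin)
    rw [integral_ph hk] at e2
    rw [Set.inter_comm] at e2
    have e3 : ∫ u in U, ph k u = (∫ u in U \ B, ph k u) - ∫ u in B \ U, ph k u := by
      rw [← e1]
      linear_combination e2
    have n1 : ‖∫ u in U \ B, ph k u‖ ≤ 1 * volume.real (U \ B) :=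
      norm_setIntegral_le_of_norm_le_const
        ((measure_mono Set.sdiff_subset).trans_lt hUfin) fun u _ => norm_ph_le hk u
    have n2 : ‖∫ u in B \ U, ph k u‖ ≤ 1 * volume.real (B \ U) :=
      norm_setIntegral_le_of_norm_le_const
        ((measure_mono Set.sdiff_subset).trans_lt hBfin) fun u _ => norm_ph_le hk u
    have v1 : volume.real (U \ B) + r ^ 2 * Real.pi ≤ (r + 2 * m) ^ 2 * Real.pi := by
      rw [← volume_real_closedBall hr0, ← volume_real_closedBall (by positivity),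
        ← measureReal_union (by
          rw [Set.disjoint_left]
          exact fun u hu hu' => hu.2 hu') hBm ((measure_mono Set.sdiff_subset).trans_lt hUfin).ne
          hBfin.ne]
      apply measureReal_mono _ measure_closedBall_lt_top.ne
      apply Set.union_subset (Set.sdiff_subset.trans hUsub)
      exact Metric.closedBall_subset_closedBall (by linarith)
    have v2 : volume.real (B \ U) + (r - 2 * m) ^ 2 * Real.pi ≤ r ^ 2 * Real.pi := by
      rw [← volume_real_closedBall hr0, ← volume_real_closedBall (by linarith),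
        ← measureReal_union (by
          rw [Set.disjoint_left]
          exact fun u hu hu' => hu.2 (hsubU hu')) Metric.isClosed_closedBall.measurableSet
          ((measure_mono Set.sdiff_subset).trans_lt hBfin).ne
          measure_closedBall_lt_top.ne]
      apply measureReal_mono _ measure_closedBall_lt_top.ne
      apply Set.union_subset Set.sdiff_subset
      exact Metric.closedBall_subset_closedBall (by linarith)
    rw [e3]
    refine (_root_.norm_sub_le _ _).trans ?_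
    nlinarith
  -- comparison on each square
  have h2 : ∀ z ∈ S1, ‖(∫ u in sq m z, ph k u) - (m : ℂ) ^ 2 * xi k z‖ ≤
      (m : ℝ) ^ 2 * (if Real.sqrt x < (nm z : ℝ) then 4 * |(k : ℝ)| * m * x ^ (-(1 / 4) : ℝ)
        else 2) := by
    intro z hz
    have hfin : volume (sq m z) < ⊤ := by rw [volume_sq]; exact ENNReal.ofReal_lt_top
    have e1 : (m : ℂ) ^ 2 * xi k z = ∫ _ in sq m z, xi k z := by
      rw [setIntegral_const, volume_real_sq]
      rw [Complex.real_smul]
      push_cast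
      rfl
    rw [e1, ← integral_sub (integrableOn_ph hk hfin) (integrableOn_const hfin.ne)]
    rw [mul_comm, ← volume_real_sq m z]
    apply norm_setIntegral_le_of_norm_le_const hfin
    intro u hu
    split_ifs with hlt
    · have hz0 : z ≠ 0 := by
        rintro rfl
        rw [nm_zero] at hlt
        have := Real.sqrt_nonneg x
        push_cast at hlt
        linarith
      have hzn : x ^ (1 / 4 : ℝ) ≤ ‖GaussianInt.toComplex z‖ := by
        rw [norm_toComplex]
        apply Real.le_sqrt_of_sq_le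
        rw [← Real.rpow_natCast, ← Real.rpow_mul hx0]
        norm_num
        rw [Real.sqrt_eq_rpow] at hlt
        norm_num at hlt
        exact hlt.le
      have hxp : (0 : ℝ) < x ^ (1 / 4 : ℝ) := Real.rpow_pos_of_pos (by linarith) _
      rw [xi_eq_ph]
      refine (norm_ph_sub hk u (toComplex_ne_zero hz0)).trans ?_
      rw [Real.rpow_neg hx0, ← div_eq_mul_inv]
      have h5 := norm_sub_le hu
      apply div_le_div₀ (by positivity) _ hxp hzn
      nlinarith [abs_nonneg (k : ℝ)]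
    · refine (_root_.norm_sub_le _ _).trans ?_
      have a1 := norm_ph_le hk u
      have a2 : ‖xi k z‖ ≤ 1 := by rw [xi_eq_ph]; exact norm_ph_le hk _
      linarith
  have h3 : ∑ z ∈ S1, (if Real.sqrt x < (nm z : ℝ) then 4 * |(k : ℝ)| * m * x ^ (-(1 / 4) : ℝ)
        else (2 : ℝ)) ≤ (9 * x + 1) * (4 * |(k : ℝ)| * m * x ^ (-(1 / 4) : ℝ)) +
          (9 * Real.sqrt x + 1) * 2 := by
    rw [sum_ite, sum_const, sum_const, nsmul_eq_mul, nsmul_eq_mul]
    apply add_le_add
    · apply mul_le_mul_of_nonneg_right _ (by positivity)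
      refine le_trans ?_ hS1card
      exact_mod_cast card_filter_le _ _
    · apply mul_le_mul_of_nonneg_right _ (by norm_num)
      have hsub : S1.filter (fun z => ¬ Real.sqrt x < (nm z : ℝ)) ⊆
          insert 0 (disc (Real.sqrt x)) := by
        intro z hz
        rw [mem_filter] at hz
        rw [mem_insert, mem_disc]
        by_cases h0 : z = 0
        · exact Or.inl h0
        · exact Or.inr ⟨h0, not_lt.1 hz.2⟩
      have h4 : ((S1.filter (fun z => ¬ Real.sqrt x < (nm z : ℝ))).card : ℝ) ≤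
          (disc (Real.sqrt x)).card + 1 := by
        exact_mod_cast (card_le_card hsub).trans (card_insert_le _ _)
      linarith [card_disc_le hr0]
  have h4 : ‖(m : ℂ) ^ 2 * ∑ z ∈ S1, xi k z‖ ≤ 8 * Real.pi * m * r +
      (m : ℝ) ^ 2 * ((9 * x + 1) * (4 * |(k : ℝ)| * m * x ^ (-(1 / 4) : ℝ)) +
          (9 * Real.sqrt x + 1) * 2) := by
    have e1 : (m : ℂ) ^ 2 * ∑ z ∈ S1, xi k z = (∫ u in U, ph k u) -
        ∑ z ∈ S1, ((∫ u in sq m z, ph k u) - (m : ℂ) ^ 2 * xi k z) := by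
      rw [sum_sub_distrib, hUint, mul_sum]
      ring
    rw [e1]
    refine (_root_.norm_sub_le _ _).trans (add_le_add h1 ?_)
    refine (norm_sum_le _ _).trans ((sum_le_sum h2).trans ?_)
    rw [← mul_sum]
    exact mul_le_mul_of_nonneg_left h3 (by positivity)
  rw [norm_mul, norm_pow, Complex.norm_natCast] at h4
  rw [hsum]
  have hx34 : x * x ^ (-(1 / 4) : ℝ) = x ^ (3 / 4 : ℝ) := by
    nth_rewrite 1 [← Real.rpow_one x]
    rw [← Real.rpow_add (by linarith)]
    norm_num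
  have hr34 : r ≤ x ^ (3 / 4 : ℝ) := by
    rw [hrdef, Real.sqrt_eq_rpow]
    exact Real.rpow_le_rpow_of_exponent_le hx (by norm_num)
  have h34 : 1 ≤ x ^ (3 / 4 : ℝ) := Real.one_le_rpow hx (by norm_num)
  have hneg : x ^ (-(1 / 4) : ℝ) ≤ x ^ (3 / 4 : ℝ) :=
    Real.rpow_le_rpow_of_exponent_le hx (by norm_num)
  have h5 : (m : ℝ) ^ 2 * ‖∑ z ∈ S1, xi k z‖ ≤ (m : ℝ) ^ 2 * ((200 * m) * |(k : ℝ)| *
      x ^ (3 / 4 : ℝ)) := by
    refine h4.trans ?_
    exact num1 hm1 hk1 h34 hr34 hr0 (by positivity) hneg hx34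
  exact le_of_mul_le_mul_left h5 (by positivity)

/-- the bound for small frequencies -/
lemma type_small {m : ℕ} (hm : 0 < m) {k : ℤ} (hk : k ≠ 0) (w : Gi) {x : ℝ} (hx : 1 ≤ x) :
    ‖∑ z ∈ (disc x).filter (cond m w), xi k z‖ ≤
      (200 * m) * |(k : ℝ)| * x ^ (3 / 4 : ℝ) := by
  rcases le_or_gt (2 * (m : ℝ)) (Real.sqrt x) with h | h
  · exact type_small_aux hm hk w hx h
  · have hm1 : (1 : ℝ) ≤ m := by exact_mod_cast hm
    have hk1 : (1 : ℝ) ≤ |(k : ℝ)| := by
      have : (1 : ℤ) ≤ |k| := Int.one_le_abs hk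
      exact_mod_cast this
    have hx0 : (0 : ℝ) ≤ x := by linarith
    have h1 : ‖∑ z ∈ (disc x).filter (cond m w), xi k z‖ ≤ 9 * x := by
      refine (norm_sum_le _ _).trans ?_
      refine (sum_le_card_nsmul _ _ 1 fun z _ => ?_).trans ?_
      · rw [xi_eq_ph]; exact norm_ph_le hk _
      · rw [nsmul_eq_mul, mul_one]
        refine le_trans ?_ (card_disc_le hx0)
        exact_mod_cast card_filter_le _ _
    refine h1.trans ?_
    have h2 : x = Real.sqrt x * Real.sqrt x := (Real.mul_self_sqrt hx0).symm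
    have h3 : Real.sqrt x ≤ x ^ (3 / 4 : ℝ) := by
      rw [Real.sqrt_eq_rpow]
      exact Real.rpow_le_rpow_of_exponent_le hx (by norm_num)
    have h4 : 0 ≤ Real.sqrt x := Real.sqrt_nonneg _
    have h5 : x ≤ 2 * m * x ^ (3 / 4 : ℝ) := by
      rw [h2]
      exact mul_le_mul h.le (h2 ▸ h3) h4 (by positivity)
    have h6 : 0 ≤ x ^ (3 / 4 : ℝ) := by positivity
    have h7 : 1 * (m * x ^ (3 / 4 : ℝ)) ≤ |(k : ℝ)| * (m * x ^ (3 / 4 : ℝ)) :=
      mul_le_mul_of_nonneg_right hk1 (by positivity)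
    nlinarith

end TypeM

end Pool.Agent.Lib.MP391708.MR
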