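import Pool.Agent.Lib.MP_391708_nt.MR.TypeA

set_option autoImplicit false

namespace Pool.Agent.Lib.MP391708.MR

open Finset Filter Topology MeasureTheory
open scoped ComplexConjugate

namespace TypeM

lemma prod_ge {s : Multiset ℂ} {ε τ : ℝ} (hε : 0 < ε)
    (h : ∀ a ∈ s, ε ≤ |τ - a.re|) : ε ^ (Multiset.card s) ≤ ‖(s.map (fun a => (τ : ℂ) - a)).prod‖ := by
  induction s using Multiset.induction_on with
  | empty => simp
  | cons a s ih =>
    rw [Multiset.map_cons, Multiset.prod_cons, Multiset.card_cons, pow_succ, norm_mul, mul_comm]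
    apply mul_le_mul
    · have h1 := h a (Multiset.mem_cons_self a s)
      refine h1.trans ?_
      have := Complex.abs_re_le_norm ((τ : ℂ) - a)
      simpa using this
    · exact ih fun b hb => h b (Multiset.mem_cons_of_mem hb)
    · positivity
    · exact norm_nonneg _

/-- away from finitely many real points the imaginary part of `(τ + i)^q` is not small -/
lemma exists_lower (q : ℕ) (hq : 1 ≤ q) : ∃ (ρ : Finset ℝ) (c : ℝ) (d : ℕ), 0 < c ∧ c ≤ 1 ∧
    ∀ ε : ℝ, 0 < ε → ∀ τ : ℝ, (∀ r ∈ ρ, ε ≤ |τ - r|) →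
      c * ε ^ d ≤ |(((τ : ℂ) + Complex.I) ^ q).im| := by
  classical
  set p : Polynomial ℂ := (Polynomial.X + Polynomial.C Complex.I) ^ q -
    (Polynomial.X - Polynomial.C Complex.I) ^ q with hp
  have hev : ∀ z : ℂ, p.eval z = (z + Complex.I) ^ q - (z - Complex.I) ^ q := by
    intro z
    rw [hp]
    simp
  have hp0 : p ≠ 0 := by
    intro h
    have h1 := hev Complex.I
    rw [h] at h1
    simp only [Polynomial.eval_zero, sub_self] at h1
    rw [zero_pow (by omega), sub_zero] at h1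
    have h2 : (Complex.I + Complex.I) ^ q ≠ 0 := by
      apply pow_ne_zero
      rw [← two_mul]
      exact mul_ne_zero two_ne_zero Complex.I_ne_zero
    exact h2 h1.symm
  have hsp := IsAlgClosed.splits p
  have hlead : 0 < ‖p.leadingCoeff‖ := norm_pos_iff.2 (Polynomial.leadingCoeff_ne_zero.2 hp0)
  refine ⟨(p.roots.map Complex.re).toFinset, min 1 (‖p.leadingCoeff‖ / 2),
    Multiset.card p.roots, by positivity, min_le_left _ _, ?_⟩
  intro ε hε τ hτ
  have h1 : p.eval (τ : ℂ) = 2 * Complex.I * (((((τ : ℂ) + Complex.I) ^ q).im : ℝ) : ℂ) := by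
    rw [hev]
    have h2 : ((τ : ℂ) - Complex.I) ^ q = conj (((τ : ℂ) + Complex.I) ^ q) := by
      rw [map_pow, map_add, Complex.conj_ofReal, Complex.conj_I, sub_eq_add_neg]
    rw [h2]
    set w := ((τ : ℂ) + Complex.I) ^ q
    apply Complex.ext
    · simp
    · simp
      ring
  have h3 : ‖p.eval (τ : ℂ)‖ = 2 * |(((τ : ℂ) + Complex.I) ^ q).im| := by
    rw [h1, norm_mul, norm_mul, Complex.norm_real, Complex.norm_I, Real.norm_eq_abs]
    simp
  rw [hsp.eval_eq_prod_roots, norm_mul] at h3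
  have h4 := prod_ge (s := p.roots) (τ := τ) hε (fun a ha => hτ _ (by
    rw [Multiset.mem_toFinset]
    exact Multiset.mem_map_of_mem _ ha))
  have h5 : ‖p.leadingCoeff‖ * ε ^ (Multiset.card p.roots) ≤
      2 * |(((τ : ℂ) + Complex.I) ^ q).im| := by
    rw [← h3]
    exact mul_le_mul_of_nonneg_left h4 (norm_nonneg _)
  have h6 : min 1 (‖p.leadingCoeff‖ / 2) * ε ^ (Multiset.card p.roots) ≤
      ‖p.leadingCoeff‖ / 2 * ε ^ (Multiset.card p.roots) :=
    mul_le_mul_of_nonneg_right (min_le_right _ _) (by positivity)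
  linarith

/-- the derivatives of the arctangent -/
noncomputable def GG (m a b : ℝ) (n : ℕ) (t : ℝ) : ℂ :=
  (((-1) ^ (n - 1) * ((n - 1).factorial : ℝ) * m ^ n : ℝ) : ℂ) *
    (((a + m * t : ℝ) : ℂ) - (b : ℂ) * Complex.I) ^ (-(n : ℤ))

lemma GG_ne {m a b : ℝ} (hb : b ≠ 0) (t : ℝ) :
    ((a + m * t : ℝ) : ℂ) - (b : ℂ) * Complex.I ≠ 0 := by
  intro h
  have := congrArg Complex.im h
  simp at this
  exact hb this

lemma hasDerivAt_GG {m a b : ℝ} (hb : b ≠ 0) {n : ℕ} (hn : 1 ≤ n) (t : ℝ) :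
    HasDerivAt (GG m a b n) (GG m a b (n + 1) t) t := by
  have h1 : HasDerivAt (fun t : ℝ => ((a + m * t : ℝ) : ℂ) - (b : ℂ) * Complex.I) (m : ℂ) t := by
    have h2 : HasDerivAt (fun t : ℝ => a + m * t) m t := by
      simpa using ((hasDerivAt_id t).const_mul m).const_add a
    exact (h2.ofReal_comp).sub_const _
  have h3 := ((hasDerivAt_zpow (-(n : ℤ)) _ (Or.inl (GG_ne (a := a) (m := m) hb t))).hasFDerivAt.restrictScalars
    ℝ).comp_hasDerivAt t h1
  have h4 := h3.const_mul (((-1) ^ (n - 1) * ((n - 1).factorial : ℝ) * m ^ n : ℝ) : ℂ)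
  refine HasDerivAt.congr_deriv (f := GG m a b n) h4 ?_
  obtain ⟨j, rfl⟩ : ∃ j, n = j + 1 := ⟨n - 1, by omega⟩
  unfold GG
  simp only [Nat.add_sub_cancel]
  have e : (-((j + 1 + 1 : ℕ) : ℤ)) = -((j + 1 : ℕ) : ℤ) - 1 := by push_cast; ring
  rw [e]
  simp only [ContinuousLinearMap.coe_restrictScalars', ContinuousLinearMap.toSpanSingleton_apply,
    smul_eq_mul]
  set W := (((a + m * t : ℝ) : ℂ) - (b : ℂ) * Complex.I) ^ (-((j + 1 : ℕ) : ℤ) - 1)
  rw [Nat.factorial_succ]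
  push_cast
  ring

lemma hasDerivAt_arctan_line {m a b : ℝ} (hb : b ≠ 0) (t : ℝ) :
    HasDerivAt (fun t : ℝ => Real.arctan ((a + m * t) / b)) (GG m a b 1 t).im t := by
  have h2 : HasDerivAt (fun t : ℝ => (a + m * t) / b) (m / b) t := by
    simpa using (((hasDerivAt_id t).const_mul m).const_add a).div_const b
  refine (h2.arctan).congr_deriv ?_
  unfold GG
  simp only [Nat.sub_self, pow_zero, Nat.factorial_zero, Nat.cast_one, pow_one, one_mul,
    zpow_neg, zpow_one]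
  have hpos : 0 < (a + m * t) ^ 2 + b ^ 2 := by positivity
  rw [Complex.im_ofReal_mul, Complex.inv_im, Complex.normSq_apply]
  have e1 : (((a + m * t : ℝ) : ℂ) - (b : ℂ) * Complex.I).im = -b := by simp
  have e2 : (((a + m * t : ℝ) : ℂ) - (b : ℂ) * Complex.I).re = a + m * t := by simp
  rw [e1, e2]
  have h3 : (a + m * t) * (a + m * t) + -b * -b ≠ 0 := by nlinarith
  have h4 : 1 + ((a + m * t) / b) ^ 2 ≠ 0 := by positivity
  field_simp
  ring

lemma iteratedDeriv_arctan_line {m a b : ℝ} (hb : b ≠ 0) (n : ℕ) :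
    iteratedDeriv (n + 1) (fun t : ℝ => Real.arctan ((a + m * t) / b)) =
      fun t => (GG m a b (n + 1) t).im := by
  induction n with
  | zero =>
    rw [zero_add, iteratedDeriv_one]
    funext t
    exact (hasDerivAt_arctan_line hb t).deriv
  | succ n ih =>
    rw [iteratedDeriv_succ, ih]
    funext t
    exact (Complex.imCLM.hasFDerivAt.comp_hasDerivAt t (hasDerivAt_GG hb (by omega) t)).deriv

/-- the imaginary part in terms of `(τ + i)^q` -/
lemma GG_im {m a b : ℝ} (hb : 0 < b) {q : ℕ} (t : ℝ) :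
    (GG m a b q t).im = ((-1) ^ (q - 1) * ((q - 1).factorial : ℝ) * m ^ q) *
      (b ^ q / ((a + m * t) ^ 2 + b ^ 2) ^ q) *
        (((((a + m * t) / b : ℝ) : ℂ) + Complex.I) ^ q).im := by
  unfold GG
  set u := a + m * t with hu
  have hpos : 0 < u ^ 2 + b ^ 2 := by positivity
  have hpos' : ((u ^ 2 + b ^ 2 : ℝ) : ℂ) ≠ 0 := by exact_mod_cast hpos.ne'
  have hbc : (b : ℂ) ≠ 0 := by exact_mod_cast hb.ne'
  have e1 : ((u : ℂ) - (b : ℂ) * Complex.I) * ((u : ℂ) + (b : ℂ) * Complex.I) =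
      ((u ^ 2 + b ^ 2 : ℝ) : ℂ) := by
    push_cast
    linear_combination (-(b : ℂ) ^ 2) * Complex.I_sq
  have hne : ((u : ℂ) - (b : ℂ) * Complex.I) ≠ 0 := by
    intro h
    rw [h, zero_mul] at e1
    exact hpos' e1.symm
  have e2 : ((u : ℂ) - (b : ℂ) * Complex.I) ^ (-(q : ℤ)) =
      ((b ^ q / (u ^ 2 + b ^ 2) ^ q : ℝ) : ℂ) * (((u / b : ℝ) : ℂ) + Complex.I) ^ q := by
    have e3 : ((u : ℂ) - (b : ℂ) * Complex.I)⁻¹ =
        ((b / (u ^ 2 + b ^ 2) : ℝ) : ℂ) * (((u / b : ℝ) : ℂ) + Complex.I) := by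
      apply inv_eq_of_mul_eq_one_right
      have : ((b / (u ^ 2 + b ^ 2) : ℝ) : ℂ) * (((u / b : ℝ) : ℂ) + Complex.I) =
          ((u : ℂ) + (b : ℂ) * Complex.I) / ((u ^ 2 + b ^ 2 : ℝ) : ℂ) := by
        push_cast at hpos' ⊢
        field_simp
      rw [this, mul_div_assoc', e1, div_self hpos']
    rw [zpow_neg, zpow_natCast, ← inv_pow, e3, mul_pow]
    push_cast
    rw [div_pow]
  rw [e2, ← mul_assoc, ← Complex.ofReal_mul, Complex.im_ofReal_mul]

/-- the statement of van der Corput's test for a fixed order -/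
def VDCq (q : ℕ) (C : ℝ) : Prop := ∀ (L : ℕ) (lb R : ℝ) (F : ℝ → ℝ),
  1 ≤ L → 0 < lb → lb ≤ 1 → 1 ≤ R → ContDiff ℝ q F →
  ((∀ t ∈ Set.Icc (0 : ℝ) L, lb ≤ iteratedDeriv q F t ∧ iteratedDeriv q F t ≤ R * lb) ∨
    (∀ t ∈ Set.Icc (0 : ℝ) L, lb ≤ -iteratedDeriv q F t ∧ -iteratedDeriv q F t ≤ R * lb)) →
    ‖∑ n ∈ range L, Complex.exp (2 * Real.pi * Complex.I * (F n : ℂ))‖ ≤
      C * R * ((L : ℝ) * lb ^ ((1 : ℝ) / (2 ^ q - 2)) +
        (L : ℝ) ^ (1 - 2 / (2 : ℝ) ^ (q - 1)) * lb ^ (-(1 : ℝ) / (2 ^ q - 2)))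

/-- the phase on a horizontal line -/
noncomputable def FF (k : ℤ) (m a b : ℝ) (t : ℝ) : ℝ :=
  (-(k : ℝ) / (2 * Real.pi)) * Real.arctan ((a + m * t) / b)

lemma contDiff_FF (k : ℤ) (m a b : ℝ) (q : ℕ) : ContDiff ℝ q (FF k m a b) := by
  unfold FF
  apply contDiff_const.mul
  apply Real.contDiff_arctan.comp
  apply ContDiff.div_const
  exact contDiff_const.add (contDiff_const.mul contDiff_id)

lemma iteratedDeriv_FF (k : ℤ) {m a b : ℝ} (hb : b ≠ 0) {q : ℕ} (hq : 1 ≤ q) (t : ℝ) :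
    iteratedDeriv q (FF k m a b) t = (-(k : ℝ) / (2 * Real.pi)) * (GG m a b q t).im := by
  obtain ⟨n, rfl⟩ : ∃ n, q = n + 1 := ⟨q - 1, by omega⟩
  have h : FF k m a b = fun t => (-(k : ℝ) / (2 * Real.pi)) * Real.arctan ((a + m * t) / b) := rfl
  rw [h, iteratedDeriv_const_mul_field]
  rw [iteratedDeriv_arctan_line hb n]

lemma xi_line (k : ℤ) (a b : ℤ) (hb : 0 < b) :
    xi k ⟨a, b⟩ = Complex.I ^ k *
      Complex.exp (2 * Real.pi * Complex.I *
        (((-(k : ℝ) / (2 * Real.pi)) * Real.arctan ((a : ℝ) / b) : ℝ) : ℂ)) := by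
  have hbR : (0 : ℝ) < b := by exact_mod_cast hb
  set θ := Real.arctan ((a : ℝ) / b) with hθ
  have hdir : dir ⟨a, b⟩ = Complex.I * Complex.exp (-(θ * Complex.I)) := by
    have hs : Real.sqrt (1 + ((a : ℝ) / b) ^ 2) = Real.sqrt ((a : ℝ) ^ 2 + b ^ 2) / b := by
      rw [← Real.sqrt_sq hbR.le, ← Real.sqrt_div (by positivity), Real.sqrt_sq hbR.le]
      congr 1
      field_simp
      ring
    have hpos : 0 < Real.sqrt ((a : ℝ) ^ 2 + b ^ 2) := Real.sqrt_pos.2 (by positivity)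
    have hn : ‖GaussianInt.toComplex ⟨a, b⟩‖ = Real.sqrt ((a : ℝ) ^ 2 + b ^ 2) := by
      rw [norm_toComplex, nm_castR]
    have hcos : Real.cos θ = b / Real.sqrt ((a : ℝ) ^ 2 + b ^ 2) := by
      rw [hθ, Real.cos_arctan, hs, one_div_div]
    have hsin : Real.sin θ = a / Real.sqrt ((a : ℝ) ^ 2 + b ^ 2) := by
      rw [hθ, Real.sin_arctan, hs, div_div_div_cancel_right₀ hbR.ne']
    unfold dir
    rw [hn, ← neg_mul, ← Complex.ofReal_neg, Complex.exp_mul_I, ← Complex.ofReal_cos,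
      ← Complex.ofReal_sin, Real.cos_neg, Real.sin_neg, hcos, hsin, GaussianInt.toComplex_def]
    have hpc : ((Real.sqrt ((a : ℝ) ^ 2 + b ^ 2) : ℝ) : ℂ) ≠ 0 := by exact_mod_cast hpos.ne'
    push_cast
    field_simp
    linear_combination (a : ℂ) * Complex.I_sq
  unfold xi
  rw [hdir, mul_zpow, ← Complex.exp_int_mul]
  congr 2
  have hpi : (Real.pi : ℂ) ≠ 0 := by exact_mod_cast Real.pi_ne_zero
  push_cast
  field_simp

lemma sign_const {f : ℝ → ℝ} (hf : Continuous f) {L : ℝ} (h0 : ∀ t ∈ Set.Icc 0 L, f t ≠ 0) :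
    (∀ t ∈ Set.Icc 0 L, 0 < f t) ∨ (∀ t ∈ Set.Icc 0 L, f t < 0) := by
  by_contra hcon
  push Not at hcon
  obtain ⟨⟨t1, ht1, h1⟩, ⟨t2, ht2, h2⟩⟩ := hcon
  have hpre : IsPreconnected (Set.Icc 0 L) := isPreconnected_Icc
  have hmem := hpre.intermediate_value ht1 ht2 hf.continuousOn
  have h3 : (0 : ℝ) ∈ f '' Set.Icc 0 L := hmem ⟨h1, h2⟩
  obtain ⟨t, ht, ht0⟩ := h3
  exact h0 t ht ht0

/-- van der Corput on a horizontal line -/
lemma vdc_line {q : ℕ} (hq : 2 ≤ q) {Cq : ℝ} (hC : VDCq q Cq) {ρ : Finset ℝ} {c : ℝ} {d : ℕ}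
    (hc : 0 < c) (hc1 : c ≤ 1)
    (hρ : ∀ ε : ℝ, 0 < ε → ∀ τ : ℝ, (∀ r ∈ ρ, ε ≤ |τ - r|) →
      c * ε ^ d ≤ |(((τ : ℂ) + Complex.I) ^ q).im|)
    {m : ℕ} (hm : 0 < m) {k : ℤ} (hk : k ≠ 0) {s ε b a : ℝ} (hs : 1 ≤ s) (hε : 0 < ε)
    (hε1 : ε ≤ 1) (hb : ε * s ≤ b) {L : ℕ} (hL : 1 ≤ L)
    (hin : ∀ t ∈ Set.Icc (0 : ℝ) L, (a + m * t) ^ 2 + b ^ 2 ≤ s ^ 2 ∧
      ∀ r ∈ ρ, ε ≤ |(a + m * t) / b - r|)
    (hlb1 : |(k : ℝ)| / (2 * Real.pi) * ((q - 1).factorial : ℝ) * (m : ℝ) ^ q *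
      (c * ε ^ (d + q) / s ^ q) ≤ 1) :
    ‖∑ n ∈ range L, Complex.exp (2 * Real.pi * Complex.I * (FF k m a b n : ℂ))‖ ≤
      Cq * (1 / (c * ε ^ (d + 2 * q))) * ((L : ℝ) *
        (|(k : ℝ)| / (2 * Real.pi) * ((q - 1).factorial : ℝ) * (m : ℝ) ^ q *
          (c * ε ^ (d + q) / s ^ q)) ^ ((1 : ℝ) / (2 ^ q - 2)) +
        (L : ℝ) ^ (1 - 2 / (2 : ℝ) ^ (q - 1)) *
          (|(k : ℝ)| / (2 * Real.pi) * ((q - 1).factorial : ℝ) * (m : ℝ) ^ q *
          (c * ε ^ (d + q) / s ^ q)) ^ (-(1 : ℝ) / (2 ^ q - 2))) := by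
  have hs0 : 0 < s := by linarith
  have hb0 : 0 < b := lt_of_lt_of_le (by positivity) hb
  have hk0 : 0 < |(k : ℝ)| := abs_pos.2 (by exact_mod_cast hk)
  have hm0 : (0 : ℝ) < m := by exact_mod_cast hm
  set K := |(k : ℝ)| / (2 * Real.pi) * ((q - 1).factorial : ℝ) * (m : ℝ) ^ q with hK
  have hK0 : 0 < K := by
    have := Real.pi_pos
    positivity
  set P : ℝ → ℝ := fun t => ((((((a + m * t) / b : ℝ) : ℂ) + Complex.I)) ^ q).im with hP
  have hPc : Continuous P := by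
    rw [hP]
    apply Complex.continuous_im.comp
    apply Continuous.pow
    apply Continuous.add _ continuous_const
    apply Complex.continuous_ofReal.comp
    fun_prop
  have hPlow : ∀ t ∈ Set.Icc (0 : ℝ) L, c * ε ^ d ≤ |P t| := fun t ht => hρ ε hε _ (hin t ht).2
  have hD : ∀ t, iteratedDeriv q (FF k m a b) t =
      (-(k : ℝ) / (2 * Real.pi) * ((-1) ^ (q - 1))) * (((q - 1).factorial : ℝ) * (m : ℝ) ^ q *
        (b ^ q / ((a + m * t) ^ 2 + b ^ 2) ^ q) * P t) := by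
    intro t
    rw [iteratedDeriv_FF k hb0.ne' (by omega), GG_im hb0]
    ring
  have hPup : ∀ t, b ^ q / ((a + m * t) ^ 2 + b ^ 2) ^ q * |P t| ≤ 1 / b ^ q := by
    intro t
    set u := a + m * t with hu
    have hpos : 0 < u ^ 2 + b ^ 2 := by positivity
    have h1 : |P t| ≤ ‖(((u / b : ℝ) : ℂ) + Complex.I)‖ ^ q := by
      rw [← norm_pow]
      exact Complex.abs_im_le_norm _
    have h2 : ‖(((u / b : ℝ) : ℂ) + Complex.I)‖ ^ 2 = (u ^ 2 + b ^ 2) / b ^ 2 := by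
      rw [← Complex.normSq_eq_norm_sq, Complex.normSq_apply]
      simp
      field_simp
    have h3 : ‖(((u / b : ℝ) : ℂ) + Complex.I)‖ ≤ (u ^ 2 + b ^ 2) / b ^ 2 := by
      have h4 : 1 ≤ ‖(((u / b : ℝ) : ℂ) + Complex.I)‖ ^ 2 := by
        rw [h2, le_div_iff₀ (by positivity)]
        nlinarith [sq_nonneg u]
      have h5 : 1 ≤ ‖(((u / b : ℝ) : ℂ) + Complex.I)‖ := by
        by_contra hcon
        push Not at hcon
        nlinarith [norm_nonneg (((u / b : ℝ) : ℂ) + Complex.I)]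
      rw [← h2]
      nlinarith
    have h4 : |P t| ≤ ((u ^ 2 + b ^ 2) / b ^ 2) ^ q :=
      h1.trans (pow_le_pow_left₀ (norm_nonneg _) h3 q)
    calc b ^ q / (u ^ 2 + b ^ 2) ^ q * |P t| ≤
        b ^ q / (u ^ 2 + b ^ 2) ^ q * ((u ^ 2 + b ^ 2) / b ^ 2) ^ q :=
          mul_le_mul_of_nonneg_left h4 (by positivity)
      _ = 1 / b ^ q := by
        rw [div_pow, ← pow_mul]
        have : b ^ (2 * q) = b ^ q * b ^ q := by rw [← pow_add]; congr 1; omega
        rw [this]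
        field_simp
  have habs : ∀ t ∈ Set.Icc (0 : ℝ) L, K * (c * ε ^ (d + q) / s ^ q) ≤
      |iteratedDeriv q (FF k m a b) t| ∧ |iteratedDeriv q (FF k m a b) t| ≤
        1 / (c * ε ^ (d + 2 * q)) * (K * (c * ε ^ (d + q) / s ^ q)) := by
    intro t ht
    have hpos : 0 < (a + m * t) ^ 2 + b ^ 2 := by positivity
    have e1 : |iteratedDeriv q (FF k m a b) t| =
        K * (b ^ q / ((a + m * t) ^ 2 + b ^ 2) ^ q * |P t|) := by
      rw [hD t, abs_mul, abs_mul, abs_mul (((q - 1).factorial : ℝ) * (m : ℝ) ^ q *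
        (b ^ q / ((a + m * t) ^ 2 + b ^ 2) ^ q)), abs_div, abs_neg, abs_pow, abs_neg, abs_one,
        one_pow, mul_one, abs_of_pos (by positivity : 0 < 2 * Real.pi), hK,
        abs_of_nonneg (by positivity : 0 ≤ ((q - 1).factorial : ℝ) * (m : ℝ) ^ q *
        (b ^ q / ((a + m * t) ^ 2 + b ^ 2) ^ q))]
      ring
    rw [e1]
    constructor
    · apply mul_le_mul_of_nonneg_left _ hK0.le
      have h1 : (ε * s) ^ q / (s ^ 2) ^ q ≤ b ^ q / ((a + m * t) ^ 2 + b ^ 2) ^ q := by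
        apply div_le_div₀ (by positivity)
        · exact pow_le_pow_left₀ (by positivity) hb q
        · positivity
        · exact pow_le_pow_left₀ hpos.le (hin t ht).1 q
      calc c * ε ^ (d + q) / s ^ q = (ε * s) ^ q / (s ^ 2) ^ q * (c * ε ^ d) := by
            rw [mul_pow, ← pow_mul, two_mul, pow_add, pow_add]
            field_simp
        _ ≤ _ := mul_le_mul h1 (hPlow t ht) (by positivity) (by positivity)
    · have h1 : 1 / (c * ε ^ (d + 2 * q)) * (K * (c * ε ^ (d + q) / s ^ q)) =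
          K * (1 / (ε * s) ^ q) := by
        have : ε ^ (d + 2 * q) = ε ^ (d + q) * ε ^ q := by rw [← pow_add]; congr 1; omega
        rw [this, mul_pow]
        field_simp
      rw [h1]
      apply mul_le_mul_of_nonneg_left _ hK0.le
      refine (hPup t).trans ?_
      exact one_div_le_one_div_of_le (by positivity) (pow_le_pow_left₀ (by positivity) hb q)
  have hDc : Continuous (iteratedDeriv q (FF k m a b)) :=
    (contDiff_FF k m a b q).continuous_iteratedDeriv q le_rfl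
  have hlbpos : 0 < K * (c * ε ^ (d + q) / s ^ q) := by positivity
  have hsign := sign_const hDc (L := (L : ℝ)) (fun t ht h0 => by
    have := (habs t ht).1
    rw [h0, abs_zero] at this
    linarith)
  apply hC L _ _ _ hL hlbpos hlb1
  · rw [le_div_iff₀ (by positivity), one_mul]
    have : ε ^ (d + 2 * q) ≤ 1 := pow_le_one₀ hε.le hε1
    nlinarith
  · exact contDiff_FF k m a b q
  · rcases hsign with h | h
    · left
      intro t ht
      have := habs t ht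
      rwa [abs_of_pos (h t ht)] at this
    · right
      intro t ht
      have := habs t ht
      rwa [abs_of_neg (h t ht)] at this

end TypeM

end Pool.Agent.Lib.MP391708.MR
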