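import Pool.Agent.Lib.MP_391708_nt.MR.TypeC

set_option autoImplicit false

namespace Pool.Agent.Lib.MP391708.MR

open Finset Filter Topology MeasureTheory
open scoped ComplexConjugate

namespace TypeM

/-- trivial bound for a line -/
lemma line_trivial {k : ℤ} (hk : k ≠ 0) (m : ℕ) (w : Gi) {x s : ℝ} (b : ℤ) (hs : 1 ≤ s)
    (hx : x = s ^ 2) :
    ‖∑ z ∈ ((disc x).filter (cond m w)).filter (fun z => z.im = b), xi k z‖ ≤ 3 * s := by
  classical
  have hs0 : 0 < s := by linarith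
  set D := ((disc x).filter (cond m w)).filter (fun z => z.im = b) with hD
  have h1 : ‖∑ z ∈ D, xi k z‖ ≤ (D.card : ℝ) := by
    refine (norm_sum_le _ _).trans ?_
    refine (sum_le_card_nsmul _ _ 1 fun z _ => ?_).trans ?_
    · rw [xi_eq_ph]; exact norm_ph_le hk _
    · rw [nsmul_eq_mul, mul_one]
  refine h1.trans ?_
  have hinj : Set.InjOn (fun z : Gi => z.re) D := by
    intro z hz z' hz' h
    have e1 := (mem_filter.1 (mem_coe.1 hz)).2
    have e2 := (mem_filter.1 (mem_coe.1 hz')).2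
    exact Zsqrtd.ext h (e1.trans e2.symm)
  rw [← card_image_of_injOn hinj]
  refine (card_int_le _ (α := -s) (β := s) (by linarith) ?_).trans (by linarith)
  intro a ha
  rw [mem_image] at ha
  obtain ⟨z, hz, rfl⟩ := ha
  rw [hD, mem_filter, mem_filter, mem_disc, nm_castR, hx] at hz
  have := abs_le_of_sq_le_sq (by nlinarith [sq_nonneg (z.im : ℝ), hz.1.1.2] :
    (z.re : ℝ) ^ 2 ≤ s ^ 2) hs0.le
  exact abs_le.1 this

/-- the upper half plane -/
lemma upper_half {q : ℕ} (hq : 2 ≤ q) {Cq : ℝ} (hCq : 0 < Cq) (hC : VDCq q Cq) {ρ : Finset ℝ}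
    {c : ℝ} {d : ℕ} (hc : 0 < c) (hc1 : c ≤ 1)
    (hρ : ∀ ε : ℝ, 0 < ε → ∀ τ : ℝ, (∀ r ∈ ρ, ε ≤ |τ - r|) →
      c * ε ^ d ≤ |(((τ : ℂ) + Complex.I) ^ q).im|)
    {m : ℕ} (hm : 0 < m) (w : Gi) {k : ℤ} (hk : k ≠ 0) {x s ε : ℝ} (hs : 1 ≤ s)
    (hx : x = s ^ 2) (hε : 0 < ε)
    (hε1 : ε ≤ 1) (hlb1 : LB q d m c k ε s ≤ 1) :
    ‖∑ z ∈ ((disc x).filter (cond m w)).filter (fun z => 0 < z.im), xi k z‖ ≤
      3 * ε * s ^ 2 + s * ((ρ.card : ℝ) * (2 * ε * s + 1) +
        2 ^ ρ.card * BND q d m c Cq k ε s) := by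
  classical
  have hs0 : 0 < s := by linarith
  set H := ((disc x).filter (cond m w)).filter (fun z => 0 < z.im) with hH
  set B := (ρ.card : ℝ) * (2 * ε * s + 1) + 2 ^ ρ.card * BND q d m c Cq k ε s with hB
  have hBND0 : 0 ≤ BND q d m c Cq k ε s := by
    have hLB0 : 0 ≤ LB q d m c k ε s := by
      unfold LB
      have := Real.pi_pos
      positivity
    unfold BND
    positivity
  have hB0 : 0 ≤ B := by positivity
  have hmaps : ∀ z ∈ H, z.im ∈ Icc 1 ⌊s⌋ := by
    intro z hz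
    rw [hH, mem_filter, mem_filter, mem_disc, nm_castR, hx] at hz
    rw [mem_Icc]
    refine ⟨hz.2, Int.le_floor.2 ?_⟩
    have := abs_le_of_sq_le_sq (by nlinarith [sq_nonneg (z.re : ℝ), hz.1.1.2] :
      (z.im : ℝ) ^ 2 ≤ s ^ 2) hs0.le
    exact (abs_le.1 this).2
  rw [← sum_fiberwise_of_maps_to hmaps]
  refine (norm_sum_le _ _).trans ?_
  have h1 : ∀ b ∈ Icc 1 ⌊s⌋, ‖∑ z ∈ H.filter (fun z => z.im = b), xi k z‖ ≤
      (if (b : ℝ) < ε * s then 3 * s else 0) + B := by
    intro b hb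
    rw [mem_Icc] at hb
    have hbs : (b : ℝ) ≤ s := Int.le_floor.1 hb.2
    have e1 : H.filter (fun z => z.im = b) =
        ((disc x).filter (cond m w)).filter (fun z => z.im = b) := by
      ext z
      rw [hH]
      simp only [Finset.mem_filter (p := fun z : Gi => z.im = b),
        Finset.mem_filter (p := fun z : Gi => 0 < z.im)]
      constructor
      · rintro ⟨⟨h1, _⟩, h2⟩
        exact ⟨h1, h2⟩
      · rintro ⟨h1, h2⟩
        refine ⟨⟨h1, ?_⟩, h2⟩
        rw [h2]; omega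
    rw [e1]
    split_ifs with hlt
    · have := line_trivial hk m w b hs hx
      linarith
    · rw [zero_add]
      exact line_total hq hCq hC hc hc1 hρ hm w hk hs hx hε hε1 (not_lt.1 hlt) hbs hlb1
  refine (sum_le_sum h1).trans ?_
  rw [sum_add_distrib]
  have hcard : ((Icc 1 ⌊s⌋ : Finset ℤ).card : ℝ) ≤ s := by
    have := card_int_le (Icc 1 ⌊s⌋) (α := 1) (β := s) (by linarith) (by
      intro a ha
      rw [mem_Icc] at ha
      exact ⟨by exact_mod_cast ha.1, Int.le_floor.1 ha.2⟩)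
    linarith
  apply add_le_add
  · rw [← sum_filter, sum_const, nsmul_eq_mul]
    have : (((Icc 1 ⌊s⌋ : Finset ℤ).filter (fun b : ℤ => (b : ℝ) < ε * s)).card : ℝ) ≤ ε * s := by
      rcases lt_or_ge (ε * s) 1 with h | h
      · have : (Icc 1 ⌊s⌋ : Finset ℤ).filter (fun b : ℤ => (b : ℝ) < ε * s) = ∅ := by
          rw [eq_empty_iff_forall_notMem]
          intro a ha
          rw [mem_filter, mem_Icc] at ha
          have : (1 : ℝ) ≤ a := by exact_mod_cast ha.1.1
          linarith [ha.2]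
        rw [this]
        simp
        positivity
      · have := card_int_le ((Icc 1 ⌊s⌋ : Finset ℤ).filter (fun b : ℤ => (b : ℝ) < ε * s))
          (α := 1) (β := ε * s) (by linarith) (by
          intro a ha
          rw [mem_filter, mem_Icc] at ha
          exact ⟨by exact_mod_cast ha.1.1, ha.2.le⟩)
        linarith
    nlinarith
  · rw [sum_const, nsmul_eq_mul]
    exact mul_le_mul_of_nonneg_right hcard hB0

lemma xi_star (k : ℤ) (z : Gi) : xi k (star z) = conj (xi k z) := by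
  have h1 : GaussianInt.toComplex (star z) = conj (GaussianInt.toComplex z) := by
    rw [GaussianInt.toComplex_star]
  rw [xi_eq_ph, xi_eq_ph, h1]
  unfold ph
  rw [map_zpow₀, map_div₀, Complex.conj_ofReal, RCLike.norm_conj]

/-- the whole disc -/
lemma type_large {q : ℕ} (hq : 2 ≤ q) {Cq : ℝ} (hCq : 0 < Cq) (hC : VDCq q Cq) {ρ : Finset ℝ}
    {c : ℝ} {d : ℕ} (hc : 0 < c) (hc1 : c ≤ 1)
    (hρ : ∀ ε : ℝ, 0 < ε → ∀ τ : ℝ, (∀ r ∈ ρ, ε ≤ |τ - r|) →
      c * ε ^ d ≤ |(((τ : ℂ) + Complex.I) ^ q).im|)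
    {m : ℕ} (hm : 0 < m) (w : Gi) {k : ℤ} (hk : k ≠ 0) {x s ε : ℝ} (hs : 1 ≤ s)
    (hx : x = s ^ 2) (hε : 0 < ε)
    (hε1 : ε ≤ 1) (hlb1 : LB q d m c k ε s ≤ 1) :
    ‖∑ z ∈ (disc x).filter (cond m w), xi k z‖ ≤
      2 * (3 * ε * s ^ 2 + s * ((ρ.card : ℝ) * (2 * ε * s + 1) +
        2 ^ ρ.card * BND q d m c Cq k ε s)) + 3 * s := by
  classical
  set D := (disc x).filter (cond m w) with hD
  have hU := upper_half hq hCq hC hc hc1 hρ hm w hk hs hx hε hε1 hlb1
  have hU' := upper_half hq hCq hC hc hc1 hρ hm (star w) hk hs hx hε hε1 hlb1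
  have h0 := line_trivial hk m w 0 hs hx
  rw [← hD] at hU h0
  have hneg : ‖∑ z ∈ D.filter (fun z => z.im < 0), xi k z‖ ≤
      3 * ε * s ^ 2 + s * ((ρ.card : ℝ) * (2 * ε * s + 1) +
        2 ^ ρ.card * BND q d m c Cq k ε s) := by
    refine le_trans (le_of_eq ?_) hU'
    rw [← RCLike.norm_conj, map_sum]
    congr 1
    apply sum_nbij' (fun z => star z) (fun z => star z)
    · intro z hz
      rw [mem_filter, hD, mem_filter, mem_disc] at hz
      obtain ⟨⟨⟨h1, h2⟩, h3, h4⟩, h5⟩ := hz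
      rw [mem_filter, mem_filter, mem_disc]
      refine ⟨⟨⟨?_, ?_⟩, ?_, ?_⟩, ?_⟩
      · rwa [Ne, star_eq_zero]
      · rw [nm_castR] at h2 ⊢
        simpa using h2
      · simpa using h3
      · have : (star z).im - (star w).im = -(z.im - w.im) := by simp; ring
        rw [this, dvd_neg]
        exact h4
      · simpa using h5
    · intro z hz
      rw [mem_filter, mem_filter, mem_disc] at hz
      obtain ⟨⟨⟨h1, h2⟩, h3, h4⟩, h5⟩ := hz
      rw [mem_filter, hD, mem_filter, mem_disc]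
      refine ⟨⟨⟨?_, ?_⟩, ?_, ?_⟩, ?_⟩
      · rwa [Ne, star_eq_zero]
      · rw [nm_castR] at h2 ⊢
        simpa using h2
      · simpa using h3
      · have : (star z).im - w.im = -(z.im - (star w).im) := by simp; ring
        rw [this, dvd_neg]
        exact h4
      · simpa using h5
    · intro z _; exact star_star z
    · intro z _; exact star_star z
    · intro z _
      rw [xi_star k z]
  have hsplit : ∑ z ∈ D, xi k z = ∑ z ∈ D.filter (fun z => 0 < z.im), xi k z +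
      (∑ z ∈ D.filter (fun z => z.im = 0), xi k z + ∑ z ∈ D.filter (fun z => z.im < 0), xi k z) := by
    rw [← sum_filter_add_sum_filter_not D (fun z => 0 < z.im)]
    congr 1
    rw [← sum_filter_add_sum_filter_not (D.filter (fun z => ¬ 0 < z.im)) (fun z => z.im = 0)]
    congr 1
    · apply sum_congr _ fun _ _ => rfl
      ext z
      simp only [mem_filter]
      constructor
      · rintro ⟨⟨h1, _⟩, h2⟩; exact ⟨h1, h2⟩
      · rintro ⟨h1, h2⟩; exact ⟨⟨h1, by omega⟩, h2⟩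
    · apply sum_congr _ fun _ _ => rfl
      ext z
      simp only [mem_filter]
      constructor
      · rintro ⟨⟨h1, h3⟩, h2⟩; exact ⟨h1, by omega⟩
      · rintro ⟨h1, h2⟩; exact ⟨⟨h1, by omega⟩, by omega⟩
  rw [hsplit]
  have := norm_add₃_le (a := ∑ z ∈ D.filter (fun z => 0 < z.im), xi k z)
    (b := ∑ z ∈ D.filter (fun z => z.im = 0), xi k z)
    (c := ∑ z ∈ D.filter (fun z => z.im < 0), xi k z)
  rw [← add_assoc]
  linarith

end TypeM

end Pool.Agent.Lib.MP391708.MR
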